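import Mathlib

/-!
Absorption by disjoint translates (section 2 of the text).

For `x ∈ Ev j I c` the translates `x + k • vec c`, `k < K`, are in `V (j+1) I` (`h1`), and the sets
`Ev j I c + k • vec c`, `k < K`, are pairwise disjoint (`h2`), of the same measure (`measure_preimage_add_right`,
each translate is the preimage of `Ev` under `· - k • vec c`). So `K * ν (Ev j I c) ≤ ν (V (j+1) I)`.
With `M j = ∑ I, ν (V j I)` and `h3` integrated over `B` (the sets `V j I` are contained in `B`):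
`M j ≤ C0 * ν B + m0 * card β / K * M (j+1) ≤ C0 * ν B + M (j+1) / 2` for `j < J`, and `M J ≤ card α * ν B`.
-/

set_option autoImplicit false
open MeasureTheory
open scoped ENNReal

namespace Pool.Agent.H.MP_0cad2f_co.NT

theorem translates_le {E : Type*} [AddCommGroup E] [MeasurableSpace E] [MeasurableAdd₂ E]
    [MeasurableNeg E] (ν : Measure E) [ν.IsAddRightInvariant] {A V : Set E}
    (hA : MeasurableSet A) (K : ℕ) (v : E)
    (h1 : ∀ x ∈ A, ∀ k : ℕ, k < K → x + k • v ∈ V)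
    (h2 : ∀ x ∈ A, ∀ k : ℕ, 1 ≤ k → k < K → x + k • v ∉ A) :
    (K : ℝ≥0∞) * ν A ≤ ν V := by
  let T : ℕ → Set E := fun k => (fun x => x + (-(k • v))) ⁻¹' A
  have hTm : ∀ k, MeasurableSet (T k) := fun k => (measurable_add_const _) hA
  have hTm2 : ∀ k, ν (T k) = ν A := fun k => measure_preimage_add_right ν _ _
  have hTd : ∀ k l, k < l → l < K → Disjoint (T k) (T l) := by
    intro k l hkl hl
    rw [Set.disjoint_left]
    intro x hx hx'
    have hx1 : x + (-(k • v)) ∈ A := hx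
    have hx2 : x + (-(l • v)) ∈ A := hx'
    have h3 := h2 _ hx2 (l - k) (by omega) (by omega)
    apply h3
    have h4 : x + (-(l • v)) + (l - k) • v = x + (-(k • v)) := by
      have h5 : l • v = (l - k) • v + k • v := by
        rw [← add_nsmul]
        congr 1
        omega
      rw [h5]
      abel
    rw [h4]
    exact hx1
  have hsub : (⋃ k ∈ Finset.range K, T k) ⊆ V := by
    intro x hx
    rw [Set.mem_iUnion₂] at hx
    obtain ⟨k, hk, hx⟩ := hx
    have h3 := h1 _ hx k (Finset.mem_range.1 hk)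
    have h4 : x + (-(k • v)) + k • v = x := by abel
    rwa [h4] at h3
  have hdis : Set.PairwiseDisjoint (↑(Finset.range K)) T := by
    intro k hk l hl hkl
    have hk' : k < K := Finset.mem_range.1 (Finset.mem_coe.1 hk)
    have hl' : l < K := Finset.mem_range.1 (Finset.mem_coe.1 hl)
    rcases lt_or_gt_of_ne hkl with h | h
    · exact hTd k l h hl'
    · exact (hTd l k h hk').symm
  have h3 := measure_biUnion_finset (μ := ν) hdis (fun k _ => hTm k)
  calc (K : ℝ≥0∞) * ν A = ∑ k ∈ Finset.range K, ν (T k) := by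
        rw [Finset.sum_congr rfl fun k _ => hTm2 k, Finset.sum_const, Finset.card_range,
          nsmul_eq_mul]
    _ = ν (⋃ k ∈ Finset.range K, T k) := h3.symm
    _ ≤ ν V := measure_mono hsub

private theorem Absorb_step {E α β : Type*} [AddCommGroup E] [MeasurableSpace E]
    [MeasurableAdd₂ E] [MeasurableNeg E] (ν : Measure E) [ν.IsAddRightInvariant] [Fintype α]
    [Fintype β] {B : Set E} {V V' : α → Set E}
    {Ev : α → β → Set E} {v : β → E} {K m0 : ℕ} {C0 : ℝ≥0∞}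
    (hVm : ∀ I, MeasurableSet (V I)) (hEm : ∀ I c, MeasurableSet (Ev I c))
    (hBm : MeasurableSet B) (hV : ∀ I, V I ⊆ B)
    (h1 : ∀ I c, ∀ x ∈ Ev I c, ∀ k : ℕ, k < K → x + k • v c ∈ V' I)
    (h2 : ∀ I c, ∀ x ∈ Ev I c, ∀ k : ℕ, 1 ≤ k → k < K → x + k • v c ∉ Ev I c)
    (h3 : ∀ᵐ x ∂ν, x ∈ B → ∑ I, (V I).indicator (fun _ => (1 : ℝ≥0∞)) x ≤
      C0 + m0 * ∑ I, ∑ c, (Ev I c).indicator (fun _ => (1 : ℝ≥0∞)) x)
    (h4 : 2 * m0 * Fintype.card β ≤ K) (hK1 : 1 ≤ K) :
    ∑ I, ν (V I) ≤ C0 * ν B + (∑ I, ν (V' I)) / 2 := by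
  have hind : ∀ A : Set E, MeasurableSet A →
      ∫⁻ x in B, A.indicator (fun _ => (1 : ℝ≥0∞)) x ∂ν = ν (A ∩ B) := by
    intro A hA
    rw [lintegral_indicator hA, setLIntegral_const, one_mul, Measure.restrict_apply hA]
  have hA : ∑ I, ν (V I) ≤ C0 * ν B + m0 * ∑ I, ∑ c, ν (Ev I c) := by
    have hm1 : ∀ A : Set E, MeasurableSet A →
        Measurable fun x => A.indicator (fun _ => (1 : ℝ≥0∞)) x := fun A hA =>
      measurable_const.indicator hA
    have e1 : ∑ I, ν (V I) =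
        ∫⁻ x in B, ∑ I, (V I).indicator (fun _ => (1 : ℝ≥0∞)) x ∂ν := by
      rw [lintegral_finsetSum _ fun I _ => hm1 _ (hVm I)]
      refine Finset.sum_congr rfl fun I _ => ?_
      rw [hind _ (hVm I), Set.inter_eq_left.2 (hV I)]
    have e4 : Measurable fun x => ∑ I, ∑ c, (Ev I c).indicator (fun _ => (1 : ℝ≥0∞)) x :=
      Finset.measurable_sum _ fun I _ => Finset.measurable_sum _ fun c _ => hm1 _ (hEm I c)
    rw [e1]
    calc ∫⁻ x in B, ∑ I, (V I).indicator (fun _ => (1 : ℝ≥0∞)) x ∂ν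
        ≤ ∫⁻ x in B, (C0 + m0 * ∑ I, ∑ c, (Ev I c).indicator (fun _ => (1 : ℝ≥0∞)) x) ∂ν :=
          lintegral_mono_ae ((ae_restrict_iff' hBm).2 h3)
      _ = C0 * ν B + m0 * ∫⁻ x in B,
          ∑ I, ∑ c, (Ev I c).indicator (fun _ => (1 : ℝ≥0∞)) x ∂ν := by
          rw [lintegral_add_left measurable_const, lintegral_const, Measure.restrict_apply_univ,
            lintegral_const_mul _ e4]
      _ ≤ C0 * ν B + m0 * ∑ I, ∑ c, ν (Ev I c) := by
          refine add_le_add le_rfl (mul_le_mul_right ?_ _)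
          rw [lintegral_finsetSum _ fun I _ =>
            Finset.measurable_sum _ fun c _ => hm1 _ (hEm I c)]
          refine Finset.sum_le_sum fun I _ => ?_
          rw [lintegral_finsetSum _ fun c _ => hm1 _ (hEm I c)]
          refine Finset.sum_le_sum fun c _ => ?_
          rw [hind _ (hEm I c)]
          exact measure_mono Set.inter_subset_left
  refine hA.trans (add_le_add le_rfl ?_)
  have hE : ∀ I c, (K : ℝ≥0∞) * ν (Ev I c) ≤ ν (V' I) := fun I c =>
    translates_le ν (hEm I c) K (v c) (h1 I c) (h2 I c)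
  have hS : (K : ℝ≥0∞) * ∑ I, ∑ c, ν (Ev I c) ≤ Fintype.card β * ∑ I, ν (V' I) := by
    rw [Finset.mul_sum, Finset.mul_sum]
    refine Finset.sum_le_sum fun I _ => ?_
    rw [Finset.mul_sum]
    calc ∑ c : β, (K : ℝ≥0∞) * ν (Ev I c) ≤ ∑ _c : β, ν (V' I) :=
          Finset.sum_le_sum fun c _ => hE I c
      _ = Fintype.card β * ν (V' I) := by
          rw [Finset.sum_const, nsmul_eq_mul, Finset.card_univ]
  rw [ENNReal.le_div_iff_mul_le (Or.inl two_ne_zero) (Or.inl ENNReal.ofNat_ne_top)]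
  have hK0 : (K : ℝ≥0∞) ≠ 0 := by exact_mod_cast (Nat.one_le_iff_ne_zero.1 hK1)
  have hKt : (K : ℝ≥0∞) ≠ ⊤ := ENNReal.natCast_ne_top K
  have h4' : 2 * (m0 : ℝ≥0∞) * Fintype.card β ≤ K := by exact_mod_cast h4
  have h5 : (K : ℝ≥0∞) * (m0 * (∑ I, ∑ c, ν (Ev I c)) * 2) ≤
      (K : ℝ≥0∞) * ∑ I, ν (V' I) := by
    calc (K : ℝ≥0∞) * (m0 * (∑ I, ∑ c, ν (Ev I c)) * 2)
        = 2 * m0 * ((K : ℝ≥0∞) * ∑ I, ∑ c, ν (Ev I c)) := by ring
      _ ≤ 2 * m0 * (Fintype.card β * ∑ I, ν (V' I)) := mul_le_mul_right hS _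
      _ = (2 * m0 * Fintype.card β) * ∑ I, ν (V' I) := by ring
      _ ≤ (K : ℝ≥0∞) * ∑ I, ν (V' I) := mul_le_mul_left h4' _
  exact (ENNReal.mul_le_mul_iff_right hK0 hKt).1 h5

theorem absorb {E α β : Type*} [AddCommGroup E] [MeasurableSpace E] [MeasurableAdd₂ E]
    [MeasurableNeg E] (ν : Measure E) [ν.IsAddRightInvariant] [Fintype α] [Fintype β]
    (J K m0 : ℕ) (C0 : ℝ≥0∞) (V : ℕ → α → Set E) (Ev : ℕ → α → β → Set E) (B : Set E)
    (vec : β → E) (hB : MeasurableSet B) (hVm : ∀ j I, MeasurableSet (V j I))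
    (hEm : ∀ j I c, MeasurableSet (Ev j I c)) (hVB : ∀ j, j ≤ J → ∀ I, V j I ⊆ B)
    (h1 : ∀ j, j < J → ∀ I c, ∀ x ∈ Ev j I c, ∀ k : ℕ, k < K → x + k • vec c ∈ V (j + 1) I)
    (h2 : ∀ j, j < J → ∀ I c, ∀ x ∈ Ev j I c, ∀ k : ℕ, 1 ≤ k → k < K →
      x + k • vec c ∉ Ev j I c)
    (h3 : ∀ j, j < J → ∀ᵐ x ∂ν, x ∈ B →
      ∑ I, (V j I).indicator (fun _ => (1 : ℝ≥0∞)) x ≤
        C0 + m0 * ∑ I, ∑ c, (Ev j I c).indicator (fun _ => (1 : ℝ≥0∞)) x)
    (hK : 2 * m0 * Fintype.card β ≤ K) (hK1 : 1 ≤ K) :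
    ∑ I, ν (V 0 I) ≤ (2 * C0 + Fintype.card α / 2 ^ J) * ν B := by
  have key : ∀ i, i ≤ J → ∑ I, ν (V (J - i) I) ≤
      (2 * C0 + Fintype.card α / 2 ^ i) * ν B := by
    intro i
    induction i with
    | zero =>
      intro _
      rw [Nat.sub_zero, pow_zero, div_one]
      calc ∑ I, ν (V J I) ≤ ∑ _I : α, ν B :=
            Finset.sum_le_sum fun I _ => measure_mono (hVB J le_rfl I)
        _ = Fintype.card α * ν B := by
            rw [Finset.sum_const, nsmul_eq_mul, Finset.card_univ]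
        _ ≤ (2 * C0 + Fintype.card α) * ν B := mul_le_mul_left le_add_self _
    | succ i ih =>
      intro hi
      have hj : J - (i + 1) < J := by omega
      have hj' : J - (i + 1) + 1 = J - i := by omega
      have h5 := Absorb_step ν (hVm _) (hEm _) hB (hVB (J - (i + 1)) hj.le)
        (h1 _ hj) (h2 _ hj) (h3 _ hj) hK hK1
      rw [hj'] at h5
      refine h5.trans ?_
      have h7 : (∑ I, ν (V (J - i) I)) / 2 ≤
          ((2 * C0 + Fintype.card α / 2 ^ i) * ν B) / 2 :=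
        ENNReal.div_le_div_right (ih (by omega)) _
      refine (add_le_add le_rfl h7).trans (le_of_eq ?_)
      have h8 : ((Fintype.card α : ℝ≥0∞) / 2 ^ i) / 2 = Fintype.card α / 2 ^ (i + 1) := by
        rw [div_eq_mul_inv, div_eq_mul_inv, div_eq_mul_inv, pow_succ,
          ENNReal.mul_inv (Or.inr ENNReal.ofNat_ne_top) (Or.inr two_ne_zero), mul_assoc]
      rw [← h8]
      simp only [div_eq_mul_inv, add_mul]
      have h9 : 2 * C0 * ν B * 2⁻¹ = C0 * ν B := by
        calc 2 * C0 * ν B * 2⁻¹ = (2 * 2⁻¹) * (C0 * ν B) := by ring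
          _ = C0 * ν B := by
            rw [ENNReal.mul_inv_cancel two_ne_zero ENNReal.ofNat_ne_top, one_mul]
      rw [h9]
      ring
  have := key J le_rfl
  rwa [Nat.sub_self] at this

end Pool.Agent.H.MP_0cad2f_co.NT
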