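import Pool.Agent.H.MP_0cad2f_co.NT.Meas

/-!
Fat faces: measurability, closure, effect of the noise.

`measurableSet_deep`: the set `{a | Deep a S δ}` is closed: it is a finite intersection of projections of closed sets
`{(z, a) | closed conditions}` along a compact set of `z` (`z ⬝ᵥ z ≤ (1/δ)^2`): `IsClosedMap` of the projection
`K × Con → Con` for compact `K` (`isClosedMap_snd_of_compactSpace`).

`Deep.mono`: all conditions get weaker.

`Deep.sub`: `z' = z + ∑ m ∈ S0 \ S, η • f m`, `η = δ ^ 2 / (2 n)`, `f m` the vectors of `S0`. For `i ∈ S`: `a i ⬝ᵥ z' = 1`.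
For `i ∈ S0 \ S`: `a i ⬝ᵥ z' = 1 - η`. For `i ∉ S0` the slack changes by at most `n η / δ = δ / 2`. `‖z'‖ ≤ 1/δ + δ/2` (use
`dotProduct` and Cauchy-Schwarz, or `EuclideanSpace`), and `1/δ + δ/2 ≤ 4 n/δ^2`. The directions of `m ∈ S` are the same:
`a i ⬝ᵥ f m = 0` for `i ∈ S0 \ S`.

`Deep.mnz`: the rows of `S` do not change. The slack of `i ∉ S` at `z` does not change
(`(a m0 - a m) ⬝ᵥ z = 0`). `(a m0 - a m') ⬝ᵥ f m = 1` if `m = m' ≠ m0`, `0` if `m ≠ m'`, `m ≠ m0`, and `-1` if `m = m0`. So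
`a i ⬝ᵥ f m` changes by at most `n ε`.
-/

set_option autoImplicit false
open MeasureTheory ProbabilityTheory
open scoped ENNReal Classical

namespace Pool.Agent.H.MP_0cad2f_co.NT

variable {n d : ℕ} {a : Con n d} {S S0 : Finset (Fin n)} {δ δ' ε : ℝ}

private theorem DeepM_compact (r : ℝ) :
    IsCompact {z : Fin d → ℝ | z ⬝ᵥ z ≤ r ^ 2} := by
  have hc : IsClosed {z : Fin d → ℝ | z ⬝ᵥ z ≤ r ^ 2} :=
    isClosed_le (by unfold dotProduct; fun_prop) continuous_const
  refine IsCompact.of_isClosed_subset (isCompact_univ_pi fun _ : Fin d =>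
    (isCompact_Icc : IsCompact (Set.Icc (-|r|) |r|))) hc ?_
  intro z hz i _
  have h1 : z ⬝ᵥ z ≤ r ^ 2 := hz
  have h2 : z i * z i ≤ z ⬝ᵥ z :=
    Finset.single_le_sum (f := fun j => z j * z j) (fun j _ => mul_self_nonneg _)
      (Finset.mem_univ i)
  have h3 : |z i| ≤ |r| := by
    rw [← sq_le_sq]
    nlinarith
  exact abs_le.1 h3

private theorem DeepM_closed (r : ℝ) {P : Set ((Fin d → ℝ) × Con n d)} (hP : IsClosed P) :
    IsClosed {a : Con n d | ∃ z : Fin d → ℝ, z ⬝ᵥ z ≤ r ^ 2 ∧ (z, a) ∈ P} := by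
  have : CompactSpace {z : Fin d → ℝ | z ⬝ᵥ z ≤ r ^ 2} :=
    isCompact_iff_compactSpace.1 (DeepM_compact r)
  have h1 : IsClosed {p : {z : Fin d → ℝ | z ⬝ᵥ z ≤ r ^ 2} × Con n d | (p.1.1, p.2) ∈ P} :=
    hP.preimage ((continuous_subtype_val.comp continuous_fst).prodMk continuous_snd)
  have h2 := isClosedMap_snd_of_compactSpace _ h1
  convert h2 using 1
  ext a
  constructor
  · rintro ⟨z, hz, hza⟩
    exact ⟨(⟨z, hz⟩, a), hza, rfl⟩
  · rintro ⟨⟨⟨z, hz⟩, a'⟩, hza, rfl⟩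
    exact ⟨z, hz, hza⟩

private theorem DeepM_cont (i : Fin n) :
    Continuous fun p : (Fin d → ℝ) × Con n d => p.2 i ⬝ᵥ p.1 := by
  unfold dotProduct
  fun_prop

theorem measurableSet_deep (S : Finset (Fin n)) {δ : ℝ} (hδ : 0 < δ) :
    MeasurableSet {a : Con n d | Deep a S δ} := by
  have h1 : {a : Con n d | Deep a S δ} =
      {a | ∃ z : Fin d → ℝ, z ⬝ᵥ z ≤ (1 / δ) ^ 2 ∧ (z, a) ∈
        {p : (Fin d → ℝ) × Con n d | (∀ i ∈ S, p.2 i ⬝ᵥ p.1 = 1) ∧
          ∀ i, i ∉ S → δ ≤ sl p.2 i p.1 ∧ sl p.2 i p.1 ≤ 1 / δ}} ∩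
      ⋂ m ∈ S, {a | ∃ z : Fin d → ℝ, z ⬝ᵥ z ≤ (1 / δ) ^ 2 ∧ (z, a) ∈
        {p : (Fin d → ℝ) × Con n d | (∀ i ∈ S, i ≠ m → p.2 i ⬝ᵥ p.1 = 0) ∧
          p.2 m ⬝ᵥ p.1 = -1 ∧ ∀ i, i ∉ S → |p.2 i ⬝ᵥ p.1| ≤ 1 / δ}} := by
    ext a
    rw [Set.mem_inter_iff, Set.mem_iInter₂]
    constructor
    · intro h
      exact ⟨h.pt, fun m hm => h.dir m hm⟩
    · intro h
      exact ⟨h.1, fun m hm => h.2 m hm⟩
  rw [h1]
  have hsl : ∀ i, Continuous fun p : (Fin d → ℝ) × Con n d => sl p.2 i p.1 := fun i =>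
    continuous_const.sub (DeepM_cont i)
  refine (IsClosed.inter (DeepM_closed _ ?_) ?_).measurableSet
  · refine IsClosed.inter ?_ ?_
    · have : {p : (Fin d → ℝ) × Con n d | ∀ i ∈ S, p.2 i ⬝ᵥ p.1 = 1} =
          ⋂ i ∈ S, {p : (Fin d → ℝ) × Con n d | p.2 i ⬝ᵥ p.1 = 1} := by
        ext p
        rw [Set.mem_iInter₂]
        rfl
      have h2 : IsClosed {p : (Fin d → ℝ) × Con n d | ∀ i ∈ S, p.2 i ⬝ᵥ p.1 = 1} := by
        rw [this]
        exact isClosed_iInter fun i => isClosed_iInter fun _ =>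
          isClosed_eq (DeepM_cont i) continuous_const
      exact h2
    · have : {p : (Fin d → ℝ) × Con n d | ∀ i, i ∉ S → δ ≤ sl p.2 i p.1 ∧
          sl p.2 i p.1 ≤ 1 / δ} =
          ⋂ i, ⋂ _ : i ∉ S, {p : (Fin d → ℝ) × Con n d | δ ≤ sl p.2 i p.1 ∧
          sl p.2 i p.1 ≤ 1 / δ} := by
        ext p
        rw [Set.mem_iInter₂]
        rfl
      have h2 : IsClosed {p : (Fin d → ℝ) × Con n d | ∀ i, i ∉ S → δ ≤ sl p.2 i p.1 ∧
          sl p.2 i p.1 ≤ 1 / δ} := by
        rw [this]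
        exact isClosed_iInter fun i => isClosed_iInter fun _ =>
          (isClosed_le continuous_const (hsl i)).inter (isClosed_le (hsl i) continuous_const)
      exact h2
  · refine isClosed_iInter fun m => isClosed_iInter fun _ => DeepM_closed _ ?_
    refine IsClosed.inter ?_ (IsClosed.inter ?_ ?_)
    · have : {p : (Fin d → ℝ) × Con n d | ∀ i ∈ S, i ≠ m → p.2 i ⬝ᵥ p.1 = 0} =
          ⋂ i ∈ S, {p : (Fin d → ℝ) × Con n d | i ≠ m → p.2 i ⬝ᵥ p.1 = 0} := by
        ext p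
        rw [Set.mem_iInter₂]
        rfl
      have h2 : IsClosed {p : (Fin d → ℝ) × Con n d | ∀ i ∈ S, i ≠ m → p.2 i ⬝ᵥ p.1 = 0} := by
        rw [this]
        refine isClosed_iInter fun i => isClosed_iInter fun _ => ?_
        by_cases him : i = m
        · have : {p : (Fin d → ℝ) × Con n d | i ≠ m → p.2 i ⬝ᵥ p.1 = 0} = Set.univ := by
            ext p
            simp only [Set.mem_univ, iff_true]
            intro h
            exact absurd him h
          rw [this]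
          exact isClosed_univ
        · have : {p : (Fin d → ℝ) × Con n d | i ≠ m → p.2 i ⬝ᵥ p.1 = 0} =
              {p | p.2 i ⬝ᵥ p.1 = 0} := by
            ext p
            constructor
            · intro h
              exact h him
            · intro h _
              exact h
          rw [this]
          exact isClosed_eq (DeepM_cont i) continuous_const
      exact h2
    · exact isClosed_eq (DeepM_cont m) continuous_const
    · have : {p : (Fin d → ℝ) × Con n d | ∀ i, i ∉ S → |p.2 i ⬝ᵥ p.1| ≤ 1 / δ} =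
          ⋂ i, ⋂ _ : i ∉ S, {p : (Fin d → ℝ) × Con n d | |p.2 i ⬝ᵥ p.1| ≤ 1 / δ} := by
        ext p
        rw [Set.mem_iInter₂]
        rfl
      have h2 : IsClosed {p : (Fin d → ℝ) × Con n d | ∀ i, i ∉ S →
          |p.2 i ⬝ᵥ p.1| ≤ 1 / δ} := by
        rw [this]
        exact isClosed_iInter fun i => isClosed_iInter fun _ =>
          isClosed_le (DeepM_cont i).abs continuous_const
      exact h2

theorem Deep.mono (h : Deep a S δ) (h0 : 0 < δ') (h1 : δ' ≤ δ) : Deep a S δ' := by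
  have h2 : 1 / δ ≤ 1 / δ' := one_div_le_one_div_of_le h0 h1
  have h3 : 0 < 1 / δ := one_div_pos.2 (h0.trans_le h1)
  have h4 : (1 / δ) ^ 2 ≤ (1 / δ') ^ 2 := pow_le_pow_left₀ h3.le h2 2
  constructor
  · obtain ⟨z, hz, hz1, hz2⟩ := h.pt
    exact ⟨z, hz.trans h4, hz1, fun i hi => ⟨h1.trans (hz2 i hi).1, (hz2 i hi).2.trans h2⟩⟩
  · intro m hm
    obtain ⟨f, hf, hf1, hf2, hf3⟩ := h.dir m hm
    exact ⟨f, hf.trans h4, hf1, hf2, fun i hi => (hf3 i hi).trans h2⟩

private theorem DeepM_sum (M : Finset (Fin n)) (v : Fin n → Fin d → ℝ) :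
    (∑ m ∈ M, v m) ⬝ᵥ (∑ m ∈ M, v m) ≤ M.card * ∑ m ∈ M, v m ⬝ᵥ v m := by
  unfold dotProduct
  rw [Finset.sum_comm, Finset.mul_sum]
  refine Finset.sum_le_sum fun j _ => ?_
  have h1 := sq_sum_le_card_mul_sum_sq (s := M) (f := fun m => v m j)
  rw [Finset.sum_apply, ← sq]
  refine h1.trans (le_of_eq ?_)
  congr 1
  exact Finset.sum_congr rfl fun m _ => by rw [sq]

private theorem DeepM_add (x y : Fin d → ℝ) :
    (x + y) ⬝ᵥ (x + y) ≤ 2 * (x ⬝ᵥ x) + 2 * (y ⬝ᵥ y) := by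
  unfold dotProduct
  rw [Finset.mul_sum, Finset.mul_sum, ← Finset.sum_add_distrib]
  refine Finset.sum_le_sum fun j _ => ?_
  rw [Pi.add_apply]
  nlinarith [sq_nonneg (x j - y j)]

theorem Deep.sub (h : Deep a S0 δ) (hS : S ⊆ S0) (hn : 1 ≤ n) (h0 : 0 < δ) (h1 : δ ≤ 1) :
    Deep a S (δ ^ 2 / (4 * n)) := by
  have hn' : (1 : ℝ) ≤ n := by exact_mod_cast hn
  have hn0 : (0 : ℝ) < n := by linarith
  obtain ⟨z, hz, hz1, hz2⟩ := h.pt
  choose! f hf hf1 hf2 hf3 using h.dir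
  set η : ℝ := δ ^ 2 / (2 * n) with hη
  have hη0 : 0 < η := by positivity
  have hηn : η * n = δ ^ 2 / 2 := by
    rw [hη]
    field_simp
  have hb : 1 / (δ ^ 2 / (4 * n)) = 4 * n / δ ^ 2 := by
    rw [one_div_div]
  have hb1 : 2 / δ ≤ 4 * n / δ ^ 2 := by
    rw [div_le_div_iff₀ h0 (by positivity)]
    nlinarith [mul_pos h0 h0, mul_nonneg (mul_pos h0 h0).le (by linarith : (0:ℝ) ≤ n - 1),
      mul_nonneg h0.le (by linarith : (0:ℝ) ≤ 1 - δ), mul_nonneg h0.le (by linarith : (0:ℝ) ≤ n - 1)]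
  have hd1 : 1 ≤ 1 / δ := by
    rw [le_div_iff₀ h0]
    linarith
  have hd2 : 1 / δ ≤ 2 / δ := by
    gcongr
    norm_num
  have hd3 : 1 / δ + δ / 2 ≤ 2 / δ := by
    have : 2 / δ = 1 / δ + 1 / δ := by ring
    rw [this]
    linarith
  set M : Finset (Fin n) := S0 \ S with hM
  have hMc : (M.card : ℝ) ≤ n := by
    have : M.card ≤ n := by
      have := Finset.card_le_univ M
      rwa [Fintype.card_fin] at this
    exact_mod_cast this
  set y : Fin d → ℝ := ∑ m ∈ M, η • f m with hy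
  have hdoty : ∀ i, a i ⬝ᵥ y = ∑ m ∈ M, η * (a i ⬝ᵥ f m) := by
    intro i
    rw [hy, dotProduct_sum]
    exact Finset.sum_congr rfl fun m _ => by rw [dotProduct_smul, smul_eq_mul]
  have hyy : y ⬝ᵥ y ≤ δ ^ 2 / 4 := by
    refine (DeepM_sum M fun m => η • f m).trans ?_
    have h2 : ∑ m ∈ M, (η • f m) ⬝ᵥ (η • f m) ≤ ∑ _m ∈ M, η ^ 2 * (1 / δ) ^ 2 := by
      refine Finset.sum_le_sum fun m hm => ?_
      rw [smul_dotProduct, dotProduct_smul, smul_eq_mul, smul_eq_mul, ← mul_assoc, ← sq]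
      exact mul_le_mul_of_nonneg_left (hf m (Finset.mem_sdiff.1 hm).1) (sq_nonneg _)
    rw [Finset.sum_const, nsmul_eq_mul] at h2
    calc (M.card : ℝ) * ∑ m ∈ M, (η • f m) ⬝ᵥ (η • f m)
        ≤ M.card * (M.card * (η ^ 2 * (1 / δ) ^ 2)) :=
          mul_le_mul_of_nonneg_left h2 (Nat.cast_nonneg _)
      _ ≤ n * (n * (η ^ 2 * (1 / δ) ^ 2)) := by
          have h3 : 0 ≤ η ^ 2 * (1 / δ) ^ 2 := by positivity
          exact mul_le_mul hMc (mul_le_mul_of_nonneg_right hMc h3) (by positivity) hn0.le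
      _ = (η * n) ^ 2 * (1 / δ) ^ 2 := by ring
      _ = δ ^ 2 / 4 := by
          rw [hηn]
          field_simp
          ring
  constructor
  · refine ⟨z + y, ?_, ?_, ?_⟩
    · refine (DeepM_add z y).trans ?_
      rw [hb]
      have h2 : 2 * (z ⬝ᵥ z) + 2 * (y ⬝ᵥ y) ≤ (2 / δ) ^ 2 := by
        have h3 : (2 / δ) ^ 2 = 4 * (1 / δ) ^ 2 := by ring
        rw [h3]
        have h4 : 1 ≤ (1 / δ) ^ 2 := one_le_pow₀ hd1
        have h5 : δ ^ 2 ≤ 1 := pow_le_one₀ h0.le h1
        nlinarith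
      exact h2.trans (pow_le_pow_left₀ (by positivity) hb1 2)
    · intro i hi
      rw [dotProduct_add, hz1 i (hS hi), hdoty]
      rw [Finset.sum_eq_zero, add_zero]
      intro m hm
      have hm' := Finset.mem_sdiff.1 hm
      rw [hf1 m hm'.1 i (hS hi) (fun h => hm'.2 (h ▸ hi)), mul_zero]
    · intro i hi
      have hsl : sl a i (z + y) = sl a i z - a i ⬝ᵥ y := by
        rw [sl, sl, dotProduct_add]
        ring
      by_cases hi0 : i ∈ S0
      · have h2 : a i ⬝ᵥ y = -η := by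
          rw [hdoty, Finset.sum_eq_single i]
          · rw [hf2 i hi0]
            ring
          · intro m hm hmi
            rw [hf1 m (Finset.mem_sdiff.1 hm).1 i hi0 (Ne.symm hmi), mul_zero]
          · intro h
            exact absurd (Finset.mem_sdiff.2 ⟨hi0, hi⟩) h
        have h3 : sl a i z = 0 := by rw [sl, hz1 i hi0, sub_self]
        rw [hsl, h2, h3, hb]
        have h4 : η ≤ 1 := by
          rw [hη, div_le_one (by positivity)]
          nlinarith [pow_le_one₀ h0.le h1 (n := 2)]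
        constructor
        · rw [zero_sub, neg_neg, hη]
          exact div_le_div_of_nonneg_left (sq_nonneg _) (by positivity) (by linarith)
        · rw [zero_sub, neg_neg]
          linarith
      · have h2 : |a i ⬝ᵥ y| ≤ δ / 2 := by
          rw [hdoty]
          calc |∑ m ∈ M, η * (a i ⬝ᵥ f m)| ≤ ∑ m ∈ M, |η * (a i ⬝ᵥ f m)| :=
                Finset.abs_sum_le_sum_abs _ _
            _ ≤ ∑ _m ∈ M, η * (1 / δ) := by
                refine Finset.sum_le_sum fun m hm => ?_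
                rw [abs_mul, abs_of_pos hη0]
                exact mul_le_mul_of_nonneg_left (hf3 m (Finset.mem_sdiff.1 hm).1 i hi0) hη0.le
            _ = M.card * (η * (1 / δ)) := by rw [Finset.sum_const, nsmul_eq_mul]
            _ ≤ n * (η * (1 / δ)) := mul_le_mul_of_nonneg_right hMc (by positivity)
            _ = (η * n) * (1 / δ) := by ring
            _ = δ / 2 := by
                rw [hηn]
                field_simp
        have h3 := hz2 i hi0
        have h4 := abs_le.1 h2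
        rw [hsl, hb]
        constructor
        · have h5 : δ ^ 2 / (4 * n) ≤ δ / 2 := by
            rw [div_le_div_iff₀ (by positivity) (by norm_num)]
            nlinarith [mul_nonneg h0.le (by linarith : (0:ℝ) ≤ 1 - δ),
              mul_nonneg h0.le (by linarith : (0:ℝ) ≤ n - 1)]
          linarith
        · linarith
  · intro m hm
    refine ⟨f m, ?_, ?_, ?_, ?_⟩
    · rw [hb]
      exact (hf m (hS hm)).trans (pow_le_pow_left₀ (by positivity) (hd2.trans hb1) 2)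
    · intro i hi him
      exact hf1 m (hS hm) i (hS hi) him
    · exact hf2 m (hS hm)
    · intro i hi
      rw [hb]
      by_cases hi0 : i ∈ S0
      · rw [hf1 m (hS hm) i hi0 (fun h => hi (h ▸ hm)), abs_zero]
        positivity
      · exact (hf3 m (hS hm) i hi0).trans (hd2.trans hb1)

/-- if the configuration with noise is deep, the configuration without noise is -/
theorem Deep.of_mnz {m0 : Fin n} (hm0 : m0 ∈ S) {q : Fin n → Wt n} (hq : ∀ m, q m ∈ cube n 0)
    (h : Deep (mnz a S m0 ε q) S δ) (h0 : 0 < δ) (h1 : δ ≤ 1) (hε : 0 ≤ ε) (hε1 : ε * n ≤ 1) :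
    Deep a S (δ / 2) := by
  have hin : ∀ i ∈ S, mnz a S m0 ε q i = a i := fun i hi => by
    rw [mnz, if_pos hi]
  have hout : ∀ i, i ∉ S → ∀ x : Fin d → ℝ, mnz a S m0 ε q i ⬝ᵥ x = a i ⬝ᵥ x +
      ∑ m ∈ S.erase m0, (ε * (q m i - 1)) * (a m0 ⬝ᵥ x - a m ⬝ᵥ x) := by
    intro i hi x
    rw [mnz, if_neg hi, add_dotProduct, sum_dotProduct]
    congr 1
    exact Finset.sum_congr rfl fun m _ => by rw [smul_dotProduct, smul_eq_mul, sub_dotProduct]
  have hd1 : 1 ≤ 1 / δ := by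
    rw [le_div_iff₀ h0]
    linarith
  have hb : 1 / (δ / 2) = 1 / δ + 1 / δ := by
    rw [one_div_div]
    ring
  have hb1 : 1 / δ ≤ 1 / (δ / 2) := by
    rw [hb]
    linarith
  have hsq : (1 / δ) ^ 2 ≤ (1 / (δ / 2)) ^ 2 := pow_le_pow_left₀ (by positivity) hb1 2
  constructor
  · obtain ⟨z, hz, hz1, hz2⟩ := h.pt
    have hz1' : ∀ i ∈ S, a i ⬝ᵥ z = 1 := fun i hi => by
      have := hz1 i hi
      rwa [hin i hi] at this
    refine ⟨z, hz.trans hsq, hz1', ?_⟩
    intro i hi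
    have h2 := hz2 i hi
    have h3 : sl (mnz a S m0 ε q) i z = sl a i z := by
      rw [sl, sl, hout i hi, Finset.sum_eq_zero, add_zero]
      intro m hm
      rw [hz1' m0 hm0, hz1' m (Finset.mem_of_mem_erase hm), sub_self, mul_zero]
    rw [h3] at h2
    exact ⟨by linarith [h2.1], h2.2.trans hb1⟩
  · intro m hm
    obtain ⟨f, hf, hf1, hf2, hf3⟩ := h.dir m hm
    have hf1' : ∀ i ∈ S, i ≠ m → a i ⬝ᵥ f = 0 := fun i hi him => by
      have := hf1 i hi him
      rwa [hin i hi] at this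
    have hf2' : a m ⬝ᵥ f = -1 := by rwa [hin m hm] at hf2
    refine ⟨f, hf.trans hsq, hf1', hf2', ?_⟩
    intro i hi
    have h2 := hf3 i hi
    rw [hout i hi] at h2
    have hval : ∀ k ∈ S, a k ⬝ᵥ f = 0 ∨ a k ⬝ᵥ f = -1 := by
      intro k hk
      by_cases hkm : k = m
      · right
        rw [hkm, hf2']
      · left
        exact hf1' k hk hkm
    have h3 : |∑ m' ∈ S.erase m0, (ε * (q m' i - 1)) * (a m0 ⬝ᵥ f - a m' ⬝ᵥ f)| ≤ 1 := by
      calc |∑ m' ∈ S.erase m0, (ε * (q m' i - 1)) * (a m0 ⬝ᵥ f - a m' ⬝ᵥ f)|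
          ≤ ∑ m' ∈ S.erase m0, |(ε * (q m' i - 1)) * (a m0 ⬝ᵥ f - a m' ⬝ᵥ f)| :=
            Finset.abs_sum_le_sum_abs _ _
        _ ≤ ∑ _m' ∈ S.erase m0, ε := by
            refine Finset.sum_le_sum fun m' hm' => ?_
            have hq' := hq m' i (Set.mem_univ i)
            have hq1 : 1 - (0 : ℝ) ≤ q m' i := hq'.1
            have hq2 : q m' i ≤ 2 + 0 := hq'.2
            rw [abs_mul, abs_of_nonneg (mul_nonneg hε (by linarith))]
            have h4 : |a m0 ⬝ᵥ f - a m' ⬝ᵥ f| ≤ 1 := by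
              rcases hval m0 hm0 with h5 | h5 <;>
                rcases hval m' (Finset.mem_of_mem_erase hm') with h6 | h6 <;>
                rw [h5, h6] <;> norm_num
            calc ε * (q m' i - 1) * |a m0 ⬝ᵥ f - a m' ⬝ᵥ f|
                ≤ ε * (q m' i - 1) * 1 :=
                  mul_le_mul_of_nonneg_left h4 (mul_nonneg hε (by linarith))
              _ ≤ ε := by nlinarith
        _ = (S.erase m0).card * ε := by rw [Finset.sum_const, nsmul_eq_mul]
        _ ≤ n * ε := by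
            refine mul_le_mul_of_nonneg_right ?_ hε
            have h5 := Finset.card_le_univ (S.erase m0)
            rw [Fintype.card_fin] at h5
            exact_mod_cast h5
        _ ≤ 1 := by linarith
    rw [hb]
    have h4 := abs_le.1 h2
    have h5 := abs_le.1 h3
    rw [abs_le]
    constructor <;> linarith

end Pool.Agent.H.MP_0cad2f_co.NT
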