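import Pool.Agent.H.MP_0cad2f_co.NT.Meas

/-!
Almost all weights are generic (for a fixed regular configuration).

Everything reduces to: for a linear functional `f w = ∑ c i * w i` with some `c i ≠ 0` the set `{w | f w = b}` is null
(a proper affine subspace: `Measure.addHaar_affineSubspace`, or Fubini in the coordinate `i`), finite unions.

`nv_ae`: the multiplier `cv a (κ * w) ⬝ᵥ du a I i` is linear in `w`, the coefficient of `w i` is `κ i`.

`gen1_ae`: `w0 = update (κ * w) m 0`, `v = single m (-1)`, `β i = cv a v ⬝ᵥ du a I i = - a m ⬝ᵥ du a I i`. Let `i ≠ j` be in `I \ T`. If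
`i, j ≠ m`: a common zero `τ` implies `μ i * β j = μ j * β i`; this is a linear condition on `w`, with the coefficients `κ i * β j`
of `w i` and `- κ j * β i` of `w j`; if both vanish (`β i = β j = 0`) then `μ i = 0`, a proper condition. If `j = m`: `m ∈ I`, so
`β i = 0` and `μ i = 0`, a proper condition (`i ≠ m`). Second part: `i ≠ m`: `μ i = 0` is proper; `i = m`: `β m = -1`.

`gen2_ae`: `v = κ * w' - w0`; `μ i (τ) = (1 - τ) (cv a w0 ⬝ᵥ du i) + τ (cv a (κ * w') ⬝ᵥ du i)`. A common zero of `i ≠ j` implies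
`μ0 i * μ1 j = μ0 j * μ1 i` with `μ0 i ≠ 0` (`hnv`): a linear condition on `w'` in which `w' j` has the coefficient `μ0 i * κ j ≠ 0`
(`μ1 i` does not contain `w' j`). Second part: `μ0 i ≠ 0`.
-/

set_option autoImplicit false
open MeasureTheory ProbabilityTheory
open scoped ENNReal Classical

namespace Pool.Agent.H.MP_0cad2f_co.NT

variable {n d : ℕ} {a : Con n d} {T : Finset (Fin n)} {m : Fin n} {κ w0 : Wt n}

/-- the multiplier as a linear functional of the weights -/
private noncomputable def GenAE_mu (a : Con n d) (I : Finset (Fin n)) (i : Fin n) :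
    Wt n →ₗ[ℝ] ℝ where
  toFun w := cv a w ⬝ᵥ du a I i
  map_add' x y := by
    rw [← add_dotProduct]
    congr 1
    unfold cv
    rw [← Finset.sum_add_distrib]
    exact Finset.sum_congr rfl fun k _ => by rw [Pi.add_apply, add_smul]
  map_smul' t x := by
    rw [RingHom.id_apply, ← smul_dotProduct]
    congr 1
    unfold cv
    rw [Finset.smul_sum]
    exact Finset.sum_congr rfl fun k _ => by rw [Pi.smul_apply, smul_eq_mul, mul_smul]

private theorem GenAE_mu_apply (a : Con n d) (I : Finset (Fin n)) (i : Fin n) (w : Wt n) :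
    cv a w ⬝ᵥ du a I i = GenAE_mu a I i w := rfl

private theorem GenAE_mu_single (a : Con n d) (I : Finset (Fin n)) (i k : Fin n) (t : ℝ) :
    GenAE_mu a I i (Pi.single k t) = t * (a k ⬝ᵥ du a I i) := by
  rw [← GenAE_mu_apply]
  have h : cv a (Pi.single k t) = t • a k := by
    unfold cv
    rw [Finset.sum_eq_single k]
    · rw [Pi.single_eq_same]
    · intro j _ hj
      rw [Pi.single_eq_of_ne hj, zero_smul]
    · intro h
      exact absurd (Finset.mem_univ k) h
  rw [h, smul_dotProduct, smul_eq_mul]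

/-- the zero set of a nonzero functional is null -/
private theorem GenAE_lin (f : Wt n →ₗ[ℝ] ℝ) {x : Wt n} (hx : f x ≠ 0) :
    ∀ᵐ w : Wt n, f w ≠ 0 := by
  have h1 : LinearMap.ker f ≠ ⊤ := by
    intro h
    have h2 : x ∈ LinearMap.ker f := by
      rw [h]
      exact Submodule.mem_top
    exact hx (LinearMap.mem_ker.1 h2)
  have h2 := Measure.addHaar_submodule (volume : Measure (Wt n)) (LinearMap.ker f) h1
  rw [ae_iff]
  have h3 : {w : Wt n | ¬ f w ≠ 0} = (LinearMap.ker f : Set (Wt n)) := by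
    ext w
    simp
  rw [h3]
  exact h2

private theorem GenAE_mul_single (κ : Wt n) (i : Fin n) :
    κ * (Pi.single i (1 : ℝ) : Wt n) = Pi.single i (κ i) := by
  funext k
  by_cases hk : k = i
  · subst hk
    simp
  · simp [hk]

theorem nv_ae (hr : Reg0 a) (hκ : ∀ i, 0 < κ i) : ∀ᵐ w : Wt n, NV a (κ * w) := by
  unfold NV
  rw [ae_all_iff]
  intro I
  by_cases hI : I.card = d
  · have h : ∀ᵐ w : Wt n, ∀ i : Fin n, i ∈ I → cv a (κ * w) ⬝ᵥ du a I i ≠ 0 := by
      rw [ae_all_iff]
      intro i
      by_cases hi : i ∈ I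
      · have h1 : ((GenAE_mu a I i) ∘ₗ LinearMap.mulLeft ℝ κ) (Pi.single i 1) ≠ 0 := by
          rw [LinearMap.comp_apply, LinearMap.mulLeft_apply, GenAE_mul_single, GenAE_mu_single,
            du_self (hr I hI).1 hi, mul_one]
          exact (hκ i).ne'
        filter_upwards [GenAE_lin _ h1] with w hw _
        exact hw
      · exact Filter.Eventually.of_forall fun w h => absurd h hi
    filter_upwards [h] with w hw _
    exact hw
  · exact Filter.Eventually.of_forall fun w h => absurd h hI

/-- erasing the coordinate `m` -/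
private noncomputable def GenAE_er (m : Fin n) : Wt n →ₗ[ℝ] Wt n where
  toFun w := Function.update w m 0
  map_add' x y := by
    funext k
    by_cases hk : k = m
    · subst hk
      simp
    · simp [hk]
  map_smul' t x := by
    funext k
    by_cases hk : k = m
    · subst hk
      simp
    · simp [hk]

private theorem GenAE_er_single {m i : Fin n} (h : i ≠ m) (t : ℝ) :
    GenAE_er m (Pi.single i t) = Pi.single i t := by
  funext k
  show Function.update (Pi.single i t : Wt n) m 0 k = _
  by_cases hk : k = m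
  · subst hk
    simp [h]
  · simp [hk]

theorem gen1_ae (hr : Reg0 a) (hκ : ∀ i, 0 < κ i) (hm : m ∉ T) :
    ∀ᵐ w : Wt n, Gen a T (Function.update (κ * w) m 0) (Pi.single m (-1)) := by
  have hA : ∀ᵐ w : Wt n, ∀ (I : Finset (Fin n)) (i : Fin n), I.card = d → i ∈ I → i ≠ m →
      GenAE_mu a I i (Function.update (κ * w) m 0) ≠ 0 := by
    rw [ae_all_iff]
    intro I
    rw [ae_all_iff]
    intro i
    by_cases h : I.card = d ∧ i ∈ I ∧ i ≠ m
    · obtain ⟨hI, hi, him⟩ := h
      have h1 : ((GenAE_mu a I i) ∘ₗ GenAE_er m ∘ₗ LinearMap.mulLeft ℝ κ) (Pi.single i 1) ≠ 0 := by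
        rw [LinearMap.comp_apply, LinearMap.comp_apply, LinearMap.mulLeft_apply,
          GenAE_mul_single, GenAE_er_single him, GenAE_mu_single, du_self (hr I hI).1 hi, mul_one]
        exact (hκ i).ne'
      filter_upwards [GenAE_lin _ h1] with w hw _ _ _
      exact hw
    · exact Filter.Eventually.of_forall fun w h1 h2 h3 => absurd ⟨h1, h2, h3⟩ h
  have hB : ∀ᵐ w : Wt n, ∀ (I : Finset (Fin n)) (i j : Fin n), I.card = d → i ∈ I → j ∈ I →
      i ≠ j → i ≠ m → GenAE_mu a I j (Pi.single m (-1)) ≠ 0 →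
      GenAE_mu a I i (Function.update (κ * w) m 0) * GenAE_mu a I j (Pi.single m (-1)) -
        GenAE_mu a I j (Function.update (κ * w) m 0) * GenAE_mu a I i (Pi.single m (-1)) ≠ 0 := by
    rw [ae_all_iff]
    intro I
    rw [ae_all_iff]
    intro i
    rw [ae_all_iff]
    intro j
    by_cases h : I.card = d ∧ i ∈ I ∧ j ∈ I ∧ i ≠ j ∧ i ≠ m ∧
        GenAE_mu a I j (Pi.single m (-1)) ≠ 0
    · obtain ⟨hI, hi, hj, hij, him, hβ⟩ := h
      have h1 : (((GenAE_mu a I j (Pi.single m (-1))) •
          ((GenAE_mu a I i) ∘ₗ GenAE_er m ∘ₗ LinearMap.mulLeft ℝ κ)) -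
          ((GenAE_mu a I i (Pi.single m (-1))) •
          ((GenAE_mu a I j) ∘ₗ GenAE_er m ∘ₗ LinearMap.mulLeft ℝ κ))) (Pi.single i 1) ≠ 0 := by
        rw [LinearMap.sub_apply, LinearMap.smul_apply, LinearMap.smul_apply,
          LinearMap.comp_apply, LinearMap.comp_apply, LinearMap.comp_apply, LinearMap.comp_apply,
          LinearMap.mulLeft_apply, GenAE_mul_single, GenAE_er_single him, GenAE_mu_single a I i i,
          GenAE_mu_single a I j i, du_self (hr I hI).1 hi, du_ne (hr I hI).1 hi hj hij]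
        rw [mul_zero, smul_zero, sub_zero, mul_one, smul_eq_mul]
        exact mul_ne_zero hβ (hκ i).ne'
      filter_upwards [GenAE_lin _ h1] with w hw _ _ _ _ _ _
      intro h2
      apply hw
      rw [← h2]
      show GenAE_mu a I j (Pi.single m (-1)) * GenAE_mu a I i (Function.update (κ * w) m 0) -
        GenAE_mu a I i (Pi.single m (-1)) * GenAE_mu a I j (Function.update (κ * w) m 0) = _
      ring
    · exact Filter.Eventually.of_forall fun w h1 h2 h3 h4 h5 h6 =>
        absurd ⟨h1, h2, h3, h4, h5, h6⟩ h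
  filter_upwards [hA, hB] with w hA hB
  intro I hI _
  have key : ∀ i ∈ I, ∀ j ∈ I, i ≠ j → i ≠ m → ∀ τ : ℝ,
      ¬ (GenAE_mu a I i (Function.update (κ * w) m 0) +
          τ * GenAE_mu a I i (Pi.single m (-1)) = 0 ∧
        GenAE_mu a I j (Function.update (κ * w) m 0) +
          τ * GenAE_mu a I j (Pi.single m (-1)) = 0) := by
    rintro i hi j hj hij him τ ⟨h1, h2⟩
    by_cases hβ : GenAE_mu a I j (Pi.single m (-1)) = 0
    · by_cases hjm : j = m
      · -- the coefficient of `m` is `-1`
        rw [hjm, GenAE_mu_single, du_self (hr I hI).1 (hjm ▸ hj)] at hβ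
        norm_num at hβ
      · rw [hβ, mul_zero, add_zero] at h2
        exact hA I j hI hj hjm h2
    · refine hB I i j hI hi hj hij him hβ ?_
      rw [eq_neg_of_add_eq_zero_left h1, eq_neg_of_add_eq_zero_left h2]
      ring
  refine ⟨?_, ?_⟩
  · intro i hi _ j hj _ hij τ
    rw [GenAE_mu_apply, GenAE_mu_apply, map_add, map_add, map_smul, map_smul, smul_eq_mul,
      smul_eq_mul]
    by_cases him : i = m
    · have hjm : j ≠ m := fun h => hij (him.trans h.symm)
      intro h
      exact key j hj i hi hij.symm hjm τ ⟨h.2, h.1⟩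
    · exact key i hi j hj hij him τ
  · intro i hi _
    rw [GenAE_mu_apply, GenAE_mu_apply]
    by_cases him : i = m
    · subst him
      rintro ⟨-, h⟩
      rw [GenAE_mu_single, du_self (hr I hI).1 hi] at h
      norm_num at h
    · rintro ⟨h, -⟩
      exact hA I i hI hi him h

theorem gen2_ae (hr : Reg0 a) (hκ : ∀ i, 0 < κ i) (hnv : NV a w0) :
    ∀ᵐ w' : Wt n, Gen a T w0 (κ * w' - w0) := by
  have hB : ∀ᵐ w : Wt n, ∀ (I : Finset (Fin n)) (i j : Fin n), I.card = d → i ∈ I → j ∈ I →
      i ≠ j → GenAE_mu a I i w0 * GenAE_mu a I j (κ * w) -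
        GenAE_mu a I j w0 * GenAE_mu a I i (κ * w) ≠ 0 := by
    rw [ae_all_iff]
    intro I
    rw [ae_all_iff]
    intro i
    rw [ae_all_iff]
    intro j
    by_cases h : I.card = d ∧ i ∈ I ∧ j ∈ I ∧ i ≠ j
    · obtain ⟨hI, hi, hj, hij⟩ := h
      have h1 : (((GenAE_mu a I i w0) • ((GenAE_mu a I j) ∘ₗ LinearMap.mulLeft ℝ κ)) -
          ((GenAE_mu a I j w0) • ((GenAE_mu a I i) ∘ₗ LinearMap.mulLeft ℝ κ)))
            (Pi.single j 1) ≠ 0 := by
        rw [LinearMap.sub_apply, LinearMap.smul_apply, LinearMap.smul_apply,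
          LinearMap.comp_apply, LinearMap.comp_apply,
          LinearMap.mulLeft_apply, GenAE_mul_single, GenAE_mu_single a I j j,
          GenAE_mu_single a I i j, du_self (hr I hI).1 hj, du_ne (hr I hI).1 hj hi hij.symm]
        rw [mul_zero, smul_zero, sub_zero, mul_one, smul_eq_mul]
        exact mul_ne_zero (hnv I hI i hi) (hκ j).ne'
      filter_upwards [GenAE_lin _ h1] with w hw _ _ _ _
      exact hw
    · exact Filter.Eventually.of_forall fun w h1 h2 h3 h4 => absurd ⟨h1, h2, h3, h4⟩ h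
  filter_upwards [hB] with w hB
  intro I hI _
  refine ⟨?_, ?_⟩
  · rintro i hi _ j hj _ hij τ ⟨h1, h2⟩
    rw [GenAE_mu_apply, map_add, map_smul, map_sub, smul_eq_mul] at h1 h2
    have h0 : GenAE_mu a I i w0 ≠ 0 := hnv I hI i hi
    have hτ : τ ≠ 0 := by
      rintro rfl
      rw [zero_mul, add_zero] at h1
      exact h0 h1
    have h3 : τ * (GenAE_mu a I i w0 * GenAE_mu a I j (κ * w) -
        GenAE_mu a I j w0 * GenAE_mu a I i (κ * w)) = 0 := by
      linear_combination GenAE_mu a I i w0 * h2 - GenAE_mu a I j w0 * h1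
    rcases mul_eq_zero.1 h3 with h | h
    · exact hτ h
    · exact hB I i j hI hi hj hij h
  · rintro i hi _ ⟨h, -⟩
    exact hnv I hI i hi h

end Pool.Agent.H.MP_0cad2f_co.NT
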