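import Pool.Agent.H.MP_0cad2f_co.NT.P2a
import Pool.Agent.H.MP_0cad2f_co.NT.Absorb
import Pool.Agent.H.MP_0cad2f_co.NT.GenAE

/-!
Change of the weights at distance `η`, expected number of bases (section 4 of the text). `V_T = {x | a i ⬝ᵥ x = 1, i ∈ T}`,
`b q = nzr a T u υ δ q`. The deterministic part is `P2a.lean`.

`absorb` with `E = Wt n × (Wt n × Wt n)` (`(q, w, w')`), `β = Fin n ⊕ Fin n`, `J = n`, `K = 8 n d`, `ρ = 1/(K n²)`, `m0 = d`,
cubes `cube ((j+1)/n²)` in all three variables (`(n+1)/n² ≤ 3/4`), box `B` = cubes with `j = n`,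
`V j I` = cubes and `Vis (b q) T (κ g w) (κ' g w' - κ g w) 0 1 I`.
-/

set_option autoImplicit false
open MeasureTheory ProbabilityTheory
open scoped ENNReal Classical

namespace Pool.Agent.H.MP_0cad2f_co.NT

section defs

variable {n d : ℕ} (a : Con n d) (T : Finset (Fin n)) (u : Fin d → ℝ) (κ κ' : Wt n)
  (υ δ ρ : ℝ)

/-- the size of the cubes -/
noncomputable def P2t (n j : ℕ) : ℝ := ((j : ℝ) + 1) * (1 / (n : ℝ) ^ 2)

/-- the sets of absorption -/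
def P2V (j : ℕ) (I : Finset (Fin n)) : Set (Wt n × (Wt n × Wt n)) :=
  {x | x.1 ∈ cube n (P2t n j) ∧ x.2.1 ∈ cube n (P2t n j) ∧ x.2.2 ∈ cube n (P2t n j) ∧
    ∃ τ, 0 < τ ∧ τ < 1 ∧
      Opt (nzr a T u υ δ x.1) T (P2W T υ δ κ κ' x.1 x.2.1 x.2.2 τ) I}

/-- the events -/
def P2E (j : ℕ) (I : Finset (Fin n)) : Fin n ⊕ Fin n → Set (Wt n × (Wt n × Wt n))
  | Sum.inl i => {x | x ∈ P2V a T u κ κ' υ δ j I ∧ i ∈ I ∧ i ∉ T ∧
      ¬ ∃ τ, 0 < τ ∧ τ < 1 ∧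
      Opt (nzr a T u υ δ x.1) T (P2W T υ δ κ κ' x.1 (x.2.1 + Pi.single i (-ρ))
        (x.2.2 + Pi.single i (-ρ)) τ) I}
  | Sum.inr i => {x | x ∈ P2V a T u κ κ' υ δ j I ∧ i ∉ I ∧ i ∉ T ∧
      ¬ Feas (nzr a T u υ δ (x.1 + Pi.single i ρ)) I}

/-- the translations -/
def P2vec (n : ℕ) (ρ : ℝ) : Fin n ⊕ Fin n → Wt n × (Wt n × Wt n)
  | Sum.inl i => (0, (Pi.single i ρ, Pi.single i ρ))
  | Sum.inr i => (Pi.single i (-ρ), (0, 0))

end defs

section steps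

variable {n d : ℕ} {a : Con n d} {T I : Finset (Fin n)} {u : Fin d → ℝ} {κ κ' : Wt n}
  {κ0 υ η δ ρ : ℝ}

theorem P2_nsmul_single {i : Fin n} (k : ℕ) (s : ℝ) :
    k • (Pi.single i s : Wt n) = Pi.single i (k * s) := by
  funext l
  by_cases hl : l = i
  · subst hl
    rw [Pi.smul_apply, Pi.single_eq_same, Pi.single_eq_same, nsmul_eq_mul]
  · rw [Pi.smul_apply, Pi.single_eq_of_ne hl, Pi.single_eq_of_ne hl, smul_zero]

theorem P2_cube {q : Wt n} {t η s : ℝ} {i : Fin n} (hq : q ∈ cube n t) (hs : |s| ≤ η) :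
    q + Pi.single i s ∈ cube n (t + η) := by
  intro l _
  have h1 := hq l (Set.mem_univ l)
  have h2 := abs_le.1 hs
  have h3 : 0 ≤ η := (abs_nonneg s).trans hs
  rw [Set.mem_Icc] at h1 ⊢
  by_cases hl : l = i
  · subst hl
    rw [Pi.add_apply, Pi.single_eq_same]
    constructor <;> linarith
  · rw [Pi.add_apply, Pi.single_eq_of_ne hl]
    constructor <;> linarith

theorem P2_cube_mono {q : Wt n} {t t' : ℝ} (hq : q ∈ cube n t) (h3 : t ≤ t') :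
    q ∈ cube n t' := by
  intro l _
  have h1 := hq l (Set.mem_univ l)
  rw [Set.mem_Icc] at h1 ⊢
  constructor <;> linarith

theorem P2t_succ (n j : ℕ) : P2t n (j + 1) = P2t n j + 1 / (n : ℝ) ^ 2 := by
  unfold P2t
  push_cast
  ring

theorem P2t_le (hn : 2 ≤ n) {j : ℕ} (hj : j ≤ n) : P2t n j ≤ 3 / 4 := by
  unfold P2t
  have hn' : (2 : ℝ) ≤ n := by exact_mod_cast hn
  have hj' : (j : ℝ) ≤ n := by exact_mod_cast hj
  rw [mul_one_div, div_le_iff₀ (by positivity)]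
  nlinarith

theorem P2t_mono (n : ℕ) {j k : ℕ} (h : j ≤ k) : P2t n j ≤ P2t n k := by
  unfold P2t
  have : (j : ℝ) ≤ k := by exact_mod_cast h
  gcongr

theorem P2_inl_1 (x : Wt n × (Wt n × Wt n)) (k : ℕ) (i : Fin n) :
    (x + k • P2vec n ρ (Sum.inl i)).1 = x.1 := by
  rw [Prod.fst_add, Prod.smul_fst]
  simp only [P2vec, smul_zero, add_zero]

theorem P2_inl_2 (x : Wt n × (Wt n × Wt n)) (k : ℕ) (i : Fin n) :
    (x + k • P2vec n ρ (Sum.inl i)).2.1 = x.2.1 + Pi.single i (k * ρ) := by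
  rw [Prod.snd_add, Prod.smul_snd, Prod.fst_add, Prod.smul_fst]
  simp only [P2vec, P2_nsmul_single]

theorem P2_inl_3 (x : Wt n × (Wt n × Wt n)) (k : ℕ) (i : Fin n) :
    (x + k • P2vec n ρ (Sum.inl i)).2.2 = x.2.2 + Pi.single i (k * ρ) := by
  rw [Prod.snd_add, Prod.smul_snd, Prod.snd_add, Prod.smul_snd]
  simp only [P2vec, P2_nsmul_single]

theorem P2_inr_1 (x : Wt n × (Wt n × Wt n)) (k : ℕ) (i : Fin n) :
    (x + k • P2vec n ρ (Sum.inr i)).1 = x.1 + Pi.single i (-(k * ρ)) := by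
  rw [Prod.fst_add, Prod.smul_fst]
  simp only [P2vec, P2_nsmul_single, mul_neg]

theorem P2_inr_2 (x : Wt n × (Wt n × Wt n)) (k : ℕ) (i : Fin n) :
    (x + k • P2vec n ρ (Sum.inr i)).2 = x.2 := by
  rw [Prod.snd_add, Prod.smul_snd]
  simp only [P2vec]
  have h0 : (k • ((0, 0) : Wt n × Wt n)) = 0 := by
    rw [← Prod.zero_eq_mk, smul_zero]
  rw [h0, add_zero]

theorem P2_h1 (hυ : υ = 0 ∨ υ = 1) (hη : 0 < η) (hδ : 0 < δ) (hδ1 : δ ≤ 1 / 8)
    (hu : ∀ x : Fin d → ℝ, (∀ i ∈ T, a i ⬝ᵥ x = 1) → u ⬝ᵥ x + υ = η)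
    (hκ : ∀ i, κ0 ≤ κ i ∧ κ i ≤ 1) (hκ' : ∀ i, κ0 ≤ κ' i ∧ κ' i ≤ 1) (hκ0 : 0 < κ0)
    (hn : 2 ≤ n) (hρ : 0 < ρ) {K : ℕ} (hK : K * ρ = 1 / (n : ℝ) ^ 2) (j : ℕ) (hj : j < n)
    (c : Fin n ⊕ Fin n) (x : Wt n × (Wt n × Wt n)) (hx : x ∈ P2E a T u κ κ' υ δ ρ j I c) (k : ℕ)
    (hk : k < K) : x + k • P2vec n ρ c ∈ P2V a T u κ κ' υ δ (j + 1) I := by
  have hη' : (0 : ℝ) ≤ 1 / (n : ℝ) ^ 2 := by positivity
  have hkρ : (k : ℝ) * ρ ≤ 1 / (n : ℝ) ^ 2 := by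
    rw [← hK]
    exact mul_le_mul_of_nonneg_right (by exact_mod_cast hk.le) hρ.le
  have hkρ0 : 0 ≤ (k : ℝ) * ρ := by positivity
  have hjj := P2t_le hn (show j + 1 ≤ n from hj)
  have hj2 : P2t n j ≤ P2t n (j + 1) := P2t_mono n (Nat.le_succ j)
  rcases c with i | i
  · obtain ⟨⟨h1, h2, h3, τ, h4, h5, h6⟩, hi, hiT, -⟩ := hx
    unfold P2V
    rw [Set.mem_ofPred_eq, P2_inl_1, P2_inl_2, P2_inl_3]
    refine ⟨P2_cube_mono h1 hj2, ?_, ?_, ?_⟩
    · rw [P2t_succ]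
      exact P2_cube h2 (by rwa [abs_of_nonneg hkρ0])
    · rw [P2t_succ]
      exact P2_cube h3 (by rwa [abs_of_nonneg hkρ0])
    · refine ⟨τ, h4, h5, P2_opt_w hi hkρ0 ?_ (hκ0.trans_le (hκ i).1) (hκ0.trans_le (hκ' i).1)
        h4.le h5.le h6⟩
      have := (P2_gz_pos (T := T) hυ hδ hδ1 (P2_cube_mono h1 (by linarith)) i).1
      linarith
  · obtain ⟨⟨h1, h2, h3, τ, h4, h5, h6⟩, hi, hiT, -⟩ := hx
    unfold P2V
    rw [Set.mem_ofPred_eq, P2_inr_1, P2_inr_2]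
    have hq' : x.1 + Pi.single i (-(k * ρ)) ∈ cube n (P2t n (j + 1)) := by
      rw [P2t_succ]
      exact P2_cube h1 (by rwa [abs_neg, abs_of_nonneg hkρ0])
    refine ⟨hq', P2_cube_mono h2 hj2, P2_cube_mono h3 hj2, τ, h4, h5, ?_⟩
    refine P2_opt_q hu hη.le hiT hi hkρ0 hδ.le (fun l => ?_) (fun l => ?_) h6
    · have := (P2_gz_pos (T := T) hυ hδ hδ1 (P2_cube_mono h1 (by linarith)) l).1
      linarith
    · have := (P2_gz_pos (T := T) hυ hδ hδ1 (P2_cube_mono hq' (by linarith)) l).1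
      linarith

theorem P2_h2 (hυ : υ = 0 ∨ υ = 1) (hη : 0 < η) (hδ : 0 < δ) (hδ1 : δ ≤ 1 / 8)
    (hu : ∀ x : Fin d → ℝ, (∀ i ∈ T, a i ⬝ᵥ x = 1) → u ⬝ᵥ x + υ = η)
    (hκ : ∀ i, κ0 ≤ κ i ∧ κ i ≤ 1) (hκ' : ∀ i, κ0 ≤ κ' i ∧ κ' i ≤ 1) (hκ0 : 0 < κ0)
    (hn : 2 ≤ n) (hρ : 0 < ρ) (j : ℕ) (hj : j < n) (c : Fin n ⊕ Fin n)
    (x : Wt n × (Wt n × Wt n))
    (hx : x ∈ P2E a T u κ κ' υ δ ρ j I c) (k : ℕ) (hk : 1 ≤ k) :
    x + k • P2vec n ρ c ∉ P2E a T u κ κ' υ δ ρ j I c := by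
  have hk' : (1 : ℝ) ≤ k := by exact_mod_cast hk
  have hk1 : 0 ≤ ((k : ℝ) - 1) * ρ := mul_nonneg (by linarith) hρ.le
  have hjj := P2t_le hn hj.le
  rcases c with i | i
  · intro hx'
    obtain ⟨⟨h1, -, -, τ, h4, h5, h6⟩, hi, hiT, -⟩ := hx
    have h7 := hx'.2.2.2
    rw [P2_inl_1, P2_inl_2, P2_inl_3, add_assoc, add_assoc, ← Pi.single_add] at h7
    have h8 : (k : ℝ) * ρ + -ρ = (k - 1) * ρ := by ring
    rw [h8] at h7
    refine h7 ⟨τ, h4, h5, P2_opt_w hi hk1 ?_ (hκ0.trans_le (hκ i).1) (hκ0.trans_le (hκ' i).1)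
        h4.le h5.le h6⟩
    have := (P2_gz_pos (T := T) hυ hδ hδ1 (P2_cube_mono h1 (by linarith)) i).1
    linarith
  · intro hx'
    obtain ⟨⟨h1, -, -, τ, -, -, h6⟩, hi, hiT, -⟩ := hx
    have h9 := hx'.1.1
    have h7 := hx'.2.2.2
    rw [P2_inr_1, add_assoc, ← Pi.single_add] at h7
    rw [P2_inr_1] at h9
    have h8 : -((k : ℝ) * ρ) + ρ = -((k - 1) * ρ) := by ring
    rw [h8] at h7
    refine h7 (P2_feas hu hη.le h6.1 hiT hi hk1 hδ.le ?_ ?_ h6.2.1)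
    · have := (P2_gz_pos (T := T) hυ hδ hδ1 (P2_cube_mono h1 (by linarith)) i).1
      linarith
    · have h10 : x.1 + Pi.single i (-((k - 1) * ρ)) ∈ cube n (P2t n j) := by
        intro l hl
        have h11 := h1 l hl
        have h12 := h9 l hl
        rw [Set.mem_Icc] at h11 h12 ⊢
        by_cases hli : l = i
        · subst hli
          rw [Pi.add_apply, Pi.single_eq_same] at h12 ⊢
          constructor
          · nlinarith
          · linarith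
        · rw [Pi.add_apply, Pi.single_eq_of_ne hli, add_zero]
          exact h11
      have := (P2_gz_pos (T := T) hυ hδ hδ1 (P2_cube_mono h10 (by linarith)) i).1
      linarith

end steps

section meas

variable {n d : ℕ} {a : Con n d} {T I : Finset (Fin n)} {u : Fin d → ℝ} {κ κ' : Wt n}
  {κ0 υ η δ ρ : ℝ}

theorem P2_vis_iff {b : Con n d} {q w w' : Wt n} :
    (∃ τ, 0 < τ ∧ τ < 1 ∧ Opt b T (P2W T υ δ κ κ' q w w' τ) I) ↔
      Vis b T (κ * (gz T υ δ q * w)) (P2v T υ δ κ κ' q w w') 0 1 I := Iff.rfl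

theorem P2_meas_nzr : Measurable (fun q : Wt n => nzr a T u υ δ q) :=
  (measurable_nzr T u υ δ).comp (measurable_const.prodMk measurable_id)

theorem P2_meas_gz : Measurable (fun q : Wt n => gz T υ δ q) := by
  refine measurable_pi_iff.2 fun i => ?_
  unfold gz
  by_cases hi : i ∈ T
  · simp only [if_pos hi]
    exact measurable_const
  · simp only [if_neg hi]
    exact (by fun_prop : Continuous fun q : Wt n => 1 - υ * (δ * (q i - 1))).measurable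

theorem P2_meas_f (s : Wt n) :
    Measurable (fun x : Wt n × (Wt n × Wt n) => ((nzr a T u υ δ x.1,
      (κ * (gz T υ δ x.1 * (x.2.1 + s)),
        P2v T υ δ κ κ' x.1 (x.2.1 + s) (x.2.2 + s))) : Con n d × (Wt n × Wt n))) := by
  have hg : Measurable (fun x : Wt n × (Wt n × Wt n) => gz T υ δ x.1) :=
    P2_meas_gz.comp measurable_fst
  have hw : Measurable (fun x : Wt n × (Wt n × Wt n) => x.2.1 + s) :=
    (measurable_fst.comp measurable_snd).add_const s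
  have hw' : Measurable (fun x : Wt n × (Wt n × Wt n) => x.2.2 + s) :=
    (measurable_snd.comp measurable_snd).add_const s
  have h1 : Measurable (fun x : Wt n × (Wt n × Wt n) => κ * (gz T υ δ x.1 * (x.2.1 + s))) :=
    (hg.mul hw).const_mul κ
  have h2 : Measurable (fun x : Wt n × (Wt n × Wt n) => κ' * (gz T υ δ x.1 * (x.2.2 + s))) :=
    (hg.mul hw').const_mul κ'
  have h3 : Measurable (fun x : Wt n × (Wt n × Wt n) =>
      P2v T υ δ κ κ' x.1 (x.2.1 + s) (x.2.2 + s)) := by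
    unfold P2v
    exact h2.sub h1
  have h0 : Measurable (fun x : Wt n × (Wt n × Wt n) => nzr a T u υ δ x.1) :=
    P2_meas_nzr.comp measurable_fst
  exact h0.prodMk (h1.prodMk h3)

theorem P2_meas_vis (s : Wt n) :
    MeasurableSet {x : Wt n × (Wt n × Wt n) | ∃ τ, 0 < τ ∧ τ < 1 ∧
      Opt (nzr a T u υ δ x.1) T
        (P2W T υ δ κ κ' x.1 (x.2.1 + s) (x.2.2 + s) τ) I} :=
  (P2_meas_f (a := a) (T := T) (u := u) (κ := κ) (κ' := κ') (υ := υ) (δ := δ) s)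
    (measurableSet_vis T I 0 1)

theorem P2_meas_V (j : ℕ) : MeasurableSet (P2V a T u κ κ' υ δ j I) := by
  have h := P2_meas_vis (a := a) (T := T) (I := I) (u := u) (κ := κ) (κ' := κ') (υ := υ)
    (δ := δ) 0
  simp only [add_zero] at h
  have hA : MeasurableSet {x : Wt n × (Wt n × Wt n) | x.1 ∈ cube n (P2t n j)} :=
    measurable_fst (measurableSet_cube _)
  have hB : MeasurableSet {x : Wt n × (Wt n × Wt n) | x.2.1 ∈ cube n (P2t n j)} :=
    measurable_snd (measurable_fst (measurableSet_cube _))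
  have hC : MeasurableSet {x : Wt n × (Wt n × Wt n) | x.2.2 ∈ cube n (P2t n j)} :=
    measurable_snd (measurable_snd (measurableSet_cube _))
  exact hA.inter (hB.inter (hC.inter h))

theorem P2_meas_E (j : ℕ) (c : Fin n ⊕ Fin n) :
    MeasurableSet (P2E a T u κ κ' υ δ ρ j I c) := by
  rcases c with i | i
  · exact (P2_meas_V j).inter ((MeasurableSet.const _).inter ((MeasurableSet.const _).inter
      (P2_meas_vis _).compl))
  · refine (P2_meas_V j).inter ((MeasurableSet.const _).inter ((MeasurableSet.const _).inter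
      (MeasurableSet.compl ?_)))
    have h1 : Measurable (fun x : Wt n × (Wt n × Wt n) => nzr a T u υ δ
        (x.1 + Pi.single i ρ)) :=
      P2_meas_nzr.comp (measurable_fst.add_const _)
    exact measurableSet_preimage h1 (measurableSet_feas I)

theorem P2_meas_N2 : Measurable fun x : Wt n × (Wt n × Wt n) =>
    (N2 (nzr a T u υ δ x.1) T (κ * (gz T υ δ x.1 * x.2.1))
      (κ' * (gz T υ δ x.1 * x.2.2)) : ℝ≥0∞) := by
  have hg : Measurable (fun x : Wt n × (Wt n × Wt n) => gz T υ δ x.1) :=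
    P2_meas_gz.comp measurable_fst
  have hw : Measurable (fun x : Wt n × (Wt n × Wt n) => x.2.1) :=
    measurable_fst.comp measurable_snd
  have hw' : Measurable (fun x : Wt n × (Wt n × Wt n) => x.2.2) :=
    measurable_snd.comp measurable_snd
  have h1 : Measurable (fun x : Wt n × (Wt n × Wt n) => κ * (gz T υ δ x.1 * x.2.1)) :=
    (hg.mul hw).const_mul κ
  have h2 : Measurable (fun x : Wt n × (Wt n × Wt n) => κ' * (gz T υ δ x.1 * x.2.2)) :=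
    (hg.mul hw').const_mul κ'
  have h0 : Measurable (fun x : Wt n × (Wt n × Wt n) => nzr a T u υ δ x.1) :=
    P2_meas_nzr.comp measurable_fst
  have h3 := (measurable_N2 (n := n) (d := d) T).comp (h0.prodMk (h1.prodMk h2))
  have h4 : Measurable (fun k : ℕ => (k : ℝ≥0∞)) := measurable_from_top
  exact h4.comp h3

theorem P2_ae (hυ : υ = 0 ∨ υ = 1) (hδ : 0 < δ) (hδ1 : δ ≤ 1 / 8)
    (hκ : ∀ i, κ0 ≤ κ i ∧ κ i ≤ 1) (hκ' : ∀ i, κ0 ≤ κ' i ∧ κ' i ≤ 1) (hκ0 : 0 < κ0)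
    (hr : ∀ᵐ q : Wt n, Reg0 (nzr a T u υ δ q)) :
    ∀ᵐ x : Wt n × (Wt n × Wt n), x.1 ∉ cube n 1 ∨ (Reg0 (nzr a T u υ δ x.1) ∧
      Gen (nzr a T u υ δ x.1) T (κ * (gz T υ δ x.1 * x.2.1))
        (P2v T υ δ κ κ' x.1 x.2.1 x.2.2)) := by
  have hm : MeasurableSet {x : Wt n × (Wt n × Wt n) | x.1 ∉ cube n 1 ∨
      (Reg0 (nzr a T u υ δ x.1) ∧
      Gen (nzr a T u υ δ x.1) T (κ * (gz T υ δ x.1 * x.2.1))
        (P2v T υ δ κ κ' x.1 x.2.1 x.2.2))} := by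
    refine MeasurableSet.union ?_ (MeasurableSet.inter ?_ ?_)
    · exact (measurableSet_preimage measurable_fst (measurableSet_cube _)).compl
    · exact measurableSet_preimage (P2_meas_nzr.comp measurable_fst) measurableSet_reg0
    · have h := P2_meas_f (a := a) (T := T) (u := u) (κ := κ) (κ' := κ') (υ := υ) (δ := δ) 0
      simp only [add_zero] at h
      exact measurableSet_preimage h (measurableSet_gen T)
  rw [Measure.volume_eq_prod, Measure.ae_prod_iff_ae_ae hm]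
  filter_upwards [hr] with q hq
  by_cases hqc : q ∈ cube n 1
  swap
  · exact Filter.Eventually.of_forall fun y => Or.inl hqc
  have hg : ∀ i, 0 < gz T υ δ q i := fun i => by
    have := (P2_gz_pos (T := T) hυ hδ hδ1 hqc i).1
    linarith
  have hm2 : MeasurableSet {y : Wt n × Wt n | q ∉ cube n 1 ∨
      (Reg0 (nzr a T u υ δ q) ∧
      Gen (nzr a T u υ δ q) T (κ * (gz T υ δ q * y.1))
        (P2v T υ δ κ κ' q y.1 y.2))} :=
    measurable_prodMk_left hm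
  rw [Measure.volume_eq_prod, Measure.ae_prod_iff_ae_ae hm2]
  filter_upwards [nv_ae hq (κ := κ * gz T υ δ q)
    (fun i => mul_pos (hκ0.trans_le (hκ i).1) (hg i))] with w hw
  filter_upwards [gen2_ae (T := T) hq (κ := κ' * gz T υ δ q)
    (fun i => mul_pos (hκ0.trans_le (hκ' i).1) (hg i)) hw] with w' hw'
  refine Or.inr ⟨hq, ?_⟩
  rw [mul_assoc, mul_assoc] at hw'
  exact hw'

end meas

section sums

variable {n d : ℕ} {a : Con n d} {T : Finset (Fin n)} {u : Fin d → ℝ} {κ κ' : Wt n}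
  {κ0 υ η δ ρ M : ℝ}

theorem P2_sum_V (j : ℕ) (x : Wt n × (Wt n × Wt n)) (h1 : x.1 ∈ cube n (P2t n j))
    (h2 : x.2.1 ∈ cube n (P2t n j)) (h3 : x.2.2 ∈ cube n (P2t n j)) :
    ∑ I, (P2V a T u κ κ' υ δ j I).indicator (fun _ => (1 : ℝ≥0∞)) x =
      ((VS (nzr a T u υ δ x.1) T (κ * (gz T υ δ x.1 * x.2.1))
        (P2v T υ δ κ κ' x.1 x.2.1 x.2.2) 0 1).card : ℝ≥0∞) := by
  simp only [Set.indicator_apply]
  rw [Finset.sum_boole]
  have h4 : (Finset.univ.filter fun I => x ∈ P2V a T u κ κ' υ δ j I) =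
      VS (nzr a T u υ δ x.1) T (κ * (gz T υ δ x.1 * x.2.1))
        (P2v T υ δ κ κ' x.1 x.2.1 x.2.2) 0 1 :=
    Finset.filter_congr fun I _ => ⟨fun h => h.2.2.2, fun h => ⟨h1, h2, h3, h⟩⟩
  rw [h4]

theorem P2_sum_E (j : ℕ) (x : Wt n × (Wt n × Wt n)) (h1 : x.1 ∈ cube n (P2t n j))
    (h2 : x.2.1 ∈ cube n (P2t n j)) (h3 : x.2.2 ∈ cube n (P2t n j)) :
    ∑ I, ∑ c, (P2E a T u κ κ' υ δ ρ j I c).indicator (fun _ => (1 : ℝ≥0∞)) x =
      (((Finset.univ : Finset (Finset (Fin n) × Fin n)).filter (fun p =>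
          Vis (nzr a T u υ δ x.1) T (κ * (gz T υ δ x.1 * x.2.1))
            (P2v T υ δ κ κ' x.1 x.2.1 x.2.2) 0 1 p.1 ∧
            p.2 ∈ p.1 ∧ p.2 ∉ T ∧
          ¬ ∃ τ, 0 < τ ∧ τ < 1 ∧ Opt (nzr a T u υ δ x.1) T (P2W T υ δ κ κ' x.1
            (x.2.1 + Pi.single p.2 (-ρ)) (x.2.2 + Pi.single p.2 (-ρ)) τ) p.1)).card : ℝ≥0∞) +
        ((Finset.univ : Finset (Finset (Fin n) × Fin n)).filter (fun p =>
          Vis (nzr a T u υ δ x.1) T (κ * (gz T υ δ x.1 * x.2.1))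
            (P2v T υ δ κ κ' x.1 x.2.1 x.2.2) 0 1 p.1 ∧
            p.2 ∉ p.1 ∧ p.2 ∉ T ∧
          ¬ Feas (nzr a T u υ δ (x.1 + Pi.single p.2 ρ)) p.1)).card := by
  simp only [Fintype.sum_sum_type, Finset.sum_add_distrib, Set.indicator_apply]
  rw [← Fintype.sum_prod_type' (f := fun I i =>
      if x ∈ P2E a T u κ κ' υ δ ρ j I (Sum.inl i) then (1 : ℝ≥0∞) else 0),
    ← Fintype.sum_prod_type' (f := fun I i =>
      if x ∈ P2E a T u κ κ' υ δ ρ j I (Sum.inr i) then (1 : ℝ≥0∞) else 0),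
    Finset.sum_boole, Finset.sum_boole]
  congr 3
  · exact Finset.filter_congr fun p _ =>
      ⟨fun h => ⟨h.1.2.2.2, h.2⟩, fun h => ⟨⟨h1, h2, h3, h.1⟩, h.2⟩⟩
  · exact Finset.filter_congr fun p _ =>
      ⟨fun h => ⟨h.1.2.2.2, h.2⟩, fun h => ⟨⟨h1, h2, h3, h.1⟩, h.2⟩⟩

theorem P2_h3 (hυ : υ = 0 ∨ υ = 1) (hη : 0 < η) (hη1 : η ≤ 1) (hδ : 0 < δ) (hδ1 : δ ≤ 1 / 8)
    (hM : 0 ≤ M) (hu : ∀ x : Fin d → ℝ, (∀ i ∈ T, a i ⬝ᵥ x = 1) → u ⬝ᵥ x + υ = η)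
    {z : Fin d → ℝ} (hz : ∀ i ∈ T, a i ⬝ᵥ z = 1)
    (hz' : ∀ i, i ∉ T → 4 * δ * η ≤ sl a i z ∧ sl a i z ≤ M)
    (hκ : ∀ i, κ0 ≤ κ i ∧ κ i ≤ 1) (hκ' : ∀ i, κ0 ≤ κ' i ∧ κ' i ≤ 1) (hκ0 : 0 < κ0)
    (hn : 2 ≤ n) (hd : 1 ≤ d)
    (hρ : ρ = 1 / (8 * n ^ 3 * d)) (j : ℕ) (hj : j < n) (x : Wt n × (Wt n × Wt n))
    (hx : x.1 ∉ cube n 1 ∨ (Reg0 (nzr a T u υ δ x.1) ∧
      Gen (nzr a T u υ δ x.1) T (κ * (gz T υ δ x.1 * x.2.1))
        (P2v T υ δ κ κ' x.1 x.2.1 x.2.2))) :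
    ∑ I, (P2V a T u κ κ' υ δ j I).indicator (fun _ => (1 : ℝ≥0∞)) x ≤
      ENNReal.ofReal (4 + 495616 * (n ^ 7 * d ^ 2 * (M + 1) / (κ0 ^ 2 * δ * η))) +
        d * ∑ I, ∑ c, (P2E a T u κ κ' υ δ ρ j I c).indicator (fun _ => (1 : ℝ≥0∞)) x := by
  by_cases hxc : x.1 ∈ cube n (P2t n j) ∧ x.2.1 ∈ cube n (P2t n j) ∧ x.2.2 ∈ cube n (P2t n j)
  swap
  · have h1 : ∑ I, (P2V a T u κ κ' υ δ j I).indicator (fun _ => (1 : ℝ≥0∞)) x = 0 :=
      Finset.sum_eq_zero fun I _ =>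
        Set.indicator_of_notMem (fun h => hxc ⟨h.1, h.2.1, h.2.2.1⟩) _
    rw [h1]
    exact zero_le
  obtain ⟨h1, h2, h3⟩ := hxc
  have hjj := P2t_le hn hj.le
  have hx1 := P2_cube_mono h1 hjj
  have hx2 := P2_cube_mono h2 hjj
  have hx3 := P2_cube_mono h3 hjj
  obtain ⟨hr, hG⟩ := hx.resolve_left fun h => h (P2_cube_mono h1 (by linarith))
  rw [P2_sum_V j x h1 h2 h3, P2_sum_E j x h1 h2 h3]
  have hn' : (2 : ℝ) ≤ n := by exact_mod_cast hn
  have hd' : (1 : ℝ) ≤ d := by exact_mod_cast hd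
  have hn0 : (0 : ℝ) < n := by linarith
  have hd0 : (0 : ℝ) < d := by linarith
  have hρ0 : 0 < ρ := by rw [hρ]; positivity
  have hρ1 : ρ ≤ 1 / 4 := by
    rw [hρ]
    refine one_div_le_one_div_of_le (by norm_num) ?_
    have h4 : (1 : ℝ) ≤ n ^ 3 := one_le_pow₀ (by linarith)
    nlinarith
  have hM1 : 0 < M + 1 := by linarith
  have hc := P2_count (a := a) (T := T) (u := u) (κ := κ) (κ' := κ') (κ0 := κ0) (δ := δ)
    (q := x.1) (w := x.2.1) (w' := x.2.2) (ρ := ρ)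
    (ℓ := κ0 ^ 2 * δ * η * ρ ^ 2 / (7744 * n * (M + 1)))
    (Γ := 3872 * n * (M + 1) / (κ0 * (δ * η * ρ))) hυ hη hη1 hδ hδ1 hM hu hz hz' hκ hκ' hκ0
    hx1 hx2 hx3 hρ0 hρ1
    (by
      rw [mul_div_cancel₀]
      positivity)
    (by positivity)
    (by
      refine le_of_eq ?_
      field_simp
      norm_num) hd hr hG
  have hb : 1 / (κ0 ^ 2 * δ * η * ρ ^ 2 / (7744 * n * (M + 1))) =
      495616 * (n ^ 7 * d ^ 2 * (M + 1) / (κ0 ^ 2 * δ * η)) := by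
    have hX0 : κ0 ^ 2 * δ * η ≠ 0 := by positivity
    have hρ2 : ρ ^ 2 = 1 / (64 * n ^ 6 * d ^ 2) := by
      rw [hρ, div_pow, one_pow]
      congr 1
      ring
    rw [hρ2]
    generalize κ0 ^ 2 * δ * η = X at hX0
    generalize M + 1 = Y at hM1
    have hY0 : Y ≠ 0 := hM1.ne'
    field_simp
    norm_num
  rw [hb] at hc
  set A := ((Finset.univ : Finset (Finset (Fin n) × Fin n)).filter (fun p =>
          Vis (nzr a T u υ δ x.1) T (κ * (gz T υ δ x.1 * x.2.1))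
            (P2v T υ δ κ κ' x.1 x.2.1 x.2.2) 0 1 p.1 ∧
            p.2 ∈ p.1 ∧ p.2 ∉ T ∧
          ¬ ∃ τ, 0 < τ ∧ τ < 1 ∧ Opt (nzr a T u υ δ x.1) T (P2W T υ δ κ κ' x.1
            (x.2.1 + Pi.single p.2 (-ρ)) (x.2.2 + Pi.single p.2 (-ρ)) τ) p.1)) with hA
  set B := ((Finset.univ : Finset (Finset (Fin n) × Fin n)).filter (fun p =>
          Vis (nzr a T u υ δ x.1) T (κ * (gz T υ δ x.1 * x.2.1))
            (P2v T υ δ κ κ' x.1 x.2.1 x.2.2) 0 1 p.1 ∧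
            p.2 ∉ p.1 ∧ p.2 ∉ T ∧
          ¬ Feas (nzr a T u υ δ (x.1 + Pi.single p.2 ρ)) p.1)) with hB
  have hX : 0 ≤ (n : ℝ) ^ 7 * d ^ 2 * (M + 1) / (κ0 ^ 2 * δ * η) := by positivity
  rw [← ENNReal.ofReal_natCast]
  refine (ENNReal.ofReal_le_ofReal hc).trans (le_of_eq ?_)
  have h4 : ENNReal.ofReal ((d : ℝ) * (A.card + B.card)) = d * ((A.card : ℝ≥0∞) + B.card) := by
    rw [ENNReal.ofReal_mul (by positivity), ENNReal.ofReal_add (by positivity) (by positivity),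
      ENNReal.ofReal_natCast, ENNReal.ofReal_natCast, ENNReal.ofReal_natCast]
  rw [ENNReal.ofReal_add (by positivity) (by positivity), h4]

theorem P2_alg {Y : ℝ} (hY : 0 ≤ Y) :
    (2 * ENNReal.ofReal Y + 1) * ENNReal.ofReal 8104 = ENNReal.ofReal ((2 * Y + 1) * 8104) := by
  have h2 : ENNReal.ofReal 2 = 2 := ENNReal.ofReal_ofNat 2
  rw [ENNReal.ofReal_mul (by positivity), ENNReal.ofReal_add (by positivity) (by positivity),
    ENNReal.ofReal_mul (by positivity), ENNReal.ofReal_one, h2]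

theorem P2_inv : (volume : Measure (Wt n × (Wt n × Wt n))).IsAddRightInvariant := by
  have h1 : (volume : Measure (Wt n × Wt n)).IsAddLeftInvariant := by
    rw [Measure.volume_eq_prod]
    infer_instance
  have h2 : MeasurableAdd (Wt n × Wt n) := inferInstance
  have h3 : SFinite (volume : Measure (Wt n × Wt n)) := inferInstance
  have h : (volume : Measure (Wt n × (Wt n × Wt n))).IsAddLeftInvariant := by
    rw [Measure.volume_eq_prod]
    exact Measure.prod.instIsAddLeftInvariant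
  infer_instance

theorem P2_vol_cube (t : ℝ) (ht : 0 ≤ t) :
    volume (cube n t) = ENNReal.ofReal ((1 + 2 * t) ^ n) := by
  rw [cube, volume_pi_pi]
  have h1 : ∀ i ∈ (Finset.univ : Finset (Fin n)), volume (Set.Icc (1 - t) (2 + t)) =
      ENNReal.ofReal (1 + 2 * t) := by
    intro _ _
    rw [Real.volume_Icc]
    congr 1
    ring
  rw [Finset.prod_congr rfl h1, Finset.prod_const, Finset.card_univ, Fintype.card_fin,
    ENNReal.ofReal_pow (by positivity)]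

theorem P2_box (hn : 2 ≤ n) :
    volume ((cube n (P2t n n)) ×ˢ ((cube n (P2t n n)) ×ˢ (cube n (P2t n n)))) ≤
      ENNReal.ofReal 8104 := by
  have hn' : (2 : ℝ) ≤ n := by exact_mod_cast hn
  have hn0 : (0 : ℝ) < n := by linarith
  have ht0 : 0 ≤ P2t n n := by
    unfold P2t
    positivity
  rw [Measure.volume_eq_prod, Measure.prod_prod, Measure.volume_eq_prod, Measure.prod_prod,
    P2_vol_cube _ ht0, ← ENNReal.ofReal_mul (by positivity), ← ENNReal.ofReal_mul (by positivity)]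
  refine ENNReal.ofReal_le_ofReal ?_
  have h1 : (1 + 2 * P2t n n) ^ n ≤ Real.exp 3 := by
    have h2 : 1 + 2 * P2t n n ≤ Real.exp (2 * P2t n n) := by
      have := Real.add_one_le_exp (2 * P2t n n)
      linarith
    calc (1 + 2 * P2t n n) ^ n ≤ (Real.exp (2 * P2t n n)) ^ n :=
          pow_le_pow_left₀ (by positivity) h2 n
      _ = Real.exp (n * (2 * P2t n n)) := by
          rw [← Real.exp_nat_mul]
      _ ≤ Real.exp 3 := by
          refine Real.exp_le_exp.2 ?_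
          unfold P2t
          have h3 : (n : ℝ) * (2 * (((n : ℝ) + 1) * (1 / (n : ℝ) ^ 2))) = 2 + 2 / n := by
            field_simp
          rw [h3]
          have h4 : 2 / (n : ℝ) ≤ 1 := by
            rw [div_le_one hn0]
            exact hn'
          linarith
  have h0 : 0 ≤ (1 + 2 * P2t n n) ^ n := by positivity
  have h3 : (1 + 2 * P2t n n) ^ n * ((1 + 2 * P2t n n) ^ n * (1 + 2 * P2t n n) ^ n) ≤
      Real.exp 3 * (Real.exp 3 * Real.exp 3) :=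
    mul_le_mul h1 (mul_le_mul h1 h1 h0 (Real.exp_pos _).le) (by positivity) (Real.exp_pos _).le
  have h4 : Real.exp 3 * (Real.exp 3 * Real.exp 3) = Real.exp 1 ^ 9 := by
    rw [← Real.exp_add, ← Real.exp_add, ← Real.exp_nat_mul]
    norm_num
  have h5 : Real.exp 1 ^ 9 ≤ 8104 := by
    have h6 := Real.exp_one_lt_d9
    calc Real.exp 1 ^ 9 ≤ (2.7182818286 : ℝ) ^ 9 :=
          pow_le_pow_left₀ (Real.exp_pos _).le h6.le 9
      _ ≤ 8104 := by norm_num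
  linarith

end sums

variable {n d : ℕ} {a : Con n d} {T : Finset (Fin n)} {u : Fin d → ℝ} {κ κ' : Wt n}
  {κ0 δ η υ M : ℝ}

theorem P2 (hυ : υ = 0 ∨ υ = 1) (hη : 0 < η) (hη1 : η ≤ 1) (hδ : 0 < δ) (hδ1 : δ ≤ 1 / 8)
    (hM : 0 ≤ M) (hu : ∀ x : Fin d → ℝ, (∀ i ∈ T, a i ⬝ᵥ x = 1) → u ⬝ᵥ x + υ = η)
    (hz : ∃ z : Fin d → ℝ, (∀ i ∈ T, a i ⬝ᵥ z = 1) ∧
      ∀ i, i ∉ T → 4 * δ * η ≤ sl a i z ∧ sl a i z ≤ M)
    (hκ : ∀ i, κ0 ≤ κ i ∧ κ i ≤ 1) (hκ' : ∀ i, κ0 ≤ κ' i ∧ κ' i ≤ 1) (hκ0 : 0 < κ0)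
    (hn : 2 ≤ n) (hd : 1 ≤ d) (hr : ∀ᵐ q : Wt n, Reg0 (nzr a T u υ δ q)) :
    ∫⁻ q, ∫⁻ w in cube n (1 / n ^ 2), ∫⁻ w' in cube n (1 / n ^ 2),
      (N2 (nzr a T u υ δ q) T (κ * (gz T υ δ q * w)) (κ' * (gz T υ δ q * w')) : ℝ≥0∞)
      ∂volume ∂volume ∂(uW n) ≤
    ENNReal.ofReal (10 ^ 11 * n ^ 7 * d ^ 2 * (M + 1) / (κ0 ^ 2 * δ * η)) := by
  obtain ⟨z, hz, hz'⟩ := hz
  have hn' : (2 : ℝ) ≤ n := by exact_mod_cast hn
  have hd' : (1 : ℝ) ≤ d := by exact_mod_cast hd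
  have hn0 : (0 : ℝ) < n := by linarith
  have hd0 : (0 : ℝ) < d := by linarith
  obtain ⟨ρ, hρ⟩ : ∃ ρ : ℝ, ρ = 1 / (8 * n ^ 3 * d) := ⟨_, rfl⟩
  have hρ0 : 0 < ρ := by rw [hρ]; positivity
  have hKρ : ((8 * n * d : ℕ) : ℝ) * ρ = 1 / (n : ℝ) ^ 2 := by
    rw [hρ]
    push_cast
    field_simp
  have := P2_inv (n := n)
  have habs := absorb (E := Wt n × (Wt n × Wt n)) (α := Finset (Fin n)) (β := Fin n ⊕ Fin n)
    volume n (8 * n * d) d
    (ENNReal.ofReal (4 + 495616 * (n ^ 7 * d ^ 2 * (M + 1) / (κ0 ^ 2 * δ * η))))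
    (P2V a T u κ κ' υ δ) (P2E a T u κ κ' υ δ ρ)
    ((cube n (P2t n n)) ×ˢ ((cube n (P2t n n)) ×ˢ (cube n (P2t n n)))) (P2vec n ρ)
    ((measurableSet_cube _).prod ((measurableSet_cube _).prod (measurableSet_cube _)))
    (fun j I => P2_meas_V j)
    (fun j I c => P2_meas_E j c)
    (fun j hj I x hx => ⟨P2_cube_mono hx.1 (P2t_mono n hj),
      P2_cube_mono hx.2.1 (P2t_mono n hj), P2_cube_mono hx.2.2.1 (P2t_mono n hj)⟩)
    (fun j hj I c x hx k hk => P2_h1 hυ hη hδ hδ1 hu hκ hκ' hκ0 hn hρ0 hKρ j hj c x hx k hk)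
    (fun j hj I c x hx k hk _ => P2_h2 hυ hη hδ hδ1 hu hκ hκ' hκ0 hn hρ0 j hj c x hx k hk)
    (by
      intro j hj
      filter_upwards [P2_ae hυ hδ hδ1 hκ hκ' hκ0 hr] with x hx _
      exact P2_h3 hυ hη hη1 hδ hδ1 hM hu hz hz' hκ hκ' hκ0 hn hd hρ j hj x hx)
    (by
      rw [Fintype.card_sum, Fintype.card_fin]
      nlinarith)
    (by
      have : 0 < n * d := Nat.mul_pos (by omega) (by omega)
      nlinarith)
  have hX1 : 1 ≤ (n : ℝ) ^ 7 * d ^ 2 * (M + 1) / (κ0 ^ 2 * δ * η) := by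
    have h1 : κ0 ≤ 1 := (hκ ⟨0, by omega⟩).1.trans (hκ ⟨0, by omega⟩).2
    have h2 : κ0 ^ 2 ≤ 1 := pow_le_one₀ hκ0.le h1
    have h3 : κ0 ^ 2 * δ ≤ 1 := mul_le_one₀ h2 hδ.le (by linarith)
    have h4 : κ0 ^ 2 * δ * η ≤ 1 := mul_le_one₀ h3 hη.le hη1
    rw [one_le_div (by positivity)]
    have h5 : (1 : ℝ) ≤ n ^ 7 := one_le_pow₀ (by linarith)
    have h6 : (1 : ℝ) ≤ d ^ 2 := one_le_pow₀ hd'
    have h7 : 1 ≤ (n : ℝ) ^ 7 * d ^ 2 := one_le_mul_of_one_le_of_one_le h5 h6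
    have h8 : 1 ≤ (n : ℝ) ^ 7 * d ^ 2 * (M + 1) :=
      one_le_mul_of_one_le_of_one_le h7 (by linarith)
    linarith
  have ht0 : P2t n 0 = 1 / (n : ℝ) ^ 2 := by
    unfold P2t
    rw [Nat.cast_zero, zero_add, one_mul]
  set C := cube n (1 / (n : ℝ) ^ 2) with hC
  have hCm : MeasurableSet C := measurableSet_cube _
  have hint : ∫⁻ q, ∫⁻ w in C, ∫⁻ w' in C,
      (N2 (nzr a T u υ δ q) T (κ * (gz T υ δ q * w)) (κ' * (gz T υ δ q * w')) : ℝ≥0∞)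
      ∂volume ∂volume ∂(volume.restrict C) =
      ∑ I, volume (P2V a T u κ κ' υ δ 0 I) := by
    have h0 : ∀ q : Wt n, ∫⁻ w in C, ∫⁻ w' in C,
      (N2 (nzr a T u υ δ q) T (κ * (gz T υ δ q * w)) (κ' * (gz T υ δ q * w')) : ℝ≥0∞) =
        ∫⁻ y, (N2 (nzr a T u υ δ q) T (κ * (gz T υ δ q * y.1))
          (κ' * (gz T υ δ q * y.2)) : ℝ≥0∞) ∂((volume.restrict C).prod (volume.restrict C)) := by
      intro q
      exact (lintegral_prod (μ := volume.restrict C) (ν := volume.restrict C)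
        (fun y : Wt n × Wt n => (N2 (nzr a T u υ δ q) T (κ * (gz T υ δ q * y.1))
          (κ' * (gz T υ δ q * y.2)) : ℝ≥0∞))
        (P2_meas_N2.comp measurable_prodMk_left).aemeasurable).symm
    rw [lintegral_congr h0]
    have h1 := lintegral_prod (μ := volume.restrict C)
      (ν := (volume.restrict C).prod (volume.restrict C)) (fun x : Wt n × (Wt n × Wt n) =>
      (N2 (nzr a T u υ δ x.1) T (κ * (gz T υ δ x.1 * x.2.1))
      (κ' * (gz T υ δ x.1 * x.2.2)) : ℝ≥0∞)) P2_meas_N2.aemeasurable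
    rw [← h1, Measure.prod_restrict, Measure.prod_restrict, ← Measure.volume_eq_prod,
      ← Measure.volume_eq_prod, ← lintegral_indicator (hCm.prod (hCm.prod hCm))]
    have h2 : ∀ x : Wt n × (Wt n × Wt n), (C ×ˢ (C ×ˢ C)).indicator
        (fun x : Wt n × (Wt n × Wt n) =>
        (N2 (nzr a T u υ δ x.1) T (κ * (gz T υ δ x.1 * x.2.1))
          (κ' * (gz T υ δ x.1 * x.2.2)) : ℝ≥0∞)) x =
        ∑ I, (P2V a T u κ κ' υ δ 0 I).indicator (fun _ => (1 : ℝ≥0∞)) x := by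
      intro x
      by_cases hx : x ∈ C ×ˢ (C ×ˢ C)
      · have h3 : x.1 ∈ cube n (P2t n 0) := by
          rw [ht0]
          exact hx.1
        have h4 : x.2.1 ∈ cube n (P2t n 0) := by
          rw [ht0]
          exact hx.2.1
        have h5 : x.2.2 ∈ cube n (P2t n 0) := by
          rw [ht0]
          exact hx.2.2
        rw [Set.indicator_of_mem hx, P2_sum_V 0 x h3 h4 h5, N2]
        rfl
      · rw [Set.indicator_of_notMem hx]
        refine (Finset.sum_eq_zero fun I _ => Set.indicator_of_notMem (fun h => hx ?_) _).symm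
        have h3 := h.1
        have h4 := h.2.1
        have h5 := h.2.2.1
        rw [ht0] at h3 h4 h5
        exact ⟨h3, h4, h5⟩
    rw [lintegral_congr h2, lintegral_finsetSum _ fun I _ =>
      measurable_const.indicator (P2_meas_V 0)]
    refine Finset.sum_congr rfl fun I _ => ?_
    rw [lintegral_indicator (P2_meas_V 0), lintegral_const, one_mul,
      Measure.restrict_apply_univ]
  have hle : uW n ≤ volume.restrict C := by
    unfold uW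
    refine Measure.restrict_mono ?_ le_rfl
    intro x hx
    exact P2_cube_mono hx (by positivity)
  refine (lintegral_mono' hle le_rfl).trans ?_
  rw [hint]
  refine habs.trans ?_
  have hcard : ((Fintype.card (Finset (Fin n)) : ℕ) : ℝ≥0∞) / 2 ^ n = 1 := by
    rw [Fintype.card_finset, Fintype.card_fin, Nat.cast_pow, Nat.cast_ofNat]
    exact ENNReal.div_self (by positivity) (ENNReal.pow_ne_top (by norm_num))
  rw [hcard]
  calc (2 * ENNReal.ofReal (4 + 495616 * (n ^ 7 * d ^ 2 * (M + 1) / (κ0 ^ 2 * δ * η))) + 1) *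
        volume ((cube n (P2t n n)) ×ˢ ((cube n (P2t n n)) ×ˢ (cube n (P2t n n))))
      ≤ (2 * ENNReal.ofReal (4 + 495616 * (n ^ 7 * d ^ 2 * (M + 1) / (κ0 ^ 2 * δ * η))) + 1) *
        ENNReal.ofReal 8104 := by
        gcongr
        exact P2_box hn
    _ = ENNReal.ofReal ((2 * (4 + 495616 *
        (n ^ 7 * d ^ 2 * (M + 1) / (κ0 ^ 2 * δ * η))) + 1) * 8104) :=
        P2_alg (by positivity)
    _ ≤ ENNReal.ofReal (10 ^ 11 * n ^ 7 * d ^ 2 * (M + 1) / (κ0 ^ 2 * δ * η)) := by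
        refine ENNReal.ofReal_le_ofReal ?_
        have h7 : 10 ^ 11 * n ^ 7 * d ^ 2 * (M + 1) / (κ0 ^ 2 * δ * η) =
            10 ^ 11 * ((n : ℝ) ^ 7 * d ^ 2 * (M + 1) / (κ0 ^ 2 * δ * η)) := by ring
        rw [h7]
        linarith

end Pool.Agent.H.MP_0cad2f_co.NT
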