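import Pool.Agent.H.MP_0cad2f_co.NT.P1
import Pool.Agent.H.MP_0cad2f_co.NT.P2
import Pool.Agent.H.MP_0cad2f_co.NT.DeepM

/-!
The average length of the combined step, over the noise of one release and the weights (end of section 5 of the text).

`NN = N1 (w) + n² N2 + N1 (w')`, `b q = nz a S (a m0 - a m) ε q`, `T = S.erase m`, `insert m T = S`, `m0 ∈ T`.
First term: `P1` (with `κ`, `L = Ld n δ = 100 n/δ³ ≥ 1`, noise `ε`), the integrand does not depend on `w'`; third term: `P1` with `κ = 1`.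
Second term: `sli (b q) m η = nz (sli a m η) S u ε q = nzr (sli a m η) S u 0 ε q`, `η = et δ` (`m ∈ S`; `gz _ 0 _ _ = 1`), `u = a m0 - a m`: `P2` for the
configuration `sli a m η`, `T := S`, `υ = 0`: for `x` in the flat: `a m0 ⬝ᵥ x = 1`, `a m ⬝ᵥ x = 1 - η`, so `u ⬝ᵥ x = η`. The point: `z + η f`,
`z`, `f` the vectors of `Deep a S (δ/2)`: slacks of the `i ∉ S` in `[δ/2 - η (2/δ), 2/δ + η (2/δ)] ⊆ [3 δ/8, 3/δ]`, and `4 ε η ≤ 3 δ/8`; `M = 3/δ`.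
`uW = volume.restrict (cube 0) ≤ volume.restrict (cube (1/n²))`. Sum: `2 * 10⁸ n⁷ d²/(δ³ κ0 ε) + n² 10¹¹ n⁷ d² (4/δ) (16/δ²)/(κ0² ε) ≤ AA`.
-/

set_option autoImplicit false
open MeasureTheory ProbabilityTheory
open scoped ENNReal Classical

namespace Pool.Agent.H.MP_0cad2f_co.NT

variable {n d : ℕ} {a : Con n d} {S : Finset (Fin n)} {m m0 : Fin n} {κ : Wt n} {κ0 δ ε : ℝ}

/-- the bound for the average -/
noncomputable def AA (n d : ℕ) (δ ε κ0 : ℝ) : ℝ := 10 ^ 13 * n ^ 9 * d ^ 2 / (κ0 ^ 2 * ε * δ ^ 3)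

private theorem Avg_gz (S : Finset (Fin n)) (ε : ℝ) (q : Wt n) : gz S 0 ε q = 1 := by
  funext i
  unfold gz
  rw [Pi.one_apply, zero_mul, sub_zero, ite_self]

private theorem Avg_nzr (hm : m ∈ S) (u : Fin d → ℝ) (η ε : ℝ) (q : Wt n) :
    nzr (sli a m η) S u 0 ε q = sli (nz a S u ε q) m η := by
  funext i
  unfold nzr
  rw [Avg_gz, Pi.one_apply, inv_one, one_smul]
  by_cases hi : i = m
  · subst hi
    have h1 : sli a i η i = (1 - η)⁻¹ • a i := Function.update_self _ _ _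
    have h2 : sli (nz a S u ε q) i η i = (1 - η)⁻¹ • nz a S u ε q i := Function.update_self _ _ _
    have h3 : nz a S u ε q i = a i := if_pos hm
    have h4 : nz (sli a i η) S u ε q i = sli a i η i := if_pos hm
    rw [h4, h2, h3, h1]
  · have h1 : sli a m η i = a i := Function.update_of_ne hi _ _
    have h2 : sli (nz a S u ε q) m η i = nz a S u ε q i := Function.update_of_ne hi _ _
    rw [h2]
    unfold nz
    rw [h1]

private theorem Avg_sec {F : Wt n × Wt n → ℝ≥0∞} (hF : Measurable F) (q : Wt n) :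
    Measurable fun w => F (q, w) := hF.comp measurable_prodMk_left

private theorem Avg_cube (n : ℕ) : uW n ≤ volume.restrict (cube n (1 / (n : ℝ) ^ 2)) := by
  unfold uW
  refine Measure.restrict_mono ?_ le_rfl
  unfold cube
  refine Set.pi_mono fun i _ => Set.Icc_subset_Icc ?_ ?_
  · have : (0 : ℝ) ≤ 1 / (n : ℝ) ^ 2 := by positivity
    linarith
  · have : (0 : ℝ) ≤ 1 / (n : ℝ) ^ 2 := by positivity
    linarith

private theorem Avg_pt (hm0 : m0 ∈ S) (hmS : m ∈ S) (hmm : m ≠ m0) (hδ : 0 < δ) (hδ1 : δ ≤ 1)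
    (hε : 0 < ε) (hε1 : ε ≤ 1 / 8) (hD : Deep a S (δ / 2)) :
    (∀ x : Fin d → ℝ, (∀ i ∈ S, sli a m (et δ) i ⬝ᵥ x = 1) → (a m0 - a m) ⬝ᵥ x + 0 = et δ) ∧
    ∃ z : Fin d → ℝ, (∀ i ∈ S, sli a m (et δ) i ⬝ᵥ z = 1) ∧
      ∀ i, i ∉ S → 4 * ε * et δ ≤ sl (sli a m (et δ)) i z ∧ sl (sli a m (et δ)) i z ≤ 3 / δ := by
  have hη : et δ = δ ^ 2 / 16 := rfl
  have hη0 : 0 < et δ := by rw [hη]; positivity
  have hη1 : et δ ≤ 1 / 16 := by
    rw [hη]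
    have : δ ^ 2 ≤ 1 := pow_le_one₀ hδ.le hδ1
    linarith
  have hne : (1 - et δ) ≠ 0 := by linarith
  have hsm : sli a m (et δ) m = (1 - et δ)⁻¹ • a m := Function.update_self _ _ _
  have hsi : ∀ i, i ≠ m → sli a m (et δ) i = a i := fun i hi => Function.update_of_ne hi _ _
  constructor
  · intro x hx
    have h1 := hx m0 hm0
    rw [hsi m0 (Ne.symm hmm)] at h1
    have h2 := hx m hmS
    rw [hsm, smul_dotProduct, smul_eq_mul, inv_mul_eq_div, div_eq_iff hne, one_mul] at h2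
    rw [sub_dotProduct, h1, h2]
    ring
  · obtain ⟨z, -, hz1, hz2⟩ := hD.pt
    obtain ⟨f, -, hf1, hf2, hf3⟩ := hD.dir m hmS
    have hdot : ∀ i, a i ⬝ᵥ (z + et δ • f) = a i ⬝ᵥ z + et δ * (a i ⬝ᵥ f) := by
      intro i
      rw [dotProduct_add, dotProduct_smul, smul_eq_mul]
    refine ⟨z + et δ • f, ?_, ?_⟩
    · intro i hi
      by_cases him : i = m
      · subst him
        rw [hsm, smul_dotProduct, smul_eq_mul, hdot, hz1 i hi, hf2, inv_mul_eq_div,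
          div_eq_iff hne]
        ring
      · rw [hsi i him, hdot, hz1 i hi, hf1 i hi him]
        ring
    · intro i hi
      have him : i ≠ m := fun h => hi (h ▸ hmS)
      obtain ⟨h1, h2⟩ := hz2 i hi
      have h3 := abs_le.1 (hf3 i hi)
      have e1 : (1 : ℝ) / (δ / 2) = 2 / δ := by field_simp
      rw [e1] at h2 h3
      have e2 : et δ * (2 / δ) = δ / 8 := by
        rw [hη]
        field_simp
        norm_num
      have h4 := mul_le_mul_of_nonneg_left h3.1 hη0.le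
      have h5 := mul_le_mul_of_nonneg_left h3.2 hη0.le
      rw [mul_neg, e2] at h4
      rw [e2] at h5
      have e3 : sl (sli a m (et δ)) i (z + et δ • f) = sl a i z - et δ * (a i ⬝ᵥ f) := by
        unfold sl
        rw [hsi i him, hdot]
        ring
      rw [e3]
      constructor
      · have h6 : ε * et δ ≤ 1 / 8 * et δ := mul_le_mul_of_nonneg_right hε1 hη0.le
        have h7 : et δ ≤ δ / 16 := by
          rw [hη]
          nlinarith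
        linarith
      · have h6 : 2 / δ + δ / 8 ≤ 3 / δ := by
          rw [div_add' _ _ _ hδ.ne', div_le_div_iff_of_pos_right hδ]
          nlinarith
        linarith

private theorem Avg_num {κ0 δ ε : ℝ} (hκ0 : 0 < κ0) (hκ1 : κ0 ≤ 1) (hδ : 0 < δ) (hδ1 : δ ≤ 1)
    (hε : 0 < ε) (hn1 : (1 : ℝ) ≤ n) :
    ENNReal.ofReal (10 ^ 6 * Ld n δ * n ^ 6 * d ^ 2 / (κ0 * ε)) +
      ((n : ℝ≥0∞) ^ 2 *
        ENNReal.ofReal (10 ^ 11 * n ^ 7 * d ^ 2 * (3 / δ + 1) / (κ0 ^ 2 * ε * et δ)) +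
      ENNReal.ofReal (10 ^ 6 * Ld n δ * n ^ 6 * d ^ 2 / (κ0 * ε))) ≤
      ENNReal.ofReal (AA n d δ ε κ0) := by
  have hn0 : (0 : ℝ) < n := by linarith
  have hL : Ld n δ = 100 * n / δ ^ 3 := rfl
  have hη : et δ = δ ^ 2 / 16 := rfl
  have hη0 : 0 < et δ := by rw [hη]; positivity
  have hAA : AA n d δ ε κ0 = 10 ^ 13 * n ^ 9 * d ^ 2 / (κ0 ^ 2 * ε * δ ^ 3) := rfl
  have hnn : (n : ℝ≥0∞) ^ 2 = ENNReal.ofReal ((n : ℝ) ^ 2) := by
    rw [ENNReal.ofReal_pow hn0.le, ENNReal.ofReal_natCast]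
  have hp1 : 0 ≤ 10 ^ 6 * Ld n δ * n ^ 6 * d ^ 2 / (κ0 * ε) := by
    rw [hL]
    positivity
  have hp2 : 0 ≤ 10 ^ 11 * (n : ℝ) ^ 7 * d ^ 2 * (3 / δ + 1) / (κ0 ^ 2 * ε * et δ) := by
    positivity
  rw [hnn, ← ENNReal.ofReal_mul (by positivity), ← ENNReal.ofReal_add (by positivity) hp1,
    ← ENNReal.ofReal_add hp1 (by positivity)]
  refine ENNReal.ofReal_le_ofReal ?_
  obtain ⟨Z, hZ⟩ : ∃ Z : ℝ, Z = (n : ℝ) ^ 9 * d ^ 2 / (κ0 ^ 2 * ε * δ ^ 3) := ⟨_, rfl⟩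
  have hX : 0 ≤ Z := by rw [hZ]; positivity
  have c1 : 10 ^ 6 * Ld n δ * n ^ 6 * d ^ 2 / (κ0 * ε) ≤ 100000000 * Z := by
    rw [hL, hZ]
    have e5 : 10 ^ 6 * (100 * (n : ℝ) / δ ^ 3) * n ^ 6 * d ^ 2 / (κ0 * ε) =
        100000000 * ((n : ℝ) ^ 7 * d ^ 2 * κ0 / (κ0 ^ 2 * ε * δ ^ 3)) := by
      field_simp
      ring
    rw [e5]
    refine mul_le_mul_of_nonneg_left ?_ (by norm_num)
    refine div_le_div_of_nonneg_right ?_ (by positivity)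
    have h7 : (n : ℝ) ^ 7 ≤ (n : ℝ) ^ 9 := pow_le_pow_right₀ hn1 (by norm_num)
    calc (n : ℝ) ^ 7 * d ^ 2 * κ0 ≤ (n : ℝ) ^ 9 * d ^ 2 * 1 := by gcongr
      _ = (n : ℝ) ^ 9 * d ^ 2 := mul_one _
  have c2 : (n : ℝ) ^ 2 * (10 ^ 11 * (n : ℝ) ^ 7 * d ^ 2 * (3 / δ + 1) / (κ0 ^ 2 * ε * et δ)) ≤
      6400000000000 * Z := by
    have e6 : 3 / δ + 1 ≤ 4 / δ := by
      rw [div_add' _ _ _ hδ.ne', div_le_div_iff_of_pos_right hδ]
      linarith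
    have e7 : (n : ℝ) ^ 2 * (10 ^ 11 * (n : ℝ) ^ 7 * d ^ 2 * (4 / δ) / (κ0 ^ 2 * ε * et δ)) =
        6400000000000 * Z := by
      rw [hη, hZ]
      field_simp
      ring
    rw [← e7]
    gcongr
  have c3 : AA n d δ ε κ0 = 10000000000000 * Z := by
    rw [hAA, hZ]
    ring
  rw [c3]
  linarith

theorem NN_avg (hm0 : m0 ∈ S) (hm : m ∈ S.erase m0) (hκ : ∀ i, κ0 ≤ κ i ∧ κ i ≤ 1)
    (hκ0 : 0 < κ0) (hκ1 : κ0 ≤ 1) (hδ : 0 < δ) (hδ1 : δ ≤ 1) (hε : 0 < ε) (hε1 : ε ≤ 1 / 8)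
    (hn : 2 ≤ n) (hd : 1 ≤ d) (hD : Deep a S (δ / 2))
    (hr : ∀ᵐ q : Wt n, Reg0 (nz a S (a m0 - a m) ε q))
    (hrs : ∀ᵐ q : Wt n, Reg0 (sli (nz a S (a m0 - a m) ε q) m (et δ))) :
    ∫⁻ q, ∫⁻ w, ∫⁻ w', (NN (nz a S (a m0 - a m) ε q) S m δ (κ * w) w' : ℝ≥0∞)
      ∂(uW n) ∂(uW n) ∂(uW n) ≤ ENNReal.ofReal (AA n d δ ε κ0) := by
  obtain ⟨hmm, hmS⟩ := Finset.mem_erase.1 hm
  obtain ⟨b, hb⟩ : ∃ b : Wt n → Con n d, b = fun q => nz a S (a m0 - a m) ε q := ⟨_, rfl⟩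
  obtain ⟨T, hT⟩ : ∃ T : Finset (Fin n), T = S.erase m := ⟨_, rfl⟩
  have hTS : insert m T = S := by rw [hT]; exact Finset.insert_erase hmS
  have hm0T : m0 ∈ T := by rw [hT]; exact Finset.mem_erase.2 ⟨Ne.symm hmm, hm0⟩
  have hmT : m ∉ T := by rw [hT]; exact Finset.notMem_erase m S
  have hn0 : (0 : ℝ) < n := by exact_mod_cast (by omega : 0 < n)
  have hn1 : (1 : ℝ) ≤ n := by exact_mod_cast (by omega : 1 ≤ n)
  have hd1 : (1 : ℝ) ≤ d := by exact_mod_cast hd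
  have hδ3 : δ ^ 3 ≤ 1 := pow_le_one₀ hδ.le hδ1
  have hL : Ld n δ = 100 * n / δ ^ 3 := rfl
  have hL1 : 1 ≤ Ld n δ := by
    rw [hL, le_div_iff₀ (by positivity)]
    linarith
  have hη : et δ = δ ^ 2 / 16 := rfl
  have hη0 : 0 < et δ := by rw [hη]; positivity
  have hη1 : et δ ≤ 1 := by
    rw [hη]
    have : δ ^ 2 ≤ 1 := pow_le_one₀ hδ.le hδ1
    linarith
  -- the three terms
  have hbm : Measurable b := by
    rw [hb]
    exact (measurable_nz (d := d) S m m0 ε).comp (measurable_const.prodMk measurable_id)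
  have hA : ∀ κ' : Wt n, Measurable fun x : Wt n × Wt n =>
      ((N1 (b x.1) T m (Ld n δ) (κ' * x.2) : ℕ) : ℝ≥0∞) := by
    intro κ'
    have h1 : Measurable fun x : Wt n × Wt n => (b x.1, κ' * x.2) :=
      (hbm.comp measurable_fst).prodMk (measurable_const.mul measurable_snd)
    have h2 := (measurable_N1 (d := d) T m (Ld n δ)).comp h1
    exact (measurable_of_countable fun k : ℕ => (k : ℝ≥0∞)).comp h2
  have hA1 : Measurable fun x : Wt n × Wt n =>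
      ((N1 (b x.1) T m (Ld n δ) x.2 : ℕ) : ℝ≥0∞) := by
    have h := hA 1
    simp only [one_mul] at h
    exact h
  have hAq : ∀ (κ' : Wt n) (q : Wt n), Measurable fun w : Wt n =>
      ((N1 (b q) T m (Ld n δ) (κ' * w) : ℕ) : ℝ≥0∞) := by
    intro κ' q
    exact Avg_sec (hA κ') q
  have hAq1 : ∀ (q : Wt n), Measurable fun w : Wt n =>
      ((N1 (b q) T m (Ld n δ) w : ℕ) : ℝ≥0∞) := by
    intro q
    exact Avg_sec hA1 q
  have e1 : ∀ q w w' : Wt n, ((NN (b q) S m δ (κ * w) w' : ℕ) : ℝ≥0∞) =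
      ((N1 (b q) T m (Ld n δ) (κ * w) : ℕ) : ℝ≥0∞) +
        ((n : ℝ≥0∞) ^ 2 * ((N2 (sli (b q) m (et δ)) S (κ * w) w' : ℕ) : ℝ≥0∞) +
          ((N1 (b q) T m (Ld n δ) w' : ℕ) : ℝ≥0∞)) := by
    intro q w w'
    unfold NN
    rw [hT]
    push_cast
    ring
  have hone : uW n Set.univ = 1 := measure_univ
  have e2 : ∀ q w : Wt n, ∫⁻ w', ((NN (b q) S m δ (κ * w) w' : ℕ) : ℝ≥0∞) ∂(uW n) =
      ((N1 (b q) T m (Ld n δ) (κ * w) : ℕ) : ℝ≥0∞) +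
        ((n : ℝ≥0∞) ^ 2 * ∫⁻ w', ((N2 (sli (b q) m (et δ)) S (κ * w) w' : ℕ) : ℝ≥0∞) ∂(uW n) +
          ∫⁻ w', ((N1 (b q) T m (Ld n δ) w' : ℕ) : ℝ≥0∞) ∂(uW n)) := by
    intro q w
    rw [lintegral_congr fun w' => e1 q w w', lintegral_add_left measurable_const,
      lintegral_add_right _ (hAq1 q), lintegral_const, hone, mul_one,
      lintegral_const_mul' _ _ (by finiteness)]
  have e3 : ∀ q : Wt n, ∫⁻ w, ∫⁻ w', ((NN (b q) S m δ (κ * w) w' : ℕ) : ℝ≥0∞)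
      ∂(uW n) ∂(uW n) = ∫⁻ w, ((N1 (b q) T m (Ld n δ) (κ * w) : ℕ) : ℝ≥0∞) ∂(uW n) +
        ((n : ℝ≥0∞) ^ 2 * ∫⁻ w, ∫⁻ w', ((N2 (sli (b q) m (et δ)) S (κ * w) w' : ℕ) : ℝ≥0∞)
          ∂(uW n) ∂(uW n) + ∫⁻ w', ((N1 (b q) T m (Ld n δ) w' : ℕ) : ℝ≥0∞) ∂(uW n)) := by
    intro q
    rw [lintegral_congr fun w => e2 q w, lintegral_add_left (hAq κ q),
      lintegral_add_right _ measurable_const, lintegral_const, hone, mul_one,
      lintegral_const_mul' _ _ (by finiteness)]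
  have hAint : Measurable fun q : Wt n =>
      ∫⁻ w, ((N1 (b q) T m (Ld n δ) (κ * w) : ℕ) : ℝ≥0∞) ∂(uW n) :=
    (hA κ).lintegral_prod_right'
  have hAint1 : Measurable fun q : Wt n =>
      ∫⁻ w, ((N1 (b q) T m (Ld n δ) w : ℕ) : ℝ≥0∞) ∂(uW n) :=
    hA1.lintegral_prod_right'
  have e4 : ∫⁻ q, ∫⁻ w, ∫⁻ w', ((NN (b q) S m δ (κ * w) w' : ℕ) : ℝ≥0∞)
      ∂(uW n) ∂(uW n) ∂(uW n) =
      ∫⁻ q, ∫⁻ w, ((N1 (b q) T m (Ld n δ) (κ * w) : ℕ) : ℝ≥0∞) ∂(uW n) ∂(uW n) +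
        ((n : ℝ≥0∞) ^ 2 * ∫⁻ q, ∫⁻ w, ∫⁻ w',
          ((N2 (sli (b q) m (et δ)) S (κ * w) w' : ℕ) : ℝ≥0∞) ∂(uW n) ∂(uW n) ∂(uW n) +
          ∫⁻ q, ∫⁻ w', ((N1 (b q) T m (Ld n δ) w' : ℕ) : ℝ≥0∞) ∂(uW n) ∂(uW n)) := by
    rw [lintegral_congr e3, lintegral_add_left hAint, lintegral_add_right _ hAint1,
      lintegral_const_mul' _ _ (by finiteness)]
  -- the bounds
  have hr1 : ∀ᵐ q : Wt n, Reg0 (nz a (insert m T) (a m0 - a m) ε q) := by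
    rw [hTS]
    exact hr
  have b1 : ∫⁻ q, ∫⁻ w, ((N1 (b q) T m (Ld n δ) (κ * w) : ℕ) : ℝ≥0∞) ∂(uW n) ∂(uW n) ≤
      ENNReal.ofReal (10 ^ 6 * Ld n δ * n ^ 6 * d ^ 2 / (κ0 * ε)) := by
    have h := P1 (a := a) hm0T hmT hκ hκ0 hL1 hε (by linarith) hn hd hr1
    rw [hTS] at h
    rw [hb]
    exact h
  have b3 : ∫⁻ q, ∫⁻ w, ((N1 (b q) T m (Ld n δ) w : ℕ) : ℝ≥0∞) ∂(uW n) ∂(uW n) ≤
      ENNReal.ofReal (10 ^ 6 * Ld n δ * n ^ 6 * d ^ 2 / (κ0 * ε)) := by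
    have h := P1 (a := a) (κ := 1) hm0T hmT (fun _ => ⟨hκ1, le_rfl⟩) hκ0 hL1 hε (by linarith)
      hn hd hr1
    rw [hTS] at h
    simp only [one_mul] at h
    rw [hb]
    exact h
  obtain ⟨hu, hz⟩ := Avg_pt hm0 hmS hmm hδ hδ1 hε hε1 hD
  have b2 : ∫⁻ q, ∫⁻ w, ∫⁻ w', ((N2 (sli (b q) m (et δ)) S (κ * w) w' : ℕ) : ℝ≥0∞)
      ∂(uW n) ∂(uW n) ∂(uW n) ≤
      ENNReal.ofReal (10 ^ 11 * n ^ 7 * d ^ 2 * (3 / δ + 1) / (κ0 ^ 2 * ε * et δ)) := by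
    have h := P2 (a := sli a m (et δ)) (T := S) (κ := κ) (κ' := 1) (Or.inl rfl) hη0 hη1 hε hε1
      (by positivity) hu hz hκ (fun _ => ⟨hκ1, le_rfl⟩) hκ0 hn hd (by
        simp only [Avg_nzr hmS]
        exact hrs)
    simp only [Avg_nzr hmS, Avg_gz, one_mul] at h
    refine le_trans ?_ h
    rw [hb]
    refine lintegral_mono fun q => ?_
    refine lintegral_mono' (Avg_cube n) fun w => ?_
    exact lintegral_mono' (Avg_cube n) fun w' => le_rfl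
  have hgoal : ∫⁻ q, ∫⁻ w, ∫⁻ w', ((NN (b q) S m δ (κ * w) w' : ℕ) : ℝ≥0∞)
      ∂(uW n) ∂(uW n) ∂(uW n) ≤ ENNReal.ofReal (AA n d δ ε κ0) := by
    rw [e4]
    refine (add_le_add b1 (add_le_add ?_ b3)).trans (Avg_num hκ0 hκ1 hδ hδ1 hε hn1)
    exact mul_le_mul_right b2 _
  rw [hb] at hgoal
  exact hgoal

end Pool.Agent.H.MP_0cad2f_co.NT
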