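import Mathlib

set_option autoImplicit false
open MeasureTheory
open scoped ENNReal

namespace Pool.Agent.H.MP_0cad2f_co.NT

variable {ι : Type*} [Fintype ι] [DecidableEq ι]
variable {E : Type*} [NormedAddCommGroup E] [NormedSpace ℝ E] [FiniteDimensional ℝ E]
  [MeasureSpace E] [BorelSpace E] [(volume : Measure E).IsAddHaarMeasure]

/-- integrate one coordinate first (use `lmarginal`) -/
theorem lintegral_pi_update {X : ι → Type*} [∀ i, MeasurableSpace (X i)]
    (μ : ∀ i, Measure (X i)) [∀ i, SigmaFinite (μ i)] (i : ι) (f : (∀ i, X i) → ℝ≥0∞)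
    (hf : Measurable f) (hprob : μ i Set.univ = 1) :
    ∫⁻ x, f x ∂(Measure.pi μ) =
      ∫⁻ x, ∫⁻ y, f (Function.update x i y) ∂(μ i) ∂(Measure.pi μ) := by
  have hg : Measurable (fun a : ∀ i, X i => ∫⁻ x, f (Function.update a i x) ∂(μ i)) := by
    have h1 := hf.lmarginal μ (s := {i})
    rwa [lmarginal_singleton] at h1
  have h1 := lmarginal_erase' (μ := μ) f hf (Finset.mem_univ i)
  have h2 := lmarginal_erase' (μ := μ) _ hg (Finset.mem_univ i)
  simp only [Function.update_idem, lintegral_const, hprob, mul_one] at h2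
  have h3 := h1.trans h2.symm
  rw [lmarginal_univ, lmarginal_univ] at h3
  by_cases hne : Nonempty (∀ i, X i)
  · obtain ⟨a⟩ := hne
    exact congrFun h3 a
  · have h4 : IsEmpty (∀ i, X i) := not_nonempty_iff.1 hne
    rw [lintegral_of_isEmpty, lintegral_of_isEmpty]

private theorem upd_congr (f g : (ι → E) → ℝ≥0∞) (hf : Measurable f) (hg : Measurable g)
    (i : ι) (h : ∀ x, ∫⁻ y, f (Function.update x i y) = ∫⁻ y, g (Function.update x i y)) :
    ∫⁻ x, f x = ∫⁻ x, g x := by
  have h1 := lmarginal_erase' (μ := fun _ : ι => (volume : Measure E)) f hf (Finset.mem_univ i)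
  have h2 := lmarginal_erase' (μ := fun _ : ι => (volume : Measure E)) g hg (Finset.mem_univ i)
  simp only [h] at h1
  have h3 := congrFun (h1.trans h2.symm) (fun _ => (0 : E))
  rw [lmarginal_univ, lmarginal_univ] at h3
  exact h3

private theorem upd_affine (F : E → ℝ≥0∞) (hF : Measurable F) (L : E →ₗ[ℝ] E)
    (hL : LinearMap.det L ≠ 0) (w : E) :
    ∫⁻ y, ENNReal.ofReal |LinearMap.det L| * F (L y + w) = ∫⁻ y, F y := by
  have hLm : Measurable L := L.continuous_of_finiteDimensional.measurable
  have hFw : Measurable fun z => F (z + w) := hF.comp (measurable_add_const w)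
  have hFL : Measurable fun y => F (L y + w) := hFw.comp hLm
  rw [lintegral_const_mul _ hFL]
  have h1 : ∫⁻ y, F (L y + w) = ∫⁻ z, F (z + w) ∂(Measure.map L volume) :=
    (lintegral_map hFw hLm).symm
  rw [h1, Measure.map_linearMap_addHaar_eq_smul_addHaar volume hL, lintegral_smul_measure,
    lintegral_add_right_eq_self F w, smul_eq_mul, ← mul_assoc, ← ENNReal.ofReal_mul (abs_nonneg _),
    abs_inv, mul_inv_cancel₀ (abs_ne_zero.2 hL), ENNReal.ofReal_one, one_mul]

/-- change of variables in one coordinate by an affine map which depends on the others -/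
theorem lintegral_update_linear (f : (ι → E) → ℝ≥0∞) (hf : Measurable f) (i : ι)
    (T : (ι → E) → E →ₗ[ℝ] E) (v : (ι → E) → E)
    (hT : ∀ x y, T (Function.update x i y) = T x) (hv : ∀ x y, v (Function.update x i y) = v x)
    (hTm : Measurable (fun p : (ι → E) × E => T p.1 p.2)) (hvm : Measurable v)
    (hdm : Measurable (fun x => LinearMap.det (T x)))
    (hdet : ∀ x, LinearMap.det (T x) ≠ 0) :
    ∫⁻ x, ENNReal.ofReal |LinearMap.det (T x)| * f (Function.update x i (T x (x i) + v x)) =
      ∫⁻ x, f x := by
  have hm1 : Measurable fun x : ι → E => T x (x i) + v x := by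
    have h1 : Measurable fun x : ι → E => (x, x i) :=
      measurable_id.prodMk (measurable_pi_apply i)
    exact (hTm.comp h1).add hvm
  have hm2 : Measurable fun x : ι → E => Function.update x i (T x (x i) + v x) :=
    (measurable_update' (a := i)).comp (measurable_id.prodMk hm1)
  refine upd_congr _ _ ((ENNReal.measurable_ofReal.comp hdm.abs).mul (hf.comp hm2)) hf i
    fun x => ?_
  simp only [hT, hv, Function.update_idem, Function.update_self]
  exact upd_affine (fun y => f (Function.update x i y)) (hf.comp (measurable_update x)) (T x)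
    (hdet x) (v x)

/-- the case of a homothety: `x_i -> r x_i + v` -/
theorem lintegral_update_smul (f : (ι → E) → ℝ≥0∞) (hf : Measurable f) (i : ι) {r : ℝ}
    (hr : 0 < r) (v : (ι → E) → E) (hv : ∀ x y, v (Function.update x i y) = v x)
    (hvm : Measurable v) :
    ∫⁻ x, f (Function.update x i (r • x i + v x)) =
      ENNReal.ofReal ((r⁻¹) ^ (Module.finrank ℝ E)) * ∫⁻ x, f x := by
  have hd : LinearMap.det (r • (LinearMap.id : E →ₗ[ℝ] E)) = r ^ Module.finrank ℝ E := by
    rw [LinearMap.det_smul, LinearMap.det_id, mul_one]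
  have hp : 0 < r ^ Module.finrank ℝ E := pow_pos hr _
  have h := lintegral_update_linear f hf i (fun _ => r • (LinearMap.id : E →ₗ[ℝ] E)) v
    (fun _ _ => rfl) hv (by
      change Measurable fun p : (ι → E) × E => r • p.2
      exact measurable_snd.const_smul r) hvm measurable_const
    (fun _ => by rw [hd]; exact hp.ne')
  simp only [hd, abs_of_pos hp] at h
  have hm2 : Measurable fun x : ι → E => f (Function.update x i (r • x i + v x)) :=
    hf.comp ((measurable_update' (a := i)).comp
      (measurable_id.prodMk (((measurable_pi_apply i).const_smul r).add hvm)))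
  have h2 : ∫⁻ x, ENNReal.ofReal (r ^ Module.finrank ℝ E) *
      f (Function.update x i (r • x i + v x)) = ∫⁻ x, f x := h
  rw [lintegral_const_mul _ hm2] at h2
  rw [← h2, ← mul_assoc, ← ENNReal.ofReal_mul (by positivity), ← mul_pow,
    inv_mul_cancel₀ hr.ne', one_pow, ENNReal.ofReal_one, one_mul]

end Pool.Agent.H.MP_0cad2f_co.NT
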