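import Pool.Agent.H.MP_0cad2f_co.NT.Meas
import Pool.Agent.H.MP_0cad2f_co.NT.Upd
import Pool.Agent.H.MP_0cad2f_co.helper11.Gauss2

/-!
Decoupling (Lemma 6.1 of the text), and the density of the law.

`decouple`: fix `q` with `q m i ∈ [1, 2]`. `∫ 1_Bdd F dμ = ∫ dens a * 1_Bdd a * F a da`. The map `a ↦ mnz a S m0 ε q` is a composition of the maps
`a ↦ update a i (a i + v i a)`, `i ∉ S`, where `v i a = ∑ m ∈ S.erase m0, ε (q m i - 1) (a m0 - a m)` depends only on the rows of `S`;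
`lintegral_update_smul` (with `r = 1`) shows that the Lebesgue integral of a function is not changed, so
`∫ dens a * 1_Bdd a * F a da = ∫ dens (mnz a) * 1_Bdd (mnz a) * F (mnz a) da`. If `Bdd R (mnz a)`: `|v i| ≤ 2 n ε R`, and with `b i` the row `i` of
`mnz a`, `|a i - c i|² - |b i - c i|² = |v i|² - 2 (b i - c i) ⬝ᵥ v i ≤ 4 n² ε² R² + 8 n ε R²` (`|c i| ≤ 1 ≤ R`), the sum over `i` is at
most `n (4 n ε R² + 8 n ε R²) = 12 n² ε R² ≤ 2 σ²`, so `dens (mnz a) ≤ e * dens a ≤ 3 dens a` (`dens_le`). Integrate over `q` (the measure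
`Measure.pi fun _ => uW n` is a probability measure, concentrated on the `q` with `q m ∈ cube n 0`).
-/

set_option autoImplicit false
open MeasureTheory ProbabilityTheory
open scoped ENNReal Classical

namespace Pool.Agent.H.MP_0cad2f_co.NT

variable {n d : ℕ} {c : Con n d} {σ R ε : ℝ}

/-- density of the law of the constraint vectors -/
noncomputable def dens (c : Con n d) (σ : ℝ) (a : Con n d) : ℝ≥0∞ :=
  ∏ i, ∏ j, gaussianPDF (c i j) (Real.toNNReal (σ ^ 2)) (a i j)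

theorem measurable_dens (c : Con n d) (σ : ℝ) : Measurable (dens c σ) := by
  unfold dens
  have hpm : ∀ i : Fin n, Measurable fun x : Fin d → ℝ =>
      ∏ j, gaussianPDF (c i j) (Real.toNNReal (σ ^ 2)) (x j) :=
    fun i => Finset.measurable_fun_prod _ fun j _ => (measurable_gaussianPDF _ _).comp
      (measurable_pi_apply j)
  exact Finset.measurable_fun_prod _ fun i _ => (hpm i).comp (measurable_pi_apply i)

private theorem dec_coe_var (σ : ℝ) : ((Real.toNNReal (σ ^ 2) : NNReal) : ℝ) = σ ^ 2 :=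
  Real.coe_toNNReal _ (sq_nonneg σ)

private theorem dec_var_ne (hσ : 0 < σ) : Real.toNNReal (σ ^ 2) ≠ 0 := by
  intro h
  have h2 : ((Real.toNNReal (σ ^ 2) : NNReal) : ℝ) = 0 := by rw [h]; rfl
  rw [dec_coe_var] at h2
  have : 0 < σ ^ 2 := by positivity
  linarith

theorem lintegral_mu (hσ : 0 < σ) (f : Con n d → ℝ≥0∞) (hf : Measurable f) :
    ∫⁻ a, f a ∂(mu c σ) = ∫⁻ a : Con n d, dens c σ a * f a := by
  have h : mu c σ = (volume : Measure (Con n d)).withDensity (dens c σ) :=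
    helper11.TD.noise_density c (dec_var_ne hσ)
  rw [h, lintegral_withDensity_eq_lintegral_mul _ (measurable_dens c σ) hf]
  rfl

/-- the real density -/
private theorem dens_eq (a : Con n d) :
    dens c σ a = ENNReal.ofReal ((∏ _i : Fin n, ∏ _j : Fin d,
      (Real.sqrt (2 * Real.pi * σ ^ 2))⁻¹) *
        Real.exp (-(∑ i, ((a i - c i) ⬝ᵥ (a i - c i))) / (2 * σ ^ 2))) := by
  have h0 : dens c σ a = ENNReal.ofReal (∏ i, ∏ j,
      gaussianPDFReal (c i j) (Real.toNNReal (σ ^ 2)) (a i j)) := by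
    rw [dens, ENNReal.ofReal_prod_of_nonneg fun i _ =>
      Finset.prod_nonneg fun j _ => gaussianPDFReal_nonneg _ _ _]
    refine Finset.prod_congr rfl fun i _ => ?_
    rw [ENNReal.ofReal_prod_of_nonneg fun j _ => gaussianPDFReal_nonneg _ _ _]
    rfl
  rw [h0]
  congr 1
  have h1 : -(∑ i, ((a i - c i) ⬝ᵥ (a i - c i))) / (2 * σ ^ 2) =
      ∑ i : Fin n, ∑ j : Fin d, -(a i j - c i j) ^ 2 / (2 * σ ^ 2) := by
    rw [← Finset.sum_neg_distrib, Finset.sum_div]
    refine Finset.sum_congr rfl fun i _ => ?_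
    rw [dotProduct, ← Finset.sum_neg_distrib, Finset.sum_div]
    refine Finset.sum_congr rfl fun j _ => ?_
    rw [Pi.sub_apply, ← sq]
  rw [h1, Real.exp_sum, ← Finset.prod_mul_distrib]
  refine Finset.prod_congr rfl fun i _ => ?_
  rw [Real.exp_sum, ← Finset.prod_mul_distrib]
  refine Finset.prod_congr rfl fun j _ => ?_
  rw [gaussianPDFReal, dec_coe_var]

/-- comparison of densities: `dens a = const * exp (- ∑ |a_i - c_i|^2 / (2 σ^2))` -/
theorem dens_le (hσ : 0 < σ) {a a' : Con n d} {s : ℝ}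
    (h : ∑ i, ((a' i - c i) ⬝ᵥ (a' i - c i)) - ∑ i, ((a i - c i) ⬝ᵥ (a i - c i)) ≤
      2 * σ ^ 2 * s) :
    dens c σ a ≤ ENNReal.ofReal (Real.exp s) * dens c σ a' := by
  rw [dens_eq a, dens_eq a', ← ENNReal.ofReal_mul (Real.exp_pos _).le]
  refine ENNReal.ofReal_le_ofReal ?_
  rw [mul_left_comm, ← Real.exp_add]
  refine mul_le_mul_of_nonneg_left (Real.exp_le_exp.2 ?_) ?_
  · have hs : 0 < 2 * σ ^ 2 := by positivity
    rw [div_le_iff₀ hs, add_mul, div_mul_cancel₀ _ hs.ne']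
    linarith
  · exact Finset.prod_nonneg fun i _ => Finset.prod_nonneg fun j _ =>
      inv_nonneg.2 (Real.sqrt_nonneg _)

/-- the displacement of row `i` -/
private noncomputable def dv (S : Finset (Fin n)) (m0 : Fin n) (ε : ℝ) (q : Fin n → Wt n)
    (a : Con n d) (i : Fin n) : Fin d → ℝ :=
  ∑ m ∈ S.erase m0, (ε * (q m i - 1)) • (a m0 - a m)

/-- the rows of `U` are displaced -/
private noncomputable def sh (U S : Finset (Fin n)) (m0 : Fin n) (ε : ℝ) (q : Fin n → Wt n)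
    (a : Con n d) : Con n d :=
  fun i => if i ∈ U then a i + dv S m0 ε q a i else a i

private theorem dv_update {S : Finset (Fin n)} {m0 : Fin n} (hm0 : m0 ∈ S) (q : Fin n → Wt n)
    (a : Con n d) {i : Fin n} (hi : i ∉ S) (y : Fin d → ℝ) (k : Fin n) :
    dv S m0 ε q (Function.update a i y) k = dv S m0 ε q a k := by
  unfold dv
  refine Finset.sum_congr rfl fun m hm => ?_
  have h1 : m0 ≠ i := fun h => hi (h ▸ hm0)
  have h2 : m ≠ i := fun h => hi (h ▸ Finset.mem_of_mem_erase hm)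
  rw [Function.update_of_ne h1, Function.update_of_ne h2]

private theorem measurable_dv (S : Finset (Fin n)) (m0 : Fin n) (ε : ℝ) (q : Fin n → Wt n)
    (i : Fin n) : Measurable (fun a : Con n d => dv S m0 ε q a i) := by
  unfold dv
  refine Finset.measurable_fun_sum _ fun m _ => ?_
  have h1 : Measurable fun a : Con n d => a m0 := measurable_pi_apply m0
  have h2 : Measurable fun a : Con n d => a m := measurable_pi_apply m
  exact (h1.sub h2).const_smul (ε * (q m i - 1))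

private theorem measurable_sh (U S : Finset (Fin n)) (m0 : Fin n) (ε : ℝ) (q : Fin n → Wt n) :
    Measurable (fun a : Con n d => sh U S m0 ε q a) := by
  refine measurable_pi_iff.2 fun i => ?_
  unfold sh
  by_cases hi : i ∈ U
  · simp only [hi, if_true]
    exact (measurable_pi_apply i).add (measurable_dv S m0 ε q i)
  · simp only [hi, if_false]
    exact measurable_pi_apply i

private theorem lintegral_sh {S : Finset (Fin n)} {m0 : Fin n} (hm0 : m0 ∈ S) (ε : ℝ)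
    (q : Fin n → Wt n) (G : Con n d → ℝ≥0∞) (hG : Measurable G) (U : Finset (Fin n))
    (hU : ∀ i ∈ U, i ∉ S) :
    ∫⁻ a : Con n d, G (sh U S m0 ε q a) = ∫⁻ a : Con n d, G a := by
  induction U using Finset.induction_on with
  | empty =>
    refine lintegral_congr fun a => ?_
    have h1 : sh ∅ S m0 ε q a = a := by
      funext i
      unfold sh
      rw [if_neg (Finset.notMem_empty i)]
    rw [h1]
  | insert i U hi ih =>
    have hiS : i ∉ S := hU i (Finset.mem_insert_self _ _)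
    have hU' : ∀ k ∈ U, k ∉ S := fun k hk => hU k (Finset.mem_insert_of_mem hk)
    rw [← ih hU']
    have h1 := lintegral_update_smul (E := Fin d → ℝ)
      (fun a : Con n d => G (sh U S m0 ε q a)) (hG.comp (measurable_sh U S m0 ε q)) i
      (r := 1) one_pos (fun a => dv S m0 ε q a i) (fun x y => dv_update hm0 q x hiS y i)
      (measurable_dv S m0 ε q i)
    rw [inv_one, one_pow, ENNReal.ofReal_one, one_mul] at h1
    rw [← h1]
    refine lintegral_congr fun a => ?_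
    congr 1
    funext k
    rw [one_smul]
    unfold sh
    by_cases hk : k = i
    · subst hk
      rw [if_pos (Finset.mem_insert_self _ _), if_neg hi, Function.update_self]
    · rw [dv_update hm0 q a hiS, Function.update_of_ne hk]
      by_cases hkU : k ∈ U
      · rw [if_pos (Finset.mem_insert_of_mem hkU), if_pos hkU]
      · rw [if_neg hkU, if_neg]
        intro h
        rcases Finset.mem_insert.1 h with h | h
        · exact hk h
        · exact hkU h

private theorem mnz_eq_sh (a : Con n d) (S : Finset (Fin n)) (m0 : Fin n) (ε : ℝ)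
    (q : Fin n → Wt n) : mnz a S m0 ε q = sh Sᶜ S m0 ε q a := by
  funext i
  unfold mnz sh dv
  by_cases hi : i ∈ S
  · rw [if_pos hi, if_neg (by simp [hi])]
  · rw [if_neg hi, if_pos (by simp [hi])]

private theorem dec_cs (x y : Fin d → ℝ) : (x ⬝ᵥ y) ^ 2 ≤ (x ⬝ᵥ x) * (y ⬝ᵥ y) := by
  simp only [dotProduct, ← sq]
  exact Finset.sum_mul_sq_le_sq_mul_sq _ _ _

private theorem dec_abs {x y : Fin d → ℝ} {K L : ℝ} (hK : 0 ≤ K) (hL : 0 ≤ L)
    (hx : x ⬝ᵥ x ≤ K ^ 2) (hy : y ⬝ᵥ y ≤ L ^ 2) : |x ⬝ᵥ y| ≤ K * L := by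
  refine abs_le_of_sq_le_sq ?_ (mul_nonneg hK hL)
  rw [mul_pow]
  refine (dec_cs x y).trans (mul_le_mul hx hy ?_ (sq_nonneg _))
  exact Finset.sum_nonneg fun j _ => mul_self_nonneg _

private theorem dec_sub {x y : Fin d → ℝ} (hx : x ⬝ᵥ x ≤ R ^ 2) (hy : y ⬝ᵥ y ≤ R ^ 2) :
    (x - y) ⬝ᵥ (x - y) ≤ (2 * R) ^ 2 := by
  have h1 : 0 ≤ (x + y) ⬝ᵥ (x + y) := Finset.sum_nonneg fun j _ => mul_self_nonneg _
  have h2 : (x - y) ⬝ᵥ (x - y) + (x + y) ⬝ᵥ (x + y) = 2 * (x ⬝ᵥ x) + 2 * (y ⬝ᵥ y) := by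
    simp only [sub_dotProduct, dotProduct_sub, add_dotProduct, dotProduct_add]
    ring
  nlinarith

private theorem dec_dot_dv (S : Finset (Fin n)) (m0 : Fin n) (hε : 0 ≤ ε) {q : Fin n → Wt n}
    (hq : ∀ m i, 1 ≤ q m i ∧ q m i ≤ 2) (a : Con n d) (i : Fin n) (y : Fin d → ℝ) {M : ℝ}
    (hM : 0 ≤ M) (hy : ∀ m ∈ S.erase m0, |y ⬝ᵥ (a m0 - a m)| ≤ M) :
    |y ⬝ᵥ dv S m0 ε q a i| ≤ n * ε * M := by
  unfold dv
  rw [dotProduct_sum]
  refine (Finset.abs_sum_le_sum_abs _ _).trans ?_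
  have h1 : ∀ m ∈ S.erase m0, |y ⬝ᵥ ((ε * (q m i - 1)) • (a m0 - a m))| ≤ ε * M := by
    intro m hm
    rw [dotProduct_smul, smul_eq_mul, abs_mul]
    refine mul_le_mul ?_ (hy m hm) (abs_nonneg _) hε
    obtain ⟨h2, h3⟩ := hq m i
    rw [abs_of_nonneg (mul_nonneg hε (by linarith))]
    nlinarith
  refine (Finset.sum_le_sum h1).trans ?_
  rw [Finset.sum_const, nsmul_eq_mul]
  have h2 : ((S.erase m0).card : ℝ) ≤ n := by
    have := Finset.card_le_univ (S.erase m0)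
    rw [Fintype.card_fin] at this
    exact_mod_cast this
  have h3 : 0 ≤ ε * M := mul_nonneg hε hM
  calc ((S.erase m0).card : ℝ) * (ε * M) ≤ n * (ε * M) := mul_le_mul_of_nonneg_right h2 h3
    _ = n * ε * M := by ring

private theorem dec_dens {S : Finset (Fin n)} {m0 : Fin n} (hm0 : m0 ∈ S) (hσ : 0 < σ)
    (hc : ∀ i, ∑ j, (c i j) ^ 2 ≤ 1) (hR : 1 ≤ R) (hε : 0 ≤ ε) (hε1 : n * ε ≤ 1)
    (hε2 : 6 * n ^ 2 * ε * R ^ 2 ≤ σ ^ 2) {q : Fin n → Wt n}
    (hq : ∀ m i, 1 ≤ q m i ∧ q m i ≤ 2) {a : Con n d} (hb : Bdd R (mnz a S m0 ε q)) :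
    dens c σ (mnz a S m0 ε q) ≤ 3 * dens c σ a := by
  have hR0 : 0 ≤ R := by linarith
  have hc' : ∀ i, c i ⬝ᵥ c i ≤ R ^ 2 := by
    intro i
    have h1 : c i ⬝ᵥ c i = ∑ j, (c i j) ^ 2 := by
      rw [dotProduct]
      exact Finset.sum_congr rfl fun j _ => (sq _).symm
    rw [h1]
    nlinarith [hc i]
  have haS : ∀ m ∈ S, a m ⬝ᵥ a m ≤ R ^ 2 := by
    intro m hm
    have h1 := hb m
    rw [mnz, if_pos hm] at h1
    exact h1
  have hu : ∀ m ∈ S.erase m0, (a m0 - a m) ⬝ᵥ (a m0 - a m) ≤ (2 * R) ^ 2 := fun m hm =>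
    dec_sub (haS m0 hm0) (haS m (Finset.mem_of_mem_erase hm))
  have hrow : ∀ i, (a i - c i) ⬝ᵥ (a i - c i) -
      (mnz a S m0 ε q i - c i) ⬝ᵥ (mnz a S m0 ε q i - c i) ≤ 12 * n * ε * R ^ 2 := by
    intro i
    by_cases hi : i ∈ S
    · have h1 : mnz a S m0 ε q i = a i := by rw [mnz, if_pos hi]
      rw [h1, sub_self]
      positivity
    · have h1 : mnz a S m0 ε q i = a i + dv S m0 ε q a i := by rw [mnz, if_neg hi]; rfl
      have hbi : (mnz a S m0 ε q i - c i) ⬝ᵥ (mnz a S m0 ε q i - c i) ≤ (2 * R) ^ 2 :=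
        dec_sub (hb i) (hc' i)
      set b := mnz a S m0 ε q i with hbdef
      set v := dv S m0 ε q a i with hvdef
      have h2 : |(b - c i) ⬝ᵥ v| ≤ n * ε * (2 * R * (2 * R)) :=
        dec_dot_dv S m0 hε hq a i (b - c i) (by positivity) fun m hm =>
          dec_abs (by positivity) (by positivity) hbi (hu m hm)
      have h3 : ∀ m ∈ S.erase m0, |v ⬝ᵥ (a m0 - a m)| ≤ n * ε * (2 * R * (2 * R)) := by
        intro m hm
        rw [dotProduct_comm]
        exact dec_dot_dv S m0 hε hq a i (a m0 - a m) (by positivity) fun l hl =>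
          dec_abs (by positivity) (by positivity) (hu m hm) (hu l hl)
      have h4 : |v ⬝ᵥ v| ≤ n * ε * (n * ε * (2 * R * (2 * R))) :=
        dec_dot_dv S m0 hε hq a i v (by positivity) h3
      have h5 : (a i - c i) = (b - c i) - v := by
        rw [h1]
        abel
      have h6 : (a i - c i) ⬝ᵥ (a i - c i) - (b - c i) ⬝ᵥ (b - c i) =
          v ⬝ᵥ v - 2 * ((b - c i) ⬝ᵥ v) := by
        rw [h5]
        generalize b - c i = y
        simp only [sub_dotProduct, dotProduct_sub]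
        rw [dotProduct_comm v y]
        ring
      rw [h6]
      have h7 : v ⬝ᵥ v ≤ 1 * (n * ε * (2 * R * (2 * R))) :=
        (le_abs_self _).trans (h4.trans (mul_le_mul_of_nonneg_right hε1 (by positivity)))
      have h8 := neg_abs_le ((b - c i) ⬝ᵥ v)
      nlinarith
  have hsum : ∑ i, ((a i - c i) ⬝ᵥ (a i - c i)) -
      ∑ i, ((mnz a S m0 ε q i - c i) ⬝ᵥ (mnz a S m0 ε q i - c i)) ≤ 2 * σ ^ 2 * 1 := by
    rw [← Finset.sum_sub_distrib]
    refine (Finset.sum_le_sum fun i _ => hrow i).trans ?_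
    rw [Finset.sum_const, Finset.card_univ, Fintype.card_fin, nsmul_eq_mul]
    nlinarith
  refine (dens_le hσ hsum).trans (mul_le_mul_left ?_ _)
  have h3 : Real.exp 1 ≤ 3 := by
    have := Real.exp_one_lt_d9
    linarith
  calc ENNReal.ofReal (Real.exp 1) ≤ ENNReal.ofReal 3 := ENNReal.ofReal_le_ofReal h3
    _ = 3 := by simp

private theorem dec_q {S : Finset (Fin n)} {m0 : Fin n} (hm0 : m0 ∈ S) (hσ : 0 < σ)
    (hc : ∀ i, ∑ j, (c i j) ^ 2 ≤ 1) (hR : 1 ≤ R) (hε : 0 ≤ ε) (hε1 : n * ε ≤ 1)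
    (hε2 : 6 * n ^ 2 * ε * R ^ 2 ≤ σ ^ 2) (F : Con n d → ℝ≥0∞) (hF : Measurable F)
    {q : Fin n → Wt n} (hq : ∀ m i, 1 ≤ q m i ∧ q m i ≤ 2) :
    ∫⁻ a, {a | Bdd R a}.indicator F a ∂(mu c σ) ≤
      3 * ∫⁻ a, F (mnz a S m0 ε q) ∂(mu c σ) := by
  have hmn : Measurable fun a : Con n d => mnz a S m0 ε q := by
    have h1 : (fun a : Con n d => mnz a S m0 ε q) = fun a => sh Sᶜ S m0 ε q a := by
      funext a
      exact mnz_eq_sh a S m0 ε q
    rw [h1]
    exact measurable_sh _ _ _ _ _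
  have hind : Measurable ({a : Con n d | Bdd R a}.indicator F) :=
    hF.indicator (measurableSet_bdd R)
  have hFm : Measurable fun a : Con n d => F (mnz a S m0 ε q) := hF.comp hmn
  rw [lintegral_mu hσ _ hind, lintegral_mu hσ _ hFm]
  have h1 : ∫⁻ a : Con n d, dens c σ a * {a | Bdd R a}.indicator F a =
      ∫⁻ a : Con n d, dens c σ (mnz a S m0 ε q) *
        {a | Bdd R a}.indicator F (mnz a S m0 ε q) := by
    have h2 := lintegral_sh hm0 ε q (fun a : Con n d => dens c σ a * {a | Bdd R a}.indicator F a)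
      ((measurable_dens c σ).mul hind) Sᶜ (fun i hi => Finset.mem_compl.1 hi)
    rw [← h2]
    refine lintegral_congr fun a => ?_
    rw [mnz_eq_sh]
  have hm2 : Measurable fun a : Con n d => dens c σ a * F (mnz a S m0 ε q) :=
    (measurable_dens c σ).mul hFm
  rw [h1, ← lintegral_const_mul _ hm2]
  refine lintegral_mono fun a => ?_
  by_cases hb : Bdd R (mnz a S m0 ε q)
  · have h3 : {a : Con n d | Bdd R a}.indicator F (mnz a S m0 ε q) = F (mnz a S m0 ε q) :=
      Set.indicator_of_mem (show mnz a S m0 ε q ∈ {a : Con n d | Bdd R a} from hb) F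
    show dens c σ (mnz a S m0 ε q) * {a | Bdd R a}.indicator F (mnz a S m0 ε q) ≤
      3 * (dens c σ a * F (mnz a S m0 ε q))
    rw [h3, ← mul_assoc]
    exact mul_le_mul_left (dec_dens hm0 hσ hc hR hε hε1 hε2 hq hb) _
  · have h3 : {a : Con n d | Bdd R a}.indicator F (mnz a S m0 ε q) = 0 :=
      Set.indicator_of_notMem (show mnz a S m0 ε q ∉ {a : Con n d | Bdd R a} from hb) F
    show dens c σ (mnz a S m0 ε q) * {a | Bdd R a}.indicator F (mnz a S m0 ε q) ≤
      3 * (dens c σ a * F (mnz a S m0 ε q))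
    rw [h3, mul_zero]
    exact zero_le

theorem decouple {S : Finset (Fin n)} {m0 : Fin n} (hm0 : m0 ∈ S) (hσ : 0 < σ)
    (hc : ∀ i, ∑ j, (c i j) ^ 2 ≤ 1) (hR : 1 ≤ R) (hε : 0 ≤ ε) (hε1 : n * ε ≤ 1)
    (hε2 : 6 * n ^ 2 * ε * R ^ 2 ≤ σ ^ 2) (F : Con n d → ℝ≥0∞) (hF : Measurable F) :
    ∫⁻ a, {a | Bdd R a}.indicator F a ∂(mu c σ) ≤
      3 * ∫⁻ q, ∫⁻ a, F (mnz a S m0 ε q) ∂(mu c σ) ∂(Measure.pi fun _ : Fin n => uW n) := by
  have hae : ∀ᵐ q : Fin n → Wt n ∂(Measure.pi fun _ : Fin n => uW n),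
      ∀ m, q m ∈ cube n 0 := by
    rw [ae_all_iff]
    intro m
    have h1 : ∀ᵐ w ∂(uW n), w ∈ cube n 0 := by
      unfold uW
      exact ae_restrict_mem (measurableSet_cube 0)
    exact (Measure.tendsto_eval_ae_ae (μ := fun _ : Fin n => uW n) (i := m)).eventually h1
  have h2 : ∀ᵐ q : Fin n → Wt n ∂(Measure.pi fun _ : Fin n => uW n),
      ∫⁻ a, {a | Bdd R a}.indicator F a ∂(mu c σ) ≤
        3 * ∫⁻ a, F (mnz a S m0 ε q) ∂(mu c σ) := by
    filter_upwards [hae] with q hq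
    refine dec_q hm0 hσ hc hR hε hε1 hε2 F hF fun m i => ?_
    have h3 := hq m i (Set.mem_univ i)
    rw [sub_zero, add_zero] at h3
    exact ⟨h3.1, h3.2⟩
  calc ∫⁻ a, {a | Bdd R a}.indicator F a ∂(mu c σ)
      = ∫⁻ _q : Fin n → Wt n, (∫⁻ a, {a | Bdd R a}.indicator F a ∂(mu c σ))
          ∂(Measure.pi fun _ : Fin n => uW n) := by
        rw [lintegral_const, measure_univ, mul_one]
    _ ≤ ∫⁻ q, 3 * ∫⁻ a, F (mnz a S m0 ε q) ∂(mu c σ)
          ∂(Measure.pi fun _ : Fin n => uW n) := lintegral_mono_ae h2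
    _ = 3 * ∫⁻ q, ∫⁻ a, F (mnz a S m0 ε q) ∂(mu c σ) ∂(Measure.pi fun _ : Fin n => uW n) :=
        lintegral_const_mul' _ _ (by simp)

end Pool.Agent.H.MP_0cad2f_co.NT
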