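import Mathlib

/-!
Majority (Lemma 6.2 of the text).

`φ m w = ∫ w', ∫ h, N m w w' h`, `∫ φ m ≤ A` for `m ∈ R`. `Wb` = the set of the `w` for which more than `R.card/2` of the `m ∈ R` have
`φ m w > 16 A`: `μ Wb ≤ 1/8` (Markov twice: `∫ #{m | φ m w > 16 A} ≤ R.card/16`). Let `w ∉ Wb` and `R' = {m ∈ R | φ m w ≤ 16 A}`,
`R'.card ≥ (R.card + 1)/2`. For `m ∈ R'`: `π {h | 1/2 < μ {w' | t < N m w w' h}} ≤ 2 ∫ h, μ {w' | t < N m w w' h} ≤ 2 φ m w/t ≤ 32 A/t ≤ 1`. By
independence (`Measure.pi` of a box: `Measure.pi_pi` for the rectangle, or `Set.pi`), the measure of the `h` with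
`∀ m ∈ R, 1/2 < μ {w' | t < N m w w' (h m)}` is at most `(32 A/t)^((R.card+1)/2)`. Fubini: the set of the `h` for which
`μ {w ∉ Wb | ∀ m ∈ R, ..} ≥ 1/4` has measure at most `4 (32 A/t)^..` (Markov). If `3/8 ≤ μ {w | ..}` then
`μ {w ∉ Wb | ..} ≥ 3/8 - 1/8`.
-/

set_option autoImplicit false
open MeasureTheory
open scoped ENNReal Classical

namespace Pool.Agent.H.MP_0cad2f_co.NT

variable {ι W W' H : Type*}
  [MeasurableSpace W] [MeasurableSpace W'] [MeasurableSpace H]

/-- the exceptional noises for the fixed weights `w` -/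
private def Major_B (ν' : Measure W') (N : ι → W → W' → H → ℕ) (t : ℕ) (m : ι) (w : W) : Set H :=
  {h | 1 / 2 < ν' {w' | t < N m w w' h}}

private theorem Major_meas (ν' : Measure W') [IsProbabilityMeasure ν'] {N : ι → W → W' → H → ℕ}
    (hN : ∀ m, Measurable fun p : W × W' × H => N m p.1 p.2.1 p.2.2) (t : ℕ) (m : ι) :
    MeasurableSet {p : W × H | p.2 ∈ Major_B ν' N t m p.1} := by
  have h1 : MeasurableSet {z : (W × H) × W' | t < N m z.1.1 z.2 z.1.2} := by
    have h2 : Measurable fun z : (W × H) × W' => N m z.1.1 z.2 z.1.2 :=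
      (hN m).comp ((measurable_fst.comp measurable_fst).prodMk
        (measurable_snd.prodMk (measurable_snd.comp measurable_fst)))
    exact measurableSet_lt measurable_const h2
  have h3 := measurable_measure_prodMk_left (ν := ν') h1
  exact measurableSet_lt measurable_const h3

/-- the probability of the exceptional noises -/
private theorem Major_prob (ν' : Measure W') [IsProbabilityMeasure ν'] (η : Measure H)
    [IsProbabilityMeasure η] {N : ι → W → W' → H → ℕ}
    (hN : ∀ m, Measurable fun p : W × W' × H => N m p.1 p.2.1 p.2.2) {t : ℕ} (ht : 0 < t)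
    (m : ι) (w : W) {A : ℝ≥0∞} (hφ : ∫⁻ w', ∫⁻ h, (N m w w' h : ℝ≥0∞) ∂η ∂ν' ≤ 16 * A) :
    η (Major_B ν' N t m w) ≤ 32 * A / t := by
  have hm : Measurable fun p : W' × H => (N m w p.1 p.2 : ℝ≥0∞) := by
    have h1 : Measurable fun p : W' × H => N m w p.1 p.2 :=
      (hN m).comp (measurable_const.prodMk (measurable_fst.prodMk measurable_snd))
    exact (measurable_of_countable (fun k : ℕ => (k : ℝ≥0∞))).comp h1
  have hm' : Measurable fun h => ∫⁻ w', (N m w w' h : ℝ≥0∞) ∂ν' :=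
    Measurable.lintegral_prod_left' (μ := ν') hm
  have hsw : ∫⁻ w', ∫⁻ h, (N m w w' h : ℝ≥0∞) ∂η ∂ν' =
      ∫⁻ h, ∫⁻ w', (N m w w' h : ℝ≥0∞) ∂ν' ∂η :=
    lintegral_lintegral_swap hm.aemeasurable
  have ht0 : (t : ℝ≥0∞) ≠ 0 := by exact_mod_cast ht.ne'
  have htt : (t : ℝ≥0∞) ≠ ⊤ := ENNReal.natCast_ne_top t
  have h1 : Major_B ν' N t m w ⊆ {h | (t : ℝ≥0∞) / 2 ≤ ∫⁻ w', (N m w w' h : ℝ≥0∞) ∂ν'} := by
    intro h hh
    have h2 : 1 / 2 < ν' {w' | t < N m w w' h} := hh
    have h3 : (t : ℝ≥0∞) * ν' {w' | t < N m w w' h} ≤ ∫⁻ w', (N m w w' h : ℝ≥0∞) ∂ν' := by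
      have hmw : Measurable fun w' => (N m w w' h : ℝ≥0∞) :=
        hm.comp (measurable_id.prodMk measurable_const)
      refine le_trans ?_ (mul_meas_ge_le_lintegral hmw (t : ℝ≥0∞))
      refine mul_le_mul_right (measure_mono ?_) _
      intro w' hw'
      have h4 : t < N m w w' h := hw'
      show (t : ℝ≥0∞) ≤ (N m w w' h : ℝ≥0∞)
      exact_mod_cast h4.le
    refine le_trans ?_ h3
    rw [div_eq_mul_inv]
    have h4 : (2 : ℝ≥0∞)⁻¹ ≤ ν' {w' | t < N m w w' h} := by
      rw [one_div] at h2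
      exact h2.le
    exact mul_le_mul_right h4 _
  have h2 : ((t : ℝ≥0∞) / 2) * η (Major_B ν' N t m w) ≤ 16 * A := by
    calc ((t : ℝ≥0∞) / 2) * η (Major_B ν' N t m w)
        ≤ ((t : ℝ≥0∞) / 2) * η {h | (t : ℝ≥0∞) / 2 ≤ ∫⁻ w', (N m w w' h : ℝ≥0∞) ∂ν'} :=
          mul_le_mul_right (measure_mono h1) _
      _ ≤ ∫⁻ h, ∫⁻ w', (N m w w' h : ℝ≥0∞) ∂ν' ∂η := mul_meas_ge_le_lintegral hm' _
      _ ≤ 16 * A := by
          rw [← hsw]
          exact hφ
  rw [ENNReal.le_div_iff_mul_le (Or.inl ht0) (Or.inl htt)]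
  have h3 : η (Major_B ν' N t m w) * t = 2 * (((t : ℝ≥0∞) / 2) * η (Major_B ν' N t m w)) := by
    rw [div_eq_mul_inv]
    calc η (Major_B ν' N t m w) * t = (2 * 2⁻¹) * (η (Major_B ν' N t m w) * t) := by
          rw [ENNReal.mul_inv_cancel two_ne_zero ENNReal.ofNat_ne_top, one_mul]
      _ = 2 * (↑t * 2⁻¹ * η (Major_B ν' N t m w)) := by ring
  rw [h3]
  calc 2 * (((t : ℝ≥0∞) / 2) * η (Major_B ν' N t m w)) ≤ 2 * (16 * A) := mul_le_mul_right h2 _
    _ = 32 * A := by rw [← mul_assoc]; norm_num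

/-- abstract majority lemma -/
private theorem Major_main (ν : Measure W) [IsProbabilityMeasure ν] (ν' : Measure W')
    [IsProbabilityMeasure ν'] (η : Measure H) [IsProbabilityMeasure η] [Fintype ι]
    (R : Finset ι) {N : ι → W → W' → H → ℕ}
    (hN : ∀ m, Measurable fun p : W × W' × H => N m p.1 p.2.1 p.2.2) {A : ℝ≥0∞}
    (hA0 : A ≠ 0) (hA : A ≠ ⊤)
    (hE : ∀ m ∈ R, ∫⁻ w, ∫⁻ w', ∫⁻ h, (N m w w' h : ℝ≥0∞) ∂η ∂ν' ∂ν ≤ A) {t : ℕ}
    (ht : 32 * A ≤ t) :
    (Measure.pi fun _ : ι => η)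
        {q | 3 / 8 ≤ ν {w | ∀ m ∈ R, 1 / 2 < ν' {w' | t < N m w w' (q m)}}} ≤
      4 * (32 * A / t) ^ ((R.card + 1) / 2) := by
  have ht1 : 0 < t := by
    rcases Nat.eq_zero_or_pos t with h | h
    · subst h
      have h2 : 32 * A = 0 := by simpa using ht
      rcases mul_eq_zero.1 h2 with h3 | h3
      · exact absurd h3 (by norm_num)
      · exact absurd h3 hA0
    · exact h
  have ht0 : (t : ℝ≥0∞) ≠ 0 := by exact_mod_cast ht1.ne'
  have htt : (t : ℝ≥0∞) ≠ ⊤ := ENNReal.natCast_ne_top t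
  set x : ℝ≥0∞ := 32 * A / t with hx
  have hx1 : x ≤ 1 := by
    rw [hx, ENNReal.div_le_iff_le_mul (Or.inl ht0) (Or.inl htt), one_mul]
    exact ht
  -- the mean over the noise and `w'`
  let φ : ι → W → ℝ≥0∞ := fun m w => ∫⁻ w', ∫⁻ h, (N m w w' h : ℝ≥0∞) ∂η ∂ν'
  have hNm : ∀ m, Measurable fun p : W × W' × H => (N m p.1 p.2.1 p.2.2 : ℝ≥0∞) := fun m =>
    (measurable_of_countable (fun k : ℕ => (k : ℝ≥0∞))).comp (hN m)
  have hφm : ∀ m, Measurable (φ m) := by
    intro m
    have h1 : Measurable fun p : (W × W') × H => (N m p.1.1 p.1.2 p.2 : ℝ≥0∞) :=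
      (hNm m).comp ((measurable_fst.comp measurable_fst).prodMk
        ((measurable_snd.comp measurable_fst).prodMk measurable_snd))
    have h2 : Measurable fun p : W × W' => ∫⁻ h, (N m p.1 p.2 h : ℝ≥0∞) ∂η :=
      Measurable.lintegral_prod_right' (ν := η) h1
    exact Measurable.lintegral_prod_right' (ν := ν') h2
  let Bd : W → Finset ι := fun w => R.filter fun m => 16 * A < φ m w
  let Wb : Set W := {w | R.card < 2 * (Bd w).card}
  have hBdm : Measurable fun w => ((Bd w).card : ℝ≥0∞) := by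
    have h1 : ∀ w, ((Bd w).card : ℝ≥0∞) = ∑ m ∈ R, ({w | 16 * A < φ m w} : Set W).indicator 1 w := by
      intro w
      rw [Finset.card_filter]
      push_cast
      exact Finset.sum_congr rfl fun m _ => by simp [Set.indicator_apply]
    simp only [h1]
    exact Finset.measurable_sum _ fun m _ =>
      measurable_one.indicator (measurableSet_lt measurable_const (hφm m))
  have hWbm : MeasurableSet Wb := by
    have h1 : Wb = {w | (R.card : ℝ≥0∞) < 2 * ((Bd w).card : ℝ≥0∞)} := by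
      ext w
      show R.card < 2 * (Bd w).card ↔ (R.card : ℝ≥0∞) < 2 * ((Bd w).card : ℝ≥0∞)
      exact_mod_cast Iff.rfl
    rw [h1]
    exact measurableSet_lt measurable_const (hBdm.const_mul 2)
  have h16 : (16 * A) ≠ 0 := mul_ne_zero (by norm_num) hA0
  have h16t : (16 * A) ≠ ⊤ := ENNReal.mul_ne_top (by norm_num) hA
  have hWb : ν Wb ≤ 1 / 8 := by
    have h1 : ∫⁻ w, ((Bd w).card : ℝ≥0∞) ∂ν ≤ R.card / 16 := by
      have h2 : ∀ w, ((Bd w).card : ℝ≥0∞) =
          ∑ m ∈ R, ({w | 16 * A < φ m w} : Set W).indicator 1 w := by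
        intro w
        rw [Finset.card_filter]
        push_cast
        exact Finset.sum_congr rfl fun m _ => by simp [Set.indicator_apply]
      simp only [h2]
      rw [lintegral_finsetSum _ fun m _ =>
        measurable_one.indicator (measurableSet_lt measurable_const (hφm m))]
      calc ∑ m ∈ R, ∫⁻ w, ({w | 16 * A < φ m w} : Set W).indicator 1 w ∂ν
          ≤ ∑ _m ∈ R, (1 / 16 : ℝ≥0∞) := by
            refine Finset.sum_le_sum fun m hm => ?_
            rw [lintegral_indicator_one (measurableSet_lt measurable_const (hφm m))]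
            have h3 : 16 * A * ν {w | 16 * A < φ m w} ≤ A := by
              refine le_trans ?_ (hE m hm)
              refine le_trans ?_ (mul_meas_ge_le_lintegral (hφm m) (16 * A))
              refine mul_le_mul_right (measure_mono ?_) _
              intro w hw
              have hw' : 16 * A < φ m w := hw
              exact hw'.le
            rw [ENNReal.le_div_iff_mul_le (Or.inl (by norm_num)) (Or.inl (by norm_num))]
            have h4 : A * (ν {w | 16 * A < φ m w} * 16) ≤ A * 1 := by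
              calc A * (ν {w | 16 * A < φ m w} * 16) = 16 * A * ν {w | 16 * A < φ m w} := by ring
                _ ≤ A * 1 := by rw [mul_one]; exact h3
            exact (ENNReal.mul_le_mul_iff_right hA0 hA).1 h4
        _ = R.card / 16 := by
            rw [Finset.sum_const, nsmul_eq_mul, mul_one_div]
    rcases Nat.eq_zero_or_pos R.card with hR | hR
    · have h2 : Wb = ∅ := by
        ext w
        simp only [Wb, Set.mem_ofPred_eq, Set.mem_empty_iff_false, iff_false, not_lt]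
        have h3 : (Bd w).card ≤ R.card := Finset.card_le_card (Finset.filter_subset _ _)
        omega
      rw [h2, measure_empty]
      exact zero_le
    · have hR0 : (R.card : ℝ≥0∞) ≠ 0 := by exact_mod_cast hR.ne'
      have hRt : (R.card : ℝ≥0∞) ≠ ⊤ := ENNReal.natCast_ne_top _
      have h2 : ((R.card : ℝ≥0∞) / 2) * ν Wb ≤ R.card / 16 := by
        refine le_trans ?_ h1
        refine le_trans ?_ (mul_meas_ge_le_lintegral hBdm ((R.card : ℝ≥0∞) / 2))
        refine mul_le_mul_right (measure_mono ?_) _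
        intro w hw
        have h3 : R.card < 2 * (Bd w).card := hw
        show (R.card : ℝ≥0∞) / 2 ≤ ((Bd w).card : ℝ≥0∞)
        rw [ENNReal.div_le_iff_le_mul (Or.inl two_ne_zero) (Or.inl ENNReal.ofNat_ne_top)]
        have h4 : (R.card : ℝ≥0∞) ≤ ((2 * (Bd w).card : ℕ) : ℝ≥0∞) := by exact_mod_cast h3.le
        refine h4.trans (le_of_eq ?_)
        push_cast
        ring
      rw [ENNReal.le_div_iff_mul_le (Or.inl (by norm_num)) (Or.inl (by norm_num))]
      rw [ENNReal.le_div_iff_mul_le (Or.inl (by norm_num)) (Or.inl (by norm_num))] at h2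
      have h3 : (R.card : ℝ≥0∞) * (ν Wb * 8) ≤ R.card * 1 := by
        calc (R.card : ℝ≥0∞) * (ν Wb * 8) = (2 * 2⁻¹) * ((R.card : ℝ≥0∞) * (ν Wb * 8)) := by
              rw [ENNReal.mul_inv_cancel two_ne_zero ENNReal.ofNat_ne_top, one_mul]
          _ = (R.card : ℝ≥0∞) / 2 * ν Wb * 16 := by
              rw [div_eq_mul_inv]
              ring
          _ ≤ R.card * 1 := by rw [mul_one]; exact h2
      exact (ENNReal.mul_le_mul_iff_right hR0 hRt).1 h3
  -- the exceptional pairs
  let Q := ι → H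
  let π : Measure (ι → H) := Measure.pi fun _ : ι => η
  let Z : Set (W × (ι → H)) := {p | p.1 ∉ Wb ∧ ∀ m ∈ R, p.2 m ∈ Major_B ν' N t m p.1}
  have hZm : MeasurableSet Z := by
    have h1 : Z = (Prod.fst ⁻¹' Wbᶜ) ∩
        ⋂ m ∈ R, {p : W × (ι → H) | p.2 m ∈ Major_B ν' N t m p.1} := by
      ext p
      simp only [Z, Set.mem_ofPred_eq, Set.mem_inter_iff, Set.mem_preimage, Set.mem_compl_iff,
        Set.mem_iInter]
    rw [h1]
    refine (measurable_fst hWbm.compl).inter ?_
    refine Finset.measurableSet_biInter _ fun m _ => ?_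
    have h2 : Measurable fun p : W × (ι → H) => (p.1, p.2 m) :=
      measurable_fst.prodMk ((measurable_pi_apply m).comp measurable_snd)
    exact h2 (Major_meas ν' hN t m)
  have hsec : ∀ w, π {q | (w, q) ∈ Z} ≤ x ^ ((R.card + 1) / 2) := by
    intro w
    by_cases hw : w ∈ Wb
    · have h1 : {q : ι → H | (w, q) ∈ Z} = ∅ := by
        ext q
        simp only [Z, Set.mem_ofPred_eq, Set.mem_empty_iff_false, iff_false, not_and]
        intro h2
        exact absurd hw h2
      rw [h1, measure_empty]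
      exact zero_le
    · have hBw : 2 * (Bd w).card ≤ R.card := not_lt.1 hw
      let G : Finset ι := R.filter fun m => ¬ (16 * A < φ m w)
      have hG : (Bd w).card + G.card = R.card := Finset.card_filter_add_card_filter_not _
      have h1 : {q : ι → H | (w, q) ∈ Z} ⊆
          Set.pi Set.univ (fun m => if m ∈ G then Major_B ν' N t m w else Set.univ) := by
        intro q hq
        have h2 : ∀ m ∈ R, q m ∈ Major_B ν' N t m w := hq.2
        intro m _
        by_cases hm : m ∈ G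
        · simp only [if_pos hm]
          exact h2 m (Finset.mem_filter.1 hm).1
        · simp only [if_neg hm]
          exact Set.mem_univ _
      calc π {q | (w, q) ∈ Z}
          ≤ π (Set.pi Set.univ (fun m => if m ∈ G then Major_B ν' N t m w else Set.univ)) :=
            measure_mono h1
        _ = ∏ m, η (if m ∈ G then Major_B ν' N t m w else Set.univ) := Measure.pi_pi _ _
        _ = ∏ m ∈ G, η (Major_B ν' N t m w) := by
            rw [← Finset.prod_filter_mul_prod_filter_not Finset.univ (fun m => m ∈ G)]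
            have e1 : ∏ m ∈ Finset.univ.filter (fun m => m ∈ G),
                η (if m ∈ G then Major_B ν' N t m w else Set.univ) =
                ∏ m ∈ G, η (Major_B ν' N t m w) := by
              have e2 : Finset.univ.filter (fun m => m ∈ G) = G := by
                ext m
                simp
              rw [e2]
              exact Finset.prod_congr rfl fun m hm => by rw [if_pos hm]
            have e3 : ∏ m ∈ Finset.univ.filter (fun m => m ∉ G),
                η (if m ∈ G then Major_B ν' N t m w else Set.univ) = 1 := by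
              refine Finset.prod_eq_one fun m hm => ?_
              rw [if_neg (Finset.mem_filter.1 hm).2, measure_univ]
            rw [e1, e3, mul_one]
        _ ≤ ∏ _m ∈ G, x := by
            refine Finset.prod_le_prod' fun m hm => ?_
            exact Major_prob ν' η hN ht1 m w (not_lt.1 (Finset.mem_filter.1 hm).2)
        _ = x ^ G.card := by rw [Finset.prod_const]
        _ ≤ x ^ ((R.card + 1) / 2) := pow_le_pow_of_le_one zero_le hx1 (by omega)
  have hprod : (π.prod ν) {p : (ι → H) × W | (p.2, p.1) ∈ Z} ≤ x ^ ((R.card + 1) / 2) := by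
    have hZ' : MeasurableSet {p : (ι → H) × W | (p.2, p.1) ∈ Z} :=
      (measurable_snd.prodMk measurable_fst) hZm
    rw [Measure.prod_apply_symm hZ']
    calc ∫⁻ w, π ((fun q => (q, w)) ⁻¹' {p : (ι → H) × W | (p.2, p.1) ∈ Z}) ∂ν
        ≤ ∫⁻ _w, x ^ ((R.card + 1) / 2) ∂ν := lintegral_mono fun w => hsec w
      _ = x ^ ((R.card + 1) / 2) := by rw [lintegral_const, measure_univ, mul_one]
  have hZ' : MeasurableSet {p : (ι → H) × W | (p.2, p.1) ∈ Z} :=
    (measurable_snd.prodMk measurable_fst) hZm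
  have hfin : {q : ι → H | 3 / 8 ≤ ν {w | ∀ m ∈ R, 1 / 2 < ν' {w' | t < N m w w' (q m)}}} ⊆
      {q | 1 / 4 ≤ ν {w | (w, q) ∈ Z}} := by
    intro q hq
    have h1 : (3 / 8 : ℝ≥0∞) ≤ ν {w | ∀ m ∈ R, 1 / 2 < ν' {w' | t < N m w w' (q m)}} := hq
    have h2 : {w | ∀ m ∈ R, 1 / 2 < ν' {w' | t < N m w w' (q m)}} ⊆
        {w | (w, q) ∈ Z} ∪ Wb := by
      intro w hw
      by_cases hwb : w ∈ Wb
      · exact Or.inr hwb
      · exact Or.inl ⟨hwb, hw⟩
    have h3 : (3 / 8 : ℝ≥0∞) ≤ ν {w | (w, q) ∈ Z} + 1 / 8 :=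
      h1.trans ((measure_mono h2).trans ((measure_union_le _ _).trans
        (add_le_add le_rfl hWb)))
    show (1 / 4 : ℝ≥0∞) ≤ ν {w | (w, q) ∈ Z}
    have h4 : (1 / 4 : ℝ≥0∞) + 1 / 8 = 3 / 8 := by
      have e1 : (1 / 4 : ℝ≥0∞) = ENNReal.ofReal (1 / 4) := by
        rw [ENNReal.ofReal_div_of_pos (by norm_num)]
        norm_num
      have e2 : (1 / 8 : ℝ≥0∞) = ENNReal.ofReal (1 / 8) := by
        rw [ENNReal.ofReal_div_of_pos (by norm_num)]
        norm_num
      have e3 : (3 / 8 : ℝ≥0∞) = ENNReal.ofReal (3 / 8) := by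
        rw [ENNReal.ofReal_div_of_pos (by norm_num)]
        norm_num
      rw [e1, e2, e3, ← ENNReal.ofReal_add (by norm_num) (by norm_num)]
      norm_num
    rw [← h4] at h3
    exact (ENNReal.add_le_add_iff_right (by
      rw [one_div]
      exact ENNReal.inv_ne_top.2 (by norm_num))).1 h3
  have hmeas2 : Measurable fun q : ι → H => ν {w | (w, q) ∈ Z} := by
    have := measurable_measure_prodMk_left (ν := ν) hZ'
    exact this
  calc π {q | 3 / 8 ≤ ν {w | ∀ m ∈ R, 1 / 2 < ν' {w' | t < N m w w' (q m)}}}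
      ≤ π {q | 1 / 4 ≤ ν {w | (w, q) ∈ Z}} := measure_mono hfin
    _ ≤ 4 * x ^ ((R.card + 1) / 2) := by
        have h1 := mul_meas_ge_le_lintegral (μ := π) hmeas2 (1 / 4)
        have h2 : ∫⁻ q, ν {w | (w, q) ∈ Z} ∂π ≤ x ^ ((R.card + 1) / 2) := by
          rw [Measure.prod_apply hZ'] at hprod
          exact hprod
        have h3 : (1 / 4 : ℝ≥0∞) * π {q | 1 / 4 ≤ ν {w | (w, q) ∈ Z}} ≤
            x ^ ((R.card + 1) / 2) := h1.trans h2
        calc π {q | 1 / 4 ≤ ν {w | (w, q) ∈ Z}}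
            = 4 * ((1 / 4 : ℝ≥0∞) * π {q | 1 / 4 ≤ ν {w | (w, q) ∈ Z}}) := by
              rw [← mul_assoc, one_div, ENNReal.mul_inv_cancel (by norm_num) (by norm_num),
                one_mul]
          _ ≤ 4 * x ^ ((R.card + 1) / 2) := mul_le_mul_right h3 _

theorem majority {W H ι : Type*} [MeasurableSpace W] [MeasurableSpace H] (μ : Measure W)
    [IsProbabilityMeasure μ] (π : Measure H) [IsProbabilityMeasure π] [Fintype ι]
    (R : Finset ι) (hR : R.Nonempty) (N : ι → W → W → H → ℕ)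
    (hN : ∀ m, Measurable fun p : H × (W × W) => N m p.2.1 p.2.2 p.1) (A : ℝ≥0∞) (hA0 : A ≠ 0)
    (t : ℕ) (hA : ∀ m ∈ R, ∫⁻ h, ∫⁻ w, ∫⁻ w', (N m w w' h : ℝ≥0∞) ∂μ ∂μ ∂π ≤ A)
    (ht : 32 * A ≤ t) :
    (Measure.pi fun _ : ι => π) {h | 3 / 8 ≤ μ {w | ∀ m ∈ R,
        1 / 2 < μ {w' | t < N m w w' (h m)}}} ≤ 4 * (32 * A / t) ^ ((R.card + 1) / 2) := by
  have hA' : A ≠ ⊤ := by
    intro h
    rw [h, ENNReal.mul_top (by norm_num)] at ht
    exact ENNReal.natCast_ne_top t (top_le_iff.1 ht)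
  have hN' : ∀ m, Measurable fun p : W × W × H => N m p.1 p.2.1 p.2.2 := fun m =>
    (hN m).comp ((measurable_snd.comp measurable_snd).prodMk
      (measurable_fst.prodMk (measurable_fst.comp measurable_snd)))
  have hc : Measurable fun k : ℕ => (k : ℝ≥0∞) := measurable_of_countable _
  refine Major_main μ μ π R hN' hA0 hA' (fun m hm => ?_) ht
  refine le_trans (le_of_eq ?_) (hA m hm)
  have h1 : Measurable fun p : (H × W) × W => (N m p.1.2 p.2 p.1.1 : ℝ≥0∞) :=
    hc.comp ((hN m).comp ((measurable_fst.comp measurable_fst).prodMk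
      ((measurable_snd.comp measurable_fst).prodMk measurable_snd)))
  have h2 : Measurable fun p : H × W => ∫⁻ w', (N m p.2 w' p.1 : ℝ≥0∞) ∂μ :=
    Measurable.lintegral_prod_right' (ν := μ) h1
  have h3 : ∫⁻ h, ∫⁻ w, ∫⁻ w', (N m w w' h : ℝ≥0∞) ∂μ ∂μ ∂π =
      ∫⁻ w, ∫⁻ h, ∫⁻ w', (N m w w' h : ℝ≥0∞) ∂μ ∂π ∂μ :=
    lintegral_lintegral_swap h2.aemeasurable
  rw [h3]
  refine lintegral_congr fun w => ?_
  have h4 : Measurable fun p : W × H => (N m w p.1 p.2 : ℝ≥0∞) :=
    hc.comp ((hN' m).comp (measurable_const.prodMk (measurable_fst.prodMk measurable_snd)))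
  exact lintegral_lintegral_swap h4.aemeasurable

end Pool.Agent.H.MP_0cad2f_co.NT
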