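import Pool.Agent.H.MP_0cad2f_co.NT.Meas
import Pool.Agent.H.MP_0cad2f_co.NT.Upd
import Pool.Agent.H.MP_0cad2f_co.helper11.Gauss2

/-!
Almost all configurations are regular, also after the linear changes of rows which we use.

`reg0_ae`: for a `d`-set `I`, `Ind a I` fails iff a determinant vanishes (a nonzero polynomial: `MvPolynomial` null set, or induction:
a row lies in the span of the others, a proper subspace, `Measure.addHaar_submodule`, Fubini in the row,
`lintegral_update...` in `Upd` or `Measure.pi` lemmas); given the rows of `I`, `sl a i (pt a I) = 0` is an affine hyperplane for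
the row `i ∉ I` (`pt a I ≠ 0` as `a k ⬝ᵥ pt a I = 1`; for `d = 0` the slack is `1`).

`mu_ac`: product of Gaussians with variance `σ ^ 2 ≠ 0`: `gaussianReal_absolutelyContinuous`, `Measure.pi` of absolutely
continuous factors (or the density).

For an invertible linear map `f` of `Con n d` the preimage of a null set is null
(`Measure.addHaar_preimage_linearMap`, or `LinearEquiv.quasiMeasurePreserving`-type lemmas). `sli · m η` (`η ≠ 1`),
`a ↦ nz a S (a m0 - a m) ε q` (`m, m0 ∈ S`; inverse: the same with the opposite sign), `nzr · ∅ 0 1 ε q` (`gz ≠ 0`: true for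
all `q` except a null set, at most one value of `q i` for each `i`) are invertible linear maps. Then Fubini: for all `q`, almost
all `a` -> almost all `a`, almost all `q` (`measurableSet_reg0`, `measurable_nz`, `Measure.ae_ae_of_ae_prod`, `ae_prod_iff_ae_ae`).
-/

set_option autoImplicit false
open MeasureTheory ProbabilityTheory
open scoped ENNReal Classical

namespace Pool.Agent.H.MP_0cad2f_co.NT

variable {n d : ℕ}

/-! Fubini in one row. -/

private theorem RegAE_rows {S : Set (Con n d)} (hS : MeasurableSet S) (i : Fin n)
    (h : ∀ x : Con n d, volume {y : Fin d → ℝ | Function.update x i y ∈ S} = 0) :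
    volume S = 0 := by
  have hf : Measurable (S.indicator (fun _ => (1 : ℝ≥0∞))) := measurable_const.indicator hS
  have h1 := lmarginal_erase' (μ := fun _ : Fin n => (volume : Measure (Fin d → ℝ)))
    (S.indicator (fun _ => (1 : ℝ≥0∞))) hf (Finset.mem_univ i)
  have h2 : (fun x : Con n d => ∫⁻ y : Fin d → ℝ,
      S.indicator (fun _ => (1 : ℝ≥0∞)) (Function.update x i y)) = fun _ => 0 := by
    funext x
    have h3 : MeasurableSet {y : Fin d → ℝ | Function.update x i y ∈ S} :=
      (measurable_update x) hS
    have h4 : ∀ y : Fin d → ℝ, S.indicator (fun _ => (1 : ℝ≥0∞)) (Function.update x i y) =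
        {y : Fin d → ℝ | Function.update x i y ∈ S}.indicator (fun _ => (1 : ℝ≥0∞)) y := by
      intro y
      rfl
    simp_rw [h4]
    rw [lintegral_indicator h3, setLIntegral_const, h x, mul_zero]
  rw [h2, lmarginal_univ] at h1
  have h5 := congrFun h1 (fun _ _ => (0 : ℝ))
  have h6 : ∫⁻ x : Con n d, S.indicator (fun _ => (1 : ℝ≥0∞)) x = 0 := by
    refine h5.trans ?_
    unfold lmarginal
    simp
  rw [lintegral_indicator hS, setLIntegral_const, one_mul] at h6
  exact h6

private theorem RegAE_submodule (W : Submodule ℝ (Fin d → ℝ)) (hW : W ≠ ⊤) :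
    volume (W : Set (Fin d → ℝ)) = 0 := Measure.addHaar_submodule volume W hW

private theorem RegAE_hyper (p : Fin d → ℝ) : volume {y : Fin d → ℝ | 1 - y ⬝ᵥ p = 0} = 0 := by
  by_cases hp : p = 0
  · subst hp
    have h1 : {y : Fin d → ℝ | 1 - y ⬝ᵥ (0 : Fin d → ℝ) = 0} = ∅ := by
      ext y
      simp
    rw [h1, measure_empty]
  · have hpp : p ⬝ᵥ p ≠ 0 := fun h => hp (dotProduct_self_eq_zero.1 h)
    let W : Submodule ℝ (Fin d → ℝ) :=
      { carrier := {y | y ⬝ᵥ p = 0}
        add_mem' := by
          intro x y hx hy
          change x ⬝ᵥ p = 0 at hx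
          change y ⬝ᵥ p = 0 at hy
          change (x + y) ⬝ᵥ p = 0
          rw [add_dotProduct, hx, hy, add_zero]
        zero_mem' := zero_dotProduct p
        smul_mem' := by
          intro c x hx
          change x ⬝ᵥ p = 0 at hx
          change (c • x) ⬝ᵥ p = 0
          rw [smul_dotProduct, hx, smul_zero] }
    have hW : W ≠ ⊤ := by
      intro h
      have h1 : p ∈ W := by rw [h]; exact Submodule.mem_top
      exact hpp h1
    have h0 := RegAE_submodule W hW
    have h1 : {y : Fin d → ℝ | 1 - y ⬝ᵥ p = 0} =
        (fun y => y + -((p ⬝ᵥ p)⁻¹ • p)) ⁻¹' (W : Set (Fin d → ℝ)) := by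
      ext y
      rw [Set.mem_preimage]
      change 1 - y ⬝ᵥ p = 0 ↔ (y + -((p ⬝ᵥ p)⁻¹ • p)) ⬝ᵥ p = 0
      rw [add_dotProduct, neg_dotProduct, smul_dotProduct, smul_eq_mul, inv_mul_cancel₀ hpp]
      constructor
      · intro h
        linarith
      · intro h
        linarith
    rw [h1, measure_preimage_add_right]
    exact h0

private theorem RegAE_gram_cont (J : Finset (Fin n)) :
    Continuous fun a : Con n d => (gram a J).det := by
  refine Continuous.matrix_det ?_
  refine continuous_matrix fun i j => ?_
  unfold gram dotProduct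
  fun_prop

private theorem RegAE_gram_update {J : Finset (Fin n)} {i : Fin n} (hi : i ∉ J) (x : Con n d)
    (y : Fin d → ℝ) : gram (Function.update x i y) J = gram x J := by
  ext k l
  rw [gram, gram, Function.update_of_ne, Function.update_of_ne]
  · rintro rfl
    exact hi l.2
  · rintro rfl
    exact hi k.2

private theorem RegAE_ind : ∀ J : Finset (Fin n), J.card ≤ d →
    volume {a : Con n d | (gram a J).det = 0} = 0 := by
  intro J
  induction J using Finset.induction_on with
  | empty =>
    intro _
    have h1 : {a : Con n d | (gram a ∅).det = 0} = ∅ := by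
      ext a
      rw [Set.mem_setOf_eq, Matrix.det_isEmpty]
      simp
    rw [h1, measure_empty]
  | insert i J hi ih =>
    intro hc
    rw [Finset.card_insert_of_notMem hi] at hc
    have h1 := ih (by omega)
    have h2 : volume {a : Con n d | (gram a J).det ≠ 0 ∧ (gram a (insert i J)).det = 0} = 0 := by
      refine RegAE_rows ?_ i fun x => ?_
      · refine MeasurableSet.inter ?_ ?_
        · exact (measurableSet_singleton (0 : ℝ)).compl.preimage
            (RegAE_gram_cont J).measurable
        · exact (measurableSet_singleton (0 : ℝ)).preimage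
            (RegAE_gram_cont (insert i J)).measurable
      · by_cases hx : (gram x J).det = 0
        · have h3 : {y : Fin d → ℝ | Function.update x i y ∈
              {a : Con n d | (gram a J).det ≠ 0 ∧ (gram a (insert i J)).det = 0}} = ∅ := by
            ext y
            simp only [Set.mem_setOf_eq, Set.mem_empty_iff_false, iff_false, not_and]
            rw [RegAE_gram_update hi]
            intro h
            exact absurd hx h
          rw [h3, measure_empty]
        · refine measure_mono_null ?_ (RegAE_submodule (Submodule.span ℝ (x '' (J : Set (Fin n))))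
            ?_)
          · intro y hy
            have hy2 : (gram (Function.update x i y) (insert i J)).det = 0 := hy.2
            by_contra hyn
            refine Dual_linInd_iff.1 ?_ hy2
            have hJ : LinearIndependent ℝ (fun k : J => x k) := Dual_linInd_iff.2 hx
            have h4 : LinearIndepOn ℝ (Function.update x i y) (insert i (J : Set (Fin n))) := by
              refine LinearIndepOn.insert ?_ ?_
              · have h5 : LinearIndepOn ℝ x (J : Set (Fin n)) := hJ
                refine h5.congr ?_
                intro k hk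
                rw [Function.update_of_ne]
                rintro rfl
                exact hi hk
              · rw [Function.update_self]
                have h6 : Function.update x i y '' (J : Set (Fin n)) = x '' (J : Set (Fin n)) := by
                  refine Set.image_congr fun k hk => ?_
                  rw [Function.update_of_ne]
                  rintro rfl
                  exact hi hk
                rw [h6]
                exact hyn
            rw [← Finset.coe_insert] at h4
            exact h4
          · intro htop
            have h3 := finrank_span_finset_le_card (R := ℝ) (J.image x)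
            rw [Finset.coe_image, Set.finrank, htop, finrank_top, Module.finrank_fin_fun] at h3
            have h4 : (J.image x).card ≤ J.card := Finset.card_image_le
            omega
    refine measure_mono_null ?_ (measure_union_null h1 h2)
    intro a ha
    by_cases h3 : (gram a J).det = 0
    · exact Or.inl h3
    · exact Or.inr ⟨h3, ha⟩

theorem reg0_ae : ∀ᵐ a : Con n d, Reg0 a := by
  have h1 : ∀ I : Finset (Fin n), ∀ᵐ a : Con n d, I.card = d → Ind a I := by
    intro I
    by_cases hI : I.card = d
    · rw [ae_iff]
      refine measure_mono_null ?_ (RegAE_ind I hI.le)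
      intro a ha
      by_contra hc
      exact ha fun _ => (ind_iff hI).2 hc
    · exact Filter.Eventually.of_forall fun a h => absurd h hI
  have h2 : ∀ (I : Finset (Fin n)) (i : Fin n), ∀ᵐ a : Con n d, i ∉ I → sl a i (pt a I) ≠ 0 := by
    intro I i
    by_cases hi : i ∈ I
    · exact Filter.Eventually.of_forall fun a h => absurd hi h
    · rw [ae_iff]
      have h3 : volume {a : Con n d | sl a i (pt a I) = 0} = 0 := by
        refine RegAE_rows ?_ i fun x => ?_
        · refine measurableSet_eq_fun ?_ measurable_const
          unfold sl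
          exact measurable_const.sub (measurable_dot (measurable_pi_apply i) (measurable_pt I))
        · refine measure_mono_null ?_ (RegAE_hyper (pt x I))
          intro y hy
          rw [Set.mem_setOf_eq, Set.mem_setOf_eq] at hy
          rw [Set.mem_setOf_eq]
          have h4 : pt (Function.update x i y) I = pt x I := by
            refine pt_congr fun k hk => ?_
            rw [Function.update_of_ne]
            rintro rfl
            exact hi hk
          rw [sl, h4, Function.update_self] at hy
          exact hy
      refine measure_mono_null ?_ h3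
      intro a ha
      by_contra hc
      exact ha fun _ => hc
  filter_upwards [ae_all_iff.2 h1, ae_all_iff.2 fun I => ae_all_iff.2 (h2 I)] with a ha hb
  intro I hI
  exact ⟨ha I hI, fun i hi => hb I i hi⟩

theorem mu_ac (c : Con n d) {σ : ℝ} (hσ : 0 < σ) : mu c σ ≪ (volume : Measure (Con n d)) := by
  have hv0 : Real.toNNReal (σ ^ 2) ≠ 0 := by
    intro h
    rw [Real.toNNReal_eq_zero] at h
    have h2 : 0 < σ ^ 2 := by positivity
    linarith
  have h1 := helper11.TD.noise_density c hv0
  unfold mu
  rw [h1]
  exact withDensity_absolutelyContinuous _ _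

private theorem RegAE_equiv {P : Con n d → Prop} (hP : ∀ᵐ a : Con n d, P a)
    (e : Con n d ≃ₗ[ℝ] Con n d) : ∀ᵐ a : Con n d, P (e a) := by
  rw [ae_iff] at hP ⊢
  have h1 : LinearMap.det (e : Con n d →ₗ[ℝ] Con n d) ≠ 0 := e.isUnit_det'.ne_zero
  have h2 := Measure.addHaar_preimage_linearMap (volume : Measure (Con n d)) h1 {a | ¬ P a}
  rw [hP, mul_zero] at h2
  exact h2

/-- `sli` as a linear equivalence -/
private noncomputable def RegAE_sli (m : Fin n) {η : ℝ} (hη : η < 1) :
    Con n d ≃ₗ[ℝ] Con n d where
  toFun a := sli a m η
  invFun a := Function.update a m ((1 - η) • a m)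
  map_add' a b := by
    funext i
    by_cases hi : i = m
    · subst hi
      simp [sli, Function.update_self, smul_add]
    · simp [sli, Function.update_of_ne hi]
  map_smul' c a := by
    funext i
    by_cases hi : i = m
    · subst hi
      simp only [sli, Function.update_self, Pi.smul_apply, RingHom.id_apply]
      rw [smul_comm]
    · simp [sli, Function.update_of_ne hi]
  left_inv a := by
    have h1 : (1 - η) ≠ 0 := by
      intro h
      linarith
    funext i
    by_cases hi : i = m
    · subst hi
      simp only [sli, Function.update_self]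
      rw [smul_smul, mul_inv_cancel₀ h1, one_smul]
    · simp [sli, Function.update_of_ne hi]
  right_inv a := by
    have h1 : (1 - η) ≠ 0 := by
      intro h
      linarith
    funext i
    by_cases hi : i = m
    · subst hi
      simp only [sli, Function.update_self]
      rw [smul_smul, inv_mul_cancel₀ h1, one_smul]
    · simp [sli, Function.update_of_ne hi]

theorem reg0_sli_ae (m : Fin n) {η : ℝ} (hη : η < 1) : ∀ᵐ a : Con n d, Reg0 (sli a m η) :=
  RegAE_equiv reg0_ae (RegAE_sli m hη)

/-- `nz` as a linear equivalence -/
private noncomputable def RegAE_nz {S : Finset (Fin n)} {m m0 : Fin n} (hm : m ∈ S)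
    (hm0 : m0 ∈ S) (ε : ℝ) (q : Wt n) : Con n d ≃ₗ[ℝ] Con n d where
  toFun a := nz a S (a m0 - a m) ε q
  invFun a := nz a S (a m0 - a m) (-ε) q
  map_add' a b := by
    funext i
    by_cases hi : i ∈ S
    · simp only [nz, if_pos hi, Pi.add_apply]
    · simp only [nz, if_neg hi, Pi.add_apply]
      module
  map_smul' c a := by
    funext i
    by_cases hi : i ∈ S
    · simp only [nz, if_pos hi, Pi.smul_apply, RingHom.id_apply]
    · simp only [nz, if_neg hi, Pi.smul_apply, RingHom.id_apply]
      module
  left_inv a := by
    funext i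
    by_cases hi : i ∈ S
    · simp only [nz, if_pos hi]
    · simp only [nz, if_neg hi, if_pos hm, if_pos hm0]
      module
  right_inv a := by
    funext i
    by_cases hi : i ∈ S
    · simp only [nz, if_pos hi]
    · simp only [nz, if_neg hi, if_pos hm, if_pos hm0]
      module

theorem reg0_nz_ae {S : Finset (Fin n)} {m m0 : Fin n} (hm : m ∈ S) (hm0 : m0 ∈ S) (ε : ℝ) :
    ∀ᵐ a : Con n d, ∀ᵐ q : Wt n, Reg0 (nz a S (a m0 - a m) ε q) := by
  refine (Measure.ae_ae_comm (μ := (volume : Measure (Con n d))) (ν := (volume : Measure (Wt n)))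
    (p := fun a q => Reg0 (nz a S (a m0 - a m) ε q)) ?_).2 ?_
  · exact measurableSet_reg0.preimage (measurable_nz S m m0 ε)
  · exact Filter.Eventually.of_forall fun q => RegAE_equiv reg0_ae (RegAE_nz hm hm0 ε q)

theorem reg0_sli_nz_ae {S : Finset (Fin n)} {m m0 : Fin n} (hm : m ∈ S) (hm0 : m0 ∈ S) (ε : ℝ)
    {η : ℝ} (hη : η < 1) :
    ∀ᵐ a : Con n d, ∀ᵐ q : Wt n, Reg0 (sli (nz a S (a m0 - a m) ε q) m η) := by
  refine (Measure.ae_ae_comm (μ := (volume : Measure (Con n d))) (ν := (volume : Measure (Wt n)))
    (p := fun a q => Reg0 (sli (nz a S (a m0 - a m) ε q) m η)) ?_).2 ?_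
  · exact measurableSet_reg0.preimage ((measurable_sli m η).comp (measurable_nz S m m0 ε))
  · exact Filter.Eventually.of_forall fun q =>
      RegAE_equiv (P := fun a => Reg0 (sli a m η)) (reg0_sli_ae m hη) (RegAE_nz hm hm0 ε q)

/-- scaling of the rows as a linear equivalence -/
private noncomputable def RegAE_scale (g : Wt n) (hg : ∀ i, g i ≠ 0) :
    Con n d ≃ₗ[ℝ] Con n d where
  toFun a := fun i => (g i)⁻¹ • a i
  invFun a := fun i => g i • a i
  map_add' a b := by
    funext i
    simp only [Pi.add_apply]
    rw [smul_add]
  map_smul' c a := by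
    funext i
    simp only [Pi.smul_apply, RingHom.id_apply]
    rw [smul_comm]
  left_inv a := by
    funext i
    change g i • ((g i)⁻¹ • a i) = a i
    rw [smul_smul, mul_inv_cancel₀ (hg i), one_smul]
  right_inv a := by
    funext i
    change (g i)⁻¹ • (g i • a i) = a i
    rw [smul_smul, inv_mul_cancel₀ (hg i), one_smul]

private theorem RegAE_gz (ε : ℝ) : ∀ᵐ q : Wt n, ∀ i, gz (∅ : Finset (Fin n)) 1 ε q i ≠ 0 := by
  rw [ae_all_iff]
  intro i
  by_cases hε : ε = 0
  · refine Filter.Eventually.of_forall fun q => ?_
    simp [gz, hε]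
  · have h1 : volume {q : Wt n | q i = 1 + ε⁻¹} = 0 :=
      Measure.pi_hyperplane (fun _ : Fin n => (volume : Measure ℝ)) i (1 + ε⁻¹)
    rw [ae_iff]
    refine measure_mono_null ?_ h1
    intro q hq
    rw [Set.mem_setOf_eq, not_not] at hq
    simp only [gz, Finset.notMem_empty, if_false, one_mul] at hq
    rw [Set.mem_setOf_eq]
    have h2 : ε * (q i - 1) = 1 := by linarith
    have h3 : q i - 1 = ε⁻¹ := eq_inv_of_mul_eq_one_right h2
    linarith

theorem reg0_nzr_ae (ε : ℝ) :
    ∀ᵐ a : Con n d, ∀ᵐ q : Wt n, Reg0 (nzr a ∅ 0 1 ε q) := by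
  refine (Measure.ae_ae_comm (μ := (volume : Measure (Con n d))) (ν := (volume : Measure (Wt n)))
    (p := fun a q => Reg0 (nzr a ∅ 0 1 ε q)) ?_).2 ?_
  · exact measurableSet_reg0.preimage (measurable_nzr ∅ 0 1 ε)
  · filter_upwards [RegAE_gz (n := n) ε] with q hq
    have h1 := RegAE_equiv (reg0_ae (n := n) (d := d)) (RegAE_scale _ hq)
    filter_upwards [h1] with a ha
    have h2 : nzr a ∅ 0 1 ε q = RegAE_scale (d := d) _ hq a := by
      funext i
      change (gz ∅ 1 ε q i)⁻¹ • nz a ∅ 0 ε q i = (gz ∅ 1 ε q i)⁻¹ • a i
      rw [nz, if_neg (Finset.notMem_empty i), smul_zero, add_zero]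
    rw [h2]
    exact ha

end Pool.Agent.H.MP_0cad2f_co.NT
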