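import Pool.Agent.H.MP_0cad2f_co.NT.Edge

/-!
Two configurations which agree in the rows of `T` and on the flat `V_T` have the same restricted bases.

`restr_basic`: let `T ⊆ I`, `Ind a I`. `x = pt a I ∈ V_T`. For `f` with `a k ⬝ᵥ f = 0` on `T` the point `x + f` is in `V_T`, so
`a' i ⬝ᵥ f = a i ⬝ᵥ f` for all `i` (difference of the values at `x + f` and `x`). The vectors `e i = du a I i`, `i ∈ I \ T`, are such `f`. For
`i ∈ T` correct: `Ind a' I`: if `∑ c k a' k = 0` then applied to `e i`, `i ∈ I \ T`: `c i = 0`; the rest is a relation between the rows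
`a' k = a k`, `k ∈ T`. `pt a' I = x` by `pt_unique` (`a' i ⬝ᵥ x = a i ⬝ᵥ x = 1`). `du a' I i = e i` for `i ∈ I \ T` by `du_unique`.
`cv a' w ⬝ᵥ e i = cv a w ⬝ᵥ e i`. All is symmetric in `a`, `a'` (the hypothesis `h2` too: the flats are the same).

`NN_mnz`: for `N1`: `T = S.erase m`; the rows of `S` are those of `a` in both; for `i ∉ S` the difference of the rows is
`∑ m' ∈ S.erase m0, m' ≠ m, (ε (q m' i - 1)) (a m0 - a m')`, which vanishes on `V_T` (`m0, m' ∈ T`). For `N2`: the configurations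
`sli .. m η`, flat of `S`: `a m0 ⬝ᵥ x = a m' ⬝ᵥ x = 1` for `m' ∈ S`, `m' ≠ m`.
-/

set_option autoImplicit false
open scoped Classical

namespace Pool.Agent.H.MP_0cad2f_co.NT

variable {n d : ℕ} {a a' : Con n d} {T I : Finset (Fin n)}

private theorem Restr_dir (h2 : ∀ i, ∀ x : Fin d → ℝ, (∀ k ∈ T, a k ⬝ᵥ x = 1) →
    a i ⬝ᵥ x = a' i ⬝ᵥ x) (hT : T ⊆ I) (hI : Ind a I) (f : Fin d → ℝ)
    (hf : ∀ k ∈ T, a k ⬝ᵥ f = 0) (i : Fin n) : a' i ⬝ᵥ f = a i ⬝ᵥ f := by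
  have e1 := h2 i (pt a I) fun k hk => pt_dot hI (hT hk)
  have e2 := h2 i (pt a I + f) fun k hk => by
    rw [dotProduct_add, pt_dot hI (hT hk), hf k hk, add_zero]
  rw [dotProduct_add, dotProduct_add, e1] at e2
  exact (add_left_cancel e2).symm

private theorem Restr_cv (b : Con n d) (w : Wt n) (f : Fin d → ℝ) :
    cv b w ⬝ᵥ f = ∑ k, w k * (b k ⬝ᵥ f) := by
  rw [cv, sum_dotProduct]
  exact Finset.sum_congr rfl fun k _ => by rw [smul_dotProduct, smul_eq_mul]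

theorem restr_basic (h1 : ∀ i ∈ T, a i = a' i)
    (h2 : ∀ i, ∀ x : Fin d → ℝ, (∀ k ∈ T, a k ⬝ᵥ x = 1) → a i ⬝ᵥ x = a' i ⬝ᵥ x)
    (hT : T ⊆ I) (hI : Ind a I) :
    Ind a' I ∧ pt a' I = pt a I ∧ (∀ i, sl a' i (pt a' I) = sl a i (pt a I)) ∧
      ∀ i ∈ I, i ∉ T → ∀ w, cv a' w ⬝ᵥ du a' I i = cv a w ⬝ᵥ du a I i := by
  have hd : ∀ m ∈ I, m ∉ T → ∀ i, a' i ⬝ᵥ du a I m = a i ⬝ᵥ du a I m := by
    intro m hm hmT i
    refine Restr_dir h2 hT hI _ (fun k hk => ?_) i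
    exact du_ne hI (hT hk) hm fun h => hmT (h ▸ hk)
  have hI' : Ind a' I := by
    refine ⟨hI.1, ?_⟩
    rw [Fintype.linearIndependent_iff]
    intro x hx
    have h3 : ∀ m : I, (m : Fin n) ∉ T → x m = 0 := by
      intro m hmT
      have h4 := congrArg (fun v => v ⬝ᵥ du a I m) hx
      simp only [zero_dotProduct, sum_dotProduct, smul_dotProduct, smul_eq_mul] at h4
      rw [Finset.sum_eq_single m] at h4
      · rwa [hd m m.2 hmT, du_self hI m.2, mul_one] at h4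
      · intro i _ him
        rw [hd m m.2 hmT, du_ne hI i.2 m.2 (fun h5 => him (Subtype.ext h5)), mul_zero]
      · intro h'
        exact absurd (Finset.mem_univ m) h'
    refine Fintype.linearIndependent_iff.1 hI.2 x ?_
    rw [← hx]
    refine Finset.sum_congr rfl fun i _ => ?_
    by_cases hi : (i : Fin n) ∈ T
    · rw [h1 i hi]
    · rw [h3 i hi, zero_smul, zero_smul]
  have hp : pt a' I = pt a I := by
    refine (pt_unique hI' fun i hi => ?_).symm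
    rw [← h2 i (pt a I) fun k hk => pt_dot hI (hT hk)]
    exact pt_dot hI hi
  refine ⟨hI', hp, fun i => ?_, fun i hi hiT w => ?_⟩
  · rw [sl, sl, hp, h2 i (pt a I) fun k hk => pt_dot hI (hT hk)]
  · have h3 : du a I i = du a' I i := by
      refine du_unique hI' hi fun k hk => ?_
      rw [hd i hi hiT, du_dot hI hk hi]
    rw [← h3, Restr_cv, Restr_cv]
    exact Finset.sum_congr rfl fun k _ => by rw [hd i hi hiT]

private theorem Restr_Opt (h1 : ∀ i ∈ T, a i = a' i)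
    (h2 : ∀ i, ∀ x : Fin d → ℝ, (∀ k ∈ T, a k ⬝ᵥ x = 1) → a i ⬝ᵥ x = a' i ⬝ᵥ x)
    {w : Wt n} (h : Opt a T w I) : Opt a' T w I := by
  obtain ⟨hT, hF, hpos⟩ := h
  obtain ⟨hI', -, hs, hc⟩ := restr_basic h1 h2 hT hF.1
  exact ⟨hT, ⟨hI', fun i => by rw [hs i]; exact hF.2 i⟩,
    fun i hi hiT => by rw [hc i hi hiT]; exact hpos i hi hiT⟩

private theorem Restr_symm (h1 : ∀ i ∈ T, a i = a' i)
    (h2 : ∀ i, ∀ x : Fin d → ℝ, (∀ k ∈ T, a k ⬝ᵥ x = 1) → a i ⬝ᵥ x = a' i ⬝ᵥ x)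
    (i : Fin n) (x : Fin d → ℝ) (hx : ∀ k ∈ T, a' k ⬝ᵥ x = 1) : a' i ⬝ᵥ x = a i ⬝ᵥ x :=
  (h2 i x fun k hk => by rw [h1 k hk]; exact hx k hk).symm

theorem restr_VS (h1 : ∀ i ∈ T, a i = a' i)
    (h2 : ∀ i, ∀ x : Fin d → ℝ, (∀ k ∈ T, a k ⬝ᵥ x = 1) → a i ⬝ᵥ x = a' i ⬝ᵥ x)
    (w0 v : Wt n) (τ0 τ1 : ℝ) : VS a T w0 v τ0 τ1 = VS a' T w0 v τ0 τ1 := by
  unfold VS
  refine Finset.filter_congr fun I _ => ?_
  constructor
  · rintro ⟨τ, ha, hb, h⟩
    exact ⟨τ, ha, hb, Restr_Opt h1 h2 h⟩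
  · rintro ⟨τ, ha, hb, h⟩
    exact ⟨τ, ha, hb, Restr_Opt (fun i hi => (h1 i hi).symm) (Restr_symm h1 h2) h⟩

private theorem Restr_mnz {S : Finset (Fin n)} {m m0 : Fin n} (hm : m ∈ S.erase m0) (hm0 : m0 ∈ S)
    (ε : ℝ) (q : Fin n → Wt n) (i : Fin n) (x : Fin d → ℝ)
    (hx : ∀ k ∈ S.erase m, a k ⬝ᵥ x = 1) :
    mnz a S m0 ε q i ⬝ᵥ x = nz a S (a m0 - a m) ε (q m) i ⬝ᵥ x := by
  have hmm : m0 ≠ m := (Finset.ne_of_mem_erase hm).symm
  unfold mnz nz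
  by_cases hi : i ∈ S
  · rw [if_pos hi, if_pos hi]
  · rw [if_neg hi, if_neg hi, add_dotProduct, add_dotProduct, sum_dotProduct,
      Finset.sum_eq_single m]
    · intro k hk hkm
      rw [smul_dotProduct, sub_dotProduct, hx m0 (Finset.mem_erase.2 ⟨hmm, hm0⟩),
        hx k (Finset.mem_erase.2 ⟨hkm, Finset.mem_of_mem_erase hk⟩), sub_self, smul_zero]
    · intro h
      exact absurd hm h

private theorem Restr_eqS {S : Finset (Fin n)} {m m0 : Fin n} (ε : ℝ) (q : Fin n → Wt n)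
    (i : Fin n) (hi : i ∈ S) :
    mnz a S m0 ε q i = a i ∧ nz a S (a m0 - a m) ε (q m) i = a i := by
  unfold mnz nz
  rw [if_pos hi, if_pos hi]
  exact ⟨rfl, rfl⟩

theorem NN_mnz {S : Finset (Fin n)} {m m0 : Fin n} (hm : m ∈ S.erase m0) (hm0 : m0 ∈ S)
    (ε δ : ℝ) (q : Fin n → Wt n) (w w' : Wt n) :
    NN (mnz a S m0 ε q) S m δ w w' = NN (nz a S (a m0 - a m) ε (q m)) S m δ w w' := by
  have hmS : m ∈ S := Finset.mem_of_mem_erase hm
  have e1 : ∀ i ∈ S, mnz a S m0 ε q i = nz a S (a m0 - a m) ε (q m) i := fun i hi => by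
    rw [(Restr_eqS (m := m) (m0 := m0) ε q i hi).1, (Restr_eqS (m := m) (m0 := m0) ε q i hi).2]
  have e2 : ∀ i, ∀ x : Fin d → ℝ, (∀ k ∈ S.erase m, mnz a S m0 ε q k ⬝ᵥ x = 1) →
      mnz a S m0 ε q i ⬝ᵥ x = nz a S (a m0 - a m) ε (q m) i ⬝ᵥ x := by
    intro i x hx
    refine Restr_mnz hm hm0 ε q i x fun k hk => ?_
    rw [← (Restr_eqS (a := a) (m := m) (m0 := m0) ε q k (Finset.mem_of_mem_erase hk)).1]
    exact hx k hk
  have hN1 : ∀ u : Wt n, N1 (mnz a S m0 ε q) (S.erase m) m (Ld n δ) u =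
      N1 (nz a S (a m0 - a m) ε (q m)) (S.erase m) m (Ld n δ) u := by
    intro u
    unfold N1
    rw [restr_VS (fun i hi => e1 i (Finset.mem_of_mem_erase hi)) e2]
  have e3 : ∀ i, i ≠ m → ∀ b : Con n d, sli b m (et δ) i = b i := by
    intro i hi b
    unfold sli
    rw [Function.update_of_ne hi]
  have e4 : ∀ b : Con n d, sli b m (et δ) m = (1 - et δ)⁻¹ • b m := by
    intro b
    unfold sli
    rw [Function.update_self]
  have f1 : ∀ i ∈ S, sli (mnz a S m0 ε q) m (et δ) i =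
      sli (nz a S (a m0 - a m) ε (q m)) m (et δ) i := by
    intro i hi
    by_cases him : i = m
    · rw [him, e4, e4, e1 m hmS]
    · rw [e3 i him, e3 i him, e1 i hi]
  have hN2 : N2 (sli (mnz a S m0 ε q) m (et δ)) S w w' =
      N2 (sli (nz a S (a m0 - a m) ε (q m)) m (et δ)) S w w' := by
    unfold N2
    rw [restr_VS f1]
    intro i x hx
    by_cases hi : i ∈ S
    · rw [f1 i hi]
    · have him : i ≠ m := fun h => hi (h ▸ hmS)
      rw [e3 i him, e3 i him]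
      refine e2 i x fun k hk => ?_
      have h3 := hx k (Finset.mem_of_mem_erase hk)
      rwa [e3 k (Finset.ne_of_mem_erase hk)] at h3
  unfold NN
  rw [hN1, hN1, hN2]

end Pool.Agent.H.MP_0cad2f_co.NT
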