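import Pool.Agent.H.MP_0cad2f_co.NT.Avg
import Pool.Agent.H.MP_0cad2f_co.NT.Restr
import Pool.Agent.H.MP_0cad2f_co.NT.Maj
import Pool.Agent.H.MP_0cad2f_co.NT.Dec
import Pool.Agent.H.MP_0cad2f_co.NT.RegAE

/-!
The exceptional configurations of `S` are rare (Lemma 6.3 of the text).

`decouple` with `F` = indicator of `{a | Deep a S δ ∧ a ∈ BadS S m0 δ κ t}` (measurable). Fubini: the inner integral over `q`, for fixed `a`
(almost all `a`: `mu_ac`, `reg0_nz_ae`, `reg0_sli_nz_ae` for all `m ∈ S.erase m0`). If for some `q` (with `q m ∈ cube n 0`) `Deep (mnz a S m0 ε q) S δ`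
then `Deep a S (δ/2)` (`Deep.of_mnz`), otherwise the integrand is `0` almost surely. `mnz a S m0 ε q ∈ BadS` means
`3/8 ≤ uW {w | ∀ m ∈ S.erase m0, 1/2 < uW {w' | t < NN (nz a S (a m0 - a m) ε (q m)) S m δ (κ * w) w'}}` (`NN_mnz`), so by `majority`
(`R = S.erase m0`, `N m w w' h = NN (nz a S (a m0 - a m) ε h) S m δ (κ * w) w'`, `A = AA`, `NN_avg`) the inner integral is at most
`4 (32 A/t)^((R.card + 1)/2)`, `R.card + 1 = S.card`.
-/

set_option autoImplicit false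
open MeasureTheory ProbabilityTheory
open scoped ENNReal Classical

namespace Pool.Agent.H.MP_0cad2f_co.NT

variable {n d : ℕ} {c : Con n d} {S : Finset (Fin n)} {m0 : Fin n} {κ : Wt n} {κ0 δ ε σ R : ℝ}

private theorem Bad_AA_pos (hκ0 : 0 < κ0) (hδ : 0 < δ) (hε : 0 < ε) (hn : 2 ≤ n) (hd : 1 ≤ d) :
    0 < AA n d δ ε κ0 := by
  have h1 : (0 : ℝ) < n := by exact_mod_cast (by omega : 0 < n)
  have h2 : (0 : ℝ) < d := by exact_mod_cast (by omega : 0 < d)
  unfold AA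
  positivity

/-- almost all choices of the noise are in the cubes -/
private theorem Bad_cube_ae : ∀ᵐ q ∂(Measure.pi fun _ : Fin n => uW n), ∀ m, q m ∈ cube n 0 := by
  rw [ae_all_iff]
  intro m
  have h1 : ∀ᵐ w ∂(uW n), w ∈ cube n 0 := by
    unfold uW
    exact ae_restrict_mem (measurableSet_cube 0)
  exact (Measure.quasiMeasurePreserving_eval (μ := fun _ : Fin n => uW n) m).ae h1

/-- measurability of the length of the combined step in noise and weights -/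
private theorem Bad_meas (a : Con n d) (S : Finset (Fin n)) (m m0 : Fin n) (ε : ℝ) :
    Measurable fun p : Wt n × (Wt n × Wt n) =>
      NN (nz a S (a m0 - a m) ε p.1) S m δ (κ * p.2.1) p.2.2 := by
  have h1 : Measurable fun p : Wt n × (Wt n × Wt n) =>
      (nz a S (a m0 - a m) ε p.1, (κ * p.2.1, p.2.2)) := by
    refine Measurable.prodMk ?_ (Measurable.prodMk ?_ ?_)
    · exact (measurable_nz (d := d) S m m0 ε).comp
        (measurable_const.prodMk measurable_fst : Measurable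
          fun p : Wt n × (Wt n × Wt n) => (a, p.1))
    · exact measurable_const.mul (measurable_fst.comp measurable_snd)
    · exact measurable_snd.comp measurable_snd
  have h2 := (measurable_NN S m δ).comp h1
  have h3 : (fun p : Wt n × (Wt n × Wt n) =>
      NN (nz a S (a m0 - a m) ε p.1) S m δ (κ * p.2.1) p.2.2) =
      ((fun x : Con n d × (Wt n × Wt n) => NN x.1 S m δ x.2.1 x.2.2) ∘
        fun p : Wt n × (Wt n × Wt n) => (nz a S (a m0 - a m) ε p.1, (κ * p.2.1, p.2.2))) := by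
    funext p
    rw [Function.comp_apply]
  rw [h3]
  exact h2

/-- the inner integral, for one configuration -/
private theorem Bad_inner {a : Con n d} (hm0 : m0 ∈ S) (hS : 2 ≤ S.card)
    (hκ : ∀ i, κ0 ≤ κ i ∧ κ i ≤ 1)
    (hκ0 : 0 < κ0) (hκ1 : κ0 ≤ 1) (hδ : 0 < δ) (hδ1 : δ ≤ 1) (hε : 0 < ε) (hε1 : 8 * n * ε ≤ 1)
    (hn : 2 ≤ n) (hd : 1 ≤ d) (t : ℕ) (ht : 32 * AA n d δ ε κ0 ≤ t)
    (hr : ∀ m ∈ S.erase m0, (∀ᵐ q : Wt n, Reg0 (nz a S (a m0 - a m) ε q)) ∧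
      ∀ᵐ q : Wt n, Reg0 (sli (nz a S (a m0 - a m) ε q) m (et δ))) :
    ∫⁻ q, {a : Con n d | Deep a S δ ∧ a ∈ BadS S m0 δ κ t}.indicator (fun _ => (1 : ℝ≥0∞))
      (mnz a S m0 ε q) ∂(Measure.pi fun _ : Fin n => uW n) ≤
      4 * (32 * ENNReal.ofReal (AA n d δ ε κ0) / t) ^ (S.card / 2) := by
  have hn1 : (0 : ℝ) < n := by exact_mod_cast (by omega : 0 < n)
  have hn2 : (2 : ℝ) ≤ n := by exact_mod_cast hn
  have hεn : ε * n ≤ 1 := by nlinarith
  have hε8 : ε ≤ 1 / 8 := by nlinarith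
  by_cases hD : Deep a S (δ / 2)
  swap
  · have h1 : ∫⁻ q, {a : Con n d | Deep a S δ ∧ a ∈ BadS S m0 δ κ t}.indicator
        (fun _ => (1 : ℝ≥0∞)) (mnz a S m0 ε q) ∂(Measure.pi fun _ : Fin n => uW n) = 0 := by
      rw [← lintegral_zero]
      refine lintegral_congr_ae ?_
      filter_upwards [Bad_cube_ae (n := n)] with q hq
      refine Set.indicator_of_notMem ?_ _
      rintro ⟨h2, -⟩
      exact hD (h2.of_mnz hm0 hq hδ hδ1 hε.le hεn)
    rw [h1]
    exact zero_le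
  have hAA := Bad_AA_pos hκ0 hδ hε hn hd
  have hcard : (S.erase m0).card + 1 = S.card := Finset.card_erase_add_one hm0
  have hne : (S.erase m0).Nonempty := by
    rw [← Finset.card_pos]
    omega
  have hm1 := fun m : Fin n => Bad_meas (δ := δ) (κ := κ) a S m m0 ε
  have hm2 : ENNReal.ofReal (AA n d δ ε κ0) ≠ 0 := by
    rw [Ne, ENNReal.ofReal_eq_zero, not_le]
    exact hAA
  have hm3 : (32 : ℝ≥0∞) * ENNReal.ofReal (AA n d δ ε κ0) ≤ t := by
    have h1 : (32 : ℝ≥0∞) * ENNReal.ofReal (AA n d δ ε κ0) =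
        ENNReal.ofReal (32 * AA n d δ ε κ0) := by
      rw [ENNReal.ofReal_mul (by norm_num)]
      norm_num
    rw [h1, ← ENNReal.ofReal_natCast]
    exact ENNReal.ofReal_le_ofReal ht
  have hm4 : ∀ m ∈ S.erase m0, ∫⁻ q, ∫⁻ w, ∫⁻ w',
      (NN (nz a S (a m0 - a m) ε q) S m δ (κ * w) w' : ℝ≥0∞)
      ∂(uW n) ∂(uW n) ∂(uW n) ≤ ENNReal.ofReal (AA n d δ ε κ0) := fun m hm =>
    NN_avg hm0 hm hκ hκ0 hκ1 hδ hδ1 hε hε8 hn hd hD (hr m hm).1 (hr m hm).2
  generalize AA n d δ ε κ0 = A at *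
  have hmaj := majority (uW n) (uW n) (S.erase m0) hne
    (fun m w w' h => NN (nz a S (a m0 - a m) ε h) S m δ (κ * w) w') hm1
    (ENNReal.ofReal A) hm2 t hm4 hm3
  rw [hcard] at hmaj
  refine le_trans ?_ hmaj
  have hsub : ∀ q : Fin n → Wt n,
      {a : Con n d | Deep a S δ ∧ a ∈ BadS S m0 δ κ t}.indicator (fun _ => (1 : ℝ≥0∞))
        (mnz a S m0 ε q) ≤
      {h : Fin n → Wt n | 3 / 8 ≤ uW n {w | ∀ m ∈ S.erase m0,
        1 / 2 < uW n {w' | t < NN (nz a S (a m0 - a m) ε (h m)) S m δ (κ * w) w'}}}.indicator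
          (fun _ => (1 : ℝ≥0∞)) q := by
    intro q
    by_cases hq : mnz a S m0 ε q ∈ {a : Con n d | Deep a S δ ∧ a ∈ BadS S m0 δ κ t}
    · rw [Set.indicator_of_mem hq]
      have h2 : q ∈ {h : Fin n → Wt n | 3 / 8 ≤ uW n {w | ∀ m ∈ S.erase m0,
          1 / 2 < uW n {w' | t < NN (nz a S (a m0 - a m) ε (h m)) S m δ (κ * w) w'}}} := by
        have h3 := hq.2
        unfold BadS at h3
        simp only [Set.mem_ofPred_eq] at h3 ⊢
        have h4 : {w : Wt n | ∀ m ∈ S.erase m0,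
            1 / 2 < uW n {w' | t < NN (mnz a S m0 ε q) S m δ (κ * w) w'}} =
            {w : Wt n | ∀ m ∈ S.erase m0,
            1 / 2 < uW n {w' | t < NN (nz a S (a m0 - a m) ε (q m)) S m δ (κ * w) w'}} := by
          ext w
          simp only [Set.mem_ofPred_eq]
          refine forall₂_congr fun m hm => ?_
          simp only [NN_mnz hm hm0]
        rw [h4] at h3
        exact h3
      rw [Set.indicator_of_mem h2]
    · rw [Set.indicator_of_notMem hq]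
      exact zero_le
  refine le_trans (lintegral_mono hsub) ?_
  refine le_trans (lintegral_indicator_const_le _ _) (le_of_eq (one_mul _))

theorem bad_le (hm0 : m0 ∈ S) (hS : 2 ≤ S.card) (hκ : ∀ i, κ0 ≤ κ i ∧ κ i ≤ 1)
    (hκ0 : 0 < κ0) (hκ1 : κ0 ≤ 1) (hδ : 0 < δ) (hδ1 : δ ≤ 1) (hε : 0 < ε) (hε1 : 8 * n * ε ≤ 1)
    (hn : 2 ≤ n) (hd : 1 ≤ d) (hσ : 0 < σ) (hc : ∀ i, ∑ j, (c i j) ^ 2 ≤ 1) (hR : 1 ≤ R)
    (hε2 : 6 * n ^ 2 * ε * R ^ 2 ≤ σ ^ 2) (t : ℕ) (ht : 32 * AA n d δ ε κ0 ≤ t) :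
    mu c σ {a | Bdd R a ∧ Deep a S δ ∧ a ∈ BadS S m0 δ κ t} ≤
      ENNReal.ofReal (12 * (32 * AA n d δ ε κ0 / t) ^ (S.card / 2)) := by
  have hn1 : (0 : ℝ) < n := by exact_mod_cast (by omega : 0 < n)
  have hAA := Bad_AA_pos hκ0 hδ hε hn hd
  have ht0 : (0 : ℝ) < t := lt_of_lt_of_le (by positivity) ht
  have hE : MeasurableSet {a : Con n d | Deep a S δ ∧ a ∈ BadS S m0 δ κ t} :=
    (measurableSet_deep S hδ).inter (measurableSet_BadS S m0 δ κ t)
  have hF : Measurable ({a : Con n d | Deep a S δ ∧ a ∈ BadS S m0 δ κ t}.indicator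
      (fun _ => (1 : ℝ≥0∞))) := measurable_const.indicator hE
  have h1 : mu c σ {a | Bdd R a ∧ Deep a S δ ∧ a ∈ BadS S m0 δ κ t} =
      ∫⁻ a, {a | Bdd R a}.indicator
        ({a : Con n d | Deep a S δ ∧ a ∈ BadS S m0 δ κ t}.indicator (fun _ => (1 : ℝ≥0∞))) a
        ∂(mu c σ) := by
    rw [Set.indicator_indicator, lintegral_indicator ((measurableSet_bdd R).inter hE),
      setLIntegral_one]
    rfl
  rw [h1]
  refine le_trans (decouple hm0 hσ hc hR hε.le (by nlinarith) hε2 _ hF) ?_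
  have hswap : ∫⁻ q, ∫⁻ a, {a : Con n d | Deep a S δ ∧ a ∈ BadS S m0 δ κ t}.indicator
        (fun _ => (1 : ℝ≥0∞)) (mnz a S m0 ε q) ∂(mu c σ) ∂(Measure.pi fun _ : Fin n => uW n) =
      ∫⁻ a, ∫⁻ q, {a : Con n d | Deep a S δ ∧ a ∈ BadS S m0 δ κ t}.indicator
        (fun _ => (1 : ℝ≥0∞)) (mnz a S m0 ε q) ∂(Measure.pi fun _ : Fin n => uW n) ∂(mu c σ) := by
    refine lintegral_lintegral_swap ?_
    refine Measurable.aemeasurable ?_
    exact hF.comp ((measurable_mnz S m0 ε).comp measurable_swap)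
  rw [hswap]
  have hη : et δ < 1 := by
    unfold et
    nlinarith
  have hae : ∀ᵐ a ∂(mu c σ), ∀ m ∈ S.erase m0,
      (∀ᵐ q : Wt n, Reg0 (nz a S (a m0 - a m) ε q)) ∧
        ∀ᵐ q : Wt n, Reg0 (sli (nz a S (a m0 - a m) ε q) m (et δ)) := by
    refine (mu_ac c hσ).ae_le ((Filter.eventually_all_finset _).2 ?_)
    intro m hm
    exact (reg0_nz_ae (Finset.mem_of_mem_erase hm) hm0 ε).and
      (reg0_sli_nz_ae (Finset.mem_of_mem_erase hm) hm0 ε hη)
  have h2 : ∫⁻ a, ∫⁻ q, {a : Con n d | Deep a S δ ∧ a ∈ BadS S m0 δ κ t}.indicator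
        (fun _ => (1 : ℝ≥0∞)) (mnz a S m0 ε q) ∂(Measure.pi fun _ : Fin n => uW n) ∂(mu c σ) ≤
      4 * (32 * ENNReal.ofReal (AA n d δ ε κ0) / t) ^ (S.card / 2) := by
    refine le_trans (lintegral_mono_ae (hae.mono fun a ha =>
      Bad_inner hm0 hS hκ hκ0 hκ1 hδ hδ1 hε hε1 hn hd t ht ha)) ?_
    rw [lintegral_const, measure_univ, mul_one]
  refine le_trans (mul_le_mul_right h2 3) (le_of_eq ?_)
  have h3 : (32 : ℝ≥0∞) * ENNReal.ofReal (AA n d δ ε κ0) / t =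
      ENNReal.ofReal (32 * AA n d δ ε κ0 / t) := by
    rw [ENNReal.ofReal_div_of_pos ht0, ENNReal.ofReal_mul (by norm_num), ENNReal.ofReal_natCast]
    norm_num
  rw [h3, ENNReal.ofReal_mul (by norm_num), ENNReal.ofReal_pow (by positivity), ← mul_assoc]
  congr 1
  norm_num

end Pool.Agent.H.MP_0cad2f_co.NT
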