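import Pool.Agent.H.MP_0cad2f_co.NT.Edge

/-!
Linear programming in the flat `V_T = {a_i x = 1, i ∈ T}`; the bases contain `T`.
All statements are elementary; `EdgeA_gap`, `expand`, `du_dot`, `dot_du_swp` in `Edge`, `Dual` do the linear
algebra. The file `Av/PathA.lean` and `h39/Path.lean` contain similar pivot steps.

`ident`: `cv a w = ∑ k, w k • a k`, so `∑ w k * sl a k x = ∑ w k - cv a w ⬝ᵥ x`, and `EdgeA_gap` with `sl a i x = 0`
for `i ∈ T`.

`wopt_unique`: with `ident` at `I` and at `I'` the values at `pt a I`, `pt a I'` are equal, so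
`(cv a w ⬝ᵥ du a I' i) * sl a i (pt a I) = 0` for `i ∈ I' \ T`, `sl a i (pt a I) = 0` for all `i ∈ I'`, so `I' ⊆ I` by
`Reg0` and the cardinalities agree.

`pivot`: `k` minimizing `sl a k (pt a I) / (-(a k ⬝ᵥ du a I i))` over the `k` with `a k ⬝ᵥ du a I i < 0` (then
`k ∉ I`); the point `x = pt a I - ρ • du a I i`, `ρ` the minimum, is feasible, tight at `I - i + k`, so it is
`pt a (swp I i k)` (`pt_unique`); `ρ > 0` by `Reg0` at `I` (the slack of `k` is not zero).

`exists_opt`: among the feasible bases containing `T` one with the smallest value of `∑ w k * sl a k (pt a I)`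
has all multipliers `≥ 0` (otherwise `pivot`; the ray case is impossible as `w ≥ 0`: `exists_neg`), and `> 0` by `hn`.

`exists_feas`: take a point `x` with `a i ⬝ᵥ x = 1` on `T`, all slacks `≥ 0`, with the largest number of tight rows.
If the tight rows do not span, there is `v ≠ 0` orthogonal to all tight rows, and `a k ⬝ᵥ v ≠ 0` for some `k ∈ I0`
(`I0` is a basis); with the right sign of `v` move along `v` until a new row becomes tight. So the tight rows
span; they contain a basis `I` with `T ⊆ I` (extend the independent family of the rows of `T ⊆ I0` inside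
the spanning set of the tight rows, `exists_linearIndependent_extension`), `x = pt a I`.

`face_path`: simplex method towards `J` with the weights `1` on `J`, `0` elsewhere: `cv a w ⬝ᵥ x = ∑ i ∈ J, a i ⬝ᵥ x`; `J` is
the only weakly optimal basis. Each pivot strictly increases `cv a w ⬝ᵥ pt a I` (`ρ > 0`). So at most as many
steps as there are bases containing `T`.
-/

set_option autoImplicit false
open scoped Classical

namespace Pool.Agent.H.MP_0cad2f_co.NT

variable {n d : ℕ} {a : Con n d} {T I J : Finset (Fin n)} {w : Wt n}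

theorem Ch.mono {k l : ℕ} (h : Ch a T k I J) (hkl : k ≤ l) : Ch a T l I J := by
  induction h generalizing l with
  | refl k hT hI => exact Ch.refl l hT hI
  | step hT hI hi hiT hj _ ih =>
    obtain ⟨l', rfl⟩ : ∃ l', l = l' + 1 := ⟨l - 1, by omega⟩
    exact Ch.step hT hI hi hiT hj (ih (by omega))

theorem Ch.trans {k l : ℕ} {K : Finset (Fin n)} (h : Ch a T k I J) (h' : Ch a T l J K) :
    Ch a T (k + l) I K := by
  induction h with
  | refl k hT hI => exact h'.mono (by omega)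
  | step hT hI hi hiT hj _ ih =>
    have h1 := Ch.step hT hI hi hiT hj (ih h')
    exact h1.mono (by omega)

theorem Ch.feas {k : ℕ} (h : Ch a T k I J) : T ⊆ I ∧ Feas a I ∧ T ⊆ J ∧ Feas a J := by
  induction h with
  | refl k hT hI => exact ⟨hT, hI, hT, hI⟩
  | step hT hI _ _ _ _ ih => exact ⟨hT, hI, ih.2.2.1, ih.2.2.2⟩

private theorem Lp_swp_swp {i j : Fin n} (hi : i ∈ I) (hj : j ∉ I) :
    swp (swp I i j) j i = I := by
  unfold swp
  rw [Finset.erase_insert (fun h => hj (Finset.mem_of_mem_erase h)), Finset.insert_erase hi]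

theorem Ch.symm {k : ℕ} (h : Ch a T k I J) : Ch a T k J I := by
  induction h with
  | refl k hT hI => exact Ch.refl k hT hI
  | @step k I J i j hT hI hi hiT hj h' ih =>
    obtain ⟨hT', hI', -, -⟩ := h'.feas
    have hij : i ≠ j := fun h => hj (h ▸ hi)
    have hi' : i ∉ swp I i j := by
      intro h
      rcases Finset.mem_insert.1 h with h1 | h1
      · exact hij h1
      · exact Finset.ne_of_mem_erase h1 rfl
    have hj' : j ∈ swp I i j := Finset.mem_insert_self j _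
    have hjT : j ∉ T := fun h => hj (hT h)
    have h2 : Ch a T 0 (swp (swp I i j) j i) I := by
      rw [Lp_swp_swp hi hj]
      exact Ch.refl 0 hT hI
    exact ih.trans (Ch.step hT' hI' hj' hjT hi' h2)

theorem Ch.sub {T' : Finset (Fin n)} (hT : T' ⊆ T) {k : ℕ} (h : Ch a T k I J) :
    Ch a T' k I J := by
  induction h with
  | refl k hT1 hI => exact Ch.refl k (hT.trans hT1) hI
  | step hT1 hI hi hiT hj _ ih =>
    exact Ch.step (hT.trans hT1) hI hi (fun h => hiT (hT h)) hj ih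

theorem cv_dot (w : Wt n) (x : Fin d → ℝ) : cv a w ⬝ᵥ x = ∑ k, w k * (a k ⬝ᵥ x) := by
  unfold cv
  exact EdgeA_sum Finset.univ _ x

private theorem Lp_phi (w : Wt n) (x : Fin d → ℝ) :
    ∑ k, w k * sl a k x = ∑ k, w k - cv a w ⬝ᵥ x := by
  rw [cv_dot, ← Finset.sum_sub_distrib]
  refine Finset.sum_congr rfl fun k _ => ?_
  rw [sl]
  ring

theorem ident (hI : Ind a I) (hT : T ⊆ I) {x : Fin d → ℝ} (hx : ∀ i ∈ T, a i ⬝ᵥ x = 1)
    (w : Wt n) :
    ∑ k, w k * sl a k x = ∑ k, w k * sl a k (pt a I) +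
      ∑ i ∈ I \ T, (cv a w ⬝ᵥ du a I i) * sl a i x := by
  have h1 := EdgeA_gap hI (cv a w) x
  have h2 : ∑ m ∈ I, (cv a w ⬝ᵥ du a I m) * sl a m x =
      ∑ i ∈ I \ T, (cv a w ⬝ᵥ du a I i) * sl a i x := by
    rw [← Finset.sum_sdiff hT]
    have h3 : ∑ m ∈ T, (cv a w ⬝ᵥ du a I m) * sl a m x = 0 := by
      refine Finset.sum_eq_zero fun i hi => ?_
      rw [sl, hx i hi, sub_self, mul_zero]
    rw [h3, add_zero]
  rw [Lp_phi, Lp_phi, ← h2, ← h1]
  ring

theorem cv_add (w w' : Wt n) (x : Fin d → ℝ) :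
    cv a (w + w') ⬝ᵥ x = cv a w ⬝ᵥ x + cv a w' ⬝ᵥ x := by
  rw [cv_dot, cv_dot, cv_dot, ← Finset.sum_add_distrib]
  refine Finset.sum_congr rfl fun k _ => ?_
  rw [Pi.add_apply]
  ring

theorem cv_smul (t : ℝ) (w : Wt n) (x : Fin d → ℝ) :
    cv a (t • w) ⬝ᵥ x = t * (cv a w ⬝ᵥ x) := by
  rw [cv_dot, cv_dot, Finset.mul_sum]
  refine Finset.sum_congr rfl fun k _ => ?_
  rw [Pi.smul_apply, smul_eq_mul]
  ring

private theorem Lp_update (w : Wt n) (i : Fin n) (s : ℝ) (x : Fin d → ℝ) :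
    cv a (Function.update w i s) ⬝ᵥ x = cv a w ⬝ᵥ x + (s - w i) * (a i ⬝ᵥ x) := by
  rw [cv_dot, cv_dot]
  have h1 : ∀ k, Function.update w i s k * (a k ⬝ᵥ x) =
      w k * (a k ⬝ᵥ x) + (if k = i then (s - w i) * (a i ⬝ᵥ x) else 0) := by
    intro k
    by_cases hk : k = i
    · subst hk
      rw [Function.update_self, if_pos rfl]
      ring
    · rw [Function.update_of_ne hk, if_neg hk, add_zero]
  rw [Finset.sum_congr rfl fun k _ => h1 k, Finset.sum_add_distrib, Finset.sum_ite_eq',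
    if_pos (Finset.mem_univ i)]

/-- the multiplier of `i ∈ I` contains `w i` with coefficient one -/
theorem mul_update_self (hI : Ind a I) {i : Fin n} (hi : i ∈ I) (w : Wt n) (s : ℝ) :
    cv a (Function.update w i s) ⬝ᵥ du a I i = cv a w ⬝ᵥ du a I i + (s - w i) := by
  rw [Lp_update, du_self hI hi, mul_one]

/-- the multiplier of `i ∈ I` does not depend on the weights of the other members of `I` -/
theorem mul_update_ne (hI : Ind a I) {i k : Fin n} (hi : i ∈ I) (hk : k ∈ I) (hik : k ≠ i)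
    (w : Wt n) (s : ℝ) :
    cv a (Function.update w k s) ⬝ᵥ du a I i = cv a w ⬝ᵥ du a I i := by
  rw [Lp_update, du_ne hI hk hi hik, mul_zero, add_zero]

theorem wopt_unique (hr : Reg0 a) (h : WOpt a T w I) (h' : Opt a T w J) : I = J := by
  obtain ⟨hT, hI, hm⟩ := h
  obtain ⟨hT', hJ, hm'⟩ := h'
  have e1 := ident hI.1 hT (x := pt a J) (fun i hi => pt_dot hJ.1 (hT' hi)) w
  have e2 := ident hJ.1 hT' (x := pt a I) (fun i hi => pt_dot hI.1 (hT hi)) w
  have p1 : 0 ≤ ∑ i ∈ I \ T, (cv a w ⬝ᵥ du a I i) * sl a i (pt a J) := by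
    refine Finset.sum_nonneg fun i hi => ?_
    obtain ⟨h1, h2⟩ := Finset.mem_sdiff.1 hi
    exact mul_nonneg (hm i h1 h2) (hJ.2 i)
  have n2 : ∀ i ∈ J \ T, 0 ≤ (cv a w ⬝ᵥ du a J i) * sl a i (pt a I) := by
    intro i hi
    obtain ⟨h1, h2⟩ := Finset.mem_sdiff.1 hi
    exact mul_nonneg (hm' i h1 h2).le (hI.2 i)
  have p2 := Finset.sum_nonneg n2
  have z2 : ∑ i ∈ J \ T, (cv a w ⬝ᵥ du a J i) * sl a i (pt a I) = 0 := by linarith
  have z3 := (Finset.sum_eq_zero_iff_of_nonneg n2).1 z2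
  have hsub : J ⊆ I := by
    intro i hi
    by_contra hiI
    have hiT : i ∉ T := fun h => hiI (hT h)
    have h4 := z3 i (Finset.mem_sdiff.2 ⟨hi, hiT⟩)
    rcases mul_eq_zero.1 h4 with h5 | h5
    · exact (hm' i hi hiT).ne' h5
    · exact (hr I hI.1.1).2 i hiI h5
  exact (Finset.eq_of_subset_of_card_le hsub (by rw [hI.1.1, hJ.1.1])).symm

theorem pivot (hr : Reg0 a) (hI : Feas a I) {i : Fin n} (hi : i ∈ I)
    (hex : ∃ k, a k ⬝ᵥ du a I i < 0) :
    ∃ j, j ∉ I ∧ Feas a (swp I i j) ∧ a j ⬝ᵥ du a I i < 0 ∧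
      ∃ ρ : ℝ, 0 < ρ ∧ pt a (swp I i j) = pt a I - ρ • du a I i := by
  obtain ⟨k0, hk0⟩ := hex
  obtain ⟨j, hj, hmin⟩ := Finset.exists_min_image
    (Finset.univ.filter fun k => a k ⬝ᵥ du a I i < 0)
    (fun k => sl a k (pt a I) / (-(a k ⬝ᵥ du a I i)))
    ⟨k0, Finset.mem_filter.2 ⟨Finset.mem_univ _, hk0⟩⟩
  have hjn : a j ⬝ᵥ du a I i < 0 := (Finset.mem_filter.1 hj).2
  have hjI : j ∉ I := by
    intro h
    rw [du_dot hI.1 h hi] at hjn
    split_ifs at hjn
    · linarith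
    · linarith
  have hcard : (swp I i j).card = d := by rw [card_swp hi hjI, hI.1.1]
  have hind := (hr _ hcard).1
  have hsj : 0 < sl a j (pt a I) :=
    lt_of_le_of_ne (hI.2 j) (Ne.symm ((hr I hI.1.1).2 j hjI))
  have hρ : 0 < sl a j (pt a I) / (-(a j ⬝ᵥ du a I i)) := div_pos hsj (by linarith)
  have hsl : ∀ l, sl a l (pt a I - (sl a j (pt a I) / (-(a j ⬝ᵥ du a I i))) • du a I i) =
      sl a l (pt a I) + (sl a j (pt a I) / (-(a j ⬝ᵥ du a I i))) * (a l ⬝ᵥ du a I i) := by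
    intro l
    generalize sl a j (pt a I) / (-(a j ⬝ᵥ du a I i)) = r
    rw [sl, sl, dotProduct_sub, dotProduct_smul, smul_eq_mul]
    ring
  have hpt : pt a I - (sl a j (pt a I) / (-(a j ⬝ᵥ du a I i))) • du a I i =
      pt a (swp I i j) := by
    refine pt_unique hind fun l hl => ?_
    have h0 : sl a l (pt a I - (sl a j (pt a I) / (-(a j ⬝ᵥ du a I i))) • du a I i) = 0 := by
      rw [hsl]
      rcases Finset.mem_insert.1 hl with h1 | h1
      · rw [h1, div_neg, neg_mul, div_mul_cancel₀ _ hjn.ne, add_neg_cancel]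
      · rw [sl_pt hI.1 (Finset.mem_of_mem_erase h1),
          du_ne hI.1 (Finset.mem_of_mem_erase h1) hi (Finset.ne_of_mem_erase h1)]
        ring
    rw [sl] at h0
    linarith
  refine ⟨j, hjI, ⟨hind, fun l => ?_⟩, hjn, sl a j (pt a I) / (-(a j ⬝ᵥ du a I i)), hρ,
    hpt.symm⟩
  rw [← hpt, hsl]
  by_cases hl : a l ⬝ᵥ du a I i < 0
  · have h1 := hmin l (Finset.mem_filter.2 ⟨Finset.mem_univ _, hl⟩)
    rw [le_div_iff₀ (by linarith)] at h1
    linarith
  · have h1 := mul_nonneg hρ.le (not_lt.1 hl)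
    have h2 := hI.2 l
    linarith

/-- change of the objective in a pivot step -/
private theorem Lp_phi_step {i j : Fin n} {ρ : ℝ}
    (h : pt a (swp I i j) = pt a I - ρ • du a I i) (w : Wt n) :
    ∑ k, w k * sl a k (pt a (swp I i j)) =
      ∑ k, w k * sl a k (pt a I) + ρ * (cv a w ⬝ᵥ du a I i) := by
  rw [Lp_phi, Lp_phi, h, dotProduct_sub, dotProduct_smul, smul_eq_mul]
  ring

private theorem Lp_sub_swp {i j : Fin n} (hT : T ⊆ I) (hi : i ∉ T) : T ⊆ swp I i j := by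
  intro l hl
  exact Finset.mem_insert_of_mem (Finset.mem_erase.2 ⟨fun h => hi (h ▸ hl), hT hl⟩)

theorem exists_opt (hr : Reg0 a) (hw : ∀ i, 0 ≤ w i) (hn : NV a w) (hT : T ⊆ I)
    (hI : Feas a I) : ∃ J, Opt a T w J := by
  obtain ⟨K, hK, hmin⟩ := Finset.exists_min_image
    (Finset.univ.filter fun K : Finset (Fin n) => T ⊆ K ∧ Feas a K)
    (fun K => ∑ k, w k * sl a k (pt a K))
    ⟨I, Finset.mem_filter.2 ⟨Finset.mem_univ _, hT, hI⟩⟩
  obtain ⟨hKT, hKF⟩ := (Finset.mem_filter.1 hK).2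
  refine ⟨K, hKT, hKF, fun i hi hiT => ?_⟩
  rcases lt_trichotomy (cv a w ⬝ᵥ du a K i) 0 with h | h | h
  · exfalso
    obtain ⟨j, hj, hF, -, ρ, hρ, hp⟩ := pivot hr hKF hi (exists_neg hw h)
    have h1 := hmin (swp K i j)
      (Finset.mem_filter.2 ⟨Finset.mem_univ _, Lp_sub_swp hKT hiT, hF⟩)
    rw [Lp_phi_step hp w] at h1
    have h2 := mul_neg_of_pos_of_neg hρ h
    linarith
  · exact absurd h (hn K hKF.1.1 i hi)
  · exact h

/-- one more tight row -/
private theorem Lp_more (hr : Reg0 a) (hdn : d ≤ n) {x : Fin d → ℝ} (hx : ∀ i ∈ T, a i ⬝ᵥ x = 1)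
    (hx' : ∀ i, 0 ≤ sl a i x)
    (hlt : (Finset.univ.filter fun i => sl a i x = 0).card < d) :
    ∃ y : Fin d → ℝ, (∀ i ∈ T, a i ⬝ᵥ y = 1) ∧ (∀ i, 0 ≤ sl a i y) ∧
      (Finset.univ.filter fun i => sl a i x = 0).card <
        (Finset.univ.filter fun i => sl a i y = 0).card := by
  obtain ⟨J, hFJ, -, hJc⟩ := Finset.exists_subsuperset_card_eq
    (Finset.subset_univ (Finset.univ.filter fun i => sl a i x = 0)) hlt.le
    (by rw [Finset.card_univ, Fintype.card_fin]; exact hdn)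
  have hJ := (hr J hJc).1
  obtain ⟨i, hiJ, hiF⟩ : ∃ i ∈ J, i ∉ (Finset.univ.filter fun i => sl a i x = 0) := by
    by_contra hcon
    push Not at hcon
    have := Finset.card_le_card (show J ⊆ _ from hcon)
    omega
  have hpos : a i ⬝ᵥ du a J i = 1 := du_self hJ hiJ
  have horth : ∀ k, sl a k x = 0 → a k ⬝ᵥ du a J i = 0 := by
    intro k hk
    have hkF : k ∈ (Finset.univ.filter fun i => sl a i x = 0) :=
      Finset.mem_filter.2 ⟨Finset.mem_univ _, hk⟩
    exact du_ne hJ (hFJ hkF) hiJ (fun h => hiF (h ▸ hkF))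
  obtain ⟨j, hj, hmin⟩ := Finset.exists_min_image
    (Finset.univ.filter fun k => 0 < a k ⬝ᵥ du a J i)
    (fun k => sl a k x / (a k ⬝ᵥ du a J i))
    ⟨i, Finset.mem_filter.2 ⟨Finset.mem_univ _, by rw [hpos]; exact one_pos⟩⟩
  have hjp : 0 < a j ⬝ᵥ du a J i := (Finset.mem_filter.1 hj).2
  have hρ : 0 ≤ sl a j x / (a j ⬝ᵥ du a J i) := div_nonneg (hx' j) hjp.le
  have hsl : ∀ k, sl a k (x + (sl a j x / (a j ⬝ᵥ du a J i)) • du a J i) =
      sl a k x - (sl a j x / (a j ⬝ᵥ du a J i)) * (a k ⬝ᵥ du a J i) := fun k => sl_add k _ _ _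
  refine ⟨x + (sl a j x / (a j ⬝ᵥ du a J i)) • du a J i, fun k hk => ?_, fun k => ?_, ?_⟩
  · have h0 : sl a k x = 0 := by rw [sl, hx k hk, sub_self]
    rw [dotProduct_add, dotProduct_smul, horth k h0, hx k hk, smul_zero, add_zero]
  · rw [hsl]
    by_cases hk : 0 < a k ⬝ᵥ du a J i
    · have h1 := hmin k (Finset.mem_filter.2 ⟨Finset.mem_univ _, hk⟩)
      rw [le_div_iff₀ hk] at h1
      linarith
    · have h1 := mul_nonpos_of_nonneg_of_nonpos hρ (not_lt.1 hk)
      have h2 := hx' k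
      linarith
  · refine Finset.card_lt_card (Finset.ssubset_iff_of_subset (fun k hk => ?_) |>.2
      ⟨j, Finset.mem_filter.2 ⟨Finset.mem_univ _, ?_⟩, fun h => ?_⟩)
    · have h0 := (Finset.mem_filter.1 hk).2
      refine Finset.mem_filter.2 ⟨Finset.mem_univ _, ?_⟩
      rw [hsl, horth k h0, h0]
      ring
    · rw [hsl]
      field_simp
      ring
    · exact hjp.ne' (horth j (Finset.mem_filter.1 h).2)

private theorem Lp_tight (hr : Reg0 a) (hdn : d ≤ n) (m : ℕ) :
    ∀ x : Fin d → ℝ, (∀ i ∈ T, a i ⬝ᵥ x = 1) → (∀ i, 0 ≤ sl a i x) →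
      n - (Finset.univ.filter fun i => sl a i x = 0).card ≤ m →
      ∃ y : Fin d → ℝ, (∀ i ∈ T, a i ⬝ᵥ y = 1) ∧ (∀ i, 0 ≤ sl a i y) ∧
        d ≤ (Finset.univ.filter fun i => sl a i y = 0).card := by
  induction m with
  | zero =>
    intro x hx hx' hm
    exact ⟨x, hx, hx', by omega⟩
  | succ m ih =>
    intro x hx hx' hm
    by_cases hd : d ≤ (Finset.univ.filter fun i => sl a i x = 0).card
    · exact ⟨x, hx, hx', hd⟩
    · obtain ⟨y, hy, hy', hlt⟩ := Lp_more hr hdn hx hx' (not_le.1 hd)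
      exact ih y hy hy' (by omega)

theorem exists_feas (hr : Reg0 a) (hdn : d ≤ n) {I0 : Finset (Fin n)} (hI0 : I0.card = d)
    (hT : T ⊆ I0) {z : Fin d → ℝ} (hz : ∀ i ∈ T, a i ⬝ᵥ z = 1) (hz' : ∀ i, 0 ≤ sl a i z) :
    ∃ J, T ⊆ J ∧ Feas a J := by
  obtain ⟨y, hy, hy', hd⟩ := Lp_tight hr hdn _ z hz hz' le_rfl
  have hTF : T ⊆ Finset.univ.filter fun i => sl a i y = 0 := by
    intro i hi
    refine Finset.mem_filter.2 ⟨Finset.mem_univ _, ?_⟩
    rw [sl, hy i hi, sub_self]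
  obtain ⟨J, hTJ, hJF, hJc⟩ := Finset.exists_subsuperset_card_eq hTF
    (hI0 ▸ Finset.card_le_card hT) hd
  have hJ := (hr J hJc).1
  have hyp : y = pt a J := by
    refine pt_unique hJ fun i hi => ?_
    have h0 := (Finset.mem_filter.1 (hJF hi)).2
    rw [sl] at h0
    linarith
  exact ⟨J, hTJ, hJ, fun i => hyp ▸ hy' i⟩

/-- the objective of the path towards `J` -/
private noncomputable def Lp_w (J : Finset (Fin n)) : Wt n := fun i => if i ∈ J then 1 else 0

private theorem Lp_w_nonneg (J : Finset (Fin n)) (i : Fin n) : 0 ≤ Lp_w J i := by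
  unfold Lp_w
  split_ifs
  · exact zero_le_one
  · exact le_rfl

private theorem Lp_w_sum (J : Finset (Fin n)) (x : Fin d → ℝ) :
    ∑ k, Lp_w J k * sl a k x = ∑ k ∈ J, sl a k x := by
  unfold Lp_w
  simp only [ite_mul, one_mul, zero_mul]
  rw [Finset.sum_ite_mem, Finset.univ_inter]

/-- a feasible basis which is not the target can be improved -/
private theorem Lp_improve (hr : Reg0 a) (hI : T ⊆ I) (hI' : Feas a I) (hJ : T ⊆ J)
    (hJ' : Feas a J) (hne : I ≠ J) : ∃ i ∈ I, i ∉ T ∧ cv a (Lp_w J) ⬝ᵥ du a I i < 0 := by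
  by_contra hcon
  push Not at hcon
  have e1 := ident hI'.1 hI (x := pt a J) (fun i hi => pt_dot hJ'.1 (hJ hi)) (Lp_w J)
  have p1 : 0 ≤ ∑ i ∈ I \ T, (cv a (Lp_w J) ⬝ᵥ du a I i) * sl a i (pt a J) := by
    refine Finset.sum_nonneg fun i hi => ?_
    obtain ⟨h1, h2⟩ := Finset.mem_sdiff.1 hi
    exact mul_nonneg (hcon i h1 h2) (hJ'.2 i)
  rw [Lp_w_sum, Lp_w_sum, Finset.sum_eq_zero fun k hk => sl_pt hJ'.1 hk] at e1
  have n2 : ∀ k ∈ J, 0 ≤ sl a k (pt a I) := fun k _ => hI'.2 k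
  have p2 := Finset.sum_nonneg n2
  have z2 : ∑ k ∈ J, sl a k (pt a I) = 0 := by linarith
  have z3 := (Finset.sum_eq_zero_iff_of_nonneg n2).1 z2
  have hsub : J ⊆ I := by
    intro i hi
    by_contra hiI
    exact (hr I hI'.1.1).2 i hiI (z3 i hi)
  exact hne (Finset.eq_of_subset_of_card_le hsub (by rw [hI'.1.1, hJ'.1.1])).symm

/-- bases below `I` -/
private noncomputable def Lp_B (a : Con n d) (T I J : Finset (Fin n)) : Finset (Finset (Fin n)) :=
  Finset.univ.filter fun K : Finset (Fin n) => (T ⊆ K ∧ K.card = d) ∧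
    ∑ k, Lp_w J k * sl a k (pt a K) ≤ ∑ k, Lp_w J k * sl a k (pt a I)

private theorem Lp_path (hr : Reg0 a) (hJ : T ⊆ J) (hJ' : Feas a J) (m : ℕ) :
    ∀ I : Finset (Fin n), T ⊆ I → Feas a I → (Lp_B a T I J).card ≤ m → Ch a T m I J := by
  induction m with
  | zero =>
    intro I hI hI' hc
    exfalso
    have h1 : I ∈ Lp_B a T I J :=
      Finset.mem_filter.2 ⟨Finset.mem_univ _, ⟨hI, hI'.1.1⟩, le_rfl⟩
    have h2 := Finset.card_pos.2 ⟨I, h1⟩
    omega
  | succ m ih =>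
    intro I hI hI' hc
    by_cases hne : I = J
    · rw [hne]
      exact Ch.refl _ hJ hJ'
    · obtain ⟨i, hi, hiT, hneg⟩ := Lp_improve hr hI hI' hJ hJ' hne
      obtain ⟨j, hj, hF, -, ρ, hρ, hp⟩ := pivot hr hI' hi (exists_neg (Lp_w_nonneg J) hneg)
      have h1 := Lp_phi_step hp (Lp_w J)
      have h2 := mul_neg_of_pos_of_neg hρ hneg
      have hT' : T ⊆ swp I i j := Lp_sub_swp hI hiT
      refine Ch.step hI hI' hi hiT hj (ih _ hT' hF ?_)
      have h3 : (Lp_B a T (swp I i j) J).card < (Lp_B a T I J).card := by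
        refine Finset.card_lt_card (Finset.ssubset_iff_of_subset (fun K hK => ?_) |>.2
          ⟨I, Finset.mem_filter.2 ⟨Finset.mem_univ _, ⟨hI, hI'.1.1⟩, le_rfl⟩, fun h => ?_⟩)
        · obtain ⟨hK1, hK2⟩ := (Finset.mem_filter.1 hK).2
          exact Finset.mem_filter.2 ⟨Finset.mem_univ _, hK1, by linarith⟩
        · have h4 := (Finset.mem_filter.1 h).2.2
          linarith
      omega

theorem face_path (hr : Reg0 a) (hI : T ⊆ I) (hI' : Feas a I) (hJ : T ⊆ J) (hJ' : Feas a J) :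
    Ch a T ((Finset.univ.filter fun K : Finset (Fin n) => T ⊆ K ∧ K.card = d).card) I J := by
  refine Lp_path hr hJ hJ' _ I hI hI' (Finset.card_le_card fun K hK => ?_)
  exact Finset.mem_filter.2 ⟨Finset.mem_univ _, (Finset.mem_filter.1 hK).2.1⟩

/-- two bases with a common part of size `d - 2` -/
theorem face2 (hr : Reg0 a) (hT : T.card + 2 = d) (hI : T ⊆ I) (hI' : Feas a I) (hJ : T ⊆ J)
    (hJ' : Feas a J) : Ch a ∅ (n ^ 2) I J := by
  refine ((face_path hr hI hI' hJ hJ').sub (Finset.empty_subset T)).mono ?_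
  have h1 : (Finset.univ.filter fun K : Finset (Fin n) => T ⊆ K ∧ K.card = d).card ≤
      (Finset.powersetCard 2 (Finset.univ : Finset (Fin n))).card := by
    refine Finset.card_le_card_of_injOn (fun K => K \ T) (fun K hK => ?_) ?_
    · obtain ⟨h2, h3⟩ := (Finset.mem_filter.1 (Finset.mem_coe.1 hK)).2
      refine Finset.mem_coe.2 (Finset.mem_powersetCard.2 ⟨Finset.subset_univ _, ?_⟩)
      rw [Finset.card_sdiff_of_subset h2]
      omega
    · intro K hK L hL hKL
      obtain ⟨h2, -⟩ := (Finset.mem_filter.1 (Finset.mem_coe.1 hK)).2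
      obtain ⟨h3, -⟩ := (Finset.mem_filter.1 (Finset.mem_coe.1 hL)).2
      simp only at hKL
      rw [← Finset.sdiff_union_of_subset h2, ← Finset.sdiff_union_of_subset h3, hKL]
  refine h1.trans ?_
  rw [Finset.card_powersetCard, Finset.card_univ, Fintype.card_fin]
  exact Nat.choose_le_pow n 2

/-- all bases: the trivial bound -/
theorem face0 (hr : Reg0 a) (hI : Feas a I) (hJ : Feas a J) : Ch a ∅ (n ^ d) I J := by
  refine (face_path hr (Finset.empty_subset I) hI (Finset.empty_subset J) hJ).mono ?_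
  have h1 : (Finset.univ.filter fun K : Finset (Fin n) => ∅ ⊆ K ∧ K.card = d) ⊆
      Finset.powersetCard d (Finset.univ : Finset (Fin n)) := by
    intro K hK
    exact Finset.mem_powersetCard.2 ⟨Finset.subset_univ _, (Finset.mem_filter.1 hK).2.2⟩
  refine (Finset.card_le_card h1).trans ?_
  rw [Finset.card_powersetCard, Finset.card_univ, Fintype.card_fin]
  exact Nat.choose_le_pow n d

end Pool.Agent.H.MP_0cad2f_co.NT
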