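import Pool.Agent.H.MP_0cad2f_co.NT.DeepM
import Pool.Agent.H.MP_0cad2f_co.NT.Lp

/-!
A fat face at a well conditioned vertex with few nearly tight rows (Lemma 7.2 of the text).

`x = pt a B`, `N = {i ∉ B | sl a i x < θ}`, `N.card ≤ d/4`. `A i b = a i ⬝ᵥ du a B b` (`i ∈ N`, `b ∈ B`), `|A i b| ≤ R Ξ`,
`∑ b ∈ B, A i b = a i ⬝ᵥ x = 1 - sl a i x ≥ 1/2`. Caratheodory in `N → ℝ` (`eq_pos_convex_span_of_mem_convexHull`): the average of the columns is a
convex combination of at most `N.card + 1` columns: `y b ≥ 0`, `∑ y b = d`, support of at most `N.card + 1 ≤ d/4 + 1 ≤ (d+1)/2` elements,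
`∑ b, y b * A i b = 1 - sl a i x ≥ 1/2`. `R0 ⊆ B` contains the support, `R0.card = (d+1)/2`. `ρ = 1/(4 d R Ξ)`, `y' b = y b + ρ` for `b ∈ R0`:
`∑ b ∈ R0, y' b * A i b ≥ 1/4` for `i ∈ N`. `τ = θ/(4 d² R Ξ)`, `z = x - τ • ∑ b ∈ R0, y' b • du a B b`, `S = B \ R0`. Slacks at `z`: `b ∈ R0`:
`τ y' b ∈ [τ ρ, 1]`; `i ∈ N`: at least `τ/4`; other `i ∉ B`: at least `θ - τ 2 d² R Ξ ≥ θ/2`. Upper bounds: `|x| ≤ d Ξ`, `|z| ≤ 2 d Ξ`,
`sl a i z ≤ 1 + 2 R d Ξ ≤ 4 R d Ξ`. Directions: `f m = - du a B m`, `|a i ⬝ᵥ f m| ≤ R Ξ`. `δ = τ ρ = θ/(16 d³ R² Ξ²)`.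

`start_opt`: the multiplier of `i ∈ B \ S` for the weights `kB B κ * w` is `w i + κ ∑ k ∉ B, w k (a k ⬝ᵥ du a B i)` plus the terms of
`k ∈ B`, `k ≠ i` (zero), `≥ 1 - κ * 2 n R Ξ > 0`.

`last_opt`: `I ∋ m`, `Opt a {m} w I`, `Deep a {m} δ`; `z`, `f` for `m`. The multiplier of `i ∈ I`, `i ≠ m`, for `kB {m} κ * w` is `κ` times the
multiplier for `w`. For `i = m`: it is `w m + κ μ`, `μ` the multiplier of `m` for `update w m 0`; by `ident` (with `T = ∅`) at
`x = z - η f`, `η = et δ`: `sl m x = -η`: `4 n/δ ≥ Φ x ≥ - μ η`, so `μ ≥ - 64 n/δ³ > - Ld n δ`. So `w m + κ μ > 1 - κ Ld n δ ≥ 0`.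
-/

set_option autoImplicit false
open scoped Classical

namespace Pool.Agent.H.MP_0cad2f_co.NT

variable {n d : ℕ} {a : Con n d} {B S I : Finset (Fin n)} {R Ξ θ κ δ : ℝ} {w : Wt n}

private theorem Fat_cs {x y : Fin d → ℝ} {r s : ℝ} (hr : 0 ≤ r) (hs : 0 ≤ s)
    (hx : x ⬝ᵥ x ≤ r ^ 2) (hy : y ⬝ᵥ y ≤ s ^ 2) : |x ⬝ᵥ y| ≤ r * s := by
  refine abs_le_of_sq_le_sq ?_ (mul_nonneg hr hs)
  have h1 : (x ⬝ᵥ y) ^ 2 ≤ (x ⬝ᵥ x) * (y ⬝ᵥ y) := by
    unfold dotProduct
    have h := Finset.sum_mul_sq_le_sq_mul_sq Finset.univ x y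
    simpa only [sq] using h
  have hx0 : 0 ≤ x ⬝ᵥ x := by
    unfold dotProduct
    exact Finset.sum_nonneg fun _ _ => mul_self_nonneg _
  have hy0 : 0 ≤ y ⬝ᵥ y := by
    unfold dotProduct
    exact Finset.sum_nonneg fun _ _ => mul_self_nonneg _
  rw [mul_pow]
  exact h1.trans (mul_le_mul hx hy hy0 (sq_nonneg _))

private theorem Fat_sum (M : Finset (Fin n)) (v : Fin n → Fin d → ℝ) :
    (∑ m ∈ M, v m) ⬝ᵥ (∑ m ∈ M, v m) ≤ M.card * ∑ m ∈ M, v m ⬝ᵥ v m := by
  unfold dotProduct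
  rw [Finset.sum_comm, Finset.mul_sum]
  refine Finset.sum_le_sum fun j _ => ?_
  have h1 := sq_sum_le_card_mul_sum_sq (s := M) (f := fun m => v m j)
  rw [Finset.sum_apply, ← sq]
  refine h1.trans (le_of_eq ?_)
  congr 1
  exact Finset.sum_congr rfl fun m _ => by rw [sq]

/-- Caratheodory -/
private theorem Fat_cara (N B : Finset (Fin n)) (A : Fin n → Fin n → ℝ) (hB : B.Nonempty) :
    ∃ y : Fin n → ℝ, (∀ b, 0 ≤ y b) ∧ (∑ b ∈ B, y b = B.card) ∧
      (∀ i ∈ N, ∑ b ∈ B, y b * A i b = ∑ b ∈ B, A i b) ∧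
      (B.filter fun b => y b ≠ 0).card ≤ N.card + 1 := by
  have hBc : (0 : ℝ) < B.card := by exact_mod_cast hB.card_pos
  let v : Fin n → (N → ℝ) := fun b i => A i b
  have hx0 : ∑ b ∈ B, (1 / (B.card : ℝ)) • v b ∈ convexHull ℝ (v '' (B : Set (Fin n))) := by
    refine (convex_convexHull ℝ _).sum_mem (fun b _ => by positivity) ?_ fun b hb =>
      subset_convexHull ℝ _ ⟨b, hb, rfl⟩
    rw [Finset.sum_const, nsmul_eq_mul]
    field_simp
  obtain ⟨ι, hι, z, w, hz, hai, hw, hw1, hx⟩ := eq_pos_convex_span_of_mem_convexHull hx0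
  have hb : ∀ i : ι, ∃ b ∈ B, v b = z i := by
    intro i
    obtain ⟨b, hb, hbz⟩ := hz (Set.mem_range_self i)
    exact ⟨b, hb, hbz⟩
  choose b hb hbz using hb
  have hsum : ∀ g : Fin n → ℝ, ∑ m ∈ B, ((B.card : ℝ) * ∑ i, if b i = m then w i else 0) * g m =
      B.card * ∑ i, w i * g (b i) := by
    intro g
    rw [Finset.mul_sum]
    have h1 : ∀ m ∈ B, ((B.card : ℝ) * ∑ i, if b i = m then w i else 0) * g m =
        ∑ i, if b i = m then (B.card : ℝ) * (w i * g (b i)) else 0 := by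
      intro m _
      rw [Finset.mul_sum, Finset.sum_mul]
      refine Finset.sum_congr rfl fun i _ => ?_
      by_cases h : b i = m
      · rw [if_pos h, if_pos h, h]
        ring
      · rw [if_neg h, if_neg h]
        ring
    rw [Finset.sum_congr rfl h1, Finset.sum_comm]
    refine Finset.sum_congr rfl fun i _ => ?_
    rw [Finset.sum_ite_eq B (b i), if_pos (hb i)]
  refine ⟨fun m => B.card * ∑ i, if b i = m then w i else 0, ?_, ?_, ?_, ?_⟩
  · intro m
    refine mul_nonneg hBc.le (Finset.sum_nonneg fun i _ => ?_)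
    split_ifs
    · exact (hw i).le
    · exact le_rfl
  · have h := hsum fun _ => 1
    simp only [mul_one] at h
    rw [h, hw1, mul_one]
  · intro i hi
    rw [hsum fun m => A i m]
    have h1 : ∑ j, w j * A i (b j) = (∑ j, w j • z j) ⟨i, hi⟩ := by
      rw [Finset.sum_apply]
      refine Finset.sum_congr rfl fun j _ => ?_
      rw [Pi.smul_apply, smul_eq_mul, ← hbz j]
    rw [h1, hx, Finset.sum_apply, Finset.mul_sum]
    refine Finset.sum_congr rfl fun m _ => ?_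
    rw [Pi.smul_apply, smul_eq_mul]
    change (B.card : ℝ) * (1 / (B.card : ℝ) * A i m) = A i m
    field_simp
  · have h1 : (B.filter fun m => (B.card : ℝ) * (∑ i, if b i = m then w i else 0) ≠ 0) ⊆
        Finset.univ.image b := by
      intro m hm
      by_contra hcon
      refine (Finset.mem_filter.1 hm).2 ?_
      rw [Finset.sum_eq_zero, mul_zero]
      intro i _
      rw [if_neg]
      intro h
      exact hcon (Finset.mem_image.2 ⟨i, Finset.mem_univ _, h⟩)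
    refine (Finset.card_le_card h1).trans (Finset.card_image_le.trans ?_)
    rw [Finset.card_univ]
    refine hai.card_le_finrank_succ.trans ?_
    have h2 := Submodule.finrank_le (vectorSpan ℝ (Set.range z))
    rw [Module.finrank_fintype_fun_eq_card, Fintype.card_coe] at h2
    omega

theorem fat_start (hd : 8 ≤ d) (hR : 1 ≤ R) (hΞ : 1 ≤ Ξ) (hθ : 0 < θ) (hθ1 : θ ≤ 1 / 2)
    (hb : Bdd R a) (hB : Feas a B) (hg : ∀ b ∈ B, du a B b ⬝ᵥ du a B b ≤ Ξ ^ 2)
    (hN : (Finset.univ.filter fun i => i ∉ B ∧ sl a i (pt a B) < θ).card ≤ d / 4) :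
    ∃ S ⊆ B, d ≤ 2 * S.card + 2 ∧ Deep a S (θ / (16 * d ^ 3 * R ^ 2 * Ξ ^ 2)) := by
  have hBd : B.card = d := hB.1.1
  have hR0 : 0 < R := by linarith
  have hΞ0 : 0 < Ξ := by linarith
  have hd8 : (8 : ℝ) ≤ d := by exact_mod_cast hd
  have hd0 : (0 : ℝ) < d := by linarith
  have hRΞ : 1 ≤ R * Ξ := one_le_mul_of_one_le_of_one_le hR hΞ
  have hRΞ0 : 0 < R * Ξ := by linarith
  set N : Finset (Fin n) := Finset.univ.filter fun i => i ∉ B ∧ sl a i (pt a B) < θ with hNdef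
  have hA : ∀ i, ∀ b ∈ B, |a i ⬝ᵥ du a B b| ≤ R * Ξ := fun i b hbB =>
    Fat_cs hR0.le hΞ0.le (hb i) (hg b hbB)
  have hsumA : ∀ i, ∑ b ∈ B, a i ⬝ᵥ du a B b = 1 - sl a i (pt a B) := by
    intro i
    rw [← dot_pt, sl]
    ring
  obtain ⟨y, hy0, hy1, hy2, hy3⟩ := Fat_cara N B (fun i b => a i ⬝ᵥ du a B b)
    (Finset.card_pos.1 (by omega))
  obtain ⟨R0, hR01, hR02, hR03⟩ := Finset.exists_subsuperset_card_eq
    (Finset.filter_subset (fun b => y b ≠ 0) B) (n := (d + 1) / 2)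
    (hy3.trans (by omega)) (by omega)
  set ρ : ℝ := 1 / (4 * d * R * Ξ) with hρ
  set τ : ℝ := θ / (4 * d ^ 2 * R * Ξ) with hτ
  have hρ0 : 0 < ρ := by positivity
  have hτ0 : 0 < τ := by positivity
  have hρm : ρ * (d * (R * Ξ)) = 1 / 4 := by
    rw [hρ]
    field_simp
  have hτm : τ * (2 * d * (R * Ξ)) = θ / (2 * d) := by
    rw [hτ]
    field_simp
    ring
  have hτρ : τ * ρ = θ / (16 * d ^ 3 * R ^ 2 * Ξ ^ 2) := by
    rw [hτ, hρ]
    field_simp
    ring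
  have hρd : ρ * d ≤ 1 / 4 := by
    rw [← hρm]
    refine mul_le_mul_of_nonneg_left ?_ hρ0.le
    exact le_mul_of_one_le_right hd0.le hRΞ
  have hρ1 : ρ ≤ 1 / 4 := by nlinarith
  have hR0d : (R0.card : ℝ) ≤ d := by
    have : R0.card ≤ d := by omega
    exact_mod_cast this
  have hyd : ∀ b ∈ B, y b ≤ d := by
    intro b hbB
    have h1 := Finset.single_le_sum (f := y) (fun i _ => hy0 i) hbB
    rw [hy1, hBd] at h1
    exact h1
  obtain ⟨Y, hY⟩ : ∃ Y : Fin n → ℝ, Y = fun b => if b ∈ R0 then y b + ρ else 0 := ⟨_, rfl⟩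
  have hYin : ∀ b ∈ R0, Y b = y b + ρ := fun b hb => by rw [hY]; exact if_pos hb
  have hYout : ∀ b, b ∉ R0 → Y b = 0 := fun b hb => by rw [hY]; exact if_neg hb
  have hY0 : ∀ b, 0 ≤ Y b := by
    intro b
    by_cases h : b ∈ R0
    · rw [hYin b h]
      linarith [hy0 b]
    · rw [hYout b h]
  have hY2 : ∀ b, Y b ≤ 2 * d := by
    intro b
    by_cases h : b ∈ R0
    · rw [hYin b h]
      linarith [hyd b (hR02 h)]
    · rw [hYout b h]
      linarith
  have hYsum : ∀ g : Fin n → ℝ, ∑ b ∈ B, Y b * g b = ∑ b ∈ B, y b * g b + ρ * ∑ b ∈ R0, g b := by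
    intro g
    have h1 : ∑ b ∈ B, Y b * g b = ∑ b ∈ R0, Y b * g b :=
      (Finset.sum_subset hR02 fun b _ h => by rw [hYout b h, zero_mul]).symm
    have h2 : ∑ b ∈ B, y b * g b = ∑ b ∈ R0, y b * g b := by
      refine (Finset.sum_subset hR02 fun b hbB h => ?_).symm
      have h3 : y b = 0 := by
        by_contra hne
        exact h (hR01 (Finset.mem_filter.2 ⟨hbB, hne⟩))
      rw [h3, zero_mul]
    rw [h1, h2, Finset.mul_sum, ← Finset.sum_add_distrib]
    refine Finset.sum_congr rfl fun b hb => ?_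
    rw [hYin b hb]
    ring
  have hYs : ∑ b ∈ B, Y b ≤ 2 * d := by
    have h := hYsum fun _ => 1
    simp only [mul_one, Finset.sum_const, nsmul_eq_mul] at h
    rw [h, hy1, hBd]
    nlinarith [mul_le_mul_of_nonneg_left hR0d hρ0.le]
  have hYA : ∀ i, |∑ b ∈ B, Y b * (a i ⬝ᵥ du a B b)| ≤ 2 * d * (R * Ξ) := by
    intro i
    calc |∑ b ∈ B, Y b * (a i ⬝ᵥ du a B b)| ≤ ∑ b ∈ B, |Y b * (a i ⬝ᵥ du a B b)| :=
          Finset.abs_sum_le_sum_abs _ _
      _ ≤ ∑ b ∈ B, Y b * (R * Ξ) := by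
          refine Finset.sum_le_sum fun b hbB => ?_
          rw [abs_mul, abs_of_nonneg (hY0 b)]
          exact mul_le_mul_of_nonneg_left (hA i b hbB) (hY0 b)
      _ = (∑ b ∈ B, Y b) * (R * Ξ) := (Finset.sum_mul _ _ _).symm
      _ ≤ 2 * d * (R * Ξ) := mul_le_mul_of_nonneg_right hYs hRΞ0.le
  have hYN : ∀ i ∈ N, 1 / 4 ≤ ∑ b ∈ B, Y b * (a i ⬝ᵥ du a B b) := by
    intro i hi
    rw [hYsum fun b => a i ⬝ᵥ du a B b, hy2 i hi, hsumA]
    have h1 : |∑ b ∈ R0, a i ⬝ᵥ du a B b| ≤ d * (R * Ξ) := by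
      calc |∑ b ∈ R0, a i ⬝ᵥ du a B b| ≤ ∑ b ∈ R0, |a i ⬝ᵥ du a B b| :=
            Finset.abs_sum_le_sum_abs _ _
        _ ≤ ∑ _b ∈ R0, R * Ξ := Finset.sum_le_sum fun b hb => hA i b (hR02 hb)
        _ = R0.card * (R * Ξ) := by rw [Finset.sum_const, nsmul_eq_mul]
        _ ≤ d * (R * Ξ) := mul_le_mul_of_nonneg_right hR0d hRΞ0.le
    have h2 := (abs_le.1 h1).1
    have h3 := (Finset.mem_filter.1 hi).2.2
    have h4 := mul_le_mul_of_nonneg_left h2 hρ0.le
    rw [mul_neg, hρm] at h4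
    linarith
  have hδ0 : 0 < θ / (16 * d ^ 3 * R ^ 2 * Ξ ^ 2) := by positivity
  have hδτ : θ / (16 * d ^ 3 * R ^ 2 * Ξ ^ 2) ≤ τ / 4 := by
    rw [← hτρ]
    nlinarith
  have hτd : θ / (2 * d) ≤ θ / 2 := by
    refine div_le_div_of_nonneg_left hθ.le (by norm_num) (by linarith)
  have hτθ : τ ≤ θ / 2 := by
    have h1 : τ * 1 ≤ τ * (2 * d * (R * Ξ)) :=
      mul_le_mul_of_nonneg_left (by nlinarith) hτ0.le
    rw [hτm, mul_one] at h1
    exact h1.trans hτd
  have hτY : ∀ b, τ * Y b ≤ 1 := by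
    intro b
    have h1 : τ * Y b ≤ τ * (2 * d * (R * Ξ)) := by
      refine mul_le_mul_of_nonneg_left ((hY2 b).trans ?_) hτ0.le
      exact le_mul_of_one_le_right (by linarith) hRΞ
    rw [hτm] at h1
    linarith
  have hinv : 1 / (θ / (16 * d ^ 3 * R ^ 2 * Ξ ^ 2)) = 16 * d ^ 3 * (R * Ξ) ^ 2 / θ := by
    rw [one_div_div]
    ring
  have hbig : 2 * d * (R * Ξ) + 2 ≤ 16 * d ^ 3 * (R * Ξ) ^ 2 / θ := by
    rw [le_div_iff₀ hθ]
    have h1 : (R * Ξ) ≤ (R * Ξ) ^ 2 := by nlinarith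
    have h2 : (d : ℝ) ≤ d ^ 3 := by nlinarith [mul_pos hd0 hd0]
    have h3 : (d : ℝ) * (R * Ξ) ≤ d ^ 3 * (R * Ξ) ^ 2 :=
      mul_le_mul h2 h1 hRΞ0.le (by positivity)
    have h4 : (8 : ℝ) * 1 ≤ d * (R * Ξ) := mul_le_mul hd8 hRΞ (by norm_num) hd0.le
    have h5 : (2 * d * (R * Ξ) + 2) * θ ≤ (2 * d * (R * Ξ) + 2) * 1 :=
      mul_le_mul_of_nonneg_left (by linarith) (by linarith)
    linarith
  obtain ⟨z, hz⟩ : ∃ z : Fin d → ℝ, z = ∑ b ∈ B, (1 - τ * Y b) • du a B b := ⟨_, rfl⟩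
  have hdotz : ∀ i, a i ⬝ᵥ z = ∑ b ∈ B, (1 - τ * Y b) * (a i ⬝ᵥ du a B b) := by
    intro i
    rw [hz, dotProduct_sum]
    exact Finset.sum_congr rfl fun b _ => by rw [dotProduct_smul, smul_eq_mul]
  have hdotz' : ∀ i, a i ⬝ᵥ z = 1 - sl a i (pt a B) - τ * ∑ b ∈ B, Y b * (a i ⬝ᵥ du a B b) := by
    intro i
    rw [hdotz, ← hsumA i, Finset.mul_sum, ← Finset.sum_sub_distrib]
    exact Finset.sum_congr rfl fun b _ => by ring
  have hslz : ∀ i, sl a i z = sl a i (pt a B) + τ * ∑ b ∈ B, Y b * (a i ⬝ᵥ du a B b) := by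
    intro i
    rw [sl, hdotz']
    ring
  have hslB : ∀ i ∈ B, sl a i z = τ * Y i := by
    intro i hi
    rw [hslz, sl_pt hB.1 hi, zero_add, Finset.sum_eq_single i]
    · rw [du_self hB.1 hi, mul_one]
    · intro b hbB hbi
      rw [du_ne hB.1 hi hbB (Ne.symm hbi), mul_zero]
    · intro h
      exact absurd hi h
  have hτYA : ∀ i, |τ * ∑ b ∈ B, Y b * (a i ⬝ᵥ du a B b)| ≤ θ / 2 := by
    intro i
    rw [abs_mul, abs_of_pos hτ0]
    refine (mul_le_mul_of_nonneg_left (hYA i) hτ0.le).trans ?_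
    rw [hτm]
    exact hτd
  have hup : ∀ i, sl a i z ≤ 16 * d ^ 3 * (R * Ξ) ^ 2 / θ := by
    intro i
    refine le_trans ?_ hbig
    rw [hslz]
    have h1 := (abs_le.1 (hτYA i)).2
    have h2 : |∑ b ∈ B, a i ⬝ᵥ du a B b| ≤ d * (R * Ξ) := by
      calc |∑ b ∈ B, a i ⬝ᵥ du a B b| ≤ ∑ b ∈ B, |a i ⬝ᵥ du a B b| :=
            Finset.abs_sum_le_sum_abs _ _
        _ ≤ ∑ _b ∈ B, R * Ξ := Finset.sum_le_sum fun b hb => hA i b hb
        _ = d * (R * Ξ) := by rw [Finset.sum_const, nsmul_eq_mul, hBd]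
    rw [hsumA] at h2
    have h3 := (abs_le.1 h2).1
    have h4 : 0 ≤ (d : ℝ) * (R * Ξ) := by positivity
    linarith
  refine ⟨B \ R0, Finset.sdiff_subset, ?_, ?_, ?_⟩
  · rw [Finset.card_sdiff_of_subset hR02, hBd, hR03]
    omega
  · refine ⟨z, ?_, ?_, ?_⟩
    · rw [hinv]
      have h1 : z ⬝ᵥ z ≤ (d * Ξ) ^ 2 := by
        rw [hz]
        refine (Fat_sum B fun b => (1 - τ * Y b) • du a B b).trans ?_
        have h2 : ∑ b ∈ B, ((1 - τ * Y b) • du a B b) ⬝ᵥ ((1 - τ * Y b) • du a B b) ≤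
            ∑ _b ∈ B, Ξ ^ 2 := by
          refine Finset.sum_le_sum fun b hbB => ?_
          rw [smul_dotProduct, dotProduct_smul, smul_eq_mul, smul_eq_mul, ← mul_assoc]
          have h3 := hτY b
          have h4 : 0 ≤ τ * Y b := mul_nonneg hτ0.le (hY0 b)
          have h5 : (1 - τ * Y b) * (1 - τ * Y b) ≤ 1 := by nlinarith
          have h6 : 0 ≤ du a B b ⬝ᵥ du a B b := by
            unfold dotProduct
            exact Finset.sum_nonneg fun _ _ => mul_self_nonneg _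
          calc (1 - τ * Y b) * (1 - τ * Y b) * (du a B b ⬝ᵥ du a B b)
              ≤ 1 * (du a B b ⬝ᵥ du a B b) := mul_le_mul_of_nonneg_right h5 h6
            _ ≤ Ξ ^ 2 := by
                rw [one_mul]
                exact hg b hbB
        rw [Finset.sum_const, nsmul_eq_mul] at h2
        calc (B.card : ℝ) * ∑ b ∈ B, ((1 - τ * Y b) • du a B b) ⬝ᵥ ((1 - τ * Y b) • du a B b)
            ≤ B.card * (B.card * Ξ ^ 2) := mul_le_mul_of_nonneg_left h2 (Nat.cast_nonneg _)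
          _ = (d * Ξ) ^ 2 := by
              rw [hBd]
              ring
      refine h1.trans (pow_le_pow_left₀ (by positivity) ?_ 2)
      refine le_trans ?_ hbig
      have h7 : (d : ℝ) * Ξ ≤ d * (R * Ξ) :=
        mul_le_mul_of_nonneg_left (le_mul_of_one_le_left hΞ0.le hR) hd0.le
      have h8 : 0 ≤ (d : ℝ) * (R * Ξ) := by positivity
      linarith
    · intro i hi
      obtain ⟨hi1, hi2⟩ := Finset.mem_sdiff.1 hi
      have h1 := hslB i hi1
      rw [hYout i hi2, mul_zero, sl] at h1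
      linarith
    · intro i hi
      rw [hinv]
      refine ⟨?_, hup i⟩
      by_cases hiB : i ∈ B
      · have hiR : i ∈ R0 := by
          by_contra h
          exact hi (Finset.mem_sdiff.2 ⟨hiB, h⟩)
        rw [hslB i hiB, hYin i hiR, ← hτρ]
        exact mul_le_mul_of_nonneg_left (by linarith [hy0 i]) hτ0.le
      · rw [hslz]
        by_cases hiN : sl a i (pt a B) < θ
        · have h1 := hYN i (Finset.mem_filter.2 ⟨Finset.mem_univ _, hiB, hiN⟩)
          have h2 := mul_le_mul_of_nonneg_left h1 hτ0.le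
          have h3 := hB.2 i
          linarith
        · have h1 := (abs_le.1 (hτYA i)).1
          push Not at hiN
          linarith
  · intro m hm
    have hmB := (Finset.mem_sdiff.1 hm).1
    have hle : R * Ξ ≤ 16 * d ^ 3 * (R * Ξ) ^ 2 / θ := by
      refine le_trans ?_ hbig
      have h8 : (R * Ξ) ≤ (d : ℝ) * (R * Ξ) := le_mul_of_one_le_left hRΞ0.le (by linarith)
      linarith
    refine ⟨-du a B m, ?_, ?_, ?_, ?_⟩
    · rw [neg_dotProduct_neg, hinv]
      refine (hg m hmB).trans (pow_le_pow_left₀ hΞ0.le ?_ 2)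
      refine le_trans ?_ hle
      exact le_mul_of_one_le_left hΞ0.le hR
    · intro i hi him
      rw [dotProduct_neg, du_ne hB.1 (Finset.mem_sdiff.1 hi).1 hmB him, neg_zero]
    · rw [dotProduct_neg, du_self hB.1 hmB]
    · intro i _
      rw [dotProduct_neg, abs_neg, hinv]
      exact (hA i m hmB).trans hle

private theorem Fat_w (hw : w ∈ cube n 0) (i : Fin n) : 1 ≤ w i ∧ w i ≤ 2 := by
  have h := hw i (Set.mem_univ i)
  rw [Set.mem_Icc] at h
  constructor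
  · linarith [h.1]
  · linarith [h.2]

theorem start_opt (hn : 1 ≤ n) (hR : 1 ≤ R) (hΞ : 1 ≤ Ξ) (hb : Bdd R a) (hB : Feas a B)
    (hg : ∀ b ∈ B, du a B b ⬝ᵥ du a B b ≤ Ξ ^ 2) (hS : S ⊆ B) (hκ : 0 < κ)
    (hκ1 : 4 * n * R * Ξ * κ ≤ 1) (hw : w ∈ cube n 0) : Opt a S (kB B κ * w) B := by
  refine ⟨hS, hB, fun i hi _ => ?_⟩
  rw [cv_dot]
  have hRΞ0 : 0 < R * Ξ := mul_pos (by linarith) (by linarith)
  have h1 : ∀ k, (if k = i then (1 : ℝ) else 0) - 2 * κ * (R * Ξ) ≤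
      (kB B κ * w) k * (a k ⬝ᵥ du a B i) := by
    intro k
    obtain ⟨hw1, hw2⟩ := Fat_w hw k
    have h0 : 0 ≤ 2 * κ * (R * Ξ) := by positivity
    rw [Pi.mul_apply, kB]
    by_cases hk : k ∈ B
    · rw [if_pos hk, one_mul, du_dot hB.1 hk hi]
      by_cases hki : k = i
      · simp only [if_pos hki, mul_one]
        linarith
      · simp only [if_neg hki, mul_zero]
        linarith
    · have hki : k ≠ i := fun h => hk (h ▸ hi)
      rw [if_neg hk, if_neg hki]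
      have h2 : |a k ⬝ᵥ du a B i| ≤ R * Ξ :=
        Fat_cs (by linarith) (by linarith) (hb k) (hg i hi)
      have h3 := (abs_le.1 h2).1
      have h4 : κ * w k ≤ 2 * κ := by nlinarith
      have h5 : 0 ≤ κ * w k := by positivity
      have h6 : κ * w k * (-(R * Ξ)) ≤ κ * w k * (a k ⬝ᵥ du a B i) :=
        mul_le_mul_of_nonneg_left h3 h5
      have h7 : κ * w k * (R * Ξ) ≤ 2 * κ * (R * Ξ) :=
        mul_le_mul_of_nonneg_right h4 hRΞ0.le
      linarith
  have h2 := Finset.sum_le_sum fun k (_ : k ∈ Finset.univ) => h1 k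
  rw [Finset.sum_sub_distrib, Finset.sum_ite_eq' Finset.univ i, if_pos (Finset.mem_univ i),
    Finset.sum_const, Finset.card_univ, Fintype.card_fin, nsmul_eq_mul] at h2
  have h3 : (n : ℝ) * (2 * κ * (R * Ξ)) = (4 * n * R * Ξ * κ) / 2 := by ring
  linarith

theorem last_opt {m : Fin n} (hn : 1 ≤ n) (hδ : 0 < δ) (hδ1 : δ ≤ 1) (hD : Deep a {m} δ)
    (hκ : 0 < κ) (hκ1 : κ * Ld n δ ≤ 1) (hw : w ∈ cube n 0) (hI : Opt a {m} w I) :
    Opt a ∅ (kB {m} κ * w) I := by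
  obtain ⟨hmI, hF, hpos⟩ := hI
  have hmI' : m ∈ I := hmI (Finset.mem_singleton_self m)
  have hn0 : (0 : ℝ) < n := by exact_mod_cast hn
  refine ⟨Finset.empty_subset _, hF, fun i hi _ => ?_⟩
  by_cases him : i = m
  · subst him
    obtain ⟨z, -, hz1, hz2⟩ := hD.pt
    obtain ⟨f, -, -, hf2, hf3⟩ := hD.dir i (Finset.mem_singleton_self i)
    set η : ℝ := et δ with hη
    have hηv : η = δ ^ 2 / 16 := rfl
    have hη0 : 0 < η := by rw [hηv]; positivity
    have hηδ : η * (1 / δ) = δ / 16 := by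
      rw [hηv]
      field_simp
    set w0 : Wt n := Function.update w i 0 with hw0
    have hw0i : w0 i = 0 := by rw [hw0, Function.update_self]
    have hw0k : ∀ k, k ≠ i → w0 k = w k := fun k hk => by rw [hw0, Function.update_of_ne hk]
    have hw00 : ∀ k, 0 ≤ w0 k ∧ w0 k ≤ 2 := by
      intro k
      by_cases hk : k = i
      · rw [hk, hw0i]
        norm_num
      · rw [hw0k k hk]
        have := Fat_w hw k
        constructor <;> linarith [this.1, this.2]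
    have hx : ∀ k, sl a k (z - η • f) = sl a k z + η * (a k ⬝ᵥ f) := by
      intro k
      rw [sl, sl, dotProduct_sub, dotProduct_smul, smul_eq_mul]
      ring
    have hxi : sl a i (z - η • f) = -η := by
      rw [hx, hf2, sl, hz1 i (Finset.mem_singleton_self i)]
      ring
    have hxk : ∀ k, k ≠ i → 0 ≤ sl a k (z - η • f) ∧ sl a k (z - η • f) ≤ 2 / δ := by
      intro k hk
      have hk' : k ∉ ({i} : Finset (Fin n)) := fun h => hk (Finset.mem_singleton.1 h)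
      have h1 := hz2 k hk'
      have h2 := abs_le.1 (hf3 k hk')
      have h3 := mul_le_mul_of_nonneg_left h2.1 hη0.le
      have h4 := mul_le_mul_of_nonneg_left h2.2 hη0.le
      rw [mul_neg, hηδ] at h3
      rw [hηδ] at h4
      have h5 : 1 ≤ 1 / δ := by
        rw [le_div_iff₀ hδ]
        linarith
      have h6 : 2 / δ = 1 / δ + 1 / δ := by ring
      rw [hx]
      constructor
      · linarith [h1.1]
      · rw [h6]
        linarith [h1.2]
    have e1 := ident hF.1 (Finset.empty_subset I) (x := z - η • f)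
      (fun k hk => absurd hk (Finset.notMem_empty k)) w0
    rw [Finset.sdiff_empty, ← Finset.add_sum_erase I _ hmI', hxi] at e1
    have p1 : 0 ≤ ∑ k, w0 k * sl a k (pt a I) :=
      Finset.sum_nonneg fun k _ => mul_nonneg (hw00 k).1 (hF.2 k)
    have p2 : 0 ≤ ∑ k ∈ I.erase i, (cv a w0 ⬝ᵥ du a I k) * sl a k (z - η • f) := by
      refine Finset.sum_nonneg fun k hk => ?_
      obtain ⟨hki, hkI⟩ := Finset.mem_erase.1 hk
      refine mul_nonneg ?_ (hxk k hki).1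
      rw [hw0, mul_update_ne hF.1 hkI hmI' (Ne.symm hki)]
      exact (hpos k hkI fun h => hki (Finset.mem_singleton.1 h)).le
    have p3 : ∑ k, w0 k * sl a k (z - η • f) ≤ n * (2 * (2 / δ)) := by
      have h1 : ∀ k ∈ (Finset.univ : Finset (Fin n)), w0 k * sl a k (z - η • f) ≤ 2 * (2 / δ) := by
        intro k _
        by_cases hk : k = i
        · rw [hk, hw0i, zero_mul]
          positivity
        · exact mul_le_mul (hw00 k).2 (hxk k hk).2 (hxk k hk).1 (by norm_num)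
      have h2 := Finset.sum_le_sum h1
      rwa [Finset.sum_const, Finset.card_univ, Fintype.card_fin, nsmul_eq_mul] at h2
    have p4 : -(cv a w0 ⬝ᵥ du a I i) * η ≤ n * (2 * (2 / δ)) := by linarith
    have p5 : -(cv a w0 ⬝ᵥ du a I i) ≤ 64 * n / δ ^ 3 := by
      have h1 : n * (2 * (2 / δ)) = (64 * n / δ ^ 3) * η := by
        rw [hηv]
        field_simp
        ring
      rw [h1] at p4
      exact le_of_mul_le_mul_right p4 hη0
    have p6 : κ * (64 * n / δ ^ 3) < 1 := by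
      have h1 : κ * Ld n δ = κ * (64 * n / δ ^ 3) + κ * (36 * n / δ ^ 3) := by
        rw [Ld]
        ring
      have h2 : 0 < κ * (36 * n / δ ^ 3) := by positivity
      linarith
    have p7 : cv a (kB {i} κ * w) ⬝ᵥ du a I i = w i + κ * (cv a w0 ⬝ᵥ du a I i) := by
      rw [cv_dot, cv_dot, Finset.mul_sum, ← Finset.add_sum_erase _ _ (Finset.mem_univ i),
        ← Finset.add_sum_erase _ (fun k => κ * (w0 k * (a k ⬝ᵥ du a I i))) (Finset.mem_univ i),
        hw0i, du_self hF.1 hmI']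
      have h1 : (kB {i} κ * w) i = w i := by
        rw [Pi.mul_apply, kB, if_pos (Finset.mem_singleton_self i), one_mul]
      rw [h1]
      have h2 : ∑ k ∈ Finset.univ.erase i, (kB {i} κ * w) k * (a k ⬝ᵥ du a I i) =
          ∑ k ∈ Finset.univ.erase i, κ * (w0 k * (a k ⬝ᵥ du a I i)) := by
        refine Finset.sum_congr rfl fun k hk => ?_
        have hki := (Finset.mem_erase.1 hk).1
        rw [Pi.mul_apply, kB, if_neg (fun h => hki (Finset.mem_singleton.1 h)), hw0k k hki]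
        ring
      rw [h2]
      ring
    rw [p7]
    have p8 := mul_le_mul_of_nonneg_left p5 hκ.le
    have p9 := (Fat_w hw i).1
    linarith
  · have h1 : cv a (kB {m} κ * w) ⬝ᵥ du a I i = κ * (cv a w ⬝ᵥ du a I i) := by
      rw [cv_dot, cv_dot, Finset.mul_sum]
      refine Finset.sum_congr rfl fun k _ => ?_
      by_cases hk : k = m
      · rw [hk, du_ne hF.1 hmI' hi (Ne.symm him)]
        ring
      · rw [Pi.mul_apply, kB, if_neg (fun h => hk (Finset.mem_singleton.1 h))]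
        ring
    rw [h1]
    exact mul_pos hκ (hpos i hi fun h => him (Finset.mem_singleton.1 h))

end Pool.Agent.H.MP_0cad2f_co.NT
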