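import Pool.Agent.H.MP_0cad2f_co.NT.CombB
import Pool.Agent.H.MP_0cad2f_co.NT.DeepM
import Pool.Agent.H.MP_0cad2f_co.NT.Fat
import Pool.Agent.H.MP_0cad2f_co.NT.GenAE

/-!
The chain of releases (section 9 of the text), deterministic part.

`all_deep`: hypothesis used below: `Deep a S δ` for all nonempty `S ⊆ S0`.

For `I` and `k` let `A I k = {w' | ∀ J, Opt a ∅ w' J → Ch a ∅ k I J}` (measurable: finitely many `J`, `measurableSet_opt` for fixed `a`).

`chain_last` (`S = {m}`): let `w ∈ cube n 0` with `NV a (kB {m} κ * w)` and `uW {w' | t < N2 a ∅ (kB {m} κ * w) w'} ≤ 1/4`, `I ∈ Opt a {m} w`. By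
`last_opt` `I ∈ Opt a ∅ (kB {m} κ * w)`. For almost all `w'` (`gen2_ae` with `w0 = kB {m} κ * w`, `κ = 1`) and `J ∈ Opt a ∅ w'`: `param_path` (both `I` and
`J` are in `VS a ∅ (kB * w) (w' - kB * w) 0 1`, because the optimality sets of the parameters are open and contain `0`, `1`) gives
`Ch a ∅ (N2 ..) I J`. So `3/4 ≤ uW (A I t)`.

`chain_step`: `2 ≤ S.card`, `m0 ∈ S`, weights `κ0 w` (`κ0 = 1` or `kB B κ`), `w ∈ cube n 0` generic (`gen1_ae`, `nv_ae` for `κ0`), such that NOT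
`∀ m ∈ S.erase m0, 1/2 < uW {w' | t < NN a S m δ (κ0 * w) w'}`: there is `m` with `1/2 ≤ uW {w' | NN .. ≤ t}` (complement, measurable). If `G` is a
measurable set with `1/2 < uW G` there is a generic `w' ∈ G ∩ cube n 0` with `NN .. ≤ t` (generic: `gen1_ae`, `gen2_ae` for `sli a m (et δ)`,
`nv_ae`), `J ∈ Opt a (S.erase m) w'` (`exists_opt`, `NV`), and `comb` gives `Ch a ∅ (2 t) I J`.

`chain_inner`: for `S ⊆ S0` nonempty the set `G S` of the `w` such that for all `I ∈ Opt a S w`: `3/4 ≤ uW (A I (2 t S.card))` contains a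
measurable set of measure `> 1/2` (induction on `S.card`; for `S = {m}`: the `w` as in `chain_last`, of measure `≥ 5/8` by
`a ∉ BadL m κ t`; for `2 ≤ S.card`: the `w` as in `chain_step`, of measure `≥ 5/8`, with `G` = the set of `S.erase m`).

`chain`: `chain_step` for `S0` with the weights `kB B κ * w`, `I = B` (`Opt a S0 (kB B κ * w) B` for all `w ∈ cube n 0`: hypothesis), if
`2 ≤ S0.card` (true: `d ≤ 2 S0.card + 2`, `8 ≤ d`), then `chain_inner` for `S0.erase m`.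

`chain2`: the sets `A B k` and `A B' k` have measure `≥ 3/4` and are measurable, so there is a common `w' ∈ cube n 0` with `NV a w'`;
`exists_opt`; `Ch.trans`, `Ch.symm`.
-/

set_option autoImplicit false
open MeasureTheory ProbabilityTheory
open scoped ENNReal Classical

namespace Pool.Agent.H.MP_0cad2f_co.NT

variable {n d : ℕ} {a : Con n d} {B B' S0 : Finset (Fin n)} {δ κ : ℝ} {t : ℕ}

/-- configurations which are good at the level `t` -/
structure GoodT (a : Con n d) (δ κ : ℝ) (t : ℕ) : Prop where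
  reg : Reg0 a
  regs : ∀ m, Reg0 (sli a m (et δ))
  inner : ∀ (S : Finset (Fin n)) (m0 : Fin n), m0 ∈ S → 2 ≤ S.card → Deep a S δ →
    a ∉ BadS S m0 δ 1 t
  start : ∀ (B S : Finset (Fin n)) (m0 : Fin n), m0 ∈ S → S ⊆ B → B.card = d →
    d ≤ 2 * S.card + 2 → Deep a S δ → a ∉ BadS S m0 δ (kB B κ) t
  last : ∀ m, a ∉ BadL m κ t

/-- the good weights for `I` form a measurable set -/
private theorem Chain_meas (a : Con n d) (I : Finset (Fin n)) (k : ℕ) :
    MeasurableSet {w' : Wt n | ∀ J, Opt a ∅ w' J → Ch a ∅ k I J} := by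
  have h1 : {w' : Wt n | ∀ J, Opt a ∅ w' J → Ch a ∅ k I J} =
      ⋂ J : Finset (Fin n), {w' : Wt n | Opt a ∅ w' J → Ch a ∅ k I J} := by
    ext w'
    simp only [Set.mem_ofPred_eq, Set.mem_iInter]
  rw [h1]
  refine MeasurableSet.iInter fun J => ?_
  have h2 : MeasurableSet {w' : Wt n | Opt a ∅ w' J} :=
    (measurable_prodMk_left : Measurable fun w' : Wt n => (a, w')) (measurableSet_opt ∅ J)
  by_cases h : Ch a ∅ k I J
  · have h3 : {w' : Wt n | Opt a ∅ w' J → Ch a ∅ k I J} = Set.univ := by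
      ext w'
      simp only [Set.mem_ofPred_eq, Set.mem_univ, iff_true]
      exact fun _ => h
    rw [h3]
    exact MeasurableSet.univ
  · have h3 : {w' : Wt n | Opt a ∅ w' J → Ch a ∅ k I J} = {w' : Wt n | Opt a ∅ w' J}ᶜ := by
      ext w'
      simp only [Set.mem_ofPred_eq, Set.mem_compl_iff]
      exact ⟨fun h4 h5 => h (h4 h5), fun h4 h5 => absurd h5 h4⟩
    rw [h3]
    exact h2.compl

private theorem Chain_cube {w : Wt n} (hw : w ∈ cube n 0) (i : Fin n) : 1 ≤ w i ∧ w i ≤ 2 := by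
  have h := hw i (Set.mem_univ i)
  rw [Set.mem_Icc] at h
  constructor <;> linarith [h.1, h.2]

private theorem Chain_aecube : ∀ᵐ w ∂(uW n), w ∈ cube n 0 :=
  ae_restrict_mem (measurableSet_cube 0)

private theorem Chain_ex {P : Wt n → Prop} (hP : ∀ᵐ w ∂(uW n), P w) {A G : Set (Wt n)}
    (hA : uW n A ≤ 1 / 2) (hG : uW n G < 1 / 2) : ∃ w, P w ∧ w ∉ A ∧ w ∉ G := by
  by_contra h
  push Not at h
  have h1 : uW n Set.univ ≤ uW n (A ∪ G) := by
    refine measure_mono_ae ?_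
    filter_upwards [hP] with w hw _
    by_cases hwA : w ∈ A
    · exact Or.inl hwA
    · exact Or.inr (h w hw hwA)
  have h2 : uW n (A ∪ G) < 1 := calc
    uW n (A ∪ G) ≤ uW n A + uW n G := measure_union_le A G
    _ < 1 / 2 + 1 / 2 := ENNReal.add_lt_add_of_le_of_lt
        (ne_top_of_le_ne_top (by norm_num) hA) hA hG
    _ = 1 := ENNReal.add_halves 1
  rw [measure_univ] at h1
  exact absurd (h1.trans_lt h2) (lt_irrefl _)

private theorem Chain_near {T I : Finset (Fin n)} {w v : Wt n} {s : ℝ}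
    (h : Opt a T (w + s • v) I) : ∃ ε > 0, ∀ τ : ℝ, |τ - s| < ε → Opt a T (w + τ • v) I := by
  obtain ⟨ε, hε, hb⟩ := Metric.isOpen_iff.1 (opt_open a T I w v) s h
  exact ⟨ε, hε, fun τ hτ => hb (by rwa [Metric.mem_ball, Real.dist_eq])⟩

private theorem Chain_vis0 {T I : Finset (Fin n)} {w w' : Wt n} (h : Opt a T w I) :
    Vis a T w (w' - w) 0 1 I := by
  have h1 : Opt a T (w + (0 : ℝ) • (w' - w)) I := by rwa [zero_smul, add_zero]
  obtain ⟨ε, hε, hb⟩ := Chain_near h1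
  have h2 : 0 < min (ε / 2) (1 / 2) := lt_min (by linarith) (by norm_num)
  have h3 := min_le_left (ε / 2) (1 / 2)
  have h4 := min_le_right (ε / 2) (1 / 2)
  refine ⟨min (ε / 2) (1 / 2), h2, by linarith, hb _ ?_⟩
  rw [sub_zero, abs_of_pos h2]
  linarith

private theorem Chain_vis1 {T I : Finset (Fin n)} {w w' : Wt n} (h : Opt a T w' I) :
    Vis a T w (w' - w) 0 1 I := by
  have h1 : Opt a T (w + (1 : ℝ) • (w' - w)) I := by rwa [one_smul, add_sub_cancel]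
  obtain ⟨ε, hε, hb⟩ := Chain_near h1
  have h2 : 0 < min (ε / 2) (1 / 2) := lt_min (by linarith) (by norm_num)
  have h3 := min_le_left (ε / 2) (1 / 2)
  have h4 := min_le_right (ε / 2) (1 / 2)
  refine ⟨1 - min (ε / 2) (1 / 2), by linarith, by linarith, hb _ ?_⟩
  rw [show 1 - min (ε / 2) (1 / 2) - 1 = -min (ε / 2) (1 / 2) by ring, abs_neg, abs_of_pos h2]
  linarith

private theorem Chain_quarter {A G : Set (Wt n)} (hA : uW n A ≤ 1 / 4)
    (h : ∀ᵐ w ∂(uW n), w ∉ A → w ∈ G) : 3 / 4 ≤ uW n G := by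
  by_contra hcon
  rw [not_le] at hcon
  have h1 : uW n Set.univ ≤ uW n (A ∪ G) := by
    refine measure_mono_ae ?_
    filter_upwards [h] with w hw _
    by_cases hwA : w ∈ A
    · exact Or.inl hwA
    · exact Or.inr (hw hwA)
  have h2 : uW n (A ∪ G) < 1 := calc
    uW n (A ∪ G) ≤ uW n A + uW n G := measure_union_le A G
    _ < 1 / 4 + 3 / 4 := ENNReal.add_lt_add_of_le_of_lt
        (ne_top_of_le_ne_top (by norm_num) hA) hA hcon
    _ = 1 := by
      rw [← ENNReal.add_div, show (1 : ℝ≥0∞) + 3 = 4 by norm_num]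
      exact ENNReal.div_self (by norm_num) (by norm_num)
  rw [measure_univ] at h1
  exact absurd (h1.trans_lt h2) (lt_irrefl _)

private theorem Chain_last (hr : Reg0 a) {w0 : Wt n} (hnv : NV a w0) {I : Finset (Fin n)}
    (hI : Opt a ∅ w0 I) (h : uW n {w' | t < N2 a ∅ w0 w'} ≤ 1 / 4) :
    3 / 4 ≤ uW n {w' : Wt n | ∀ J, Opt a ∅ w' J → Ch a ∅ t I J} := by
  have h1 : ∀ᵐ w' ∂(uW n), Gen a ∅ w0 (w' - w0) := by
    have h2 := gen2_ae (T := ∅) (κ := 1) hr (fun _ => one_pos) hnv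
    simp only [one_mul] at h2
    exact ae_restrict_of_ae h2
  refine Chain_quarter h ?_
  filter_upwards [h1] with w' hg hw' J hJ
  have h3 : N2 a ∅ w0 w' ≤ t := not_lt.1 hw'
  exact (param_path hr hg (Chain_vis0 hI) (Chain_vis1 hJ)).mono h3

private theorem Chain_step (hr : Reg0 a) (hrs : ∀ m, Reg0 (sli a m (et δ))) (hn : 2 ≤ n)
    (hd : 2 ≤ d) (hδ : 0 < δ) (hδ1 : δ ≤ 1) {S : Finset (Fin n)} (m0 : Fin n)
    (hD : Deep a S δ) {κ0 : Wt n} (hκ : ∀ i, 0 < κ0 i ∧ κ0 i ≤ 1) (G : Fin n → Set (Wt n))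
    (hG : ∀ m ∈ S, uW n (G m)ᶜ < 1 / 2) :
    ∀ᵐ w ∂(uW n),
      (¬ ∀ m ∈ S.erase m0, 1 / 2 < uW n {w' | t < NN a S m δ (κ0 * w) w'}) →
        ∀ I, Opt a S (κ0 * w) I →
          ∃ m ∈ S, ∃ w' ∈ G m, ∃ J, Opt a (S.erase m) w' J ∧ Ch a ∅ (2 * t) I J := by
  have h1 : ∀ᵐ w ∂(uW n), ∀ m, Gen a (S.erase m) (Function.update (κ0 * w) m 0)
      (Pi.single m (-1)) := by
    rw [ae_all_iff]
    exact fun m => ae_restrict_of_ae (gen1_ae hr (fun i => (hκ i).1) (Finset.notMem_erase m S))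
  have h2 : ∀ᵐ w ∂(uW n), ∀ m, NV (sli a m (et δ)) (κ0 * w) := by
    rw [ae_all_iff]
    exact fun m => ae_restrict_of_ae (nv_ae (hrs m) fun i => (hκ i).1)
  filter_upwards [h1, h2, Chain_aecube] with w hw1 hw2 hwc hbad I hI
  push Not at hbad
  obtain ⟨m, hm, hbad⟩ := hbad
  have hmS : m ∈ S := Finset.mem_of_mem_erase hm
  have hwr : ∀ i, 0 < (κ0 * w) i ∧ (κ0 * w) i ≤ 2 := by
    intro i
    have h3 := Chain_cube hwc i
    rw [Pi.mul_apply]
    refine ⟨mul_pos (hκ i).1 (by linarith), ?_⟩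
    calc κ0 i * w i ≤ 1 * w i := mul_le_mul_of_nonneg_right (hκ i).2 (by linarith)
      _ ≤ 2 := by linarith
  have h3 : ∀ᵐ w' ∂(uW n), Gen a (S.erase m) (Function.update w' m 0) (Pi.single m (-1)) := by
    have h4 := gen1_ae (κ := 1) hr (fun _ => one_pos) (Finset.notMem_erase m S)
    simp only [one_mul] at h4
    exact ae_restrict_of_ae h4
  have h5 : ∀ᵐ w' ∂(uW n), Gen (sli a m (et δ)) S (κ0 * w) (w' - κ0 * w) := by
    have h4 := gen2_ae (T := S) (κ := 1) (hrs m) (fun _ => one_pos) (hw2 m)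
    simp only [one_mul] at h4
    exact ae_restrict_of_ae h4
  have h6 : ∀ᵐ w' ∂(uW n), NV (sli a m (et δ)) w' := by
    have h4 := nv_ae (κ := 1) (hrs m) (fun _ => one_pos)
    simp only [one_mul] at h4
    exact ae_restrict_of_ae h4
  have h7 : ∀ᵐ w' ∂(uW n), NV a w' := by
    have h4 := nv_ae (κ := 1) hr (fun _ => one_pos)
    simp only [one_mul] at h4
    exact ae_restrict_of_ae h4
  have h8 : ∀ᵐ w' ∂(uW n), (Gen a (S.erase m) (Function.update w' m 0) (Pi.single m (-1)) ∧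
      Gen (sli a m (et δ)) S (κ0 * w) (w' - κ0 * w)) ∧ (NV (sli a m (et δ)) w' ∧ NV a w') ∧
      w' ∈ cube n 0 := by
    filter_upwards [h3, h5, h6, h7, Chain_aecube] with w' k1 k2 k3 k4 k5
    exact ⟨⟨k1, k2⟩, ⟨k3, k4⟩, k5⟩
  obtain ⟨w', ⟨⟨k1, k2⟩, ⟨k3, k4⟩, k5⟩, hA, hGm⟩ := Chain_ex h8 hbad (hG m hmS)
  rw [Set.notMem_compl_iff] at hGm
  have hA' : NN a S m δ (κ0 * w) w' ≤ t := not_lt.1 hA
  have hwr' : ∀ i, 0 < w' i ∧ w' i ≤ 2 := by
    intro i
    have h9 := Chain_cube k5 i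
    exact ⟨by linarith, h9.2⟩
  obtain ⟨J, hJ⟩ := exists_opt hr (fun i => (hwr' i).1.le) k4
    ((Finset.erase_subset m S).trans hI.1) hI.2.1
  refine ⟨m, hmS, w', hGm, J, hJ, ?_⟩
  exact (comb hr (hrs m) hn hd hδ hδ1 hD hmS hwr hwr' (hw1 m) k1 k2 (hw2 m) k3 hI hJ).mono
    (Nat.mul_le_mul_left 2 hA')

private theorem Chain_up {I J : Finset (Fin n)} {k l : ℕ} (h : Ch a ∅ k I J)
    (h' : 3 / 4 ≤ uW n {w' : Wt n | ∀ K, Opt a ∅ w' K → Ch a ∅ l J K}) {p : ℕ}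
    (hp : k + l ≤ p) : 3 / 4 ≤ uW n {w' : Wt n | ∀ K, Opt a ∅ w' K → Ch a ∅ p I K} :=
  h'.trans (measure_mono fun _ hw' K hK => (h.trans (hw' K hK)).mono hp)

private theorem Chain_inner (hg : GoodT a δ κ t) (hd : 2 ≤ d) (hn : 2 ≤ n) (hδ : 0 < δ)
    (hδ1 : δ ≤ 1) (hκ : 0 < κ) (hκ1 : κ * Ld n δ ≤ 1)
    (hD : ∀ S ⊆ S0, S.Nonempty → Deep a S δ) (k : ℕ) :
    ∀ S ⊆ S0, S.card = k + 1 →
      uW n {w | ∀ I, Opt a S w I → 3 / 4 ≤
        uW n {w' : Wt n | ∀ J, Opt a ∅ w' J → Ch a ∅ (2 * t * S.card) I J}}ᶜ < 1 / 2 := by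
  have h38 : (3 : ℝ≥0∞) / 8 < 1 / 2 := by
    rw [ENNReal.div_lt_iff (by norm_num) (by norm_num)]
    rw [one_div, show (8 : ℝ≥0∞) = 2 * 4 by norm_num, ← mul_assoc,
      ENNReal.inv_mul_cancel (by norm_num) (by norm_num), one_mul]
    norm_num
  induction k with
  | zero =>
    intro S hS hc
    obtain ⟨m, rfl⟩ := Finset.card_eq_one.1 hc
    have hDm : Deep a {m} δ := hD {m} hS (Finset.singleton_nonempty m)
    have hb := hg.last m
    rw [BadL, Set.mem_ofPred_eq, not_le] at hb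
    refine lt_of_le_of_lt ?_ (hb.trans h38)
    refine measure_mono_ae ?_
    have hκp : ∀ i, 0 < (kB {m} κ : Wt n) i := by
      intro i
      unfold kB
      split_ifs
      · exact one_pos
      · exact hκ
    filter_upwards [ae_restrict_of_ae (nv_ae hg.reg hκp), Chain_aecube] with w hnv hwc hw
    by_contra hcon
    refine hw fun I hI => ?_
    have h1 : Opt a ∅ (kB {m} κ * w) I := last_opt (by omega) hδ hδ1 hDm hκ hκ1 hwc hI
    have h2 := Chain_last hg.reg hnv h1 (not_lt.1 hcon)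
    refine Chain_up (Ch.refl 0 h1.1 h1.2.1) h2 ?_
    rw [Finset.card_singleton]
    omega
  | succ k ih =>
    intro S hS hc
    have hne : S.Nonempty := Finset.card_pos.1 (by omega)
    obtain ⟨m0, hm0⟩ := hne
    have hDS : Deep a S δ := hD S hS ⟨m0, hm0⟩
    have hb := hg.inner S m0 hm0 (by omega) hDS
    rw [BadS, Set.mem_ofPred_eq, not_le] at hb
    refine lt_of_le_of_lt ?_ (hb.trans h38)
    refine measure_mono_ae ?_
    have hstep := Chain_step (t := t) hg.reg hg.regs hn hd hδ hδ1 m0 hDS (κ0 := 1)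
      (fun _ => ⟨one_pos, le_rfl⟩)
      (fun m => {w | ∀ I, Opt a (S.erase m) w I → 3 / 4 ≤
        uW n {w' : Wt n | ∀ J, Opt a ∅ w' J → Ch a ∅ (2 * t * (S.erase m).card) I J}})
      (fun m hm => ih (S.erase m) ((Finset.erase_subset m S).trans hS)
        (by rw [Finset.card_erase_of_mem hm]; omega))
    filter_upwards [hstep] with w hstep hw
    by_contra hcon
    refine hw fun I hI => ?_
    obtain ⟨m, hm, w', hw', J, hJ, hch⟩ := hstep hcon I (by rwa [one_mul])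
    refine Chain_up hch (hw' J hJ) ?_
    rw [Finset.card_erase_of_mem hm, hc]
    have : 2 * t * (k + 1 + 1) = 2 * t + 2 * t * (k + 1) := by ring
    rw [this]
    simp

theorem chain (hg : GoodT a δ κ t) (hd : 8 ≤ d) (hn : 2 ≤ n) (hδ : 0 < δ) (hδ1 : δ ≤ 1)
    (hκ : 0 < κ) (hκ0 : κ ≤ 1) (hκ1 : κ * Ld n δ ≤ 1) (hB : Feas a B) (hS : S0 ⊆ B)
    (hc : d ≤ 2 * S0.card + 2) (hD : ∀ S ⊆ S0, S.Nonempty → Deep a S δ)
    (ho : ∀ w ∈ cube n 0, Opt a S0 (kB B κ * w) B) :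
    MeasurableSet {w' : Wt n | ∀ J, Opt a ∅ w' J → Ch a ∅ (2 * t * d) B J} ∧
      3 / 4 ≤ uW n {w' | ∀ J, Opt a ∅ w' J → Ch a ∅ (2 * t * d) B J} := by
  refine ⟨Chain_meas a B _, ?_⟩
  have hBc : B.card = d := hB.1.1
  have hSc : S0.card ≤ d := hBc ▸ Finset.card_le_card hS
  have hS2 : 2 ≤ S0.card := by omega
  obtain ⟨m0, hm0⟩ : S0.Nonempty := Finset.card_pos.1 (by omega)
  have hDS : Deep a S0 δ := hD S0 (Finset.Subset.refl _) ⟨m0, hm0⟩
  have hb := hg.start B S0 m0 hm0 hS hBc hc hDS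
  rw [BadS, Set.mem_ofPred_eq, not_le] at hb
  have hκp : ∀ i, 0 < (kB B κ : Wt n) i ∧ (kB B κ : Wt n) i ≤ 1 := by
    intro i
    unfold kB
    split_ifs
    · exact ⟨one_pos, le_rfl⟩
    · exact ⟨hκ, hκ0⟩
  have hstep := Chain_step (t := t) hg.reg hg.regs hn (by omega) hδ hδ1 m0 hDS hκp
    (fun m => {w | ∀ I, Opt a (S0.erase m) w I → 3 / 4 ≤
      uW n {w' : Wt n | ∀ J, Opt a ∅ w' J → Ch a ∅ (2 * t * (S0.erase m).card) I J}})
    (fun m hm => Chain_inner hg (by omega) hn hδ hδ1 hκ hκ1 hD (S0.card - 2) (S0.erase m)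
      (Finset.erase_subset m S0) (by rw [Finset.card_erase_of_mem hm]; omega))
  have h0 : uW n (∅ : Set (Wt n)) ≤ 1 / 2 := by
    rw [measure_empty]
    exact zero_le
  have h38 : (3 : ℝ≥0∞) / 8 < 1 / 2 := by
    rw [ENNReal.div_lt_iff (by norm_num) (by norm_num)]
    rw [one_div, show (8 : ℝ≥0∞) = 2 * 4 by norm_num, ← mul_assoc,
      ENNReal.inv_mul_cancel (by norm_num) (by norm_num), one_mul]
    norm_num
  obtain ⟨w, ⟨hw, hwc⟩, -, hwb⟩ := Chain_ex (hstep.and Chain_aecube) h0 (hb.trans h38)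
  obtain ⟨m, hm, w', hw', J, hJ, hch⟩ := hw hwb B (ho w hwc)
  refine Chain_up hch (hw' J hJ) ?_
  rw [Finset.card_erase_of_mem hm]
  calc 2 * t + 2 * t * (S0.card - 1) = 2 * t * (1 + (S0.card - 1)) := by ring
    _ ≤ 2 * t * d := Nat.mul_le_mul_left _ (by omega)

theorem chain2 (hr : Reg0 a) {k : ℕ}
    (hm : MeasurableSet {w' : Wt n | ∀ J, Opt a ∅ w' J → Ch a ∅ k B J})
    (h : 3 / 4 ≤ uW n {w' | ∀ J, Opt a ∅ w' J → Ch a ∅ k B J})
    (hm' : MeasurableSet {w' : Wt n | ∀ J, Opt a ∅ w' J → Ch a ∅ k B' J})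
    (h' : 3 / 4 ≤ uW n {w' | ∀ J, Opt a ∅ w' J → Ch a ∅ k B' J}) (hB : Feas a B) :
    Ch a ∅ (2 * k) B B' := by
  have h7 : ∀ᵐ w' ∂(uW n), NV a w' := by
    have h4 := nv_ae (κ := 1) hr (fun _ => one_pos)
    simp only [one_mul] at h4
    exact ae_restrict_of_ae h4
  have h14 : ∀ A : Set (Wt n), MeasurableSet A → 3 / 4 ≤ uW n A → uW n Aᶜ ≤ 1 / 4 := by
    intro A hA h3
    rw [prob_compl_eq_one_sub hA]
    refine (tsub_le_tsub_left h3 1).trans ?_
    rw [tsub_le_iff_right, ← ENNReal.add_div, show (1 : ℝ≥0∞) + 3 = 4 by norm_num,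
      ENNReal.div_self (by norm_num) (by norm_num)]
  have h8 : (1 : ℝ≥0∞) / 4 < 1 / 2 := by
    rw [one_div, one_div, ENNReal.inv_lt_inv]
    norm_num
  obtain ⟨w, ⟨hnv, hwc⟩, hA, hA'⟩ := Chain_ex (h7.and Chain_aecube)
    ((h14 _ hm h).trans h8.le) ((h14 _ hm' h').trans_lt h8)
  rw [Set.notMem_compl_iff] at hA hA'
  obtain ⟨J, hJ⟩ := exists_opt hr (fun i => by have := Chain_cube hwc i; linarith) hnv
    (Finset.empty_subset B) hB
  have h9 := (hA J hJ).trans (hA' J hJ).symm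
  rwa [← two_mul] at h9

end Pool.Agent.H.MP_0cad2f_co.NT
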