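import Pool.Agent.H.MP_0cad2f_co.NT.Param

/-!
From a fat face to the parametric path of a release (Lemmas 5.2, 5.3 of the text).
`T = S.erase m`, `η = et δ = δ²/16`, `L = Ld n δ = 100 n/δ³`, `w0 = update w m 0`, `v = single m (-1)`: at the parameter `τ` the
weight of `m` is `- τ`. `z`, `f` the vectors of `Deep a S δ` (`f` for `m`). The points `z + s f` are in `V_T`
(`a i ⬝ᵥ f = 0`, `i ∈ T`), `sl m (z + s f) = s`, `|sl i (z + s f) - sl i z| ≤ |s|/δ` for `i ∉ S`. So for `|s| ≤ 2 η`: all slacks of the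
`i ∉ S` are in `[0, 2/δ]` and `Φ x := ∑ w0 k * sl k x ∈ [0, 4 n/δ]` (weights in `(0, 2]`, weight `0` on `m`, slack `0` on `T`), and
`4 n/δ/η = 64 n/δ³ < L`.

`vis_start`: `I ∋ m`. `ident` (with `T`, `w0`): `Φ x = Φ (pt I) + ∑ i ∈ I \ T, μ i * sl i x`, `μ i` the multipliers for `w0`; for `i ≠ m` they
are those for `w` (`mul_update_ne`), `> 0`. At `x = z + η f`: `Φ x ≥ μ m * η`; at `x = z - η f`: `Φ x ≥ - μ m * η`. So
`|μ m| ≤ 64 n/δ³ < L`. At the parameter `τ` the multiplier of `m` is `μ m - τ`, the others do not change. So `I` is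
strictly optimal for `τ ∈ (-L, min L (μ m))`.

`vis_end`: `τ = - w m`.

`slice_pt`: `K ∋ m` feasible for `sli a m η`, `x = pt (sli a m η) K`: `a i ⬝ᵥ x = 1` for `i ∈ K.erase m`, `a m ⬝ᵥ x = 1 - η`; all slacks of `a` at
`x` are `≥ 0`. Let `f = du (sli a m η) K m` (so `a i ⬝ᵥ f = 0` for `i ∈ K - m`, `a m ⬝ᵥ f = 1 - η > 0`). Among the `j ∉ K.erase m` with `a j ⬝ᵥ f > 0`
(`j = m` is one) take `j` with minimal `sl j x/(a j ⬝ᵥ f)`; then `x + s f` (`s` the minimum) is feasible and tight at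
`insert j (K.erase m)`, which is independent.

`vis_slice`: `b = sli a m η`. Expand `cv a w0 = ∑ i ∈ K, ν i • b i`, `ν i = cv a w0 ⬝ᵥ du b K i`; for `i ∈ K \ S` `ν i = cv b w ⬝ᵥ du b K i > 0` (`cv b w` and
`cv a w0` differ by a multiple of `a m`, `b m`). With `ν' = ν m/(1 - η)` (coefficient at `a m`) and `Φ` as above, for `x ∈ V_T`:
`Φ x = Φ (pt b K) + ∑ i ∈ K \ S, ν i * sl a i x + ν' (sl a m x - η)`. At `x = z + 2 η f` and `x = z`: `|ν'| η ≤ 4 n/δ`, so `|ν'| < L`. At the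
parameter `τs = ν'` the objective is `cv a w0 - τs a m = ∑ i ∈ K.erase m, ν i • a i`. Let `I = insert j (K.erase m)` from `slice_pt`: the
multipliers at `τs` of `i ∈ K.erase m`, `i ∉ T`, are `ν i > 0`, and `0` at `j`. By `Gen` (second part) the multiplier of `j` is not
identically `0`, so it is `> 0` on one side of `τs`; choose `τ` near `τs` on this side.
-/

set_option autoImplicit false
open scoped Classical

namespace Pool.Agent.H.MP_0cad2f_co.NT

variable {n d : ℕ} {a : Con n d} {S I K : Finset (Fin n)} {m : Fin n} {w : Wt n} {δ : ℝ}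

private theorem CombA_et (hδ : 0 < δ) (hδ1 : δ ≤ 1) : 0 < et δ ∧ et δ < 1 ∧ et δ ≤ δ / 16 := by
  unfold et
  refine ⟨by positivity, ?_, ?_⟩ <;> nlinarith

/-- the number `4 n / (δ η)` is smaller than `L` -/
private theorem CombA_L (hn : 1 ≤ n) (hδ : 0 < δ) {x : ℝ} (hx : x * et δ ≤ 4 * n / δ) :
    x < Ld n δ := by
  have hn' : (1 : ℝ) ≤ n := by exact_mod_cast hn
  have h0 : 0 < δ ^ 2 := by positivity
  have h1 : x * (δ ^ 2 / 16) * δ ≤ 4 * n := by
    have h2 := mul_le_mul_of_nonneg_right hx hδ.le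
    rwa [div_mul_cancel₀ _ hδ.ne'] at h2
  unfold Ld
  rw [lt_div_iff₀ (by positivity)]
  nlinarith

private theorem CombA_L2 (hn : 1 ≤ n) (hδ : 0 < δ) (hδ1 : δ ≤ 1) : 2 < Ld n δ := by
  have hn' : (1 : ℝ) ≤ n := by exact_mod_cast hn
  unfold Ld
  rw [lt_div_iff₀ (by positivity)]
  have h1 : δ ^ 3 ≤ 1 := pow_le_one₀ hδ.le hδ1
  linarith

/-- the points `z + s f` -/
private theorem CombA_pts (hδ : 0 < δ) (hδ1 : δ ≤ 1) (hD : Deep a S δ) (hm : m ∈ S) :
    ∃ z f : Fin d → ℝ, ∀ s : ℝ, |s| ≤ 2 * et δ →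
      (∀ i ∈ S, i ≠ m → a i ⬝ᵥ (z + s • f) = 1) ∧ sl a m (z + s • f) = s ∧
      ∀ i, i ∉ S → δ / 2 ≤ sl a i (z + s • f) ∧ sl a i (z + s • f) ≤ 2 / δ := by
  obtain ⟨z, -, hz1, hz2⟩ := hD.pt
  obtain ⟨f, -, hf1, hf2, hf3⟩ := hD.dir m hm
  refine ⟨z, f, fun s hs => ⟨fun i hi him => ?_, ?_, fun i hi => ?_⟩⟩
  · rw [dotProduct_add, dotProduct_smul, hz1 i hi, hf1 i hi him, smul_zero, add_zero]
  · rw [sl, dotProduct_add, dotProduct_smul, hz1 m hm, hf2, smul_eq_mul]
    ring
  · obtain ⟨h1, h2⟩ := hz2 i hi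
    have h3 := hf3 i hi
    have h4 : |s * (a i ⬝ᵥ f)| ≤ δ / 8 := by
      rw [abs_mul]
      have h5 : |s| * |a i ⬝ᵥ f| ≤ 2 * et δ * (1 / δ) :=
        mul_le_mul hs h3 (abs_nonneg _) (by have := (CombA_et hδ hδ1).1; linarith)
      refine h5.trans (le_of_eq ?_)
      unfold et
      field_simp
      ring
    have h5 := abs_le.1 h4
    rw [sl_add]
    have h6 : 1 ≤ 1 / δ := by
      rw [le_div_iff₀ hδ]
      linarith
    have h7 : 2 / δ = 1 / δ + 1 / δ := by ring
    constructor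
    · linarith
    · rw [h7]
      linarith

/-- the bound for the objective -/
private theorem CombA_phi (hδ : 0 < δ) (hw : ∀ i, 0 < w i ∧ w i ≤ 2) {x : Fin d → ℝ}
    (hx : ∀ i ∈ S, i ≠ m → a i ⬝ᵥ x = 1)
    (hx' : ∀ i, i ∉ S → 0 ≤ sl a i x ∧ sl a i x ≤ 2 / δ) :
    ∑ k, Function.update w m 0 k * sl a k x ≤ 4 * n / δ := by
  have h1 : ∀ k ∈ (Finset.univ : Finset (Fin n)),
      Function.update w m 0 k * sl a k x ≤ 2 * (2 / δ) := by
    intro k _
    have h0 : 0 < 2 * (2 / δ) := by positivity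
    by_cases hk : k = m
    · rw [hk, Function.update_self, zero_mul]
      exact h0.le
    · rw [Function.update_of_ne hk]
      by_cases hkS : k ∈ S
      · rw [sl, hx k hkS hk, sub_self, mul_zero]
        exact h0.le
      · exact mul_le_mul (hw k).2 (hx' k hkS).2 (hx' k hkS).1 zero_le_two
  refine (Finset.sum_le_card_nsmul _ _ _ h1).trans (le_of_eq ?_)
  rw [Finset.card_univ, Fintype.card_fin, nsmul_eq_mul]
  ring

private theorem CombA_w (w : Wt n) (m : Fin n) (τ : ℝ) :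
    Function.update w m 0 + τ • (Pi.single m (-1) : Wt n) = Function.update w m (-τ) := by
  funext k
  rw [Pi.add_apply, Pi.smul_apply, smul_eq_mul]
  by_cases hk : k = m
  · rw [hk, Function.update_self, Function.update_self, Pi.single_eq_same]
    ring
  · rw [Function.update_of_ne hk, Function.update_of_ne hk, Pi.single_eq_of_ne hk]
    ring

private theorem CombA_w0 (hw : ∀ i, 0 < w i ∧ w i ≤ 2) (k : Fin n) :
    0 ≤ Function.update w m 0 k := by
  by_cases hk : k = m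
  · rw [hk, Function.update_self]
  · rw [Function.update_of_ne hk]
    exact (hw k).1.le

theorem vis_start (hn : 1 ≤ n) (hδ : 0 < δ) (hδ1 : δ ≤ 1) (hD : Deep a S δ) (hm : m ∈ S)
    (hw : ∀ i, 0 < w i ∧ w i ≤ 2) (hI : Opt a S w I) :
    Vis a (S.erase m) (Function.update w m 0) (Pi.single m (-1)) (-Ld n δ) (Ld n δ) I := by
  have hmI : m ∈ I := hI.1 hm
  have hind := hI.2.1.1
  have hTI : S.erase m ⊆ I := (Finset.erase_subset m S).trans hI.1
  obtain ⟨z, f, hzf⟩ := CombA_pts hδ hδ1 hD hm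
  obtain ⟨he0, he1, -⟩ := CombA_et hδ hδ1
  obtain ⟨μ, hμ⟩ : ∃ μ : ℝ, μ = cv a (Function.update w m 0) ⬝ᵥ du a I m := ⟨_, rfl⟩
  have hmul : ∀ i ∈ I, i ≠ m → ∀ s : ℝ, cv a (Function.update w m s) ⬝ᵥ du a I i =
      cv a w ⬝ᵥ du a I i := fun i hi him s => mul_update_ne hind hi hmI (Ne.symm him) w s
  -- `-L < μ`
  have hlow : -μ < Ld n δ := by
    refine CombA_L hn hδ ?_
    obtain ⟨h1, h2, h3⟩ := hzf (-et δ) (by rw [abs_neg, abs_of_pos he0]; linarith)
    have h4 := CombA_phi (a := a) (w := w) hδ hw h1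
      (fun i hi => ⟨by linarith [(h3 i hi).1], (h3 i hi).2⟩)
    have h5 := ident hind hTI (x := z + (-et δ) • f) (fun i hi =>
      h1 i (Finset.mem_of_mem_erase hi) (Finset.ne_of_mem_erase hi)) (Function.update w m 0)
    have h6 : 0 ≤ ∑ k, Function.update w m 0 k * sl a k (pt a I) :=
      Finset.sum_nonneg fun k _ => mul_nonneg (CombA_w0 hw k) (hI.2.1.2 k)
    have hmm : m ∈ I \ S.erase m :=
      Finset.mem_sdiff.2 ⟨hmI, fun h => Finset.ne_of_mem_erase h rfl⟩
    have h7 : μ * (-et δ) ≤ ∑ i ∈ I \ S.erase m,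
        (cv a (Function.update w m 0) ⬝ᵥ du a I i) * sl a i (z + (-et δ) • f) := by
      rw [← Finset.add_sum_erase _ _ hmm, h2, ← hμ]
      have h8 : 0 ≤ ∑ i ∈ (I \ S.erase m).erase m,
          (cv a (Function.update w m 0) ⬝ᵥ du a I i) * sl a i (z + (-et δ) • f) := by
        refine Finset.sum_nonneg fun i hi => ?_
        have him := Finset.ne_of_mem_erase hi
        obtain ⟨hi1, hi2⟩ := Finset.mem_sdiff.1 (Finset.mem_of_mem_erase hi)
        have hiS : i ∉ S := fun h => hi2 (Finset.mem_erase.2 ⟨him, h⟩)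
        rw [hmul i hi1 him]
        exact mul_nonneg (hI.2.2 i hi1 hiS).le (by linarith [(h3 i hiS).1])
      linarith
    linarith
  obtain ⟨τ, hτ1, hτ2⟩ : ∃ τ, -Ld n δ < τ ∧ τ < min (Ld n δ) μ := by
    have h2 := CombA_L2 hn hδ hδ1
    exact exists_between (lt_min (by linarith) (by linarith))
  refine ⟨τ, hτ1, hτ2.trans_le (min_le_left _ _), hTI, hI.2.1, fun i hi hiT => ?_⟩
  rw [CombA_w]
  by_cases him : i = m
  · rw [him]
    have h1 := mul_update_self hind hmI w (-τ)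
    have h2 := mul_update_self hind hmI w 0
    have h3 := hτ2.trans_le (min_le_right _ _)
    rw [h1]
    rw [← hμ] at h2
    linarith
  · rw [hmul i hi him]
    exact hI.2.2 i hi fun h => hiT (Finset.mem_erase.2 ⟨him, h⟩)

theorem vis_end (hn : 1 ≤ n) (hδ : 0 < δ) (hδ1 : δ ≤ 1) (hw : ∀ i, 0 < w i ∧ w i ≤ 2)
    (hI : Opt a (S.erase m) w I) :
    Vis a (S.erase m) (Function.update w m 0) (Pi.single m (-1)) (-Ld n δ) (Ld n δ) I := by
  have h2 := CombA_L2 hn hδ hδ1
  refine ⟨-w m, by linarith [(hw m).2], by linarith [(hw m).1], ?_⟩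
  rw [CombA_w, neg_neg, Function.update_eq_self]
  exact hI

/-- a vertex on the edge through a vertex of the slice -/
theorem slice_pt {η : ℝ} (hη : 0 < η) (hη1 : η < 1) (hmK : m ∈ K)
    (hK : Feas (sli a m η) K) : ∃ j, j ∉ K.erase m ∧ Feas a (insert j (K.erase m)) := by
  have hb : ∀ i, i ≠ m → sli a m η i = a i := fun i hi => by
    unfold sli
    rw [Function.update_of_ne hi]
  have hbm : sli a m η m = (1 - η)⁻¹ • a m := by
    unfold sli
    rw [Function.update_self]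
  have h1η : 0 < 1 - η := by linarith
  obtain ⟨b, hbdef⟩ : ∃ b, b = sli a m η := ⟨_, rfl⟩
  rw [← hbdef] at hK hb hbm
  obtain ⟨hKi, hKs⟩ := hK
  have hdm : ∀ y : Fin d → ℝ, a m ⬝ᵥ y = (1 - η) * (b m ⬝ᵥ y) := by
    intro y
    rw [hbm, smul_dotProduct, smul_eq_mul, ← mul_assoc, mul_inv_cancel₀ h1η.ne', one_mul]
  have hamf : a m ⬝ᵥ du b K m = 1 - η := by
    rw [hdm, du_self hKi hmK, mul_one]
  have hx : ∀ k, 0 ≤ sl a k (pt b K) := by
    intro k
    by_cases hk : k = m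
    · rw [hk, sl, hdm, pt_dot hKi hmK]
      linarith
    · have h2 := hKs k
      rw [sl, hb k hk] at h2
      exact h2
  obtain ⟨j, hj, hmin⟩ := Finset.exists_min_image
    (Finset.univ.filter fun k => 0 < a k ⬝ᵥ du b K m)
    (fun k => sl a k (pt b K) / (a k ⬝ᵥ du b K m))
    ⟨m, Finset.mem_filter.2 ⟨Finset.mem_univ _, by rw [hamf]; exact h1η⟩⟩
  have hjp : 0 < a j ⬝ᵥ du b K m := (Finset.mem_filter.1 hj).2
  have hin : ∀ i ∈ K.erase m, a i ⬝ᵥ du b K m = 0 := by
    intro i hi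
    rw [← hb i (Finset.ne_of_mem_erase hi)]
    exact du_ne hKi (Finset.mem_of_mem_erase hi) hmK (Finset.ne_of_mem_erase hi)
  have hjK : j ∉ K.erase m := fun h => hjp.ne' (hin j h)
  have hcard : (insert j (K.erase m)).card = d := by
    rw [Finset.card_insert_of_notMem hjK, Finset.card_erase_of_mem hmK, hKi.1]
    have h2 := Finset.card_pos.2 ⟨m, hmK⟩
    rw [hKi.1] at h2
    omega
  have hind : Ind a (insert j (K.erase m)) := by
    refine ind_of_dual hcard (fun i => if i = j then (a j ⬝ᵥ du b K m)⁻¹ • du b K m else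
      du b K i - ((a j ⬝ᵥ du b K i) * (a j ⬝ᵥ du b K m)⁻¹) • du b K m) ?_
    intro i hi l hl
    by_cases hlj : l = j
    · rw [if_pos hlj, hlj, dotProduct_smul, smul_eq_mul]
      rcases Finset.mem_insert.1 hi with h2 | h2
      · rw [h2, if_pos rfl, inv_mul_cancel₀ hjp.ne']
      · have h3 : i ≠ j := fun h => hjK (h ▸ h2)
        rw [hin i h2, mul_zero, if_neg h3]
    · rw [if_neg hlj, dotProduct_sub, dotProduct_smul, smul_eq_mul]
      have hlK : l ∈ K.erase m := (Finset.mem_insert.1 hl).resolve_left hlj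
      rcases Finset.mem_insert.1 hi with h2 | h2
      · rw [h2, if_neg (Ne.symm hlj), mul_assoc, inv_mul_cancel₀ hjp.ne', mul_one, sub_self]
      · rw [hin i h2, mul_zero, sub_zero, ← hb i (Finset.ne_of_mem_erase h2)]
        exact du_dot hKi (Finset.mem_of_mem_erase h2) (Finset.mem_of_mem_erase hlK)
  have hs0 : 0 ≤ sl a j (pt b K) / (a j ⬝ᵥ du b K m) := div_nonneg (hx j) hjp.le
  have hsl : ∀ k, sl a k (pt b K + (sl a j (pt b K) / (a j ⬝ᵥ du b K m)) • du b K m) =
      sl a k (pt b K) - (sl a j (pt b K) / (a j ⬝ᵥ du b K m)) * (a k ⬝ᵥ du b K m) :=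
    fun k => sl_add k _ _ _
  have hpt : pt b K + (sl a j (pt b K) / (a j ⬝ᵥ du b K m)) • du b K m =
      pt a (insert j (K.erase m)) := by
    refine pt_unique hind fun i hi => ?_
    have h0 : sl a i (pt b K + (sl a j (pt b K) / (a j ⬝ᵥ du b K m)) • du b K m) = 0 := by
      rw [hsl]
      rcases Finset.mem_insert.1 hi with h2 | h2
      · rw [h2, div_mul_cancel₀ _ hjp.ne', sub_self]
      · rw [hin i h2, mul_zero, sub_zero, sl, ← hb i (Finset.ne_of_mem_erase h2),
          pt_dot hKi (Finset.mem_of_mem_erase h2), sub_self]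
    rw [sl] at h0
    linarith
  refine ⟨j, hjK, hind, fun k => ?_⟩
  rw [← hpt, hsl]
  by_cases hk : 0 < a k ⬝ᵥ du b K m
  · have h2 := hmin k (Finset.mem_filter.2 ⟨Finset.mem_univ _, hk⟩)
    rw [le_div_iff₀ hk] at h2
    linarith
  · have h2 := mul_nonpos_of_nonneg_of_nonpos hs0 (not_lt.1 hk)
    have h3 := hx k
    linarith

theorem vis_slice (hn : 1 ≤ n) (hδ : 0 < δ) (hδ1 : δ ≤ 1) (hD : Deep a S δ) (hm : m ∈ S)
    (hw : ∀ i, 0 < w i ∧ w i ≤ 2)
    (hg : Gen a (S.erase m) (Function.update w m 0) (Pi.single m (-1)))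
    (hK : Opt (sli a m (et δ)) S w K) :
    ∃ I, K.erase m ⊆ I ∧
      Vis a (S.erase m) (Function.update w m 0) (Pi.single m (-1)) (-Ld n δ) (Ld n δ) I := by
  obtain ⟨he0, he1, -⟩ := CombA_et hδ hδ1
  have hmK : m ∈ K := hK.1 hm
  obtain ⟨j, hjK, hI⟩ := slice_pt he0 he1 hmK hK.2.1
  refine ⟨insert j (K.erase m), Finset.subset_insert _ _, ?_⟩
  have hTK : S.erase m ⊆ K.erase m := Finset.erase_subset_erase m hK.1
  have hTI : S.erase m ⊆ insert j (K.erase m) := hTK.trans (Finset.subset_insert _ _)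
  have hb : ∀ i, i ≠ m → sli a m (et δ) i = a i := fun i hi => by
    unfold sli
    rw [Function.update_of_ne hi]
  have hbm : sli a m (et δ) m = (1 - et δ)⁻¹ • a m := by
    unfold sli
    rw [Function.update_self]
  have h1η : 0 < 1 - et δ := by linarith
  obtain ⟨b, hbdef⟩ : ∃ b, b = sli a m (et δ) := ⟨_, rfl⟩
  rw [← hbdef] at hK hb hbm
  obtain ⟨η, hη⟩ : ∃ η, η = et δ := ⟨_, rfl⟩
  obtain ⟨hKS, ⟨hKi, hKs⟩, hKm⟩ := hK
  -- the multipliers for the weights with `0` at `m`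
  have hcv : ∀ y : Fin d → ℝ, cv b (Function.update w m 0) ⬝ᵥ y =
      cv a (Function.update w m 0) ⬝ᵥ y := by
    intro y
    rw [cv_dot, cv_dot]
    refine Finset.sum_congr rfl fun k _ => ?_
    by_cases hk : k = m
    · rw [hk, Function.update_self, zero_mul, zero_mul]
    · rw [hb k hk]
  have hν : ∀ i ∈ K, i ∉ S → 0 < cv b (Function.update w m 0) ⬝ᵥ du b K i := by
    intro i hi hiS
    have him : i ≠ m := fun h => hiS (h ▸ hm)
    rw [mul_update_ne hKi hi hmK (Ne.symm him)]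
    exact hKm i hi hiS
  obtain ⟨ν, hνdef⟩ : ∃ ν : ℝ, ν = (1 - et δ)⁻¹ * (cv b (Function.update w m 0) ⬝ᵥ du b K m) :=
    ⟨_, rfl⟩
  obtain ⟨z, f, hzf⟩ := CombA_pts hδ hδ1 hD hm
  have hmm : m ∈ K \ S.erase m :=
    Finset.mem_sdiff.2 ⟨hmK, fun h => Finset.ne_of_mem_erase h rfl⟩
  have hslm : ∀ x : Fin d → ℝ, sl b m x = (1 - et δ)⁻¹ * (sl a m x - et δ) := by
    intro x
    rw [sl, sl, hbm, smul_dotProduct, smul_eq_mul]
    field_simp
    ring
  -- the value at `z + s f`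
  have hval : ∀ s : ℝ, |s| ≤ 2 * et δ → ν * (s - et δ) ≤ 4 * n / δ := by
    intro s hs
    obtain ⟨h1, h2, h3⟩ := hzf s hs
    have h4 := CombA_phi (a := a) (w := w) hδ hw h1
      (fun i hi => ⟨by linarith [(h3 i hi).1], (h3 i hi).2⟩)
    have h5 := ident hKi (hTK.trans (Finset.erase_subset m K)) (x := z + s • f) (fun i hi => by
      rw [hb i (Finset.ne_of_mem_erase hi)]
      exact h1 i (Finset.mem_of_mem_erase hi) (Finset.ne_of_mem_erase hi))
      (Function.update w m 0)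
    have h6 : 0 ≤ ∑ k, Function.update w m 0 k * sl b k (pt b K) :=
      Finset.sum_nonneg fun k _ => mul_nonneg (CombA_w0 hw k) (hKs k)
    have h7 : ν * (s - et δ) ≤ ∑ i ∈ K \ S.erase m,
        (cv b (Function.update w m 0) ⬝ᵥ du b K i) * sl b i (z + s • f) := by
      rw [← Finset.add_sum_erase _ _ hmm, hslm, h2]
      have h8 : 0 ≤ ∑ i ∈ (K \ S.erase m).erase m,
          (cv b (Function.update w m 0) ⬝ᵥ du b K i) * sl b i (z + s • f) := by
        refine Finset.sum_nonneg fun i hi => ?_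
        have him := Finset.ne_of_mem_erase hi
        obtain ⟨hi1, hi2⟩ := Finset.mem_sdiff.1 (Finset.mem_of_mem_erase hi)
        have hiS : i ∉ S := fun h => hi2 (Finset.mem_erase.2 ⟨him, h⟩)
        refine mul_nonneg (hν i hi1 hiS).le ?_
        rw [sl, hb i him]
        have := (h3 i hiS).1
        rw [sl] at this
        linarith
      have h9 : cv b (Function.update w m 0) ⬝ᵥ du b K m * ((1 - et δ)⁻¹ * (s - et δ)) =
          ν * (s - et δ) := by
        rw [hνdef]
        ring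
      linarith
    have h8 : ∑ k, Function.update w m 0 k * sl b k (z + s • f) =
        ∑ k, Function.update w m 0 k * sl a k (z + s • f) := by
      refine Finset.sum_congr rfl fun k _ => ?_
      by_cases hk : k = m
      · rw [hk, Function.update_self, zero_mul, zero_mul]
      · rw [sl, sl, hb k hk]
    rw [h8] at h5
    linarith
  have hν1 : -ν < Ld n δ := by
    refine CombA_L hn hδ ?_
    have h1 := hval 0 (by rw [abs_zero]; linarith)
    linarith
  have hν2 : ν < Ld n δ := by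
    refine CombA_L hn hδ ?_
    have h1 := hval (2 * et δ) (by rw [abs_of_pos (by linarith)])
    linarith
  -- the objective at the parameter `ν`
  have hobj : ∀ y : Fin d → ℝ,
      cv a (Function.update w m 0 + ν • (Pi.single m (-1) : Wt n)) ⬝ᵥ y =
      ∑ i ∈ K.erase m, (cv b (Function.update w m 0) ⬝ᵥ du b K i) * (a i ⬝ᵥ y) := by
    intro y
    have h1 : cv b (Function.update w m 0) ⬝ᵥ y =
        ∑ i ∈ K, (cv b (Function.update w m 0) ⬝ᵥ du b K i) * (b i ⬝ᵥ y) := by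
      conv_lhs => rw [expand hKi (cv b (Function.update w m 0))]
      exact EdgeA_sum K _ y
    rw [mul_lin, ← hcv, h1, ← Finset.add_sum_erase _ _ hmK]
    have h2 : cv a (Pi.single m (-1) : Wt n) ⬝ᵥ y = -(a m ⬝ᵥ y) := by
      rw [cv_dot, Finset.sum_eq_single m]
      · rw [Pi.single_eq_same]
        ring
      · intro k _ hk
        rw [Pi.single_eq_of_ne hk, zero_mul]
      · intro h
        exact absurd (Finset.mem_univ m) h
    have h3 : ∑ i ∈ K.erase m, (cv b (Function.update w m 0) ⬝ᵥ du b K i) * (b i ⬝ᵥ y) =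
        ∑ i ∈ K.erase m, (cv b (Function.update w m 0) ⬝ᵥ du b K i) * (a i ⬝ᵥ y) :=
      Finset.sum_congr rfl fun i hi => by rw [hb i (Finset.ne_of_mem_erase hi)]
    rw [h2, h3, hbm, smul_dotProduct, smul_eq_mul, hνdef]
    ring
  have hmulK : ∀ i ∈ K.erase m,
      cv a (Function.update w m 0 + ν • (Pi.single m (-1) : Wt n)) ⬝ᵥ
        du a (insert j (K.erase m)) i = cv b (Function.update w m 0) ⬝ᵥ du b K i := by
    intro i hi
    rw [hobj, Finset.sum_eq_single i]
    · rw [du_self hI.1 (Finset.mem_insert_of_mem hi), mul_one]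
    · intro k hk hki
      rw [du_ne hI.1 (Finset.mem_insert_of_mem hk) (Finset.mem_insert_of_mem hi) hki, mul_zero]
    · intro h
      exact absurd hi h
  have hmulj : cv a (Function.update w m 0 + ν • (Pi.single m (-1) : Wt n)) ⬝ᵥ
      du a (insert j (K.erase m)) j = 0 := by
    rw [hobj]
    refine Finset.sum_eq_zero fun k hk => ?_
    rw [du_ne hI.1 (Finset.mem_insert_of_mem hk) (Finset.mem_insert_self j _)
      (fun h => hjK (h ▸ hk)), mul_zero]
  have hjT : j ∉ S.erase m := fun h => hjK (hTK h)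
  -- the slope of the multiplier of `j`
  have hslope : cv a (Pi.single m (-1) : Wt n) ⬝ᵥ du a (insert j (K.erase m)) j ≠ 0 := by
    intro h0
    have h1 := hmulj
    rw [mul_lin, h0, mul_zero, add_zero] at h1
    exact (hg _ hI.1.1 hTI).2 j (Finset.mem_insert_self j _) hjT ⟨h1, h0⟩
  have hcont : ∀ i, Continuous fun τ : ℝ =>
      cv a (Function.update w m 0 + τ • (Pi.single m (-1) : Wt n)) ⬝ᵥ
        du a (insert j (K.erase m)) i := by
    intro i
    have h3 : (fun τ : ℝ => cv a (Function.update w m 0 + τ • (Pi.single m (-1) : Wt n)) ⬝ᵥ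
        du a (insert j (K.erase m)) i) = fun τ =>
        cv a (Function.update w m 0) ⬝ᵥ du a (insert j (K.erase m)) i +
          τ * (cv a (Pi.single m (-1) : Wt n) ⬝ᵥ du a (insert j (K.erase m)) i) := by
      funext τ
      exact mul_lin _ _ τ _
    rw [h3]
    fun_prop
  have hev : ∀ᶠ τ in nhds ν, -Ld n δ < τ ∧ τ < Ld n δ ∧
      ∀ i ∈ K.erase m, i ∉ S →
        0 < cv a (Function.update w m 0 + τ • (Pi.single m (-1) : Wt n)) ⬝ᵥ
          du a (insert j (K.erase m)) i := by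
    refine (lt_mem_nhds (by linarith)).and ((gt_mem_nhds hν2).and ?_)
    rw [Finset.eventually_all]
    intro i hi
    by_cases hiS : i ∈ S
    · exact Filter.Eventually.of_forall fun τ h => absurd hiS h
    · have h1 : 0 < cv a (Function.update w m 0 + ν • (Pi.single m (-1) : Wt n)) ⬝ᵥ
          du a (insert j (K.erase m)) i := by
        rw [hmulK i hi]
        exact hν i (Finset.mem_of_mem_erase hi) hiS
      exact (((hcont i).continuousAt (x := ν)).eventually (lt_mem_nhds h1)).mono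
        fun τ h _ => h
  obtain ⟨ε, hε, hball⟩ := Metric.eventually_nhds_iff.1 hev
  have hfin : ∀ τ : ℝ, |τ - ν| < ε →
      0 < (τ - ν) * (cv a (Pi.single m (-1) : Wt n) ⬝ᵥ du a (insert j (K.erase m)) j) →
      Vis a (S.erase m) (Function.update w m 0) (Pi.single m (-1)) (-Ld n δ) (Ld n δ)
        (insert j (K.erase m)) := by
    intro τ h1 h2
    obtain ⟨h3, h4, h5⟩ := hball (y := τ) (by rw [Real.dist_eq]; exact h1)
    refine ⟨τ, h3, h4, hTI, hI, fun i hi hiT => ?_⟩
    rcases Finset.mem_insert.1 hi with h6 | h6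
    · rw [h6]
      have h7 := hmulj
      rw [mul_lin] at h7 ⊢
      linarith
    · exact h5 i h6 fun h => hiT (Finset.mem_erase.2 ⟨Finset.ne_of_mem_erase h6, h⟩)
  rcases lt_or_gt_of_ne hslope with h | h
  · refine hfin (ν - ε / 2) ?_ ?_
    · rw [sub_sub_cancel_left, abs_neg, abs_of_pos (by linarith)]
      linarith
    · rw [sub_sub_cancel_left]
      exact mul_pos_of_neg_of_neg (by linarith) h
  · refine hfin (ν + ε / 2) ?_ ?_
    · rw [add_sub_cancel_left, abs_of_pos (by linarith)]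
      linarith
    · rw [add_sub_cancel_left]
      exact mul_pos (by linarith) h

/-- the slice is not empty: it contains a point of `V_S` of the slice configuration -/
theorem slice_point (hδ : 0 < δ) (hδ1 : δ ≤ 1) (hD : Deep a S δ) (hm : m ∈ S) :
    ∃ z : Fin d → ℝ, (∀ i ∈ S, sli a m (et δ) i ⬝ᵥ z = 1) ∧
      ∀ i, i ∉ S → δ / 2 ≤ sl (sli a m (et δ)) i z ∧ sl (sli a m (et δ)) i z ≤ 2 / δ := by
  obtain ⟨he0, he1, -⟩ := CombA_et hδ hδ1
  obtain ⟨z, f, hzf⟩ := CombA_pts hδ hδ1 hD hm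
  obtain ⟨h1, h2, h3⟩ := hzf (et δ) (by rw [abs_of_pos he0]; linarith)
  have hb : ∀ i, i ≠ m → sli a m (et δ) i = a i := fun i hi => by
    unfold sli
    rw [Function.update_of_ne hi]
  have hbm : sli a m (et δ) m = (1 - et δ)⁻¹ • a m := by
    unfold sli
    rw [Function.update_self]
  have h1η : 0 < 1 - et δ := by linarith
  refine ⟨z + et δ • f, fun i hi => ?_, fun i hi => ?_⟩
  · by_cases him : i = m
    · have h4 : a m ⬝ᵥ (z + et δ • f) = 1 - et δ := by
        rw [sl] at h2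
        linarith
      rw [him, hbm, smul_dotProduct, h4, smul_eq_mul, inv_mul_cancel₀ h1η.ne']
    · rw [hb i him]
      exact h1 i hi him
  · have him : i ≠ m := fun h => hi (h ▸ hm)
    have h4 := h3 i hi
    rw [sl] at h4 ⊢
    rw [hb i him]
    exact h4

end Pool.Agent.H.MP_0cad2f_co.NT
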