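import Pool.Agent.H.MP_0cad2f_co.NT.CombA

/-!
The combined step (Lemma 5.4 of the text). `b = sli a m (et δ)`, `T = S.erase m`.

`S ⊆ I` with `I.card = d`. `slice_point`, `exists_feas` (for `b`, `I0 = I`) and `exists_opt` give `K ∈ Opt b S w`, `K' ∈ Opt b S w'`.
`param_path` for `b`, `S`, `w0 = w`, `v = w' - w`, `(0, 1)`: `K` and `K'` are in `VS` if their optimality sets, which contain
neighbourhoods of `0` and of `1` (strict inequalities, `opt_open`-type argument: finitely many strict inequalities, continuous in `τ`), meet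
`(0, 1)`: yes. So `Ch b S (N2 b S w w') K K'`.
`slices_to_graph`: induction over `Ch b S k K K'`: for every feasible `K ⊇ S` of `b` there is a vertex `insert j (K.erase m)` of `a`
(`slice_pt`); if `I ⊇ K.erase m`, `I' ⊇ (swp K i j).erase m` are feasible for `a` (`i ∉ S`, so `i ≠ m`) both contain
`(K.erase m).erase i`, of cardinality `d - 2`: `face2`. For `k = 0` steps: two vertices containing `K.erase m` (cardinality `d - 1`)
contain `(K.erase m).erase i'` for any `i' ∈ K.erase m` (`d ≥ 2`): one more `face2`; so the total is at most `n² (k + 1)`; with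
`k ≤ N2 - 1`... NOTE: use `slices_to_graph` below, which has `n ^ 2 * k` for given end vertices when `K ≠ K'`, see the statement.
`comb`: `vis_start`, `vis_slice` (for `w`, `K`), `param_path` for `a`, `T`, `w0 = update w m 0`; then the slices; then `vis_slice` (for `w'`,
`K'`), `vis_end`, `param_path` for `w'`. `N2 ≥ 1` because `K` is visited.
-/

set_option autoImplicit false
open scoped Classical

namespace Pool.Agent.H.MP_0cad2f_co.NT

variable {n d : ℕ} {a : Con n d} {S I J K K' : Finset (Fin n)} {m : Fin n} {w w' : Wt n} {δ η : ℝ}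

private theorem CombB_near {T : Finset (Fin n)} {v : Wt n} {t : ℝ}
    (h : Opt a T (w + t • v) I) : ∃ ε > 0, ∀ s : ℝ, |s - t| < ε → Opt a T (w + s • v) I := by
  have hev : ∀ᶠ s in nhds t, ∀ i ∈ I, i ∉ T → 0 < cv a (w + s • v) ⬝ᵥ du a I i := by
    rw [Finset.eventually_all]
    intro i hi
    by_cases hiT : i ∈ T
    · exact Filter.Eventually.of_forall fun τ h => absurd hiT h
    · have h2 : Continuous fun s : ℝ => cv a (w + s • v) ⬝ᵥ du a I i := by
        have h3 : (fun s : ℝ => cv a (w + s • v) ⬝ᵥ du a I i) =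
            fun s => cv a w ⬝ᵥ du a I i + s * (cv a v ⬝ᵥ du a I i) := by
          funext s
          exact mul_lin w v s _
        rw [h3]
        fun_prop
      exact ((h2.continuousAt (x := t)).eventually (lt_mem_nhds (h.2.2 i hi hiT))).mono
        fun τ h _ => h
  obtain ⟨ε, hε, hball⟩ := Metric.eventually_nhds_iff.1 hev
  exact ⟨ε, hε, fun s hs => ⟨h.1, h.2.1, hball (y := s) (by rw [Real.dist_eq]; exact hs)⟩⟩

/-- two vertices over the same vertex of the slice -/
private theorem CombB_same (hr : Reg0 a) {L : Finset (Fin n)} (hL : L.card + 1 = d)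
    (hI : L ⊆ I) (hI' : Feas a I) (hJ : L ⊆ J) (hJ' : Feas a J) : Ch a ∅ (n ^ 2) I J := by
  rcases Nat.lt_or_ge d 2 with hd | hd
  · have hd1 : d = 1 := by omega
    have hn1 : 1 ≤ n := by
      rcases Nat.eq_zero_or_pos n with h0 | h0
      · subst h0
        have h1 := hI'.1.1
        rw [Finset.eq_empty_of_isEmpty I, Finset.card_empty] at h1
        omega
      · exact h0
    refine (face0 hr hI' hJ').mono ?_
    rw [hd1]
    exact Nat.pow_le_pow_right hn1 one_le_two
  · obtain ⟨i, hi⟩ : L.Nonempty := Finset.card_pos.1 (by omega)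
    have hc : (L.erase i).card + 2 = d := by
      rw [Finset.card_erase_of_mem hi]
      omega
    exact face2 hr hc ((Finset.erase_subset i L).trans hI) hI' ((Finset.erase_subset i L).trans hJ)
      hJ'

theorem slices_to_graph (hr : Reg0 a) (hη : 0 < η) (hη1 : η < 1) (hm : m ∈ S) {k : ℕ}
    (h : Ch (sli a m η) S k K K') (hI : K.erase m ⊆ I) (hI' : Feas a I)
    (hJ : K'.erase m ⊆ J) (hJ' : Feas a J) : Ch a ∅ (n ^ 2 * (k + 1)) I J := by
  induction h generalizing I with
  | @refl k K hT hK =>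
    have hc : (K.erase m).card + 1 = d := by
      rw [Finset.card_erase_of_mem (hT hm), hK.1.1]
      have h1 := Finset.card_pos.2 ⟨m, hT hm⟩
      rw [hK.1.1] at h1
      omega
    refine (CombB_same hr hc hI hI' hJ hJ').mono ?_
    exact Nat.le_mul_of_pos_right _ (Nat.succ_pos k)
  | @step k K K' i j hT hK hi hiT hj h' ih =>
    obtain ⟨hT1, hK1, -, -⟩ := h'.feas
    have him : i ≠ m := fun h => hiT (h ▸ hm)
    obtain ⟨l, -, hl⟩ := slice_pt hη hη1 (hT1 hm) hK1
    have h1 := ih (I := insert l ((swp K i j).erase m)) (Finset.subset_insert _ _) hl hJ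
    have hc : ((K.erase m).erase i).card + 2 = d := by
      have hiK : i ∈ K.erase m := Finset.mem_erase.2 ⟨him, hi⟩
      have h2 := Finset.card_pos.2 ⟨i, hiK⟩
      rw [Finset.card_erase_of_mem (hT hm), hK.1.1] at h2
      rw [Finset.card_erase_of_mem hiK, Finset.card_erase_of_mem (hT hm), hK.1.1]
      omega
    have hsub : (K.erase m).erase i ⊆ insert l ((swp K i j).erase m) := by
      intro x hx
      have hxi := Finset.ne_of_mem_erase hx
      have hxm := Finset.ne_of_mem_erase (Finset.mem_of_mem_erase hx)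
      have hxK := Finset.mem_of_mem_erase (Finset.mem_of_mem_erase hx)
      refine Finset.mem_insert_of_mem (Finset.mem_erase.2 ⟨hxm, ?_⟩)
      exact Finset.mem_insert_of_mem (Finset.mem_erase.2 ⟨hxi, hxK⟩)
    have h3 := face2 hr hc ((Finset.erase_subset i _).trans hI) hI' hsub hl
    refine (h3.trans h1).mono (le_of_eq ?_)
    ring

theorem comb (hr : Reg0 a) (hrs : Reg0 (sli a m (et δ))) (hn : 2 ≤ n) (hd : 2 ≤ d)
    (hδ : 0 < δ) (hδ1 : δ ≤ 1) (hD : Deep a S δ) (hm : m ∈ S)
    (hw : ∀ i, 0 < w i ∧ w i ≤ 2) (hw' : ∀ i, 0 < w' i ∧ w' i ≤ 2)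
    (hg : Gen a (S.erase m) (Function.update w m 0) (Pi.single m (-1)))
    (hg' : Gen a (S.erase m) (Function.update w' m 0) (Pi.single m (-1)))
    (hgs : Gen (sli a m (et δ)) S w (w' - w)) (hv : NV (sli a m (et δ)) w)
    (hv' : NV (sli a m (et δ)) w') (hI : Opt a S w I) (hJ : Opt a (S.erase m) w' J) :
    Ch a ∅ (2 * NN a S m δ w w') I J := by
  have hn1 : 1 ≤ n := by omega
  have he0 : 0 < et δ := by
    unfold et
    positivity
  have he1 : et δ < 1 := by
    unfold et
    nlinarith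
  have hdn : d ≤ n := by
    have h1 := Finset.card_le_univ I
    rw [hI.2.1.1.1, Fintype.card_fin] at h1
    exact h1
  obtain ⟨z, hz1, hz2⟩ := slice_point hδ hδ1 hD hm
  have hz3 : ∀ i, 0 ≤ sl (sli a m (et δ)) i z := by
    intro i
    by_cases hi : i ∈ S
    · rw [sl, hz1 i hi, sub_self]
    · have := (hz2 i hi).1
      linarith
  obtain ⟨K0, hK0, hK0'⟩ := exists_feas hrs hdn hI.2.1.1.1 hI.1 hz1 hz3
  obtain ⟨K, hK⟩ := exists_opt hrs (fun i => (hw i).1.le) hv hK0 hK0'
  obtain ⟨K', hK'⟩ := exists_opt hrs (fun i => (hw' i).1.le) hv' hK0 hK0'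
  have hVK : Vis (sli a m (et δ)) S w (w' - w) 0 1 K := by
    have h0 : Opt (sli a m (et δ)) S (w + (0 : ℝ) • (w' - w)) K := by
      rw [zero_smul, add_zero]
      exact hK
    obtain ⟨ε, hε, h1⟩ := CombB_near h0
    obtain ⟨s, hs1, hs2⟩ := exists_between (lt_min hε one_pos)
    refine ⟨s, hs1, hs2.trans_le (min_le_right _ _), h1 s ?_⟩
    rw [sub_zero, abs_of_pos hs1]
    exact hs2.trans_le (min_le_left _ _)
  have hVK' : Vis (sli a m (et δ)) S w (w' - w) 0 1 K' := by
    have h0 : Opt (sli a m (et δ)) S (w + (1 : ℝ) • (w' - w)) K' := by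
      rw [one_smul, add_sub_cancel]
      exact hK'
    obtain ⟨ε, hε, h1⟩ := CombB_near h0
    obtain ⟨s, hs1, hs2⟩ := exists_between (lt_min hε one_pos)
    have hs3 := hs2.trans_le (min_le_right ε 1)
    refine ⟨1 - s, by linarith, by linarith, h1 (1 - s) ?_⟩
    rw [sub_sub_cancel_left, abs_neg, abs_of_pos hs1]
    exact hs2.trans_le (min_le_left _ _)
  have hpath := param_path hrs hgs hVK hVK'
  have hN2 : 1 ≤ N2 (sli a m (et δ)) S w w' :=
    Finset.card_pos.2 ⟨K, Finset.mem_filter.2 ⟨Finset.mem_univ _, hVK⟩⟩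
  -- the release paths
  have hVI := vis_start hn1 hδ hδ1 hD hm hw hI
  have hVJ := vis_end hn1 hδ hδ1 hw' hJ
  obtain ⟨I1, hI1, hVI1⟩ := vis_slice hn1 hδ hδ1 hD hm hw hg hK
  obtain ⟨I2, hI2, hVI2⟩ := vis_slice hn1 hδ hδ1 hD hm hw' hg' hK'
  have h1 := (param_path hr hg hVI hVI1).sub (Finset.empty_subset _)
  have h3 := (param_path hr hg' hVI2 hVJ).sub (Finset.empty_subset _)
  have hF1 : Feas a I1 := by
    obtain ⟨_, _, _, h⟩ := hVI1
    exact h.2.1
  have hF2 : Feas a I2 := by
    obtain ⟨_, _, _, h⟩ := hVI2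
    exact h.2.1
  have h2 := slices_to_graph hr he0 he1 hm hpath hI1 hF1 hI2 hF2
  refine ((h1.trans h2).trans h3).mono ?_
  have h4 : (VS (sli a m (et δ)) S w (w' - w) 0 1).card = N2 (sli a m (et δ)) S w w' := rfl
  have h5 : (VS a (S.erase m) (Function.update w m 0) (Pi.single m (-1)) (-Ld n δ)
    (Ld n δ)).card = N1 a (S.erase m) m (Ld n δ) w := rfl
  have h6 : (VS a (S.erase m) (Function.update w' m 0) (Pi.single m (-1)) (-Ld n δ)
    (Ld n δ)).card = N1 a (S.erase m) m (Ld n δ) w' := rfl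
  rw [h4, h5, h6]
  unfold NN
  nlinarith [Nat.zero_le (n ^ 2), Nat.mul_le_mul_left (n ^ 2) hN2]

end Pool.Agent.H.MP_0cad2f_co.NT
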