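import Mathlib

/-!
MP_0cad2f_co: expected distance between the non-thin vertices of a Gaussian-perturbed polytope.
Definitions. Text of the proof: h36_0cad2f_NT.md (team store).

`Con n d` is the space of families of `n` constraint vectors in `ℝ^d`, `a i ⬝ᵥ x ≤ 1`.
-/

set_option autoImplicit false
open MeasureTheory ProbabilityTheory
open scoped ENNReal Classical

namespace Pool.Agent.H.MP_0cad2f_co.NT

/-- families of `n` vectors in `ℝ^d` -/
abbrev Con (n d : ℕ) := Fin n → Fin d → ℝ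

/-- weights -/
abbrev Wt (n : ℕ) := Fin n → ℝ

/-- Gram matrix of the vectors with index in `I` -/
noncomputable def gram {n d : ℕ} (a : Con n d) (I : Finset (Fin n)) : Matrix I I ℝ :=
  fun i j => a i ⬝ᵥ a j

/-- the dual vectors `e^I_m` (for `m ∈ I`; `0` otherwise) -/
noncomputable def du {n d : ℕ} (a : Con n d) (I : Finset (Fin n)) (m : Fin n) : Fin d → ℝ :=
  if h : m ∈ I then ∑ l : I, (gram a I)⁻¹ ⟨m, h⟩ l • a l else 0

/-- the point `x_I` with `a i ⬝ᵥ x_I = 1` for `i ∈ I` -/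
noncomputable def pt {n d : ℕ} (a : Con n d) (I : Finset (Fin n)) : Fin d → ℝ :=
  ∑ m ∈ I, du a I m

/-- `I` is a basis: `d` linearly independent vectors -/
def Ind {n d : ℕ} (a : Con n d) (I : Finset (Fin n)) : Prop :=
  I.card = d ∧ LinearIndependent ℝ (fun i : I => a i)

/-- slack of constraint `i` at `x` -/
def sl {n d : ℕ} (a : Con n d) (i : Fin n) (x : Fin d → ℝ) : ℝ := 1 - a i ⬝ᵥ x

/-- `I` is a feasible basis -/
def Feas {n d : ℕ} (a : Con n d) (I : Finset (Fin n)) : Prop :=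
  Ind a I ∧ ∀ i, 0 ≤ sl a i (pt a I)

/-- the objective `c = ∑ w_i a_i` (to be maximised; equivalently `∑ w_i s_i` is minimised) -/
def cv {n d : ℕ} (a : Con n d) (w : Wt n) : Fin d → ℝ := ∑ i, w i • a i

/-- exchange of `m` for `j` -/
def swp {n : ℕ} (I : Finset (Fin n)) (m j : Fin n) : Finset (Fin n) := insert j (I.erase m)

/-- regular families: every `d`-set is a basis, and no other constraint is tight at its point -/
def Reg0 {n d : ℕ} (a : Con n d) : Prop :=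
  ∀ I : Finset (Fin n), I.card = d → Ind a I ∧ ∀ i, i ∉ I → sl a i (pt a I) ≠ 0

/-- all vectors have length at most `R` -/
def Bdd {n d : ℕ} (R : ℝ) (a : Con n d) : Prop := ∀ i, a i ⬝ᵥ a i ≤ R ^ 2

/-- `I` is strictly optimal for the weights `w` in the flat `{a_i x = 1, i ∈ T}` -/
def Opt {n d : ℕ} (a : Con n d) (T : Finset (Fin n)) (w : Wt n) (I : Finset (Fin n)) : Prop :=
  T ⊆ I ∧ Feas a I ∧ ∀ i ∈ I, i ∉ T → 0 < cv a w ⬝ᵥ du a I i

/-- weakly optimal -/
def WOpt {n d : ℕ} (a : Con n d) (T : Finset (Fin n)) (w : Wt n) (I : Finset (Fin n)) : Prop :=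
  T ⊆ I ∧ Feas a I ∧ ∀ i ∈ I, i ∉ T → 0 ≤ cv a w ⬝ᵥ du a I i

/-- `Ch a T k I J`: at most `k` exchange steps between feasible bases which contain `T` -/
inductive Ch {n d : ℕ} (a : Con n d) (T : Finset (Fin n)) :
    ℕ → Finset (Fin n) → Finset (Fin n) → Prop
  | refl (k : ℕ) {I : Finset (Fin n)} (hT : T ⊆ I) (hI : Feas a I) : Ch a T k I I
  | step {k : ℕ} {I J : Finset (Fin n)} {i j : Fin n} (hT : T ⊆ I) (hI : Feas a I) (hi : i ∈ I)
      (hiT : i ∉ T) (hj : j ∉ I) (h : Ch a T k (swp I i j) J) : Ch a T (k + 1) I J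

/-- `I` is strictly optimal for some parameter in `(τ0, τ1)` -/
def Vis {n d : ℕ} (a : Con n d) (T : Finset (Fin n)) (w0 v : Wt n) (τ0 τ1 : ℝ)
    (I : Finset (Fin n)) : Prop :=
  ∃ τ, τ0 < τ ∧ τ < τ1 ∧ Opt a T (w0 + τ • v) I

/-- the set of the visited bases -/
noncomputable def VS {n d : ℕ} (a : Con n d) (T : Finset (Fin n)) (w0 v : Wt n) (τ0 τ1 : ℝ) :
    Finset (Finset (Fin n)) :=
  Finset.univ.filter (Vis a T w0 v τ0 τ1)

/-- genericity: no two multipliers vanish at the same parameter, none vanishes identically -/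
def Gen {n d : ℕ} (a : Con n d) (T : Finset (Fin n)) (w0 v : Wt n) : Prop :=
  ∀ I : Finset (Fin n), I.card = d → T ⊆ I →
    (∀ i ∈ I, i ∉ T → ∀ j ∈ I, j ∉ T → i ≠ j → ∀ τ : ℝ,
      ¬ (cv a (w0 + τ • v) ⬝ᵥ du a I i = 0 ∧ cv a (w0 + τ • v) ⬝ᵥ du a I j = 0)) ∧
    ∀ i ∈ I, i ∉ T → ¬ (cv a w0 ⬝ᵥ du a I i = 0 ∧ cv a v ⬝ᵥ du a I i = 0)

/-- no multiplier vanishes -/
def NV {n d : ℕ} (a : Con n d) (w : Wt n) : Prop :=
  ∀ I : Finset (Fin n), I.card = d → ∀ i ∈ I, cv a w ⬝ᵥ du a I i ≠ 0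

/-- short crossing: `I` is left at `τs` through `i`, `j` enters, `ρ` is the length of the step,
and `I` is optimal only in `(τs - ℓ, τs)` -/
structure SX {n d : ℕ} (a : Con n d) (T : Finset (Fin n)) (w0 v : Wt n) (τ0 τ1 ℓ : ℝ)
    (I : Finset (Fin n)) (i : Fin n) (τs : ℝ) (j : Fin n) (ρ : ℝ) : Prop where
  vis : Vis a T w0 v τ0 τ1 I
  mem : i ∈ I
  nmem : i ∉ T
  lo : τ0 < τs
  hi : τs < τ1
  zero : cv a (w0 + τs • v) ⬝ᵥ du a I i = 0
  neg : cv a v ⬝ᵥ du a I i < 0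
  short : ∀ τ, Opt a T (w0 + τ • v) I → τs - ℓ < τ ∧ τ < τs
  jn : j ∉ I
  vis' : Vis a T w0 v τ0 τ1 (swp I i j)
  wopt : WOpt a T (w0 + τs • v) I
  wopt' : WOpt a T (w0 + τs • v) (swp I i j)
  ρ0 : 0 < ρ
  pt' : pt a (swp I i j) = pt a I - ρ • du a I i

/-- number of bases visited when the weight `λ` of `m` runs over `(-L, L)` (release of `m`) -/
noncomputable def N1 {n d : ℕ} (a : Con n d) (T : Finset (Fin n)) (m : Fin n) (L : ℝ)
    (w : Wt n) : ℕ :=
  (VS a T (Function.update w m 0) (Pi.single m (-1)) (-L) L).card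

/-- number of bases visited when the weights change from `w` to `w'` -/
noncomputable def N2 {n d : ℕ} (a : Con n d) (T : Finset (Fin n)) (w w' : Wt n) : ℕ :=
  (VS a T w (w' - w) 0 1).card

/-- cubes of weights -/
def cube (n : ℕ) (t : ℝ) : Set (Wt n) := Set.pi Set.univ (fun _ => Set.Icc (1 - t) (2 + t))

/-- the uniform measure on the weights `[1, 2]^n` -/
noncomputable def uW (n : ℕ) : Measure (Wt n) := volume.restrict (cube n 0)

/-- noise of size `δ` in direction `u` on the rows outside of `S` -/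
noncomputable def nz {n d : ℕ} (a : Con n d) (S : Finset (Fin n)) (u : Fin d → ℝ) (δ : ℝ)
    (q : Wt n) : Con n d :=
  fun i => if i ∈ S then a i else a i + (δ * (q i - 1)) • u

/-- the scaling factors of the noise with a radial part -/
noncomputable def gz {n : ℕ} (S : Finset (Fin n)) (υ δ : ℝ) (q : Wt n) : Wt n :=
  fun i => if i ∈ S then 1 else 1 - υ * (δ * (q i - 1))

/-- noise with a radial part -/
noncomputable def nzr {n d : ℕ} (a : Con n d) (S : Finset (Fin n)) (u : Fin d → ℝ) (υ δ : ℝ)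
    (q : Wt n) : Con n d :=
  fun i => (gz S υ δ q i)⁻¹ • nz a S u δ q i

/-- the row `m` is replaced by a parallel one, at distance `η` -/
noncomputable def sli {n d : ℕ} (a : Con n d) (m : Fin n) (η : ℝ) : Con n d :=
  Function.update a m ((1 - η)⁻¹ • a m)

/-- the face of `S` is fat and the rows of `S` are well conditioned -/
structure Deep {n d : ℕ} (a : Con n d) (S : Finset (Fin n)) (δ : ℝ) : Prop where
  pt : ∃ z : Fin d → ℝ, z ⬝ᵥ z ≤ (1 / δ) ^ 2 ∧ (∀ i ∈ S, a i ⬝ᵥ z = 1) ∧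
    ∀ i, i ∉ S → δ ≤ sl a i z ∧ sl a i z ≤ 1 / δ
  dir : ∀ m ∈ S, ∃ f : Fin d → ℝ, f ⬝ᵥ f ≤ (1 / δ) ^ 2 ∧ (∀ i ∈ S, i ≠ m → a i ⬝ᵥ f = 0) ∧
    a m ⬝ᵥ f = -1 ∧ ∀ i, i ∉ S → |a i ⬝ᵥ f| ≤ 1 / δ

/-- the height of the slices -/
noncomputable def et (δ : ℝ) : ℝ := δ ^ 2 / 16

/-- the range of the weight of the released row -/
noncomputable def Ld (n : ℕ) (δ : ℝ) : ℝ := 100 * n / δ ^ 3

/-- the length of the combined step: `S` to `S - m`, weights `w` to `w'` -/
noncomputable def NN {n d : ℕ} (a : Con n d) (S : Finset (Fin n)) (m : Fin n) (δ : ℝ)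
    (w w' : Wt n) : ℕ :=
  N1 a (S.erase m) m (Ld n δ) w + n ^ 2 * N2 (sli a m (et δ)) S w w' +
    N1 a (S.erase m) m (Ld n δ) w'

/-- weights pattern: `1` on `B`, `κ` elsewhere -/
noncomputable def kB {n : ℕ} (B : Finset (Fin n)) (κ : ℝ) : Wt n := fun i => if i ∈ B then 1 else κ

/-- the exceptional configurations of `S` (with a distinguished `m0 ∈ S`) -/
def BadS {n d : ℕ} (S : Finset (Fin n)) (m0 : Fin n) (δ : ℝ) (κ : Wt n) (t : ℕ) :
    Set (Con n d) :=
  {a | 3 / 8 ≤ uW n {w | ∀ m ∈ S.erase m0, 1 / 2 < uW n {w' | t < NN a S m δ (κ * w) w'}}}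

/-- the exceptional configurations of the last step -/
def BadL {n d : ℕ} (m : Fin n) (κ : ℝ) (t : ℕ) : Set (Con n d) :=
  {a | 3 / 8 ≤ uW n {w | 1 / 4 < uW n {w' | t < N2 a ∅ (kB {m} κ * w) w'}}}

/-- the noise of all releases of `S` together -/
noncomputable def mnz {n d : ℕ} (a : Con n d) (S : Finset (Fin n)) (m0 : Fin n) (ε : ℝ)
    (q : Fin n → Wt n) : Con n d :=
  fun i => if i ∈ S then a i else
    a i + ∑ m ∈ S.erase m0, (ε * (q m i - 1)) • (a m0 - a m)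

/-- the law of the constraint vectors -/
noncomputable def mu {n d : ℕ} (c : Con n d) (σ : ℝ) : Measure (Con n d) :=
  Measure.pi (fun i : Fin n =>
    Measure.pi (fun j : Fin d => gaussianReal (c i j) (Real.toNNReal (σ ^ 2))))

instance {n : ℕ} : IsProbabilityMeasure (uW n) := by
  refine ⟨?_⟩
  rw [uW, Measure.restrict_apply_univ, cube, volume_pi_pi]
  have h1 : ∀ _i : Fin n, volume (Set.Icc (1 - (0 : ℝ)) (2 + 0)) = 1 := by
    intro _
    rw [Real.volume_Icc]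
    norm_num
  rw [Finset.prod_congr rfl fun i _ => h1 i, Finset.prod_const_one]

instance {n d : ℕ} (c : Con n d) (σ : ℝ) : IsProbabilityMeasure (mu c σ) := by
  unfold mu
  infer_instance

end Pool.Agent.H.MP_0cad2f_co.NT
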