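import Pool.Agent.H.MP_0cad2f_co.NT.Lp

/-!
From chains of bases to the edge graph.

`edist_le_of_ch`: induction over `Ch a ∅ k I J`; one step `I`, `swp I i j` (both feasible): the two vertices are different (`i` is
tight at the first, not at the second, by `Reg0`), the common tight rows are exactly `I.erase i` (`tight_iff`), of rank `d - 1`:
`SimpleGraph.fromRel_adj`. The file `Av/Graph.lean` (theorem `adj_swp`, `tight_iff`, `vx`) does this for a slightly different regularity
condition: copy it.

`exists_basis`: the set of the tight rows of a vertex spans; by `Reg0` it has exactly `d` elements (`vx_surjective` in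
`Av/Graph.lean`). `vx_eq`: if `B` is a set of `d` independent rows tight at `v` then `v = pt a B` (`pt_unique`), `Feas a B`.

`du_le_of_nonthin`: take `x = du a B b`: `∑ i ∈ B, (a i ⬝ᵥ x)^2 = 1`. The independence: if `∑ c i a i = 0` fails ...: a linear map
`x ↦ (a i ⬝ᵥ x)_{i ∈ B}` from `ℝ^d` to `B → ℝ` which is injective (by the inequality), so surjective, so the rows are independent.
-/

set_option autoImplicit false
open scoped Classical

namespace Pool.Agent.H.MP_0cad2f_co.NT

variable {n d : ℕ}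

/-- the vertices of `P` -/
abbrev Vert (a : Con n d) : Type :=
  {x : Fin d → ℝ // (∀ i, ∑ j, a i j * x j ≤ 1) ∧
    Submodule.span ℝ (a '' {i | ∑ j, a i j * x j = 1}) = ⊤}

/-- the edge graph of `P` -/
abbrev eg (a : Con n d) : SimpleGraph (Vert a) :=
  SimpleGraph.fromRel (fun u v : Vert a =>
    Module.finrank ℝ (Submodule.span ℝ
      (a '' {i | ∑ j, a i j * u.1 j = 1 ∧ ∑ j, a i j * v.1 j = 1})) = d - 1)

/-- `v` is the point of well conditioned tight rows: `|x|² ≤ G ∑ (a_i x)²` over `i ∈ B` -/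
def NonThin (a : Con n d) (G : ℝ) (v : Vert a) : Prop :=
  ∃ B : Finset (Fin n), B.card = d ∧ (∀ i ∈ B, ∑ j, a i j * v.1 j = 1) ∧
    ∀ x : Fin d → ℝ, ∑ j, x j ^ 2 ≤ G * ∑ i ∈ B, (∑ j, a i j * x j) ^ 2

/-- the vertex of a feasible basis -/
noncomputable def vx (a : Con n d) (I : Finset (Fin n)) (h : Feas a I) : Vert a :=
  ⟨pt a I, by
    refine ⟨fun i => ?_, ?_⟩
    · have := h.2 i
      rw [sl] at this
      show a i ⬝ᵥ pt a I ≤ 1
      linarith
    · rw [← top_le_iff, ← span_of_ind h.1]
      apply Submodule.span_mono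
      apply Set.image_mono
      intro i hi
      exact pt_dot h.1 (Finset.mem_coe.mp hi)⟩

theorem Trans_tight {a : Con n d} (hr : Reg0 a) {I : Finset (Fin n)} (hI : Feas a I) (i : Fin n) :
    ∑ j, a i j * pt a I j = 1 ↔ i ∈ I := by
  show a i ⬝ᵥ pt a I = 1 ↔ i ∈ I
  constructor
  · intro h
    by_contra hi
    apply (hr I hI.1.1).2 i hi
    rw [sl, h, sub_self]
  · intro hi
    exact pt_dot hI.1 hi

theorem Trans_adj {a : Con n d} (hr : Reg0 a) {I : Finset (Fin n)} (hI : Feas a I) {m j : Fin n}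
    (hm : m ∈ I) (hj : j ∉ I) (hI' : Feas a (swp I m j)) :
    (eg a).Adj (vx a I hI) (vx a (swp I m j) hI') := by
  have hmj : m ≠ j := fun h => hj (h ▸ hm)
  have hms : m ∉ swp I m j := by
    simp [swp, hmj]
  rw [SimpleGraph.fromRel_adj]
  refine ⟨fun h => hms ?_, Or.inl ?_⟩
  · have h1 : pt a I = pt a (swp I m j) := congrArg Subtype.val h
    have h2 := (Trans_tight hr hI m).mpr hm
    rw [h1] at h2
    exact (Trans_tight hr hI' m).mp h2
  · have hset : {i | ∑ j, a i j * (vx a I hI).1 j = 1 ∧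
        ∑ k, a i k * (vx a (swp I m j) hI').1 k = 1} = ((I.erase m : Finset (Fin n)) : Set (Fin n)) := by
      ext i
      show (∑ j, a i j * pt a I j = 1 ∧ ∑ k, a i k * pt a (swp I m j) k = 1) ↔ _
      rw [Trans_tight hr hI, Trans_tight hr hI']
      simp only [swp, Finset.mem_insert, Finset.mem_erase, Finset.mem_coe]
      constructor
      · rintro ⟨h1, h2 | h2⟩
        · exact absurd (h2 ▸ h1) hj
        · exact h2
      · rintro ⟨h1, h2⟩
        exact ⟨h2, Or.inr ⟨h1, h2⟩⟩
    rw [hset]
    have hli : LinearIndependent ℝ (fun i : (I.erase m : Finset (Fin n)) => a i) := by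
      have := hI.1.2.comp (fun i : (I.erase m : Finset (Fin n)) =>
        (⟨i.1, Finset.mem_of_mem_erase i.2⟩ : I)) (by
          intro x y hxy
          exact Subtype.ext (congrArg (fun z : I => (z : Fin n)) hxy))
      exact this
    have hrg : Set.range (fun i : (I.erase m : Finset (Fin n)) => a i) =
        a '' ((I.erase m : Finset (Fin n)) : Set (Fin n)) := by
      ext x
      simp only [Set.mem_range, Set.mem_image, Subtype.exists, Finset.mem_coe]
      constructor
      · rintro ⟨i, hi, rfl⟩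
        exact ⟨i, hi, rfl⟩
      · rintro ⟨i, hi, rfl⟩
        exact ⟨i, hi, rfl⟩
    rw [← hrg, finrank_span_eq_card hli, Fintype.card_coe, Finset.card_erase_of_mem hm, hI.1.1]

theorem Trans_feas {a : Con n d} {T : Finset (Fin n)} {k : ℕ} {I J : Finset (Fin n)}
    (h : Ch a T k I J) : Feas a I := by
  cases h with
  | refl k hT hI => exact hI
  | step hT hI hi hiT hj h => exact hI

theorem edist_le_of_ch {a : Con n d} (hr : Reg0 a) (hd : 1 ≤ d) {k : ℕ} {I J : Finset (Fin n)}
    (h : Ch a ∅ k I J) (hI : Feas a I) (hJ : Feas a J) :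
    (eg a).edist (vx a I hI) (vx a J hJ) ≤ k := by
  induction h with
  | refl k hT hI' =>
    rw [SimpleGraph.edist_self]
    exact zero_le
  | @step k I J i j hT hI' hi hiT hj h ih =>
    have hS := Trans_feas h
    have h1 := SimpleGraph.edist_eq_one_iff_adj.2 (Trans_adj hr hI hi hj hS)
    refine (SimpleGraph.edist_triangle (v := vx a (swp I i j) hS)).trans ?_
    rw [h1]
    push_cast
    rw [add_comm]
    exact add_le_add (ih hS hJ) le_rfl

theorem exists_basis {a : Con n d} (hr : Reg0 a) (v : Vert a) :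
    ∃ I, ∃ h : Feas a I, vx a I h = v := by
  obtain ⟨x, hx, hs⟩ := v
  obtain ⟨S, hS⟩ : ∃ S : Finset (Fin n),
      S = Finset.univ.filter (fun i => ∑ j, a i j * x j = 1) := ⟨_, rfl⟩
  have hSc : {i | ∑ j, a i j * x j = 1} = (S : Set (Fin n)) := by
    ext i
    simp [hS]
  have hcard : d ≤ S.card := by
    have h1 : Module.finrank ℝ (Submodule.span ℝ (a '' (S : Set (Fin n)))) = d := by
      rw [← hSc, hs, finrank_top, Module.finrank_fin_fun]
    have h2 : Module.finrank ℝ (Submodule.span ℝ ((S.image a : Finset (Fin d → ℝ)) : Set (Fin d → ℝ)))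
        ≤ (S.image a).card := finrank_span_finset_le_card _
    rw [Finset.coe_image, h1] at h2
    exact h2.trans Finset.card_image_le
  obtain ⟨J, hJS, hJ⟩ := Finset.exists_subset_card_eq hcard
  have hInd : Ind a J := (hr J hJ).1
  have hxp : x = pt a J := by
    apply pt_unique hInd
    intro i hi
    have := hJS hi
    rw [hS, Finset.mem_filter] at this
    exact this.2
  have hF : Feas a J := by
    refine ⟨hInd, fun i => ?_⟩
    have h3 : a i ⬝ᵥ x ≤ 1 := hx i
    rw [sl, ← hxp]
    linarith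
  exact ⟨J, hF, Subtype.ext hxp.symm⟩

theorem nonthin_basis {a : Con n d} {G : ℝ} (hG : 0 ≤ G) {v : Vert a} (h : NonThin a G v) :
    ∃ B, ∃ hB : Feas a B, vx a B hB = v ∧ ∀ b ∈ B, du a B b ⬝ᵥ du a B b ≤ G := by
  obtain ⟨B, hB, ht, hx⟩ := h
  have hinj : Function.Injective (Matrix.mulVecLin (fun (i : B) j => a i j : Matrix B (Fin d) ℝ)) := by
    rw [← LinearMap.ker_eq_bot, LinearMap.ker_eq_bot']
    intro x h0
    have h1 := hx x
    have h2 : ∑ i ∈ B, (∑ j, a i j * x j) ^ 2 = 0 := by
      refine Finset.sum_eq_zero fun i hi => ?_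
      have h3 : ∑ j, a i j * x j = 0 := congrFun h0 ⟨i, hi⟩
      rw [h3]
      norm_num
    rw [h2, mul_zero] at h1
    have h4 : x ⬝ᵥ x = 0 := by
      refine le_antisymm ?_ ?_
      · refine le_trans (le_of_eq ?_) h1
        exact Finset.sum_congr rfl fun j _ => (sq (x j)).symm
      · exact Finset.sum_nonneg fun j _ => mul_self_nonneg (x j)
    exact dotProduct_self_eq_zero.1 h4
  have hfin : Module.finrank ℝ (Fin d → ℝ) = Module.finrank ℝ (B → ℝ) := by
    rw [Module.finrank_fin_fun, Module.finrank_fintype_fun_eq_card, Fintype.card_coe, hB]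
  have hsurj := (LinearMap.injective_iff_surjective_of_finrank_eq_finrank hfin).1 hinj
  have hex : ∀ m : Fin n, ∃ e : Fin d → ℝ, ∀ i ∈ B, a i ⬝ᵥ e = if i = m then 1 else 0 := by
    intro m
    obtain ⟨e, he⟩ := hsurj (fun i : B => if (i : Fin n) = m then 1 else 0)
    exact ⟨e, fun i hi => congrFun he ⟨i, hi⟩⟩
  choose e he using hex
  have hI : Ind a B := ind_of_dual hB e fun i hi m _ => he m i hi
  have hp : v.1 = pt a B := pt_unique hI fun i hi => ht i hi
  have hF : Feas a B := by
    refine ⟨hI, fun i => ?_⟩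
    have h3 : a i ⬝ᵥ v.1 ≤ 1 := v.2.1 i
    rw [sl, ← hp]
    linarith
  refine ⟨B, hF, Subtype.ext hp.symm, fun b hb => ?_⟩
  have h1 := hx (du a B b)
  have h2 : ∑ i ∈ B, (∑ j, a i j * du a B b j) ^ 2 = 1 := by
    rw [Finset.sum_eq_single b]
    · have h3 : ∑ j, a b j * du a B b j = 1 := du_self hI hb
      rw [h3]
      norm_num
    · intro i hi hib
      have h3 : ∑ j, a i j * du a B b j = 0 := du_ne hI hi hb hib
      rw [h3]
      norm_num
    · intro h'
      exact absurd hb h'
  rw [h2, mul_one] at h1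
  refine le_trans (le_of_eq ?_) h1
  exact Finset.sum_congr rfl fun j _ => (sq (du a B b j)).symm

end Pool.Agent.H.MP_0cad2f_co.NT
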