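import Pool.Agent.H.MP_0cad2f_co.NT.Chain
import Pool.Agent.H.MP_0cad2f_co.NT.Trans

/-!
Distance of the non-thin vertices at a good level.

`fat_start` with `R = 2 d`, gives `S0 ⊆ B` and `Deep a S0 δ0`, `δ0 = θ/(16 d³ R² Ξ²)`; `Deep.sub` and `Deep.mono`: `Deep a S δ` for all
`S ⊆ S0` (`δ ≤ δ0²/(4 n)`: hypothesis `hδ0`; note `δ0 ≤ 1`). `start_opt`, `chain`; then `chain2`.
-/

set_option autoImplicit false
open MeasureTheory ProbabilityTheory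
open scoped ENNReal Classical

namespace Pool.Agent.H.MP_0cad2f_co.NT

variable {n d : ℕ} {a : Con n d} {δ κ θ Ξ : ℝ} {t : ℕ}

theorem dist_good (hg : GoodT a δ κ t) (hd : 8 ≤ d) (hn : 2 ≤ n) (hδ : 0 < δ) (hδ1 : δ ≤ 1)
    (hκ : 0 < κ) (hκ0 : κ ≤ 1) (hκ1 : κ * Ld n δ ≤ 1) (hκ2 : 4 * n * (2 * d) * Ξ * κ ≤ 1)
    (hΞ : 1 ≤ Ξ) (hθ : 0 < θ) (hθ1 : θ ≤ 1 / 2)
    (hδ0 : δ ≤ (θ / (16 * d ^ 3 * (2 * d) ^ 2 * Ξ ^ 2)) ^ 2 / (4 * n)) (hb : Bdd (2 * d) a)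
    (hN : ∀ B, Feas a B →
      (Finset.univ.filter fun i => i ∉ B ∧ sl a i (pt a B) < θ).card ≤ d / 4)
    {G : ℝ} (hG : 0 ≤ G) (hG1 : G ≤ Ξ ^ 2) (u v : Vert a) (hu : NonThin a G u)
    (hv : NonThin a G v) : (eg a).edist u v ≤ (4 * t * d : ℕ) := by
  have hd1 : (1 : ℝ) ≤ d := by
    have h : 1 ≤ d := by omega
    exact_mod_cast h
  have hR : (1 : ℝ) ≤ 2 * d := by linarith
  have hn1 : 1 ≤ n := by omega
  have hden : (1 : ℝ) ≤ 16 * d ^ 3 * (2 * d) ^ 2 * Ξ ^ 2 := by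
    have h1 : (1 : ℝ) ≤ (d : ℝ) ^ 3 := one_le_pow₀ hd1
    have h2 : (1 : ℝ) ≤ (2 * (d : ℝ)) ^ 2 := one_le_pow₀ hR
    have h3 : (1 : ℝ) ≤ Ξ ^ 2 := one_le_pow₀ hΞ
    have h4 : (1 : ℝ) ≤ 16 * (d : ℝ) ^ 3 := by linarith
    exact one_le_mul_of_one_le_of_one_le (one_le_mul_of_one_le_of_one_le h4 h2) h3
  obtain ⟨δ0, hδ0'⟩ : ∃ δ0 : ℝ, δ0 = θ / (16 * d ^ 3 * (2 * d) ^ 2 * Ξ ^ 2) := ⟨_, rfl⟩
  have h0 : 0 < δ0 := by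
    rw [hδ0']
    exact div_pos hθ (by linarith)
  have h1 : δ0 ≤ 1 := by
    rw [hδ0']
    exact (div_le_one (by linarith)).2 (by linarith)
  rw [← hδ0'] at hδ0
  have key : ∀ u : Vert a, NonThin a G u → ∃ B, ∃ hB : Feas a B, vx a B hB = u ∧
      MeasurableSet {w' : Wt n | ∀ J, Opt a ∅ w' J → Ch a ∅ (2 * t * d) B J} ∧
      3 / 4 ≤ uW n {w' | ∀ J, Opt a ∅ w' J → Ch a ∅ (2 * t * d) B J} := by
    intro u hu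
    obtain ⟨B, hB, hBu, hdu⟩ := nonthin_basis hG hu
    have hdu' : ∀ b ∈ B, du a B b ⬝ᵥ du a B b ≤ Ξ ^ 2 := fun b hb => (hdu b hb).trans hG1
    obtain ⟨S, hS, hc, hD⟩ := fat_start hd hR hΞ hθ hθ1 hb hB hdu' (hN B hB)
    rw [← hδ0'] at hD
    have hD' : ∀ S' ⊆ S, S'.Nonempty → Deep a S' δ := fun S' hS' _ =>
      (hD.sub hS' hn1 h0 h1).mono hδ hδ0
    have ho : ∀ w ∈ cube n 0, Opt a S (kB B κ * w) B := fun w hw =>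
      start_opt hn1 hR hΞ hb hB hdu' hS hκ hκ2 hw
    exact ⟨B, hB, hBu, chain hg hd hn hδ hδ1 hκ hκ0 hκ1 hB hS hc hD' ho⟩
  obtain ⟨B, hB, hBu, hm, hq⟩ := key u hu
  obtain ⟨B', hB', hBv, hm', hq'⟩ := key v hv
  have h2 := chain2 hg.reg hm hq hm' hq' hB
  have h3 := edist_le_of_ch hg.reg (by omega : 1 ≤ d) h2 hB hB'
  rw [hBu, hBv] at h3
  have h4 : 2 * (2 * t * d) = 4 * t * d := by ring
  rwa [h4] at h3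

end Pool.Agent.H.MP_0cad2f_co.NT
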