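import Pool.Agent.H.MP_0cad2f_co.NT.Dec
import Pool.Agent.H.MP_0cad2f_co.helper11.Law

/-!
Few nearly tight rows (Lemma 7.1 of the text).

For `B`, `N` disjoint, `B.card = d`, `N.card = d/4 + 1 =: q`: conditionally on the rows of `B` (so `x = pt a B` is fixed, `Ind a B`,
`1 = a k ⬝ᵥ x ≤ R |x|`, `|x| ≥ 1/R`; `d ≥ 1`) the slacks `1 - a i ⬝ᵥ x`, `i ∈ N`, are independent Gaussians with variance `σ² |x|²`, so
each is in `[0, θ)` with probability at most `θ/(σ |x| √(2π)) ≤ θ R/σ`. Fubini (`Measure.pi` split, or `lintegral_pi_update` in `Upd`, one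
row after the other). There are at most `n ^ d * n ^ q` pairs, `(n^d n^q) (θ R/σ)^q ≤ (n^5 θ R/σ)^q ≤ n^(-5 q) ≤ n^(-d)`
(`d < 4 q`, `θ R/σ ≤ n^(-10)`).
-/

set_option autoImplicit false
open MeasureTheory ProbabilityTheory
open scoped ENNReal Classical

namespace Pool.Agent.H.MP_0cad2f_co.NT

variable {n d : ℕ} {c : Con n d} {σ R θ : ℝ}

private theorem near_coe_var (σ : ℝ) : ((Real.toNNReal (σ ^ 2) : NNReal) : ℝ) = σ ^ 2 :=
  Real.coe_toNNReal _ (sq_nonneg σ)

private theorem near_var_ne {σ : ℝ} (hσ : 0 < σ) : Real.toNNReal (σ ^ 2) ≠ 0 := by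
  rw [Ne, Real.toNNReal_eq_zero, not_le]
  positivity

private theorem near_subg (m σ : ℝ) :
    HasSubgaussianMGF (fun x : ℝ => x - m) (Real.toNNReal (σ ^ 2))
      (gaussianReal m (Real.toNNReal (σ ^ 2))) := by
  constructor
  · intro t
    have h := (integrable_exp_mul_gaussianReal (μ := m) (v := Real.toNNReal (σ ^ 2)) t).const_mul
      (Real.exp (-(t * m)))
    refine h.congr (Filter.Eventually.of_forall fun x => ?_)
    show Real.exp (-(t * m)) * Real.exp (t * x) = Real.exp (t * (x - m))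
    rw [← Real.exp_add]
    congr 1
    ring
  · intro t
    have h := gaussianReal_map_sub_const (μ := m) (v := Real.toNNReal (σ ^ 2)) m
    rw [sub_self] at h
    rw [mgf_gaussianReal h t, zero_mul, zero_add]

/-- one-dimensional tail -/
private theorem near_tail {m σ t : ℝ} (ht : 0 ≤ t) :
    gaussianReal m (Real.toNNReal (σ ^ 2)) {x | t < |x - m|} ≤
      ENNReal.ofReal (2 * Real.exp (-(t ^ 2) / (2 * σ ^ 2))) := by
  have h1 := (near_subg m σ).measure_ge_le ht
  have h2 := (near_subg m σ).neg.measure_ge_le ht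
  rw [near_coe_var] at h1 h2
  have hsub : {x : ℝ | t < |x - m|} ⊆ {x | t ≤ x - m} ∪ {x | t ≤ (-(fun x : ℝ => x - m)) x} := by
    intro x hx
    rcases lt_abs.mp (show t < |x - m| from hx) with h | h
    · exact Or.inl h.le
    · exact Or.inr h.le
  refine (measure_mono hsub).trans ((measure_union_le _ _).trans ?_)
  rw [two_mul, ENNReal.ofReal_add (Real.exp_nonneg _) (Real.exp_nonneg _)]
  refine add_le_add ?_ ?_
  · rw [← ofReal_measureReal (h := measure_ne_top _ _)]
    exact ENNReal.ofReal_le_ofReal h1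
  · rw [← ofReal_measureReal (h := measure_ne_top _ _)]
    exact ENNReal.ofReal_le_ofReal h2

/-- one-dimensional interval -/
private theorem near_interval {m σ u h : ℝ} (hσ : 0 < σ) (_hh : 0 ≤ h) :
    gaussianReal m (Real.toNNReal (σ ^ 2)) {x | |x - u| ≤ h} ≤ ENNReal.ofReal (h / σ) := by
  rw [gaussianReal_apply m (near_var_ne hσ)]
  have hset : {x : ℝ | |x - u| ≤ h} = Set.Icc (u - h) (u + h) := by
    ext x
    rw [Set.mem_ofPred_eq, abs_le, Set.mem_Icc]
    constructor
    · rintro ⟨h1, h2⟩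
      constructor <;> linarith
    · rintro ⟨h1, h2⟩
      constructor <;> linarith
  have hpdf : ∀ x : ℝ, gaussianPDF m (Real.toNNReal (σ ^ 2)) x ≤ ENNReal.ofReal (1 / (2 * σ)) := by
    intro x
    rw [gaussianPDF]
    apply ENNReal.ofReal_le_ofReal
    rw [gaussianPDFReal, near_coe_var]
    have hs : 2 * σ ≤ √(2 * Real.pi * σ ^ 2) := by
      apply Real.le_sqrt_of_sq_le
      have := Real.pi_gt_three
      nlinarith [sq_nonneg σ]
    have hpos : 0 < √(2 * Real.pi * σ ^ 2) := by positivity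
    have he : Real.exp (-(x - m) ^ 2 / (2 * σ ^ 2)) ≤ 1 := by
      rw [Real.exp_le_one_iff]
      apply div_nonpos_of_nonpos_of_nonneg
      · linarith [sq_nonneg (x - m)]
      · positivity
    calc (√(2 * Real.pi * σ ^ 2))⁻¹ * Real.exp (-(x - m) ^ 2 / (2 * σ ^ 2))
        ≤ (√(2 * Real.pi * σ ^ 2))⁻¹ * 1 :=
          mul_le_mul_of_nonneg_left he (inv_nonneg.mpr hpos.le)
      _ = (√(2 * Real.pi * σ ^ 2))⁻¹ := mul_one _
      _ ≤ (2 * σ)⁻¹ := by
          apply inv_anti₀ (by positivity) hs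
      _ = 1 / (2 * σ) := by rw [one_div]
  rw [hset]
  calc ∫⁻ x in Set.Icc (u - h) (u + h), gaussianPDF m (Real.toNNReal (σ ^ 2)) x
      ≤ ∫⁻ _ in Set.Icc (u - h) (u + h), ENNReal.ofReal (1 / (2 * σ)) :=
        lintegral_mono fun x => hpdf x
    _ = ENNReal.ofReal (1 / (2 * σ)) * volume (Set.Icc (u - h) (u + h)) := by
        rw [setLIntegral_const]
    _ = ENNReal.ofReal (h / σ) := by
        rw [Real.volume_Icc, ← ENNReal.ofReal_mul (by positivity)]
        congr 1
        field_simp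
        ring

/-- the probability that the slack of a row at `x` is in `[0, θ)` -/
private theorem near_slab {b : Fin d → ℝ} (hσ : 0 < σ) (hR : 0 < R) (hθ : 0 < θ)
    {x : Fin d → ℝ} (hx : 1 ≤ R ^ 2 * (x ⬝ᵥ x)) :
    Measure.pi (fun j : Fin d => gaussianReal (b j) (Real.toNNReal (σ ^ 2)))
      {y | 0 ≤ 1 - y ⬝ᵥ x ∧ 1 - y ⬝ᵥ x < θ} ≤ ENNReal.ofReal (θ * R / σ) := by
  have hxx : 0 ≤ x ⬝ᵥ x := Finset.sum_nonneg fun j _ => mul_self_nonneg _
  obtain ⟨s, hs, hs0⟩ : ∃ s : ℝ, s ^ 2 = x ⬝ᵥ x ∧ 0 ≤ s :=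
    ⟨Real.sqrt (x ⬝ᵥ x), Real.sq_sqrt hxx, Real.sqrt_nonneg _⟩
  have hRs : 1 ≤ R * s := by
    rw [← hs, ← mul_pow] at hx
    nlinarith [mul_nonneg hR.le hs0]
  have hspos : 0 < s := by
    rcases hs0.lt_or_eq with h | h
    · exact h
    · rw [← h, mul_zero] at hRs
      linarith
  have hmeas : Measurable (fun y : Fin d → ℝ => ∑ j, y j * x j) := by fun_prop
  have hms : MeasurableSet {t : ℝ | |t - (1 - θ / 2)| ≤ θ / 2} :=
    measurableSet_le ((measurable_id.sub_const _).abs) measurable_const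
  have h1 : {y : Fin d → ℝ | 0 ≤ 1 - y ⬝ᵥ x ∧ 1 - y ⬝ᵥ x < θ} ⊆
      (fun y : Fin d → ℝ => ∑ j, y j * x j) ⁻¹' {t : ℝ | |t - (1 - θ / 2)| ≤ θ / 2} := by
    rintro y ⟨hy1, hy2⟩
    show |y ⬝ᵥ x - (1 - θ / 2)| ≤ θ / 2
    rw [abs_le]
    constructor <;> linarith
  refine (measure_mono h1).trans ?_
  rw [← Measure.map_apply hmeas hms, helper11.law]
  have h2 : Real.toNNReal (σ ^ 2) * helper11.nsq x = Real.toNNReal ((σ * s) ^ 2) := by
    rw [mul_pow, Real.toNNReal_mul (sq_nonneg σ), hs]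
    congr 1
    unfold helper11.nsq dotProduct
    congr 1
    exact Finset.sum_congr rfl fun j _ => by ring
  rw [h2]
  refine (near_interval (mul_pos hσ hspos) (by positivity)).trans (ENNReal.ofReal_le_ofReal ?_)
  rw [div_le_div_iff₀ (mul_pos hσ hspos) hσ]
  have h3 : θ * 1 ≤ θ * (R * s) := mul_le_mul_of_nonneg_left hRs hθ.le
  have h4 : θ * 1 * σ ≤ θ * (R * s) * σ := mul_le_mul_of_nonneg_right h3 hσ.le
  have h5 : 0 < θ * σ := mul_pos hθ hσ
  linarith

private theorem near_pt_upd {B : Finset (Fin n)} {i : Fin n} (hi : i ∉ B) (a : Con n d)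
    (y : Fin d → ℝ) : pt (Function.update a i y) B = pt a B := by
  refine pt_congr fun k hk => ?_
  have hki : k ≠ i := fun h => hi (h ▸ hk)
  exact Function.update_of_ne hki _ _

/-- the set without the boundedness of the rows -/
private def nearSet (B : Finset (Fin n)) (R θ : ℝ) (S : Finset (Fin n)) : Set (Con n d) :=
  {a | 1 ≤ R ^ 2 * (pt a B ⬝ᵥ pt a B) ∧
    ∀ i ∈ S, 0 ≤ 1 - a i ⬝ᵥ pt a B ∧ 1 - a i ⬝ᵥ pt a B < θ}

private theorem nearSet_meas (B : Finset (Fin n)) (R θ : ℝ) (S : Finset (Fin n)) :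
    MeasurableSet (nearSet B R θ S : Set (Con n d)) := by
  have hp := measurable_pt (n := n) (d := d) B
  unfold nearSet
  refine MeasurableSet.inter ?_ ?_
  · exact measurableSet_le measurable_const (measurable_const.mul (measurable_dot hp hp))
  · have h1 : {a : Con n d | ∀ i ∈ S, 0 ≤ 1 - a i ⬝ᵥ pt a B ∧ 1 - a i ⬝ᵥ pt a B < θ} =
        ⋂ i ∈ S, {a : Con n d | 0 ≤ 1 - a i ⬝ᵥ pt a B ∧ 1 - a i ⬝ᵥ pt a B < θ} := by
      ext a
      simp only [Set.mem_ofPred_eq, Set.mem_iInter]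
    have h2 : MeasurableSet
        {a : Con n d | ∀ i ∈ S, 0 ≤ 1 - a i ⬝ᵥ pt a B ∧ 1 - a i ⬝ᵥ pt a B < θ} := by
      rw [h1]
      refine Finset.measurableSet_biInter S fun i _ => ?_
      have h3 : Measurable fun a : Con n d => 1 - a i ⬝ᵥ pt a B :=
        measurable_const.sub (measurable_dot (measurable_pi_apply i) hp)
      exact (measurableSet_le measurable_const h3).inter (measurableSet_lt h3 measurable_const)
    exact h2

private theorem near_ind (hσ : 0 < σ) (hR : 0 < R) (hθ : 0 < θ) (B S : Finset (Fin n))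
    (hS : ∀ i ∈ S, i ∉ B) :
    mu c σ (nearSet B R θ S) ≤ ENNReal.ofReal ((θ * R / σ) ^ S.card) := by
  induction S using Finset.induction_on with
  | empty =>
    rw [Finset.card_empty, pow_zero, ENNReal.ofReal_one]
    exact prob_le_one
  | insert i S hi ih =>
    have ih' := ih fun j hj => hS j (Finset.mem_insert_of_mem hj)
    have hiB := hS i (Finset.mem_insert_self i S)
    have hq : 0 ≤ θ * R / σ := by positivity
    rw [Finset.card_insert_of_notMem hi, pow_succ, ENNReal.ofReal_mul (pow_nonneg hq _)]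
    have hm := nearSet_meas (n := n) (d := d) B R θ (insert i S)
    have hm0 := nearSet_meas (n := n) (d := d) B R θ S
    have hmi : Measurable ((nearSet B R θ (insert i S) : Set (Con n d)).indicator
        (fun _ => (1 : ℝ≥0∞))) := measurable_const.indicator hm
    have hmi0 : Measurable ((nearSet B R θ S : Set (Con n d)).indicator
        (fun _ => (1 : ℝ≥0∞))) := measurable_const.indicator hm0
    have h2 : mu c σ (nearSet B R θ (insert i S)) =
        ∫⁻ a, (nearSet B R θ (insert i S)).indicator (fun _ => (1 : ℝ≥0∞)) a ∂(mu c σ) := by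
      rw [lintegral_indicator hm, lintegral_const, one_mul, Measure.restrict_apply_univ]
    have h3 : mu c σ (nearSet B R θ S) =
        ∫⁻ a, (nearSet B R θ S).indicator (fun _ => (1 : ℝ≥0∞)) a ∂(mu c σ) := by
      rw [lintegral_indicator hm0, lintegral_const, one_mul, Measure.restrict_apply_univ]
    have h4 := lintegral_pi_update (X := fun _ : Fin n => Fin d → ℝ) (fun i : Fin n =>
      Measure.pi (fun j : Fin d => gaussianReal (c i j) (Real.toNNReal (σ ^ 2)))) i _ hmi
      measure_univ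
    rw [h2]
    have h5 : ∫⁻ a, (nearSet B R θ (insert i S)).indicator (fun _ => (1 : ℝ≥0∞)) a ∂(mu c σ) =
        ∫⁻ a, ∫⁻ y, (nearSet B R θ (insert i S)).indicator (fun _ => (1 : ℝ≥0∞))
          (Function.update a i y) ∂(Measure.pi (fun j : Fin d =>
            gaussianReal (c i j) (Real.toNNReal (σ ^ 2)))) ∂(mu c σ) := h4
    rw [h5]
    refine le_trans ?_ (mul_le_mul' (h3 ▸ ih') le_rfl)
    rw [← lintegral_mul_const _ hmi0]
    refine lintegral_mono fun a => ?_
    by_cases ha : a ∈ (nearSet B R θ S : Set (Con n d))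
    · rw [Set.indicator_of_mem ha, one_mul]
      have h6 : (fun y : Fin d → ℝ => (nearSet B R θ (insert i S)).indicator
          (fun _ => (1 : ℝ≥0∞)) (Function.update a i y)) =
          {y : Fin d → ℝ | Function.update a i y ∈ nearSet B R θ (insert i S)}.indicator
            (fun _ => (1 : ℝ≥0∞)) := rfl
      have hmu : MeasurableSet
          {y : Fin d → ℝ | Function.update a i y ∈ nearSet B R θ (insert i S)} :=
        measurable_update a hm
      rw [h6, lintegral_indicator hmu, lintegral_const, one_mul, Measure.restrict_apply_univ]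
      refine (measure_mono fun y hy => ?_).trans (near_slab hσ hR hθ ha.1)
      have h7 := (hy : Function.update a i y ∈ nearSet B R θ (insert i S)).2 i
        (Finset.mem_insert_self i S)
      rw [near_pt_upd hiB, Function.update_self] at h7
      exact h7
    · rw [Set.indicator_of_notMem ha, zero_mul]
      have h6 : ∀ y : Fin d → ℝ, (nearSet B R θ (insert i S)).indicator
          (fun _ => (1 : ℝ≥0∞)) (Function.update a i y) = 0 := by
        intro y
        refine Set.indicator_of_notMem (fun hy => ha ?_) _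
        refine ⟨?_, fun j hj => ?_⟩
        · have h7 := hy.1
          rwa [near_pt_upd hiB] at h7
        · have h7 := hy.2 j (Finset.mem_insert_of_mem hj)
          have hji : j ≠ i := fun h => hi (h ▸ hj)
          rwa [near_pt_upd hiB, Function.update_of_ne hji] at h7
      rw [lintegral_congr h6, lintegral_zero]

private theorem near_cs (x y : Fin d → ℝ) : (x ⬝ᵥ y) ^ 2 ≤ (x ⬝ᵥ x) * (y ⬝ᵥ y) := by
  have := Finset.sum_mul_sq_le_sq_mul_sq Finset.univ x y
  simpa [dotProduct, sq] using this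

theorem near_row (hσ : 0 < σ) {B : Finset (Fin n)} (hB : B.card = d) (hd : 1 ≤ d)
    (N : Finset (Fin n)) (hN : Disjoint B N) (hR : 1 ≤ R) (hθ : 0 < θ) :
    mu c σ {a | Bdd R a ∧ Ind a B ∧ ∀ i ∈ N, 0 ≤ sl a i (pt a B) ∧ sl a i (pt a B) < θ} ≤
      ENNReal.ofReal ((θ * R / σ) ^ N.card) := by
  refine (measure_mono ?_).trans (near_ind (c := c) hσ (by linarith) hθ B N
    fun i hi hiB => Finset.disjoint_left.1 hN hiB hi)
  rintro a ⟨ha1, ha2, ha3⟩
  refine ⟨?_, ha3⟩
  obtain ⟨k, hk⟩ : B.Nonempty := by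
    rw [← Finset.card_pos, hB]
    omega
  have h1 := near_cs (a k) (pt a B)
  rw [pt_dot ha2 hk, one_pow] at h1
  have h2 : 0 ≤ pt a B ⬝ᵥ pt a B := Finset.sum_nonneg fun j _ => mul_self_nonneg _
  exact h1.trans (mul_le_mul_of_nonneg_right (ha1 k) h2)

theorem near_prob (hσ : 0 < σ) (hn : 2 ≤ n) (hd : 1 ≤ d) (hR : 1 ≤ R) (hθ : 0 < θ)
    (h : θ * R * n ^ 10 ≤ σ) :
    mu c σ {a | Bdd R a ∧ ∃ B, Feas a B ∧
        d / 4 < (Finset.univ.filter fun i => i ∉ B ∧ sl a i (pt a B) < θ).card} ≤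
      ENNReal.ofReal (1 / (n : ℝ) ^ d) := by
  obtain ⟨q, hq⟩ : ∃ q : ℕ, q = d / 4 + 1 := ⟨_, rfl⟩
  have hn0 : (0 : ℝ) < n := by
    have : 0 < n := by omega
    exact_mod_cast this
  let E : Finset (Fin n) × Finset (Fin n) → Set (Con n d) := fun p =>
    {a | Disjoint p.1 p.2 ∧ Bdd R a ∧ Ind a p.1 ∧
      ∀ i ∈ p.2, 0 ≤ sl a i (pt a p.1) ∧ sl a i (pt a p.1) < θ}
  let P : Finset (Finset (Fin n) × Finset (Fin n)) :=
    (Finset.powersetCard d Finset.univ) ×ˢ (Finset.powersetCard q Finset.univ)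
  have hsub : {a : Con n d | Bdd R a ∧ ∃ B, Feas a B ∧
        d / 4 < (Finset.univ.filter fun i => i ∉ B ∧ sl a i (pt a B) < θ).card} ⊆
      ⋃ p ∈ P, E p := by
    rintro a ⟨ha1, B, hB, hc⟩
    obtain ⟨N, hN1, hN2⟩ := Finset.exists_subset_card_eq (show q ≤ (Finset.univ.filter
      fun i => i ∉ B ∧ sl a i (pt a B) < θ).card by omega)
    refine Set.mem_biUnion (x := (B, N)) ?_ ⟨?_, ha1, hB.1, fun i hi => ⟨hB.2 i, ?_⟩⟩
    · exact Finset.mem_coe.2 (Finset.mem_product.2
        ⟨Finset.mem_powersetCard.2 ⟨Finset.subset_univ _, hB.1.1⟩,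
          Finset.mem_powersetCard.2 ⟨Finset.subset_univ _, hN2⟩⟩)
    · exact Finset.disjoint_left.2 fun i hiB hiN => (Finset.mem_filter.1 (hN1 hiN)).2.1 hiB
    · exact (Finset.mem_filter.1 (hN1 hi)).2.2
  have hE : ∀ p ∈ P, mu c σ (E p) ≤ ENNReal.ofReal ((θ * R / σ) ^ q) := by
    rintro ⟨B, N⟩ hp
    obtain ⟨hp1, hp2⟩ := Finset.mem_product.1 hp
    have hB : B.card = d := (Finset.mem_powersetCard.1 hp1).2
    have hN : N.card = q := (Finset.mem_powersetCard.1 hp2).2
    by_cases hdis : Disjoint B N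
    · have h1 := near_row (c := c) hσ hB hd N hdis hR hθ
      rw [hN] at h1
      exact (measure_mono fun a ha => ha.2).trans h1
    · have h1 : E (B, N) = ∅ := by
        rw [Set.eq_empty_iff_forall_notMem]
        rintro a ⟨ha, _⟩
        exact hdis ha
      rw [h1, measure_empty]
      exact zero_le
  have hP : (P.card : ℝ) ≤ (n : ℝ) ^ d * (n : ℝ) ^ q := by
    have h1 : P.card ≤ n ^ d * n ^ q := by
      rw [Finset.card_product, Finset.card_powersetCard, Finset.card_powersetCard,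
        Finset.card_univ, Fintype.card_fin]
      exact Nat.mul_le_mul (Nat.choose_le_pow n d) (Nat.choose_le_pow n q)
    exact_mod_cast h1
  refine (measure_mono hsub).trans ((measure_biUnion_finset_le _ _).trans
    ((Finset.sum_le_sum hE).trans ?_))
  rw [Finset.sum_const, nsmul_eq_mul, ← ENNReal.ofReal_natCast, ← ENNReal.ofReal_mul
    (Nat.cast_nonneg _)]
  apply ENNReal.ofReal_le_ofReal
  have hr0 : 0 ≤ θ * R / σ := by
    have : 0 < R := by linarith
    positivity
  have hr : θ * R / σ ≤ 1 / (n : ℝ) ^ 10 := by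
    rw [div_le_div_iff₀ hσ (by positivity)]
    linarith
  have hrq : (θ * R / σ) ^ q ≤ (1 / (n : ℝ) ^ 10) ^ q := pow_le_pow_left₀ hr0 hr q
  calc (P.card : ℝ) * (θ * R / σ) ^ q
      ≤ ((n : ℝ) ^ d * (n : ℝ) ^ q) * (1 / (n : ℝ) ^ 10) ^ q :=
        mul_le_mul hP hrq (pow_nonneg hr0 q) (by positivity)
    _ = (n : ℝ) ^ (d + q) / (n : ℝ) ^ (10 * q) := by
        rw [div_pow, one_pow, ← pow_mul, ← pow_add, mul_one_div]
    _ ≤ 1 / (n : ℝ) ^ d := by
        rw [div_le_div_iff₀ (by positivity) (by positivity), ← pow_add, one_mul]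
        refine pow_le_pow_right₀ ?_ (by omega)
        exact_mod_cast (by omega : 1 ≤ n)

private theorem near_coord (c : Con n d) (σ : ℝ) (i : Fin n) (j : Fin d) (T : Set ℝ)
    (hT : MeasurableSet T) :
    mu c σ {a | a i j ∈ T} = gaussianReal (c i j) (Real.toNNReal (σ ^ 2)) T := by
  have h1 := measurePreserving_eval (fun i : Fin n =>
    Measure.pi (fun j : Fin d => gaussianReal (c i j) (Real.toNNReal (σ ^ 2)))) i
  have h2 := measurePreserving_eval (fun j : Fin d =>
    gaussianReal (c i j) (Real.toNNReal (σ ^ 2))) j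
  have h3 := h2.comp h1
  have h4 := h3.measure_preimage hT.nullMeasurableSet
  exact h4

/-- the rows are bounded -/
theorem bdd_prob (hσ : 0 < σ) (hn : 2 ≤ n) (hd : 1 ≤ d)
    (hσ1 : σ ≤ 1 / (6 * Real.sqrt ((d : ℝ) * Real.log (n : ℝ))))
    (hc : ∀ i, ∑ j, (c i j) ^ 2 ≤ 1) :
    mu c σ {a | ¬ Bdd (2 * d) a} ≤ ENNReal.ofReal (1 / (n : ℝ) ^ d) := by
  have hn0 : (0 : ℝ) < n := by
    have : 0 < n := by omega
    exact_mod_cast this
  have hn2 : (2 : ℝ) ≤ n := by exact_mod_cast hn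
  have hd1 : (1 : ℝ) ≤ d := by exact_mod_cast hd
  have hlog : 0 < Real.log n := Real.log_pos (by linarith)
  have hdl : 0 < (d : ℝ) * Real.log n := by positivity
  -- the variance
  have hs2 : σ ^ 2 * (36 * (d * Real.log n)) ≤ 1 := by
    have h1 : 0 < Real.sqrt ((d : ℝ) * Real.log n) := Real.sqrt_pos.2 hdl
    rw [le_div_iff₀ (by positivity)] at hσ1
    have h2 : (σ * (6 * Real.sqrt ((d : ℝ) * Real.log n))) ^ 2 ≤ 1 ^ 2 :=
      pow_le_pow_left₀ (by positivity) hσ1 2
    rw [mul_pow, mul_pow, Real.sq_sqrt hdl.le] at h2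
    linarith
  have hexp : Real.exp (-(1 ^ 2) / (2 * σ ^ 2)) ≤ 1 / (n : ℝ) ^ (18 * d) := by
    have h1 : 1 / (n : ℝ) ^ (18 * d) = Real.exp (-((18 * d : ℕ) * Real.log n)) := by
      rw [Real.exp_neg, Real.exp_nat_mul, Real.exp_log hn0, one_div]
    rw [h1]
    apply Real.exp_le_exp.2
    rw [div_le_iff₀ (by positivity)]
    push_cast
    nlinarith
  have hsub : {a : Con n d | ¬ Bdd (2 * d) a} ⊆
      ⋃ i : Fin n, ⋃ j : Fin d, {a | a i j ∈ {x | 1 < |x - c i j|}} := by
    intro a ha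
    by_contra hcon
    apply ha
    intro i
    have hle : ∀ j, |a i j - c i j| ≤ 1 := by
      intro j
      by_contra hj
      push Not at hj
      exact hcon (Set.mem_iUnion.mpr ⟨i, Set.mem_iUnion.mpr ⟨j, hj⟩⟩)
    have h1 : a i ⬝ᵥ a i ≤ ∑ j : Fin d, (2 * (c i j) ^ 2 + (2 : ℝ)) := by
      unfold dotProduct
      refine Finset.sum_le_sum fun j _ => ?_
      have h2 := hle j
      have h3 : (a i j - c i j) ^ 2 ≤ 1 := by
        rw [← sq_abs]
        exact pow_le_one₀ (abs_nonneg _) h2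
      nlinarith [sq_nonneg (c i j - (a i j - c i j))]
    have h2 : ∑ j : Fin d, (2 * (c i j) ^ 2 + (2 : ℝ)) ≤ 2 + 2 * (d : ℝ) := by
      rw [Finset.sum_add_distrib, ← Finset.mul_sum, Finset.sum_const, Finset.card_univ,
        Fintype.card_fin, nsmul_eq_mul]
      have := hc i
      linarith
    have h3 : (2 : ℝ) + 2 * d ≤ (2 * d) ^ 2 := by nlinarith
    exact h1.trans (h2.trans h3)
  refine (measure_mono hsub).trans ((measure_iUnion_le _).trans ?_)
  rw [tsum_fintype]
  have hij : ∀ (i : Fin n) (j : Fin d), mu c σ {a | a i j ∈ {x | 1 < |x - c i j|}} ≤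
      ENNReal.ofReal (2 * (1 / (n : ℝ) ^ (18 * d))) := by
    intro i j
    have hm : MeasurableSet {x : ℝ | 1 < |x - c i j|} :=
      measurableSet_lt measurable_const ((measurable_id.sub_const _).abs)
    rw [near_coord c σ i j _ hm]
    refine (near_tail zero_le_one).trans (ENNReal.ofReal_le_ofReal ?_)
    linarith
  calc ∑ i : Fin n, mu c σ (⋃ j : Fin d, {a | a i j ∈ {x | 1 < |x - c i j|}})
      ≤ ∑ _i : Fin n, ∑ _j : Fin d, ENNReal.ofReal (2 * (1 / (n : ℝ) ^ (18 * d))) := by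
        apply Finset.sum_le_sum
        intro i _
        refine (measure_iUnion_le _).trans ?_
        rw [tsum_fintype]
        exact Finset.sum_le_sum fun j _ => hij i j
    _ = ENNReal.ofReal (2 * n * d * (1 / (n : ℝ) ^ (18 * d))) := by
        rw [Finset.sum_const, Finset.sum_const, Finset.card_univ, Finset.card_univ,
          Fintype.card_fin, Fintype.card_fin, smul_smul, nsmul_eq_mul, ← ENNReal.ofReal_natCast,
          ← ENNReal.ofReal_mul (by positivity)]
        congr 1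
        push_cast
        ring
    _ ≤ ENNReal.ofReal (1 / (n : ℝ) ^ d) := by
        apply ENNReal.ofReal_le_ofReal
        rw [mul_one_div, div_le_div_iff₀ (by positivity) (by positivity), one_mul]
        have h1 : (d : ℝ) ≤ (n : ℝ) ^ d := by
          have h2 : d < 2 ^ d := Nat.lt_two_pow_self
          have h3 : (d : ℝ) ≤ 2 ^ d := by exact_mod_cast h2.le
          exact h3.trans (pow_le_pow_left₀ (by norm_num) hn2 d)
        calc 2 * (n : ℝ) * d * (n : ℝ) ^ d ≤ n * n * (n : ℝ) ^ d * (n : ℝ) ^ d := by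
              gcongr
          _ = (n : ℝ) ^ (2 + d + d) := by ring
          _ ≤ (n : ℝ) ^ (18 * d) := pow_le_pow_right₀ (by linarith) (by omega)

end Pool.Agent.H.MP_0cad2f_co.NT
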