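import Pool.Agent.H.MP_0cad2f_co.NT.Avg

/-!
The parameters. `X = n d/σ`, `X ≥ 10` (`6 √(d log n) ≥ 6 * 0.83`, `log 2 > 0.69`), `n ≤ X`, `d ≤ X`, `n d ≤ X σ`... exactly `n d = X σ`, `σ ≤ 1`,
`1/σ ≤ X`. `Ξ = X^C`, `θ = σ/(2 d n^10)`, `δ = (X^(4C+28))⁻¹`, `κ = (X^(12C+87))⁻¹`, `ε = (X^5)⁻¹`, `k = 36 C + 300`. Checks:
`θ (2 d) n^10 = σ`, `θ ≤ 1/2`; with `δ0 = θ/(16 d³ (2d)² Ξ²)`: `1/δ0 = 128 d⁶ n^10 X^(2C)/σ ≤ X^(2C+13)` (`d⁶ n^10/σ ≤ (n d/σ)^10`, `128 ≤ X³`),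
`4 n/δ0² ≤ X^(4C+28)` (`4 n ≤ X²`); `κ Ld = 100 n X^(12C+84) κ ≤ 1` (`100 n ≤ X³`); `8 n d X^C κ ≤ 1`;
`24 n² d² ε = 24 X² σ² X^(-5) ≤ σ²`; `8 n² d ε ≤ 1`; `(n d/σ)^C ≤ Ξ²`. `AA = 10^13 n⁹ d² X^(2(12C+87)+5+3(4C+28)) ≤ X^(13+9+2+...)`.
-/

set_option autoImplicit false
open scoped Classical

namespace Pool.Agent.H.MP_0cad2f_co.NT

private theorem Params_sig {n d : ℕ} (hn : 2 ≤ n) (hd : 8 ≤ d) {σ : ℝ}
    (h : σ ≤ 1 / (6 * Real.sqrt ((d : ℝ) * Real.log (n : ℝ)))) : σ ≤ 1 / 10 := by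
  have h1 : (0.69 : ℝ) ≤ Real.log (n : ℝ) := by
    have h2 : Real.log 2 ≤ Real.log (n : ℝ) :=
      Real.log_le_log (by norm_num) (by exact_mod_cast hn)
    have h3 := Real.log_two_gt_d9
    linarith
  have h2 : (8 : ℝ) ≤ (d : ℝ) := by exact_mod_cast hd
  have h3 : (4 : ℝ) ≤ (d : ℝ) * Real.log (n : ℝ) := by
    nlinarith
  have h4 : (2 : ℝ) ≤ Real.sqrt ((d : ℝ) * Real.log (n : ℝ)) := by
    refine Real.le_sqrt_of_sq_le ?_
    linarith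
  refine h.trans ?_
  rw [div_le_div_iff₀ (by positivity) (by norm_num)]
  linarith

/-- the parameters -/
theorem params (C : ℕ) : ∃ k : ℕ, ∀ n d : ℕ, 2 ≤ n → 8 ≤ d → ∀ σ : ℝ, 0 < σ →
    σ ≤ 1 / (6 * Real.sqrt ((d : ℝ) * Real.log (n : ℝ))) →
    ∃ δ κ ε θ Ξ : ℝ, 0 < δ ∧ δ ≤ 1 ∧ 0 < κ ∧ κ ≤ 1 ∧ 0 < ε ∧ 8 * n ^ 2 * d * ε ≤ 1 ∧
      6 * n ^ 2 * ε * (2 * d) ^ 2 ≤ σ ^ 2 ∧ κ * Ld n δ ≤ 1 ∧ 4 * n * (2 * d) * Ξ * κ ≤ 1 ∧
      1 ≤ Ξ ∧ 0 < θ ∧ θ ≤ 1 / 2 ∧ θ * (2 * d) * n ^ 10 ≤ σ ∧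
      δ ≤ (θ / (16 * d ^ 3 * (2 * d) ^ 2 * Ξ ^ 2)) ^ 2 / (4 * n) ∧
      (n * d / σ) ^ C ≤ Ξ ^ 2 ∧ AA n d δ ε κ ≤ (n * d / σ) ^ k := by
  refine ⟨36 * C + 287, fun n d hn hd σ hσ hσ1 => ?_⟩
  have hs := Params_sig hn hd hσ1
  obtain ⟨N, hN⟩ : ∃ N : ℝ, N = (n : ℝ) := ⟨_, rfl⟩
  obtain ⟨D, hD⟩ : ∃ D : ℝ, D = (d : ℝ) := ⟨_, rfl⟩
  have hN2 : 2 ≤ N := by
    rw [hN]
    exact_mod_cast hn
  have hD8 : 8 ≤ D := by
    rw [hD]
    exact_mod_cast hd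
  have hN1 : 1 ≤ N := by linarith
  have hD1 : 1 ≤ D := by linarith
  have hN0 : 0 < N := by linarith
  have hD0 : 0 < D := by linarith
  obtain ⟨X, hX⟩ : ∃ X : ℝ, X = N * D / σ := ⟨_, rfl⟩
  have hXs : X * σ = N * D := by
    rw [hX]
    field_simp
  have hND : 1 ≤ N * D := one_le_mul_of_one_le_of_one_le hN1 hD1
  have hX0 : 0 < X := by
    rw [hX]
    positivity
  have hND10 : 10 * (N * D) ≤ X := by
    rw [← hXs]
    nlinarith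
  have hXND : N * D ≤ X := by linarith
  have hX10 : 10 ≤ X := by linarith
  have hX1 : 1 ≤ X := by linarith
  have hNX : N ≤ X := le_trans (le_mul_of_one_le_right hN0.le hD1) hXND
  have hDX : D ≤ X := le_trans (le_mul_of_one_le_left hD0.le hN1) hXND
  rw [← hN, ← hD, ← hX]
  have hX3 : 1000 ≤ X ^ 3 := by
    calc (1000 : ℝ) = 10 ^ 3 := by norm_num
      _ ≤ X ^ 3 := by gcongr
  refine ⟨(X ^ (4 * C + 28))⁻¹, (X ^ (12 * C + 87))⁻¹, (X ^ 5)⁻¹, σ / (2 * D * N ^ 10), X ^ C,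
    by positivity, inv_le_one_of_one_le₀ (one_le_pow₀ hX1), by positivity,
    inv_le_one_of_one_le₀ (one_le_pow₀ hX1), by positivity, ?_, ?_, ?_, ?_, one_le_pow₀ hX1,
    by positivity, ?_, ?_, ?_, ?_, ?_⟩
  · rw [← div_eq_mul_inv, div_le_one (by positivity)]
    calc 8 * N ^ 2 * D ≤ X * X ^ 2 * X := by
          gcongr
          linarith
      _ = X ^ 4 := by ring
      _ ≤ X ^ 5 := pow_le_pow_right₀ hX1 (by norm_num)
  · have h1 : 6 * N ^ 2 * (X ^ 5)⁻¹ * (2 * D) ^ 2 = 24 * (N * D) ^ 2 / X ^ 5 := by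
      rw [div_eq_mul_inv]
      ring
    rw [h1, ← hXs, div_le_iff₀ (by positivity)]
    calc 24 * (X * σ) ^ 2 = (24 * X ^ 2) * σ ^ 2 := by ring
      _ ≤ X ^ 5 * σ ^ 2 := by
          gcongr
          calc 24 * X ^ 2 ≤ X ^ 3 * X ^ 2 := by
                gcongr
                linarith
            _ = X ^ 5 := by ring
      _ = σ ^ 2 * X ^ 5 := by ring
  · have h1 : (X ^ (12 * C + 87))⁻¹ * Ld n (X ^ (4 * C + 28))⁻¹ = 100 * N / X ^ 3 := by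
      unfold Ld
      rw [← hN, inv_pow, ← pow_mul, div_inv_eq_mul]
      have e : 12 * C + 87 = (4 * C + 28) * 3 + 3 := by ring
      rw [e, pow_add]
      field_simp
    rw [h1, div_le_one (by positivity)]
    calc 100 * N ≤ X ^ 2 * X := by
          gcongr
          calc (100 : ℝ) = 10 ^ 2 := by norm_num
            _ ≤ X ^ 2 := by gcongr
      _ = X ^ 3 := by ring
  · rw [← div_eq_mul_inv, div_le_one (by positivity)]
    calc 4 * N * (2 * D) * X ^ C = 8 * N * D * X ^ C := by ring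
      _ ≤ X * X * X * X ^ C := by
          gcongr
          linarith
      _ = X ^ (C + 3) := by ring
      _ ≤ X ^ (12 * C + 87) := pow_le_pow_right₀ hX1 (by omega)
  · rw [div_le_iff₀ (by positivity)]
    have h1 : 1 ≤ D * N ^ 10 := one_le_mul_of_one_le_of_one_le hD1 (one_le_pow₀ hN1)
    linarith
  · have h1 : σ / (2 * D * N ^ 10) * (2 * D) * N ^ 10 = σ := by
      field_simp
    rw [h1]
  · have h1 : σ / (2 * D * N ^ 10) / (16 * D ^ 3 * (2 * D) ^ 2 * (X ^ C) ^ 2) =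
        σ / (128 * D ^ 6 * N ^ 10 * X ^ (2 * C)) := by
      rw [div_div]
      congr 1
      ring
    have h2 : (X ^ (2 * C + 13))⁻¹ ≤ σ / (128 * D ^ 6 * N ^ 10 * X ^ (2 * C)) := by
      rw [inv_eq_one_div, div_le_div_iff₀ (by positivity) (by positivity), one_mul]
      have h3 : σ * X ^ (2 * C + 13) = (N * D) * X ^ 9 * X ^ 3 * X ^ (2 * C) := by
        rw [← hXs]
        ring
      rw [h3]
      have h4 : 128 * D ^ 6 * N ^ 10 ≤ (N * D) * X ^ 9 * X ^ 3 := by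
        calc 128 * D ^ 6 * N ^ 10 = (N * D) * (N ^ 9 * D ^ 5) * 128 := by ring
          _ ≤ (N * D) * (N ^ 9 * D ^ 9) * 1000 := by
              gcongr
              · norm_num
              · norm_num
          _ = (N * D) * (N * D) ^ 9 * 1000 := by ring
          _ ≤ (N * D) * X ^ 9 * X ^ 3 := by gcongr
      exact mul_le_mul_of_nonneg_right h4 (by positivity)
    rw [h1]
    calc (X ^ (4 * C + 28))⁻¹ = ((X ^ (2 * C + 13))⁻¹) ^ 2 / X ^ 2 := by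
          rw [inv_pow, ← pow_mul, inv_eq_one_div, inv_eq_one_div, div_div, ← pow_add]
          congr 2
          ring
      _ ≤ (σ / (128 * D ^ 6 * N ^ 10 * X ^ (2 * C))) ^ 2 / (4 * N) := by
          gcongr
          calc 4 * N ≤ X * X := by
                gcongr
                linarith
            _ = X ^ 2 := by ring
  · rw [← pow_mul]
    exact pow_le_pow_right₀ hX1 (by omega)
  · unfold AA
    rw [← hN, ← hD]
    have h1 : 10 ^ 13 * N ^ 9 * D ^ 2 / (((X ^ (12 * C + 87))⁻¹) ^ 2 * (X ^ 5)⁻¹ *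
        ((X ^ (4 * C + 28))⁻¹) ^ 3) = 10 ^ 13 * N ^ 9 * D ^ 2 * X ^ (36 * C + 263) := by
      rw [inv_pow, inv_pow, ← pow_mul, ← pow_mul, ← mul_inv, ← mul_inv, div_inv_eq_mul,
        ← pow_add, ← pow_add]
      congr 2
      ring
    rw [h1]
    calc 10 ^ 13 * N ^ 9 * D ^ 2 * X ^ (36 * C + 263) ≤
          X ^ 13 * X ^ 9 * X ^ 2 * X ^ (36 * C + 263) := by gcongr
      _ = X ^ (36 * C + 287) := by ring

end Pool.Agent.H.MP_0cad2f_co.NT
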