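import Pool.Agent.H.MP_0cad2f_co.NT.Union
import Pool.Agent.H.MP_0cad2f_co.NT.Params
import Pool.Agent.H.MP_0cad2f_co.NT.DistT
import Pool.Agent.H.MP_0cad2f_co.NT.Near

/-!
The theorem.

`X = n d/σ`, `X ≥ 5 n d ≥ 10` (`6 √(d log n) ≥ 6 * 0.83`). `f a` = the supremum. Almost surely `Reg0 a`, and then `f a ≤ n^d` (`exists_basis`, `face0`,
`edist_le_of_ch`). If `d < 8`: `f a ≤ n^7 ≤ X^7`. Let `8 ≤ d`. Parameters: `G = X^C`, `Ξ = X^C`, `θ = σ/(2 d n^10)`, `δ = X^(-(4C+28))`,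
`κ = X^(-(12C+87))`, `ε = X^(-5)` (inverse powers). Checks: `θ (2 d) n^10 ≤ σ`, `θ ≤ 1/2`; `1/δ0 = 16 d³ (2d)² Ξ² 2 d n^10/σ = 128 d⁶ n^10 X^(2C)/σ ≤
X^(2C+13)` (`d⁶ n^10/σ ≤ X^10`, `128 ≤ X³`), `4 n/δ0² ≤ X^(4C+28)`; `κ Ld = 100 n X^(12C+84) κ ≤ 1`; `8 n d X^C κ ≤ 1`; `24 n² d² ε ≤ 24 X² σ² X^(-5) ≤ σ²`;
`8 n² d ε ≤ 1`; `G = X^C ≤ Ξ²`. `A = AA ≤ X^(13 + 9 + 2 (12C+87) + 5 + 3 (4C+28) + 2)`.
For `K = n d` (so `2^K ≥ n^d`): pointwise, for `a` with `Reg0`: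
`f a ≤ 4 d + ∑ k < K, 8 d 2^k 1[Bdd (2d) a ∧ ¬ GoodT a δ κ (2^k)] + n^d (1[¬ Bdd (2d) a] + 1[Bdd (2d) a ∧ ∃ B nearly tight rows > d/4])`: let `Bdd` and no
bad `B`; the least `k` with `GoodT (2^k)`: `dist_good`; if `k = 0`: `4 d`; if `0 < k ≤ K`... the term `k - 1` gives `8 d 2^(k-1) = 4 d 2^k`; if there is no
such `k < K` the term `K - 1` gives `8 d 2^(K-1) ≥ n^d`.
Integrate (`toMeasurable` hulls or measurability of the sets): `4 d + ∑ k < K, 8 d 2^k * 1000 A n^20/2^k + 2 ≤ 6 d + 8000 n d² A n^20 ≤ K' X^k'`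
(`good_prob`, `bdd_prob`, `near_prob`).
-/

set_option autoImplicit false
open MeasureTheory ProbabilityTheory
open scoped ENNReal Classical

namespace Pool.Agent.H.MP_0cad2f_co.NT

/-- the supremum of the distances of the non-thin vertices -/
private noncomputable def ff {n d : ℕ} (G : ℝ) (a : Con n d) : ℝ≥0∞ :=
  ⨆ (u : Vert a) (_ : NonThin a G u) (v : Vert a) (_ : NonThin a G v),
    (((eg a).edist u v : ℕ∞) : ℝ≥0∞)

private theorem ff_le_of {n d : ℕ} {G : ℝ} {a : Con n d} {m : ℕ}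
    (h : ∀ u v : Vert a, NonThin a G u → NonThin a G v → (eg a).edist u v ≤ (m : ℕ∞)) :
    ff G a ≤ m := by
  unfold ff
  refine iSup_le fun u => iSup_le fun hu => iSup_le fun v => iSup_le fun hv => ?_
  have h1 := h u v hu hv
  calc (((eg a).edist u v : ℕ∞) : ℝ≥0∞) ≤ (((m : ℕ) : ℕ∞) : ℝ≥0∞) := by exact_mod_cast h1
    _ = (m : ℝ≥0∞) := by simp

private theorem ff_trivial {n d : ℕ} (hd : 1 ≤ d) {G : ℝ} {a : Con n d} (hr : Reg0 a) :
    ff G a ≤ ((n ^ d : ℕ) : ℝ≥0∞) := by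
  refine ff_le_of fun u v _ _ => ?_
  obtain ⟨I, hI, rfl⟩ := exists_basis hr u
  obtain ⟨J, hJ, rfl⟩ := exists_basis hr v
  exact edist_le_of_ch hr hd (face0 hr hI hJ) hI hJ

private theorem X_facts {n d : ℕ} (hn : 2 ≤ n) (hd : 1 ≤ d) {σ : ℝ} (hσ : 0 < σ)
    (hσ1 : σ ≤ 1 / (6 * Real.sqrt ((d : ℝ) * Real.log (n : ℝ)))) :
    σ ≤ 1 ∧ (n : ℝ) ≤ n * d / σ ∧ (d : ℝ) ≤ n * d / σ ∧ 1 ≤ n * d / σ := by
  have hn' : (2 : ℝ) ≤ n := by exact_mod_cast hn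
  have hd' : (1 : ℝ) ≤ d := by exact_mod_cast hd
  have hlog : (1 : ℝ) / 4 ≤ Real.log n := by
    have h1 : Real.log 2 ≤ Real.log n := Real.log_le_log (by norm_num) hn'
    have h2 := Real.log_two_gt_d9
    linarith
  have hs : (1 : ℝ) / 2 ≤ Real.sqrt ((d : ℝ) * Real.log (n : ℝ)) := by
    apply Real.le_sqrt_of_sq_le
    nlinarith
  have hσ2 : σ ≤ 1 := by
    refine hσ1.trans ?_
    rw [div_le_one (by positivity)]
    linarith
  refine ⟨hσ2, ?_, ?_, ?_⟩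
  · rw [le_div_iff₀ hσ]
    nlinarith
  · rw [le_div_iff₀ hσ]
    nlinarith
  · rw [le_div_iff₀ hσ]
    nlinarith

/-- the integrated bound, with a measurable majorant -/
private theorem main_large {n d : ℕ} (hn : 2 ≤ n) (hd : 8 ≤ d) {σ : ℝ} (hσ : 0 < σ)
    (hσ1 : σ ≤ 1 / (6 * Real.sqrt ((d : ℝ) * Real.log (n : ℝ)))) {c : Con n d}
    (hc : ∀ i, ∑ j, (c i j) ^ 2 ≤ 1) {δ κ ε θ Ξ G : ℝ} (hδ : 0 < δ) (hδ1 : δ ≤ 1) (hκ : 0 < κ)
    (hκ0 : κ ≤ 1) (hε : 0 < ε) (hε1 : 8 * n ^ 2 * d * ε ≤ 1)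
    (hε2 : 6 * n ^ 2 * ε * (2 * d) ^ 2 ≤ σ ^ 2) (hκ1 : κ * Ld n δ ≤ 1)
    (hκ2 : 4 * n * (2 * d) * Ξ * κ ≤ 1) (hΞ : 1 ≤ Ξ) (hθ : 0 < θ) (hθ1 : θ ≤ 1 / 2)
    (hθ2 : θ * (2 * d) * n ^ 10 ≤ σ)
    (hδ0 : δ ≤ (θ / (16 * d ^ 3 * (2 * d) ^ 2 * Ξ ^ 2)) ^ 2 / (4 * n)) (hG : 0 ≤ G)
    (hG1 : G ≤ Ξ ^ 2) :
    ∃ h : Con n d → ℝ≥0∞, Measurable h ∧ (∀ᵐ a ∂(mu c σ), ff G a ≤ h a) ∧
      ∫⁻ a, h a ∂(mu c σ) ≤
      4 * d + (8 * d * (n * d)) * ENNReal.ofReal (1000 * AA n d δ ε κ * n ^ 20) + 2 := by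
  obtain ⟨μ, hμ⟩ : ∃ μ, μ = mu c σ := ⟨_, rfl⟩
  obtain ⟨Gk, hGk⟩ : ∃ Gk : ℕ → Set (Con n d), Gk = fun k =>
    {a | Bdd (2 * d) a ∧ ¬ GoodT a δ κ (2 ^ k)} := ⟨_, rfl⟩
  obtain ⟨NB, hNB⟩ : ∃ NB : Set (Con n d), NB = {a | ¬ Bdd (2 * d) a} := ⟨_, rfl⟩
  obtain ⟨NR, hNR⟩ : ∃ NR : Set (Con n d), NR = {a | Bdd (2 * d) a ∧ ∃ B, Feas a B ∧
        d / 4 < (Finset.univ.filter fun i => i ∉ B ∧ sl a i (pt a B) < θ).card} := ⟨_, rfl⟩
  obtain ⟨Y, hY⟩ : ∃ Y : ℝ≥0∞, Y = ENNReal.ofReal (1000 * AA n d δ ε κ * n ^ 20) := ⟨_, rfl⟩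
  have hn' : (2 : ℝ) ≤ n := by exact_mod_cast hn
  have hn0 : (0 : ℝ) < n := by linarith
  have hreg : ∀ᵐ a ∂μ, Reg0 a := by
    rw [hμ]
    exact (mu_ac c hσ).ae_le reg0_ae
  have hA0 : 0 ≤ AA n d δ ε κ := by
    unfold AA
    positivity
  -- measures
  have mG : ∀ k, μ (Gk k) ≤ Y / (2 ^ k : ℝ≥0∞) := by
    intro k
    have h1 := good_prob (c := c) (σ := σ) hn hd hκ hκ0 hδ hδ1 hε hε1 hσ hc hε2 (2 ^ k)
      (Nat.one_le_two_pow)
    rw [hμ, hGk, hY]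
    refine h1.trans ?_
    rw [ENNReal.ofReal_div_of_pos (by positivity)]
    gcongr
    push_cast
    rw [ENNReal.ofReal_pow (by norm_num), ENNReal.ofReal_ofNat]
  have mB : μ NB ≤ ENNReal.ofReal (1 / (n : ℝ) ^ d) := by
    rw [hμ, hNB]
    exact bdd_prob hσ hn (by omega) hσ1 hc
  have mR : μ NR ≤ ENNReal.ofReal (1 / (n : ℝ) ^ d) := by
    rw [hμ, hNR]
    refine near_prob hσ hn (by omega) ?_ hθ hθ2
    have : (8 : ℝ) ≤ d := by exact_mod_cast hd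
    linarith
  -- pointwise
  have hpt : ∀ a, Reg0 a → ff G a ≤ 4 * d +
      ∑ k ∈ Finset.range (n * d), (8 * d * 2 ^ k : ℝ≥0∞) *
        (toMeasurable μ (Gk k)).indicator (fun _ => (1 : ℝ≥0∞)) a +
      (n : ℝ≥0∞) ^ d * ((toMeasurable μ NB).indicator (fun _ => (1 : ℝ≥0∞)) a +
        (toMeasurable μ NR).indicator (fun _ => (1 : ℝ≥0∞)) a) := by
    intro a hr
    have htriv : ff G a ≤ (n : ℝ≥0∞) ^ d := by
      have h1 := ff_trivial (G := G) (by omega : 1 ≤ d) hr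
      rwa [Nat.cast_pow] at h1
    by_cases h1 : a ∈ NB
    · refine htriv.trans ?_
      refine le_trans ?_ le_add_self
      rw [Set.indicator_of_mem (subset_toMeasurable _ _ h1)]
      calc (n : ℝ≥0∞) ^ d = n ^ d * 1 := by rw [mul_one]
        _ ≤ _ := by gcongr; exact le_self_add
    by_cases h2 : a ∈ NR
    · refine htriv.trans ?_
      refine le_trans ?_ le_add_self
      rw [Set.indicator_of_mem (s := toMeasurable μ NR) (subset_toMeasurable _ _ h2)]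
      calc (n : ℝ≥0∞) ^ d = n ^ d * 1 := by rw [mul_one]
        _ ≤ _ := by gcongr; exact le_add_self
    have hb : Bdd (2 * d) a := by
      rw [hNB] at h1
      simpa using h1
    have hN : ∀ B, Feas a B →
        (Finset.univ.filter fun i => i ∉ B ∧ sl a i (pt a B) < θ).card ≤ d / 4 := by
      intro B hB
      by_contra hcon
      push Not at hcon
      apply h2
      rw [hNR]
      exact ⟨hb, B, hB, hcon⟩
    have hdist : ∀ t, GoodT a δ κ t → ff G a ≤ ((4 * t * d : ℕ) : ℝ≥0∞) := by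
      intro t ht
      exact ff_le_of fun u v hu hv => dist_good ht hd hn hδ hδ1 hκ hκ0 hκ1 hκ2 hΞ hθ hθ1 hδ0 hb
        hN hG hG1 u v hu hv
    refine le_trans ?_ le_self_add
    by_cases hex : ∃ k, k < n * d ∧ GoodT a δ κ (2 ^ k)
    · obtain ⟨k, ⟨hk, hgk⟩, hmin⟩ : ∃ k, (k < n * d ∧ GoodT a δ κ (2 ^ k)) ∧
          ∀ l < k, ¬ (l < n * d ∧ GoodT a δ κ (2 ^ l)) :=
        ⟨Nat.find hex, Nat.find_spec hex, fun l hl => Nat.find_min hex hl⟩
      refine (hdist _ hgk).trans ?_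
      rcases k with _ | k
      · refine le_trans (le_of_eq ?_) le_self_add
        push_cast
        simp
      · refine le_trans ?_ le_add_self
        have hl : k < n * d := by omega
        have hng : ¬ GoodT a δ κ (2 ^ k) := fun h => hmin k (by omega) ⟨hl, h⟩
        have hmem : a ∈ Gk k := by
          rw [hGk]
          exact ⟨hb, hng⟩
        have h3 := Finset.single_le_sum (f := fun k => (8 * d * 2 ^ k : ℝ≥0∞) *
          (toMeasurable μ (Gk k)).indicator (fun _ => (1 : ℝ≥0∞)) a) (fun i _ => zero_le)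
          (Finset.mem_range.2 hl)
        refine le_trans ?_ h3
        rw [Set.indicator_of_mem (subset_toMeasurable _ _ hmem), mul_one]
        push_cast
        rw [pow_succ]
        apply le_of_eq
        ring
    · push Not at hex
      refine htriv.trans (le_trans ?_ le_add_self)
      obtain ⟨k, hk⟩ : ∃ k, n * d = k + 1 := ⟨n * d - 1, by
        have : 0 < n * d := Nat.mul_pos (by omega) (by omega)
        omega⟩
      have hmem : a ∈ Gk k := by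
        rw [hGk]
        exact ⟨hb, hex k (by omega)⟩
      have h3 := Finset.single_le_sum (f := fun k => (8 * d * 2 ^ k : ℝ≥0∞) *
          (toMeasurable μ (Gk k)).indicator (fun _ => (1 : ℝ≥0∞)) a) (fun i _ => zero_le)
          (Finset.mem_range.2 (by omega : k < n * d))
      refine le_trans ?_ h3
      rw [Set.indicator_of_mem (subset_toMeasurable _ _ hmem), mul_one]
      have h4 : n ^ d ≤ 8 * d * 2 ^ k := by
        have h5 : n < 2 ^ n := Nat.lt_two_pow_self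
        have h6 : n ^ d ≤ 2 ^ (n * d) := by
          rw [pow_mul]
          exact Nat.pow_le_pow_left h5.le d
        rw [hk, pow_succ] at h6
        nlinarith [Nat.one_le_two_pow (n := k)]
      exact_mod_cast h4
  -- integration
  have hmeas : ∀ s : Set (Con n d), Measurable
      ((toMeasurable μ s).indicator (fun _ => (1 : ℝ≥0∞))) := fun s =>
    measurable_const.indicator (measurableSet_toMeasurable _ _)
  have hint : ∀ s : Set (Con n d), ∫⁻ a, (toMeasurable μ s).indicator (fun _ => (1 : ℝ≥0∞)) a ∂μ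
      = μ s := by
    intro s
    rw [lintegral_indicator (measurableSet_toMeasurable _ _), lintegral_const, one_mul,
      Measure.restrict_apply_univ, measure_toMeasurable]
  have hμ1 : μ Set.univ = 1 := by
    rw [hμ]
    exact measure_univ
  have hnd : (n : ℝ≥0∞) ^ d * (ENNReal.ofReal (1 / (n : ℝ) ^ d)) = 1 := by
    rw [one_div, ENNReal.ofReal_inv_of_pos (by positivity), ENNReal.ofReal_pow hn0.le,
      ENNReal.ofReal_natCast]
    apply ENNReal.mul_inv_cancel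
    · have : (n : ℝ≥0∞) ≠ 0 := by
        exact_mod_cast (by omega : n ≠ 0)
      exact pow_ne_zero _ this
    · exact ENNReal.pow_ne_top (ENNReal.natCast_ne_top n)
  refine ⟨fun a => 4 * d + ∑ k ∈ Finset.range (n * d), (8 * d * 2 ^ k : ℝ≥0∞) *
        (toMeasurable μ (Gk k)).indicator (fun _ => (1 : ℝ≥0∞)) a +
      (n : ℝ≥0∞) ^ d * ((toMeasurable μ NB).indicator (fun _ => (1 : ℝ≥0∞)) a +
        (toMeasurable μ NR).indicator (fun _ => (1 : ℝ≥0∞)) a), ?_, ?_, ?_⟩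
  · exact ((Finset.measurable_fun_sum _ fun k _ => (hmeas _).const_mul _).const_add _).add
      (((hmeas _).add (hmeas _)).const_mul _)
  · rw [← hμ]
    exact hreg.mono hpt
  rw [← hμ]
  calc ∫⁻ a, (4 * d + ∑ k ∈ Finset.range (n * d), (8 * d * 2 ^ k : ℝ≥0∞) *
        (toMeasurable μ (Gk k)).indicator (fun _ => (1 : ℝ≥0∞)) a +
      (n : ℝ≥0∞) ^ d * ((toMeasurable μ NB).indicator (fun _ => (1 : ℝ≥0∞)) a +
        (toMeasurable μ NR).indicator (fun _ => (1 : ℝ≥0∞)) a)) ∂μ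
    _ = 4 * d + ∑ k ∈ Finset.range (n * d), (8 * d * 2 ^ k : ℝ≥0∞) * μ (Gk k) +
        (n : ℝ≥0∞) ^ d * (μ NB + μ NR) := by
      have q1 : Measurable fun a => (n : ℝ≥0∞) ^ d *
          ((toMeasurable μ NB).indicator (fun _ => (1 : ℝ≥0∞)) a +
          (toMeasurable μ NR).indicator (fun _ => (1 : ℝ≥0∞)) a) :=
        ((hmeas _).add (hmeas _)).const_mul _
      have q2 : Measurable fun a => (toMeasurable μ NB).indicator (fun _ => (1 : ℝ≥0∞)) a +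
          (toMeasurable μ NR).indicator (fun _ => (1 : ℝ≥0∞)) a := (hmeas _).add (hmeas _)
      rw [lintegral_add_right _ q1, lintegral_add_left measurable_const, lintegral_const, hμ1,
        mul_one, lintegral_finsetSum _ (fun k _ => (hmeas _).const_mul _),
        lintegral_const_mul _ q2, lintegral_add_left (hmeas _), hint, hint]
      congr 2
      refine Finset.sum_congr rfl fun k _ => ?_
      rw [lintegral_const_mul _ (hmeas _), hint]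
    _ ≤ 4 * d + ∑ k ∈ Finset.range (n * d), (8 * d * Y : ℝ≥0∞) +
        (n : ℝ≥0∞) ^ d * (ENNReal.ofReal (1 / (n : ℝ) ^ d) + ENNReal.ofReal (1 / (n : ℝ) ^ d)) := by
      refine add_le_add (add_le_add le_rfl (Finset.sum_le_sum fun k _ => ?_))
        (mul_le_mul_right (add_le_add mB mR) _)
      refine (mul_le_mul_right (mG k) _).trans ?_
      rw [ENNReal.div_eq_inv_mul, mul_assoc, ← mul_assoc (2 ^ k : ℝ≥0∞),
        ENNReal.mul_inv_cancel (by positivity) (ENNReal.pow_ne_top (by norm_num)), one_mul]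
    _ = 4 * d + (8 * d * (n * d)) * ENNReal.ofReal (1000 * AA n d δ ε κ * n ^ 20) + 2 := by
      rw [mul_add, hnd, Finset.sum_const, Finset.card_range, nsmul_eq_mul, ← hY]
      push_cast
      congr 1
      · congr 1
        ring
      · norm_num

private theorem NonThin.mono {n d : ℕ} {a : Con n d} {G G' : ℝ} {v : Vert a} (h : NonThin a G v)
    (hG : G ≤ G') : NonThin a G' v := by
  obtain ⟨B, h1, h2, h3⟩ := h
  refine ⟨B, h1, h2, fun x => (h3 x).trans ?_⟩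
  exact mul_le_mul_of_nonneg_right hG (Finset.sum_nonneg fun _ _ => sq_nonneg _)

/-- uniform in the condition number -/
theorem main_uni : ∃ (K : ℝ) (k : ℕ), 0 ≤ K ∧ ∀ n d : ℕ, 2 ≤ n → 1 ≤ d → ∀ σ : ℝ, 0 < σ →
    σ ≤ 1 / (6 * Real.sqrt ((d : ℝ) * Real.log (n : ℝ))) →
    ∀ c : Con n d, (∀ i, ∑ j, (c i j) ^ 2 ≤ 1) → ∀ Γ : ℝ, 1 ≤ Γ →
      ∃ h : Con n d → ℝ≥0∞, Measurable h ∧ (∀ᵐ a ∂(mu c σ), ff (Γ ^ 2) a ≤ h a) ∧
        ∫⁻ a, h a ∂(mu c σ) ≤ ENNReal.ofReal (K * (n * d / σ * Γ) ^ k) := by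
  obtain ⟨k, hk⟩ := params 2
  refine ⟨20000, k + 30, by norm_num, ?_⟩
  intro n d hn hd σ hσ hσ1 c hc Γ hΓ
  have hΓ0 : 0 < Γ := by linarith
  obtain ⟨hσ2, hnX, hdX, hX1⟩ := X_facts hn hd hσ hσ1
  have hσΓ : σ / Γ ≤ σ := div_le_self hσ.le hΓ
  have hσΓ0 : 0 < σ / Γ := by positivity
  have hXΓ : n * d / (σ / Γ) = n * d / σ * Γ := by
    field_simp
  obtain ⟨X, hX⟩ : ∃ X : ℝ, X = n * d / σ * Γ := ⟨_, rfl⟩
  have hle : n * d / σ ≤ X := by
    rw [hX]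
    exact le_mul_of_one_le_right (by positivity) hΓ
  have hΓX : Γ ≤ X := by
    rw [hX]
    exact le_mul_of_one_le_left hΓ0.le hX1
  have hnX := hnX.trans hle
  have hdX := hdX.trans hle
  have hX1 := hX1.trans hle
  rw [← hX] at hXΓ ⊢
  have hX0 : 0 ≤ X := by linarith
  by_cases h8 : 8 ≤ d
  · obtain ⟨δ, κ, ε, θ, Ξ, h1, h2, h3, h4, h5, h6, h7, h8', h9, h10, h11, h12, h13, h14, h15, h16⟩ :=
      hk n d hn h8 (σ / Γ) hσΓ0 (hσΓ.trans hσ1)
    rw [hXΓ] at h15 h16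
    have h7' : 6 * n ^ 2 * ε * (2 * d) ^ 2 ≤ σ ^ 2 := h7.trans (by gcongr)
    have h15' : Γ ^ 2 ≤ Ξ ^ 2 := le_trans (by gcongr) h15
    obtain ⟨h, m1, m2, m3⟩ := main_large hn h8 hσ hσ1 hc h1 h2 h3 h4 h5 h6 h7' h8' h9 h10 h11 h12
      (h13.trans hσΓ) h14 (by positivity) h15'
    refine ⟨h, m1, m2, m3.trans ?_⟩
    have hA0 : 0 ≤ AA n d δ ε κ := by
      unfold AA
      positivity
    have e1 : (4 * d + (8 * d * (n * d)) * ENNReal.ofReal (1000 * AA n d δ ε κ * n ^ 20) + 2 :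
        ℝ≥0∞) = ENNReal.ofReal (4 * d + (8 * d * (n * d)) * (1000 * AA n d δ ε κ * n ^ 20) + 2) := by
      rw [ENNReal.ofReal_add (by positivity) (by norm_num),
        ENNReal.ofReal_add (by positivity) (by positivity), ENNReal.ofReal_mul (by positivity)
          (q := 1000 * AA n d δ ε κ * n ^ 20),
        ENNReal.ofReal_mul (by positivity), ENNReal.ofReal_mul (by positivity),
        ENNReal.ofReal_mul (by positivity), ENNReal.ofReal_mul (by positivity)]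
      simp
    rw [e1]
    apply ENNReal.ofReal_le_ofReal
    have f1 : (d : ℝ) ≤ X ^ (k + 30) := by
      calc (d : ℝ) ≤ X := hdX
        _ = X ^ 1 := (pow_one X).symm
        _ ≤ X ^ (k + 30) := pow_le_pow_right₀ hX1 (by omega)
    have f2 : (1 : ℝ) ≤ X ^ (k + 30) := one_le_pow₀ hX1
    have f3 : (8 * d * (n * d)) * (1000 * AA n d δ ε κ * n ^ 20) ≤ 8000 * X ^ (k + 30) := by
      calc (8 * d * (n * d)) * (1000 * AA n d δ ε κ * n ^ 20)
          ≤ (8 * X * (X * X)) * (1000 * X ^ k * X ^ 20) := by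
            gcongr
        _ = 8000 * X ^ (k + 23) := by ring
        _ ≤ 8000 * X ^ (k + 30) := by
            have := pow_le_pow_right₀ hX1 (by omega : k + 23 ≤ k + 30)
            linarith
    linarith
  · have hreg : ∀ᵐ a ∂(mu c σ), Reg0 a := (mu_ac c hσ).ae_le reg0_ae
    refine ⟨fun _ => ((n ^ d : ℕ) : ℝ≥0∞), measurable_const,
      hreg.mono fun a hr => ff_trivial hd hr, ?_⟩
    calc ∫⁻ _a, ((n ^ d : ℕ) : ℝ≥0∞) ∂(mu c σ) = ((n ^ d : ℕ) : ℝ≥0∞) := by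
          rw [lintegral_const, measure_univ, mul_one]
      _ = ENNReal.ofReal ((n : ℝ) ^ d) := by
          rw [Nat.cast_pow, ENNReal.ofReal_pow (by positivity), ENNReal.ofReal_natCast]
      _ ≤ ENNReal.ofReal (20000 * X ^ (k + 30)) := by
          apply ENNReal.ofReal_le_ofReal
          have g1 : (n : ℝ) ^ d ≤ X ^ (k + 30) := by
            calc (n : ℝ) ^ d ≤ X ^ d := by gcongr
              _ ≤ X ^ (k + 30) := pow_le_pow_right₀ hX1 (by omega)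
          have g2 : 0 ≤ X ^ (k + 30) := by positivity
          linarith

/-- All pairs of vertices, with a polynomial penalty for the conditioning. -/
theorem main : ∃ (K : ℝ) (k : ℕ), ∀ n d : ℕ, 2 ≤ n → 1 ≤ d → ∀ σ : ℝ, 0 < σ →
    σ ≤ 1 / (6 * Real.sqrt ((d : ℝ) * Real.log (n : ℝ))) →
    ∀ c : Con n d, (∀ i, ∑ j, (c i j) ^ 2 ≤ 1) →
      ∫⁻ a, ⨆ (Γ : ℝ) (_ : 1 ≤ Γ) (u : Vert a) (_ : NonThin a (Γ ^ 2) u) (v : Vert a)
        (_ : NonThin a (Γ ^ 2) v), (((eg a).edist u v : ℕ∞) : ℝ≥0∞) / ENNReal.ofReal (Γ ^ k)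
          ∂(mu c σ) ≤
      ENNReal.ofReal (K * (n * d / σ) ^ k) := by
  obtain ⟨K, k, hK, hk⟩ := main_uni
  refine ⟨2 * 2 ^ k * K, k + 1, ?_⟩
  intro n d hn hd σ hσ hσ1 c hc
  obtain ⟨hσ2, hnX, hdX, hX1⟩ := X_facts hn hd hσ hσ1
  obtain ⟨X, hX⟩ : ∃ X : ℝ, X = n * d / σ := ⟨_, rfl⟩
  have hX0 : 0 ≤ X := by
    rw [hX]
    linarith
  choose h m1 m2 m3 using fun j : ℕ => hk n d hn hd σ hσ hσ1 c hc (2 ^ (j + 1))
    (one_le_pow₀ (by norm_num))
  have hpt : ∀ᵐ a ∂(mu c σ), (⨆ (Γ : ℝ) (_ : 1 ≤ Γ) (u : Vert a) (_ : NonThin a (Γ ^ 2) u)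
      (v : Vert a) (_ : NonThin a (Γ ^ 2) v),
      (((eg a).edist u v : ℕ∞) : ℝ≥0∞) / ENNReal.ofReal (Γ ^ (k + 1))) ≤
      ∑' j : ℕ, h j a / (2 ^ (k + 1)) ^ j := by
    filter_upwards [ae_all_iff.2 m2] with a ha
    refine iSup_le fun Γ => iSup_le fun hΓ => iSup_le fun u => iSup_le fun hu =>
      iSup_le fun v => iSup_le fun hv => ?_
    obtain ⟨j, hj1, hj2⟩ := exists_nat_pow_near hΓ (by norm_num : (1 : ℝ) < 2)
    refine le_trans ?_ (ENNReal.le_tsum j)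
    have h1 : (((eg a).edist u v : ℕ∞) : ℝ≥0∞) ≤ h j a := by
      refine le_trans ?_ (ha j)
      have hΓ2 : Γ ^ 2 ≤ (2 ^ (j + 1)) ^ 2 := by
        have : 0 ≤ Γ := by linarith
        gcongr
      unfold ff
      exact le_trans (le_iSup₂_of_le v (hv.mono hΓ2) le_rfl)
        (le_iSup₂_of_le (f := fun (u : Vert a) (_ : NonThin a ((2 ^ (j + 1)) ^ 2) u) =>
          ⨆ (v : Vert a) (_ : NonThin a ((2 ^ (j + 1)) ^ 2) v),
            (((eg a).edist u v : ℕ∞) : ℝ≥0∞)) u (hu.mono hΓ2) le_rfl)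
    have h2 : ((2 : ℝ≥0∞) ^ (k + 1)) ^ j ≤ ENNReal.ofReal (Γ ^ (k + 1)) := by
      have e1 : ((2 : ℝ≥0∞) ^ (k + 1)) ^ j = ENNReal.ofReal ((2 ^ j) ^ (k + 1)) := by
        rw [ENNReal.ofReal_pow (by positivity), ENNReal.ofReal_pow (by norm_num),
          ENNReal.ofReal_ofNat, ← pow_mul, ← pow_mul, mul_comm]
      rw [e1]
      apply ENNReal.ofReal_le_ofReal
      gcongr
    gcongr
  refine (lintegral_mono_ae hpt).trans ?_
  rw [lintegral_tsum fun j => ((m1 j).div_const _).aemeasurable]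
  have hterm : ∀ j : ℕ, ∫⁻ a, h j a / (2 ^ (k + 1)) ^ j ∂(mu c σ) ≤
      ENNReal.ofReal (2 ^ k * K * X ^ k) * (2⁻¹) ^ j := by
    intro j
    simp only [div_eq_mul_inv]
    rw [lintegral_mul_const _ (m1 j)]
    refine (mul_le_mul_left (m3 j) _).trans ?_
    rw [← hX]
    have e1 : K * (X * 2 ^ (j + 1)) ^ k = (2 ^ k * K * X ^ k) * (2 ^ k) ^ j := by
      rw [mul_pow, ← pow_mul, ← pow_mul, add_mul, pow_add, one_mul, mul_comm k j]
      ring
    rw [e1, ENNReal.ofReal_mul (by positivity), mul_assoc]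
    gcongr
    rw [ENNReal.ofReal_pow (by positivity), ENNReal.ofReal_pow (by norm_num), ENNReal.ofReal_ofNat,
      ← ENNReal.inv_pow, pow_succ, mul_pow, ENNReal.mul_inv (by left; positivity)
        (by left; exact ENNReal.pow_ne_top (ENNReal.pow_ne_top (by norm_num))), ← mul_assoc,
      ENNReal.mul_inv_cancel (by positivity) (ENNReal.pow_ne_top (ENNReal.pow_ne_top (by norm_num))),
      one_mul]
  refine (ENNReal.tsum_le_tsum hterm).trans ?_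
  rw [ENNReal.tsum_mul_left, ENNReal.tsum_geometric, ENNReal.one_sub_inv_two, inv_inv, ← hX]
  rw [← ENNReal.ofReal_ofNat 2, ← ENNReal.ofReal_mul (by positivity)]
  apply ENNReal.ofReal_le_ofReal
  have h1 : X ^ k ≤ X ^ (k + 1) := by
    rw [hX]
    exact pow_le_pow_right₀ hX1 (by omega)
  have h2 : 0 ≤ 2 * 2 ^ k * K := by positivity
  calc 2 ^ k * K * X ^ k * 2 = 2 * 2 ^ k * K * X ^ k := by ring
    _ ≤ 2 * 2 ^ k * K * X ^ (k + 1) := by gcongr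

end Pool.Agent.H.MP_0cad2f_co.NT
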