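import Pool.Agent.H.MP_0cad2f_co.NT.Dec
import Pool.Agent.H.MP_0cad2f_co.NT.RegAE
import Pool.Agent.H.MP_0cad2f_co.NT.P2

/-!
The last step: radial noise (section 8 of the text).

`radial`: for fixed `q ∈ cube n 0`, `g = gz ∅ 1 ε q`, `g i = 1 - ε (q i - 1) ∈ [1 - ε, 1]`. Substitute `a i = (g i)⁻¹ α i`, `w i = g i ω i`,
`w' i = g i ω' i` (`nzr α ∅ 0 1 ε q i = (g i)⁻¹ α i`): `da = ∏ (g i)^(-d) dα ≤ (1 - ε)^(-n d) dα ≤ 2 dα`, `dw ≤ dω`, `dw' ≤ dω'`;
`w ∈ cube n 0` implies `ω ∈ cube n (1/n²)` (`1 ≤ ω i ≤ 2/(1 - ε) ≤ 2 + 4 ε`). Density: if `Bdd R a`, `α = g a`: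
`|α i - c i|² - |a i - c i|² = (a i - α i) ⬝ᵥ (2 c i - a i - α i) ≤ ε R (2 + 2 R) ≤ 4 ε R²`, the sum is at most `4 n ε R² ≤ 2 σ²`, so
`dens a ≤ e dens α`. Total factor `2 e ≤ 6`. `lintegral_update_smul` for each row (`r = (g i)⁻¹` or `g i`), and for each weight.

`badL_le`: Markov: for `a ∈ BadL m κ t`: `∫∫ N2 (a, ∅, kB {m} κ * w, w') ≥ 3/8 * (1/4) * t`. `radial` with
`G (a, (w, w')) = N2 a ∅ (kB {m} κ * w) w'`, and `P2` with `T = ∅`, `u = 0`, `υ = 1`, `η = 1`, `z = 0`, `M = 1`, `κ := kB {m} κ`, `κ' := 1`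
(`kB * (g * w)`; `reg0_nzr_ae`, `mu_ac`): `∫ ≤ 16 * 10¹¹ n⁷ d² 2/(κ² ε)`; times `32/3/t`.
-/

set_option autoImplicit false
open MeasureTheory ProbabilityTheory
open scoped ENNReal Classical

namespace Pool.Agent.H.MP_0cad2f_co.NT

variable {n d : ℕ} {c : Con n d} {κ ε σ R : ℝ}

/-- scaling of all coordinates -/
private theorem LastT_scale {E : Type*} [NormedAddCommGroup E] [NormedSpace ℝ E]
    [FiniteDimensional ℝ E] [MeasureSpace E] [BorelSpace E]
    [(volume : Measure E).IsAddHaarMeasure] (r : Fin n → ℝ) (hr : ∀ i, 0 < r i)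
    (f : (Fin n → E) → ℝ≥0∞) (hf : Measurable f) :
    ∫⁻ x : Fin n → E, f (fun i => r i • x i) =
      (∏ i, ENNReal.ofReal ((r i)⁻¹ ^ (Module.finrank ℝ E))) * ∫⁻ x, f x := by
  have key : ∀ s : Finset (Fin n), ∀ f : (Fin n → E) → ℝ≥0∞, Measurable f →
      ∫⁻ x : Fin n → E, f (fun i => if i ∈ s then r i • x i else x i) =
      (∏ i ∈ s, ENNReal.ofReal ((r i)⁻¹ ^ (Module.finrank ℝ E))) * ∫⁻ x, f x := by
    intro s
    induction s using Finset.induction_on with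
    | empty =>
      intro f _
      simp
    | insert j s hj ih =>
      intro f hf
      have hm : Measurable fun x : Fin n → E => f (fun i => if i ∈ s then r i • x i else x i) := by
        refine hf.comp (measurable_pi_iff.2 fun i => ?_)
        by_cases hi : i ∈ s
        · simp only [if_pos hi]
          exact (measurable_pi_apply i).const_smul (r i)
        · simp only [if_neg hi]
          exact measurable_pi_apply i
      have h1 := lintegral_update_smul _ hm j (hr j) (fun _ => (0 : E)) (fun _ _ => rfl)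
        measurable_const
      rw [ih f hf, ← mul_assoc] at h1
      rw [Finset.prod_insert hj, ← h1]
      refine lintegral_congr fun x => ?_
      congr 1
      funext i
      by_cases hij : i = j
      · subst hij
        rw [if_pos (Finset.mem_insert_self i s), if_neg hj, Function.update_self, add_zero]
      · rw [Function.update_of_ne hij]
        by_cases hi : i ∈ s
        · rw [if_pos hi, if_pos (Finset.mem_insert_of_mem hi)]
        · rw [if_neg hi, if_neg (fun h => (Finset.mem_insert.1 h).elim hij hi)]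
  have h2 := key Finset.univ f hf
  simpa using h2

/-- the weights -/
private theorem LastT_weight {ε : ℝ} (hn : 2 ≤ n) (hd : 1 ≤ d) (hε : 0 ≤ ε)
    (hε1 : 8 * n ^ 2 * d * ε ≤ 1) {g : Wt n} (hg : ∀ i, 1 - ε ≤ g i ∧ g i ≤ 1)
    (H : Wt n → ℝ≥0∞) (hH : Measurable H) :
    ∫⁻ w in cube n 0, H w ≤ ∫⁻ w in cube n (1 / n ^ 2), H (g * w) := by
  have hn' : (2 : ℝ) ≤ n := by exact_mod_cast hn
  have hd' : (1 : ℝ) ≤ d := by exact_mod_cast hd
  have hn2 : (4 : ℝ) ≤ (n : ℝ) ^ 2 := by nlinarith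
  have hε2 : 8 * (n : ℝ) ^ 2 * ε ≤ 1 := by
    have h1 : 8 * (n : ℝ) ^ 2 * ε ≤ 8 * (n : ℝ) ^ 2 * d * ε := by
      have h2 : 0 ≤ 8 * (n : ℝ) ^ 2 * ε := by positivity
      nlinarith
    linarith
  have hε3 : ε ≤ 1 / 32 := by nlinarith
  have hg0 : ∀ i, 0 < g i := fun i => by linarith [(hg i).1]
  have hs := LastT_scale (E := ℝ) g hg0 ((cube n 0).indicator H)
    (hH.indicator (measurableSet_cube 0))
  have hP : 1 ≤ ∏ i, ENNReal.ofReal ((g i)⁻¹ ^ (Module.finrank ℝ ℝ)) := by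
    refine Finset.one_le_prod' fun i _ => ?_
    rw [Module.finrank_self, pow_one, ← ENNReal.ofReal_one]
    exact ENNReal.ofReal_le_ofReal ((one_le_inv₀ (hg0 i)).2 (hg i).2)
  calc ∫⁻ w in cube n 0, H w = ∫⁻ w, (cube n 0).indicator H w :=
        (lintegral_indicator (measurableSet_cube 0) _).symm
    _ = 1 * ∫⁻ w, (cube n 0).indicator H w := (one_mul _).symm
    _ ≤ (∏ i, ENNReal.ofReal ((g i)⁻¹ ^ (Module.finrank ℝ ℝ))) *
        ∫⁻ w, (cube n 0).indicator H w := mul_le_mul_left hP _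
    _ = ∫⁻ w : Wt n, (cube n 0).indicator H (fun i => g i • w i) := hs.symm
    _ ≤ ∫⁻ w : Wt n, (cube n (1 / n ^ 2)).indicator (fun w => H (g * w)) w := by
        refine lintegral_mono fun w => ?_
        by_cases hw : (fun i => g i • w i) ∈ cube n 0
        · have hw' : w ∈ cube n (1 / n ^ 2) := by
            intro i _
            have h1 := hw i (Set.mem_univ i)
            have h2 : 1 - (0 : ℝ) ≤ g i * w i := h1.1
            have h3 : g i * w i ≤ 2 + 0 := h1.2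
            have h4 := hg i
            have h5 : 0 < w i := by
              by_contra h
              nlinarith [hg0 i, not_lt.1 h]
            have h6 : (0 : ℝ) < 1 / (n : ℝ) ^ 2 := by positivity
            have h7 : (n : ℝ) ^ 2 * (1 / (n : ℝ) ^ 2) = 1 := by
              field_simp
            constructor
            · nlinarith
            · by_contra h
              have h8 : 2 + 1 / (n : ℝ) ^ 2 < w i := not_le.1 h
              have h9 : (1 - ε) * (2 + 1 / (n : ℝ) ^ 2) < 2 := by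
                have h10 : (1 - ε) * (2 + 1 / (n : ℝ) ^ 2) ≤ (1 - ε) * w i :=
                  mul_le_mul_of_nonneg_left h8.le (by linarith)
                have h11 : (1 - ε) * w i ≤ g i * w i :=
                  mul_le_mul_of_nonneg_right h4.1 h5.le
                have h12 : (1 - ε) * (2 + 1 / (n : ℝ) ^ 2) < (1 - ε) * w i :=
                  mul_lt_mul_of_pos_left h8 (by linarith)
                linarith
              have h13 : 8 * ε ≤ 1 / (n : ℝ) ^ 2 := by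
                rw [le_div_iff₀ (by positivity)]
                linarith
              have h14 : 1 / (n : ℝ) ^ 2 ≤ 1 := by
                rw [div_le_one (by positivity)]
                linarith
              nlinarith
          rw [Set.indicator_of_mem hw, Set.indicator_of_mem hw']
          exact le_of_eq rfl
        · rw [Set.indicator_of_notMem hw]
          exact zero_le
    _ = ∫⁻ w in cube n (1 / n ^ 2), H (g * w) := lintegral_indicator (measurableSet_cube _) _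

private theorem LastT_nzr (a : Con n d) (ε : ℝ) (q : Wt n) :
    nzr a ∅ 0 1 ε q = fun i => (gz ∅ 1 ε q i)⁻¹ • a i := by
  funext i
  change (gz ∅ 1 ε q i)⁻¹ • nz a ∅ 0 ε q i = (gz ∅ 1 ε q i)⁻¹ • a i
  rw [nz, if_neg (Finset.notMem_empty i), smul_zero, add_zero]

private theorem LastT_gz {ε : ℝ} (hε : 0 ≤ ε) {q : Wt n} (hq : q ∈ cube n 0) (i : Fin n) :
    1 - ε ≤ gz ∅ 1 ε q i ∧ gz ∅ 1 ε q i ≤ 1 := by
  have h1 : gz ∅ 1 ε q i = 1 - 1 * (ε * (q i - 1)) := by
    rw [gz, if_neg (Finset.notMem_empty i)]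
  have h2 := hq i (Set.mem_univ i)
  have h3 : 1 - (0 : ℝ) ≤ q i := h2.1
  have h4 : q i ≤ 2 + 0 := h2.2
  rw [h1]
  constructor <;> nlinarith

private theorem LastT_prod (hn : 2 ≤ n) (hε : 0 ≤ ε) (hε1 : 8 * n ^ 2 * d * ε ≤ 1) (hd : 1 ≤ d)
    {g : Wt n} (hg : ∀ i, 1 - ε ≤ g i ∧ g i ≤ 1) :
    (1 : ℝ≥0∞) ≤ 2 * ∏ i, ENNReal.ofReal (((g i)⁻¹)⁻¹ ^ (Module.finrank ℝ (Fin d → ℝ))) := by
  have hn' : (2 : ℝ) ≤ n := by exact_mod_cast hn
  have hd' : (1 : ℝ) ≤ d := by exact_mod_cast hd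
  have hnd : (n : ℝ) * d * ε ≤ 1 / 8 := by
    have h1 : (n : ℝ) * d * ε ≤ n ^ 2 * d * ε := by
      have h2 : 0 ≤ (n : ℝ) * d * ε := by positivity
      nlinarith
    linarith
  have hε4 : ε ≤ 1 / 8 := by
    have h2 : ε ≤ (n : ℝ) * d * ε := by
      have h3 : 1 ≤ (n : ℝ) * d := by nlinarith
      nlinarith
    linarith
  rw [Module.finrank_fin_fun, ← ENNReal.ofReal_prod_of_nonneg (fun i _ => by
    rw [inv_inv]
    exact pow_nonneg (by linarith [(hg i).1]) _)]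
  have h1 : (1 - ε) ^ (d * n) ≤ ∏ i, ((g i)⁻¹)⁻¹ ^ d := by
    rw [pow_mul]
    calc ((1 - ε) ^ d) ^ n = ∏ _i : Fin n, (1 - ε) ^ d := by
          rw [Finset.prod_const, Finset.card_univ, Fintype.card_fin]
      _ ≤ ∏ i, ((g i)⁻¹)⁻¹ ^ d := by
          refine Finset.prod_le_prod (fun i _ => pow_nonneg (by linarith) _) fun i _ => ?_
          rw [inv_inv]
          exact pow_le_pow_left₀ (by linarith) (hg i).1 d
  have h2 : 1 - (d * n : ℕ) * ε ≤ (1 - ε) ^ (d * n) := by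
    have h3 := one_add_mul_le_pow (a := -ε) (by linarith) (d * n)
    calc 1 - (d * n : ℕ) * ε = 1 + (d * n : ℕ) * -ε := by ring
      _ ≤ (1 + -ε) ^ (d * n) := h3
      _ = (1 - ε) ^ (d * n) := by rw [← sub_eq_add_neg]
  have h3 : (1 : ℝ) ≤ 2 * ∏ i, ((g i)⁻¹)⁻¹ ^ d := by
    push_cast at h2
    nlinarith
  calc (1 : ℝ≥0∞) = ENNReal.ofReal 1 := ENNReal.ofReal_one.symm
    _ ≤ ENNReal.ofReal (2 * ∏ i, ((g i)⁻¹)⁻¹ ^ d) := ENNReal.ofReal_le_ofReal h3
    _ = 2 * ENNReal.ofReal (∏ i, ((g i)⁻¹)⁻¹ ^ d) := by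
        rw [ENNReal.ofReal_mul (by norm_num), ENNReal.ofReal_ofNat]

private theorem LastT_dens (hσ : 0 < σ) (hc : ∀ i, ∑ j, (c i j) ^ 2 ≤ 1) (hR : 1 ≤ R)
    (hn : 2 ≤ n) (hε : 0 ≤ ε) (hε2 : 6 * n ^ 2 * ε * R ^ 2 ≤ σ ^ 2)
    {g : Wt n} (hg : ∀ i, 1 - ε ≤ g i ∧ g i ≤ 1) (hg0 : ∀ i, 0 < g i) {a : Con n d}
    (ha : Bdd R (fun i => (g i)⁻¹ • a i)) :
    dens c σ (fun i => (g i)⁻¹ • a i) ≤ ENNReal.ofReal (Real.exp 1) * dens c σ a := by
  have hn' : (2 : ℝ) ≤ n := by exact_mod_cast hn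
  refine dens_le hσ ?_
  obtain ⟨b, hb⟩ : ∃ b : Con n d, b = fun i => (g i)⁻¹ • a i := ⟨_, rfl⟩
  rw [← hb] at ha
  have hab : ∀ i, a i = g i • b i := by
    intro i
    rw [hb]
    change a i = g i • (g i)⁻¹ • a i
    rw [smul_smul, mul_inv_cancel₀ (hg0 i).ne', one_smul]
  have hbi : ∀ i, (g i)⁻¹ • a i = b i := fun i => by rw [hb]
  simp only [hbi]
  rw [← Finset.sum_sub_distrib]
  have h1 : ∀ i, (a i - c i) ⬝ᵥ (a i - c i) - (b i - c i) ⬝ᵥ (b i - c i) ≤
      ε * (2 * R ^ 2) := by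
    intro i
    have hbb : b i ⬝ᵥ b i ≤ R ^ 2 := ha i
    have hcc : c i ⬝ᵥ c i ≤ 1 := by
      have h2 := hc i
      have h3 : c i ⬝ᵥ c i = ∑ j, (c i j) ^ 2 := by
        unfold dotProduct
        exact Finset.sum_congr rfl fun j _ => (sq (c i j)).symm
      rw [h3]
      exact h2
    have hbc : 2 * (b i ⬝ᵥ c i) ≤ b i ⬝ᵥ b i + c i ⬝ᵥ c i := by
      unfold dotProduct
      rw [Finset.mul_sum, ← Finset.sum_add_distrib]
      refine Finset.sum_le_sum fun j _ => ?_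
      nlinarith [sq_nonneg (b i j - c i j)]
    have hb0 : 0 ≤ b i ⬝ᵥ b i := by
      unfold dotProduct
      exact Finset.sum_nonneg fun j _ => mul_self_nonneg _
    have e1 : (a i - c i) ⬝ᵥ (a i - c i) - (b i - c i) ⬝ᵥ (b i - c i) =
        (g i ^ 2 - 1) * (b i ⬝ᵥ b i) + (1 - g i) * (2 * (b i ⬝ᵥ c i)) := by
      rw [hab i]
      simp only [sub_dotProduct, dotProduct_sub, smul_dotProduct, dotProduct_smul, smul_eq_mul]
      rw [dotProduct_comm (c i) (b i)]
      ring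
    rw [e1]
    have hg1 := hg i
    have h4 : (g i ^ 2 - 1) * (b i ⬝ᵥ b i) ≤ 0 := by
      have : g i ^ 2 - 1 ≤ 0 := by nlinarith [hg0 i]
      nlinarith
    have h5 : (1 - g i) * (2 * (b i ⬝ᵥ c i)) ≤ (1 - g i) * (2 * R ^ 2) := by
      refine mul_le_mul_of_nonneg_left ?_ (by linarith)
      nlinarith
    have h6 : (1 - g i) * (2 * R ^ 2) ≤ ε * (2 * R ^ 2) :=
      mul_le_mul_of_nonneg_right (by linarith) (by positivity)
    linarith
  calc ∑ i, ((a i - c i) ⬝ᵥ (a i - c i) - (b i - c i) ⬝ᵥ (b i - c i))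
      ≤ ∑ _i : Fin n, ε * (2 * R ^ 2) := Finset.sum_le_sum fun i _ => h1 i
    _ = n * (ε * (2 * R ^ 2)) := by
        rw [Finset.sum_const, Finset.card_univ, Fintype.card_fin, nsmul_eq_mul]
    _ ≤ 2 * σ ^ 2 * 1 := by
        have h7 : 0 ≤ ε * R ^ 2 := by positivity
        nlinarith

theorem radial (hσ : 0 < σ) (hc : ∀ i, ∑ j, (c i j) ^ 2 ≤ 1) (hR : 1 ≤ R) (hn : 2 ≤ n)
    (hd : 1 ≤ d) (hε : 0 ≤ ε) (hε1 : 8 * n ^ 2 * d * ε ≤ 1) (hε2 : 6 * n ^ 2 * ε * R ^ 2 ≤ σ ^ 2)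
    (G : Con n d × (Wt n × Wt n) → ℝ≥0∞) (hG : Measurable G) :
    ∫⁻ a, ∫⁻ w, ∫⁻ w', {a | Bdd R a}.indicator (fun _ => G (a, (w, w'))) a
      ∂(uW n) ∂(uW n) ∂(mu c σ) ≤
    16 * ∫⁻ q, ∫⁻ a, ∫⁻ w in cube n (1 / n ^ 2), ∫⁻ w' in cube n (1 / n ^ 2),
      G (nzr a ∅ 0 1 ε q, (gz ∅ 1 ε q * w, gz ∅ 1 ε q * w'))
      ∂volume ∂volume ∂(mu c σ) ∂(uW n) := by
  have hn' : (2 : ℝ) ≤ n := by exact_mod_cast hn
  have hd' : (1 : ℝ) ≤ d := by exact_mod_cast hd
  have hε8 : ε ≤ 1 / 8 := by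
    have h3 : (1 : ℝ) ≤ (n : ℝ) ^ 2 * d := by nlinarith
    nlinarith
  obtain ⟨LHS, hLHS⟩ : ∃ x : ℝ≥0∞, x = ∫⁻ a, ∫⁻ w, ∫⁻ w',
      {a | Bdd R a}.indicator (fun _ => G (a, (w, w'))) a ∂(uW n) ∂(uW n) ∂(mu c σ) := ⟨_, rfl⟩
  rw [← hLHS]
  have key : ∀ q ∈ cube n 0, LHS ≤ 16 * ∫⁻ a, ∫⁻ w in cube n (1 / n ^ 2),
      ∫⁻ w' in cube n (1 / n ^ 2), G (nzr a ∅ 0 1 ε q, (gz ∅ 1 ε q * w, gz ∅ 1 ε q * w'))
      ∂volume ∂volume ∂(mu c σ) := by
    intro q hq
    obtain ⟨g, hgdef⟩ : ∃ g : Wt n, g = gz ∅ 1 ε q := ⟨_, rfl⟩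
    have hg : ∀ i, 1 - ε ≤ g i ∧ g i ≤ 1 := fun i => by
      rw [hgdef]
      exact LastT_gz hε hq i
    have hg0 : ∀ i, 0 < g i := fun i => by linarith [(hg i).1]
    -- the integral over the weights
    let K : Con n d → ℝ≥0∞ := fun a => ∫⁻ w in cube n (1 / n ^ 2), ∫⁻ w' in cube n (1 / n ^ 2),
      G (a, (g * w, g * w'))
    have hK : Measurable K := by
      have h1 : Measurable fun p : (Con n d × Wt n) × Wt n => G (p.1.1, (g * p.1.2, g * p.2)) := by
        refine hG.comp ((measurable_fst.comp measurable_fst).prodMk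
          (Measurable.prodMk ?_ ?_))
        · exact (measurable_snd.comp measurable_fst).const_mul g
        · exact measurable_snd.const_mul g
      have h2 : Measurable fun p : Con n d × Wt n => ∫⁻ w' in cube n (1 / n ^ 2),
          G (p.1, (g * p.2, g * w')) :=
        Measurable.lintegral_prod_right' (ν := volume.restrict (cube n (1 / n ^ 2))) h1
      exact Measurable.lintegral_prod_right' (ν := volume.restrict (cube n (1 / n ^ 2))) h2
    have hKle : ∀ a, ∫⁻ w, ∫⁻ w', G (a, (w, w')) ∂(uW n) ∂(uW n) ≤ K a := by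
      intro a
      have hm1 : Measurable fun w : Wt n => ∫⁻ w' in cube n 0, G (a, (w, w')) := by
        have h1 : Measurable fun p : Wt n × Wt n => G (a, (p.1, p.2)) :=
          hG.comp (measurable_const.prodMk measurable_id)
        exact Measurable.lintegral_prod_right' (ν := volume.restrict (cube n 0)) h1
      change ∫⁻ w in cube n 0, ∫⁻ w' in cube n 0, G (a, (w, w')) ≤ K a
      refine (LastT_weight hn hd hε hε1 hg _ hm1).trans ?_
      refine lintegral_mono fun w => ?_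
      exact LastT_weight hn hd hε hε1 hg (fun w' => G (a, (g * w, w')))
        (hG.comp (measurable_const.prodMk (measurable_const.prodMk measurable_id)))
    have hBm : MeasurableSet {a : Con n d | Bdd R a} := measurableSet_bdd R
    have h1 : LHS ≤ ∫⁻ a, {a | Bdd R a}.indicator K a ∂(mu c σ) := by
      rw [hLHS]
      refine lintegral_mono fun a => ?_
      by_cases ha : a ∈ {a : Con n d | Bdd R a}
      · simp only [Set.indicator_of_mem ha]
        exact hKle a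
      · simp only [Set.indicator_of_notMem ha, lintegral_const, zero_mul, le_refl]
    have hIm : Measurable ({a : Con n d | Bdd R a}.indicator K) := hK.indicator hBm
    have hDm : Measurable fun a => dens c σ a * {a : Con n d | Bdd R a}.indicator K a :=
      (measurable_dens c σ).mul hIm
    have h2 : ∫⁻ a, {a | Bdd R a}.indicator K a ∂(mu c σ) =
        ∫⁻ a : Con n d, dens c σ a * {a | Bdd R a}.indicator K a := lintegral_mu hσ _ hIm
    have hri : ∀ i, 0 < (g i)⁻¹ := fun i => inv_pos.2 (hg0 i)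
    have h3 := LastT_scale (E := Fin d → ℝ) (fun i => (g i)⁻¹) hri _ hDm
    have h4 : ∫⁻ a : Con n d, dens c σ a * {a | Bdd R a}.indicator K a ≤
        2 * ∫⁻ a : Con n d, dens c σ (fun i => (g i)⁻¹ • a i) *
          {a | Bdd R a}.indicator K (fun i => (g i)⁻¹ • a i) := by
      rw [h3, ← mul_assoc]
      calc ∫⁻ a : Con n d, dens c σ a * {a | Bdd R a}.indicator K a
          = 1 * ∫⁻ a : Con n d, dens c σ a * {a | Bdd R a}.indicator K a := (one_mul _).symm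
        _ ≤ _ := mul_le_mul_left (LastT_prod hn hε hε1 hd hg) _
    have h5 : ∫⁻ a : Con n d, dens c σ (fun i => (g i)⁻¹ • a i) *
          {a | Bdd R a}.indicator K (fun i => (g i)⁻¹ • a i) ≤
        ∫⁻ a : Con n d, ENNReal.ofReal (Real.exp 1) *
          (dens c σ a * K (fun i => (g i)⁻¹ • a i)) := by
      refine lintegral_mono fun a => ?_
      by_cases ha : (fun i => (g i)⁻¹ • a i) ∈ {a : Con n d | Bdd R a}
      · simp only [Set.indicator_of_mem ha]
        rw [← mul_assoc]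
        exact mul_le_mul_left (LastT_dens hσ hc hR hn hε hε2 hg hg0 ha) _
      · simp only [Set.indicator_of_notMem ha, mul_zero, zero_le]
    have hsm : Measurable fun a : Con n d => (fun i => (g i)⁻¹ • a i : Con n d) :=
      measurable_pi_iff.2 fun i =>
        Measurable.const_smul (g := fun x : Con n d => x i) (measurable_pi_apply i) ((g i)⁻¹)
    have hK' : Measurable fun a : Con n d => K (fun i => (g i)⁻¹ • a i) := hK.comp hsm
    have h6 : ∫⁻ a : Con n d, ENNReal.ofReal (Real.exp 1) *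
          (dens c σ a * K (fun i => (g i)⁻¹ • a i)) =
        ENNReal.ofReal (Real.exp 1) * ∫⁻ a, K (fun i => (g i)⁻¹ • a i) ∂(mu c σ) := by
      rw [lintegral_const_mul' _ _ ENNReal.ofReal_ne_top, lintegral_mu hσ _ hK']
    have h7 : ENNReal.ofReal (Real.exp 1) ≤ 8 := by
      have h8 : Real.exp 1 ≤ 8 := by
        have := Real.exp_one_lt_d9
        linarith
      calc ENNReal.ofReal (Real.exp 1) ≤ ENNReal.ofReal 8 := ENNReal.ofReal_le_ofReal h8
        _ = 8 := ENNReal.ofReal_ofNat 8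
    calc LHS ≤ ∫⁻ a, {a | Bdd R a}.indicator K a ∂(mu c σ) := h1
      _ ≤ 2 * (ENNReal.ofReal (Real.exp 1) * ∫⁻ a, K (fun i => (g i)⁻¹ • a i) ∂(mu c σ)) := by
          rw [h2, ← h6]
          exact h4.trans (mul_le_mul_right h5 _)
      _ ≤ 2 * (8 * ∫⁻ a, K (fun i => (g i)⁻¹ • a i) ∂(mu c σ)) :=
          mul_le_mul_right (mul_le_mul_left h7 _) _
      _ = 16 * ∫⁻ a, K (fun i => (g i)⁻¹ • a i) ∂(mu c σ) := by
          rw [← mul_assoc]
          norm_num
      _ = _ := by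
          congr 1
          refine lintegral_congr fun a => ?_
          rw [LastT_nzr, ← hgdef]
  have hae : ∀ᵐ q ∂(uW n), q ∈ cube n 0 := ae_restrict_mem (measurableSet_cube 0)
  calc LHS = ∫⁻ _q, LHS ∂(uW n) := by rw [lintegral_const, measure_univ, mul_one]
    _ ≤ ∫⁻ q, 16 * ∫⁻ a, ∫⁻ w in cube n (1 / n ^ 2), ∫⁻ w' in cube n (1 / n ^ 2),
        G (nzr a ∅ 0 1 ε q, (gz ∅ 1 ε q * w, gz ∅ 1 ε q * w'))
        ∂volume ∂volume ∂(mu c σ) ∂(uW n) := by
        refine lintegral_mono_ae ?_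
        filter_upwards [hae] with q hq
        exact key q hq
    _ = _ := lintegral_const_mul' _ _ (by norm_num)

theorem badL_le (hσ : 0 < σ) (hc : ∀ i, ∑ j, (c i j) ^ 2 ≤ 1) (hR : 1 ≤ R) (hn : 2 ≤ n)
    (hd : 1 ≤ d) (hε : 0 < ε) (hε1 : 8 * n ^ 2 * d * ε ≤ 1) (hε2 : 6 * n ^ 2 * ε * R ^ 2 ≤ σ ^ 2)
    (hκ : 0 < κ) (hκ1 : κ ≤ 1) (m : Fin n) (t : ℕ) (ht : 1 ≤ t) :
    mu c σ {a | Bdd R a ∧ a ∈ BadL m κ t} ≤
      ENNReal.ofReal (10 ^ 14 * n ^ 7 * d ^ 2 / (κ ^ 2 * ε) / t) := by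
  have hn' : (2 : ℝ) ≤ n := by exact_mod_cast hn
  have hd' : (1 : ℝ) ≤ d := by exact_mod_cast hd
  have ht' : (1 : ℝ) ≤ t := by exact_mod_cast ht
  have hε8 : ε ≤ 1 / 8 := by
    have h3 : (1 : ℝ) ≤ (n : ℝ) ^ 2 * d := by nlinarith
    nlinarith
  have ht0 : (t : ℝ≥0∞) ≠ 0 := by
    have : t ≠ 0 := by omega
    exact_mod_cast this
  have htt : (t : ℝ≥0∞) ≠ ⊤ := ENNReal.natCast_ne_top t
  obtain ⟨k, hk⟩ : ∃ k : Wt n, k = kB {m} κ := ⟨_, rfl⟩
  have hkb : ∀ i, κ ≤ k i ∧ k i ≤ 1 := by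
    intro i
    rw [hk, kB]
    split_ifs
    · exact ⟨hκ1, le_rfl⟩
    · exact ⟨le_rfl, hκ1⟩
  have hcast : Measurable fun x : ℕ => (x : ℝ≥0∞) := measurable_of_countable _
  let G : Con n d × (Wt n × Wt n) → ℝ≥0∞ := fun x => (N2 x.1 ∅ (k * x.2.1) x.2.2 : ℝ≥0∞)
  have hG : Measurable G := by
    have h1 : Measurable fun x : Con n d × (Wt n × Wt n) => (x.1, (k * x.2.1, x.2.2)) :=
      measurable_fst.prodMk (((measurable_fst.comp measurable_snd).const_mul k).prodMk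
        (measurable_snd.comp measurable_snd))
    exact hcast.comp ((measurable_N2 ∅).comp h1)
  let F : Con n d → ℝ≥0∞ := fun a => ∫⁻ w, ∫⁻ w', G (a, (w, w')) ∂(uW n) ∂(uW n)
  have hF : Measurable F := by
    have h1 : Measurable fun p : (Con n d × Wt n) × Wt n => G (p.1.1, (p.1.2, p.2)) :=
      hG.comp ((measurable_fst.comp measurable_fst).prodMk
        ((measurable_snd.comp measurable_fst).prodMk measurable_snd))
    have h2 : Measurable fun p : Con n d × Wt n => ∫⁻ w', G (p.1, (p.2, w')) ∂(uW n) :=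
      Measurable.lintegral_prod_right' (ν := uW n) h1
    exact Measurable.lintegral_prod_right' (ν := uW n) h2
  -- Markov twice
  have hbad : ∀ a : Con n d, a ∈ BadL m κ t → 3 / 32 * (t : ℝ≥0∞) ≤ F a := by
    intro a ha
    have h1 : 3 / 8 ≤ uW n {w | 1 / 4 < uW n {w' | t < N2 a ∅ (kB {m} κ * w) w'}} := ha
    rw [← hk] at h1
    have hin : Measurable fun w : Wt n => ∫⁻ w', G (a, (w, w')) ∂(uW n) := by
      have h2 : Measurable fun p : Wt n × Wt n => G (a, (p.1, p.2)) :=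
        hG.comp (measurable_const.prodMk measurable_id)
      exact Measurable.lintegral_prod_right' (ν := uW n) h2
    have h2 : {w | 1 / 4 < uW n {w' | t < N2 a ∅ (k * w) w'}} ⊆
        {w | (t : ℝ≥0∞) * (1 / 4) ≤ ∫⁻ w', G (a, (w, w')) ∂(uW n)} := by
      intro w hw
      have hw1 : 1 / 4 < uW n {w' | t < N2 a ∅ (k * w) w'} := hw
      have h3 : (t : ℝ≥0∞) * uW n {w' | t < N2 a ∅ (k * w) w'} ≤
          ∫⁻ w', G (a, (w, w')) ∂(uW n) := by
        have hmw : Measurable fun w' => G (a, (w, w')) :=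
          hG.comp (measurable_const.prodMk (measurable_const.prodMk measurable_id))
        refine le_trans ?_ (mul_meas_ge_le_lintegral hmw (t : ℝ≥0∞))
        refine mul_le_mul_right (measure_mono ?_) _
        intro w' hw'
        have h4 : t < N2 a ∅ (k * w) w' := hw'
        change (t : ℝ≥0∞) ≤ (N2 a ∅ (k * w) w' : ℝ≥0∞)
        exact_mod_cast h4.le
      exact (mul_le_mul_right hw1.le _).trans h3
    have h3 : ((t : ℝ≥0∞) * (1 / 4)) * (3 / 8) ≤ F a := by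
      refine le_trans (mul_le_mul_right (h1.trans (measure_mono h2)) _) ?_
      exact mul_meas_ge_le_lintegral hin _
    refine le_trans (le_of_eq ?_) h3
    have e1 : (1 / 4 : ℝ≥0∞) * (3 / 8) = 3 / 32 := by
      rw [one_div, div_eq_mul_inv, div_eq_mul_inv, mul_left_comm, ← ENNReal.mul_inv
        (Or.inl (by norm_num)) (Or.inl (by norm_num))]
      norm_num
    rw [mul_assoc, e1, mul_comm]
  have hBm : MeasurableSet {a : Con n d | Bdd R a} := measurableSet_bdd R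
  have h1 : (3 / 32 * (t : ℝ≥0∞)) * mu c σ {a | Bdd R a ∧ a ∈ BadL m κ t} ≤
      ∫⁻ a, {a | Bdd R a}.indicator F a ∂(mu c σ) := by
    refine le_trans ?_ (mul_meas_ge_le_lintegral (hF.indicator hBm) (3 / 32 * (t : ℝ≥0∞)))
    refine mul_le_mul_right (measure_mono ?_) _
    intro a ha
    have ha1 : a ∈ {a : Con n d | Bdd R a} := ha.1
    change 3 / 32 * (t : ℝ≥0∞) ≤ {a | Bdd R a}.indicator F a
    rw [Set.indicator_of_mem ha1]
    exact hbad a ha.2
  have h2 : ∫⁻ a, {a | Bdd R a}.indicator F a ∂(mu c σ) =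
      ∫⁻ a, ∫⁻ w, ∫⁻ w', {a | Bdd R a}.indicator (fun _ => G (a, (w, w'))) a
      ∂(uW n) ∂(uW n) ∂(mu c σ) := by
    refine lintegral_congr fun a => ?_
    by_cases ha : a ∈ {a : Con n d | Bdd R a}
    · simp only [Set.indicator_of_mem ha]
      rfl
    · simp only [Set.indicator_of_notMem ha, lintegral_const, zero_mul]
  have h3 := radial hσ hc hR hn hd hε.le hε1 hε2 G hG
  -- exchange of the noise and the configuration
  let Φ : Con n d → Wt n → ℝ≥0∞ := fun a q => ∫⁻ w in cube n (1 / n ^ 2),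
    ∫⁻ w' in cube n (1 / n ^ 2), G (nzr a ∅ 0 1 ε q, (gz ∅ 1 ε q * w, gz ∅ 1 ε q * w'))
  have hgz : Measurable fun q : Wt n => gz ∅ 1 ε q := by
    refine measurable_pi_iff.2 fun i => ?_
    have h4 : (fun q : Wt n => gz ∅ 1 ε q i) = fun q => 1 - 1 * (ε * (q i - 1)) := by
      funext q
      rw [gz, if_neg (Finset.notMem_empty i)]
    rw [h4]
    have h5 : Measurable fun q : Wt n => q i := measurable_pi_apply i
    exact measurable_const.sub (measurable_const.mul (measurable_const.mul (h5.sub_const 1)))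
  have hΦ : Measurable (Function.uncurry fun q a => Φ a q) := by
    have g1 : Measurable fun p : ((Wt n × Con n d) × Wt n) × Wt n =>
        G (nzr p.1.1.2 ∅ 0 1 ε p.1.1.1, (gz ∅ 1 ε p.1.1.1 * p.1.2, gz ∅ 1 ε p.1.1.1 * p.2)) := by
      refine hG.comp (Measurable.prodMk ?_ (Measurable.prodMk ?_ ?_))
      · exact (measurable_nzr ∅ 0 1 ε).comp ((measurable_snd.comp
          (measurable_fst.comp measurable_fst)).prodMk (measurable_fst.comp
          (measurable_fst.comp measurable_fst)))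
      · exact (hgz.comp (measurable_fst.comp (measurable_fst.comp measurable_fst))).mul
          (measurable_snd.comp measurable_fst)
      · exact (hgz.comp (measurable_fst.comp (measurable_fst.comp measurable_fst))).mul
          measurable_snd
    have g2 : Measurable fun p : (Wt n × Con n d) × Wt n => ∫⁻ w' in cube n (1 / n ^ 2),
        G (nzr p.1.2 ∅ 0 1 ε p.1.1, (gz ∅ 1 ε p.1.1 * p.2, gz ∅ 1 ε p.1.1 * w')) :=
      Measurable.lintegral_prod_right' (ν := volume.restrict (cube n (1 / n ^ 2))) g1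
    exact Measurable.lintegral_prod_right' (ν := volume.restrict (cube n (1 / n ^ 2))) g2
  have hswap : ∫⁻ q, ∫⁻ a, Φ a q ∂(mu c σ) ∂(uW n) = ∫⁻ a, ∫⁻ q, Φ a q ∂(uW n) ∂(mu c σ) :=
    lintegral_lintegral_swap hΦ.aemeasurable
  have hreg : ∀ᵐ a ∂(mu c σ), ∀ᵐ q : Wt n, Reg0 (nzr a ∅ 0 1 ε q) :=
    (mu_ac c hσ).ae_le (reg0_nzr_ae ε)
  have hP2 : ∀ᵐ a ∂(mu c σ), ∫⁻ q, Φ a q ∂(uW n) ≤
      ENNReal.ofReal (10 ^ 11 * n ^ 7 * d ^ 2 * (1 + 1) / (κ ^ 2 * ε * 1)) := by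
    filter_upwards [hreg] with a ha
    have h4 := P2 (a := a) (T := ∅) (u := 0) (κ := k) (κ' := 1) (κ0 := κ) (δ := ε) (η := 1)
      (υ := 1) (M := 1) (Or.inr rfl) one_pos le_rfl hε hε8 zero_le_one
      (fun x _ => by rw [zero_dotProduct, zero_add])
      ⟨0, fun i hi => absurd hi (Finset.notMem_empty i), fun i _ => by
        rw [sl, dotProduct_zero, sub_zero]
        constructor <;> linarith⟩ hkb (fun i => ⟨hκ1, le_rfl⟩) hκ hn hd ha
    refine le_trans (le_of_eq ?_) h4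
    refine lintegral_congr fun q => ?_
    refine lintegral_congr fun w => ?_
    refine lintegral_congr fun w' => ?_
    change (N2 (nzr a ∅ 0 1 ε q) ∅ (k * (gz ∅ 1 ε q * w)) (gz ∅ 1 ε q * w') : ℝ≥0∞) = _
    rw [one_mul]
  have h5 : ∫⁻ a, ∫⁻ q, Φ a q ∂(uW n) ∂(mu c σ) ≤
      ENNReal.ofReal (10 ^ 11 * n ^ 7 * d ^ 2 * (1 + 1) / (κ ^ 2 * ε * 1)) := by
    refine (lintegral_mono_ae hP2).trans (le_of_eq ?_)
    rw [lintegral_const, measure_univ, mul_one]
  have h6 : (3 / 32 * (t : ℝ≥0∞)) * mu c σ {a | Bdd R a ∧ a ∈ BadL m κ t} ≤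
      16 * ENNReal.ofReal (10 ^ 11 * n ^ 7 * d ^ 2 * (1 + 1) / (κ ^ 2 * ε * 1)) := by
    refine h1.trans ?_
    rw [h2]
    refine h3.trans (mul_le_mul_right ?_ _)
    change ∫⁻ q, ∫⁻ a, Φ a q ∂(mu c σ) ∂(uW n) ≤ _
    rw [hswap]
    exact h5
  obtain ⟨Y, hY⟩ : ∃ Y : ℝ, Y = 10 ^ 11 * n ^ 7 * d ^ 2 * (1 + 1) / (κ ^ 2 * ε * 1) := ⟨_, rfl⟩
  have hY0 : 0 ≤ Y := by
    rw [hY]
    positivity
  rw [← hY] at h6
  have h7 : ENNReal.ofReal (3 / 32 * t) * mu c σ {a | Bdd R a ∧ a ∈ BadL m κ t} ≤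
      ENNReal.ofReal (16 * Y) := by
    have e1 : ENNReal.ofReal (3 / 32 * t) = 3 / 32 * (t : ℝ≥0∞) := by
      rw [ENNReal.ofReal_mul (by norm_num), ENNReal.ofReal_div_of_pos (by norm_num),
        ENNReal.ofReal_natCast, ENNReal.ofReal_ofNat, ENNReal.ofReal_ofNat]
    have e2 : ENNReal.ofReal (16 * Y) = 16 * ENNReal.ofReal Y := by
      rw [ENNReal.ofReal_mul (by norm_num), ENNReal.ofReal_ofNat]
    rw [e1, e2]
    exact h6
  have h8 : mu c σ {a | Bdd R a ∧ a ∈ BadL m κ t} ≤ ENNReal.ofReal (16 * Y / (3 / 32 * t)) := by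
    rw [ENNReal.ofReal_div_of_pos (by positivity), ENNReal.le_div_iff_mul_le
      (Or.inl (by
        rw [Ne, ENNReal.ofReal_eq_zero, not_le]
        positivity)) (Or.inl ENNReal.ofReal_ne_top), mul_comm]
    exact h7
  refine h8.trans (ENNReal.ofReal_le_ofReal ?_)
  have h9 : Y = 2 * 10 ^ 11 * (n ^ 7 * d ^ 2 / (κ ^ 2 * ε)) := by
    rw [hY, mul_one]
    ring
  have h10 : 0 ≤ (n : ℝ) ^ 7 * d ^ 2 / (κ ^ 2 * ε) := by positivity
  have h11 : (10 : ℝ) ^ 14 * n ^ 7 * d ^ 2 / (κ ^ 2 * ε) / t =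
      10 ^ 14 * (n ^ 7 * d ^ 2 / (κ ^ 2 * ε)) / t := by ring
  rw [h11, h9, div_le_div_iff₀ (by positivity) (by positivity)]
  nlinarith [mul_nonneg h10 (by linarith : (0:ℝ) ≤ t)]

end Pool.Agent.H.MP_0cad2f_co.NT
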