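import Pool.Agent.H.MP_0cad2f_co.NT.Edge

/-!
Measurability. All objects are rational functions of the entries, the index sets are finite.
`measurable_du`: `Matrix.inv_def`, `Ring.inverse_eq_inv'`, `Matrix.det_apply`, `Matrix.adjugate_apply`, `measurable_pi_iff`.
`measurableSet_ind`: `Ind a I ↔ (gram a I).det ≠ 0` (`ind_iff`).
`Vis`: the set of the parameters is open, so `∃ τ` may be restricted to rational `τ`:
`Opt a T (w0 + τ • v) I` is a finite conjunction of strict linear inequalities in `τ` and of conditions without `τ`.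
-/

set_option autoImplicit false
open MeasureTheory ProbabilityTheory
open scoped ENNReal Classical

namespace Pool.Agent.H.MP_0cad2f_co.NT

variable {n d : ℕ}

private theorem Meas_forall {α ι : Type*} [MeasurableSpace α] [Countable ι] {p : α → ι → Prop}
    (h : ∀ i, MeasurableSet {x | p x i}) : MeasurableSet {x | ∀ i, p x i} := by
  have e : {x | ∀ i, p x i} = ⋂ i, {x | p x i} := by
    ext x
    simp
  rw [e]
  exact MeasurableSet.iInter h

private theorem Meas_exists {α ι : Type*} [MeasurableSpace α] [Countable ι] {p : α → ι → Prop}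
    (h : ∀ i, MeasurableSet {x | p x i}) : MeasurableSet {x | ∃ i, p x i} := by
  have e : {x | ∃ i, p x i} = ⋃ i, {x | p x i} := by
    ext x
    simp
  rw [e]
  exact MeasurableSet.iUnion h

private theorem Meas_imp {α : Type*} [MeasurableSpace α] (q : Prop) {p : α → Prop}
    (h : q → MeasurableSet {x | p x}) : MeasurableSet {x | q → p x} := by
  by_cases hq : q
  · have e : {x | q → p x} = {x | p x} := by
      ext x
      simp [hq]
    rw [e]
    exact h hq
  · have e : {x | q → p x} = Set.univ := by
      ext x
      simp [hq]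
    rw [e]
    exact MeasurableSet.univ

private theorem Meas_and {α : Type*} [MeasurableSpace α] {p q : α → Prop}
    (hp : MeasurableSet {x | p x}) (hq : MeasurableSet {x | q x}) :
    MeasurableSet {x | p x ∧ q x} := hp.inter hq

private theorem Meas_const {α : Type*} [MeasurableSpace α] (q : Prop) :
    MeasurableSet {_x : α | q} := by
  by_cases hq : q
  · have e : {_x : α | q} = Set.univ := by
      ext x
      simp [hq]
    rw [e]
    exact MeasurableSet.univ
  · have e : {_x : α | q} = ∅ := by
      ext x
      simp [hq]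
    rw [e]
    exact MeasurableSet.empty

private theorem Meas_not {α : Type*} [MeasurableSpace α] {p : α → Prop}
    (hp : MeasurableSet {x | p x}) : MeasurableSet {x | ¬ p x} := hp.compl

private theorem Meas_or {α : Type*} [MeasurableSpace α] {p q : α → Prop}
    (hp : MeasurableSet {x | p x}) (hq : MeasurableSet {x | q x}) :
    MeasurableSet {x | p x ∨ q x} := hp.union hq

private theorem Meas_eq0 {α : Type*} [MeasurableSpace α] {f : α → ℝ} (hf : Measurable f) :
    MeasurableSet {x | f x = 0} := measurableSet_eq_fun hf measurable_const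

private theorem Meas_cont_gram (I : Finset (Fin n)) :
    Continuous (fun a : Con n d => gram a I) := by
  refine continuous_matrix fun i j => ?_
  show Continuous fun a : Con n d => a i ⬝ᵥ a j
  exact (continuous_apply _).dotProduct (continuous_apply _)

private theorem Meas_cv_add (a : Con n d) (w0 v : Wt n) (τ : ℝ) :
    cv a (w0 + τ • v) = cv a w0 + τ • cv a v := by
  unfold cv
  rw [Finset.smul_sum, ← Finset.sum_add_distrib]
  refine Finset.sum_congr rfl fun i _ => ?_
  rw [Pi.add_apply, Pi.smul_apply, add_smul, smul_eq_mul, mul_smul]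

private theorem Meas_cv_dot (a : Con n d) (w0 v : Wt n) (τ : ℝ) (e : Fin d → ℝ) :
    cv a (w0 + τ • v) ⬝ᵥ e = cv a w0 ⬝ᵥ e + τ * (cv a v ⬝ᵥ e) := by
  rw [Meas_cv_add, add_dotProduct, smul_dotProduct, smul_eq_mul]

private theorem Meas_two (μ β μ' β' : ℝ) :
    (∃ τ : ℝ, μ + τ * β = 0 ∧ μ' + τ * β' = 0) ↔
      (μ * β' = μ' * β ∧ (β ≠ 0 ∨ μ = 0)) ∧ (β' ≠ 0 ∨ μ' = 0) := by
  constructor
  · rintro ⟨τ, h1, h2⟩
    refine ⟨⟨?_, ?_⟩, ?_⟩
    · have e1 : μ = -(τ * β) := by linarith
      have e2 : μ' = -(τ * β') := by linarith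
      rw [e1, e2]
      ring
    · by_cases hb : β = 0
      · right
        rw [hb, mul_zero, add_zero] at h1
        exact h1
      · exact Or.inl hb
    · by_cases hb : β' = 0
      · right
        rw [hb, mul_zero, add_zero] at h2
        exact h2
      · exact Or.inl hb
  · rintro ⟨⟨h1, h2⟩, h3⟩
    by_cases hb : β = 0
    · have hμ : μ = 0 := h2.resolve_left fun h => h hb
      by_cases hb' : β' = 0
      · have hμ' : μ' = 0 := h3.resolve_left fun h => h hb'
        exact ⟨0, by rw [hμ, hb]; ring, by rw [hμ', hb']; ring⟩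
      · refine ⟨-μ' / β', by rw [hμ, hb]; ring, ?_⟩
        field_simp
        ring
    · refine ⟨-μ / β, ?_, ?_⟩
      · field_simp
        ring
      · field_simp
        linarith

theorem measurable_du (I : Finset (Fin n)) (m : Fin n) :
    Measurable (fun a : Con n d => du a I m) := by
  by_cases hm : m ∈ I
  · have e : (fun a : Con n d => du a I m) =
        fun a => ∑ l : I, (gram a I)⁻¹ ⟨m, hm⟩ l • a l := by
      funext a
      rw [du, dif_pos hm]
    rw [e]
    refine measurable_pi_iff.2 fun j => ?_
    simp only [Finset.sum_apply, Pi.smul_apply, smul_eq_mul]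
    refine Finset.measurable_fun_sum _ fun l _ => ?_
    have h1 : Measurable fun a : Con n d => (gram a I)⁻¹ ⟨m, hm⟩ l := by
      have e1 : (fun a : Con n d => (gram a I)⁻¹ ⟨m, hm⟩ l) =
          fun a => ((gram a I).det)⁻¹ * (gram a I).adjugate ⟨m, hm⟩ l := by
        funext a
        rw [Matrix.inv_def, Ring.inverse_eq_inv', Matrix.smul_apply, smul_eq_mul]
      rw [e1]
      refine Measurable.mul ?_ ?_
      · exact ((Meas_cont_gram I).matrix_det.measurable).inv
      · exact (((Meas_cont_gram (d := d) I).matrix_adjugate).matrix_elem _ _).measurable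
    exact h1.mul ((measurable_pi_apply j).comp (measurable_pi_apply (l : Fin n)))
  · have e : (fun a : Con n d => du a I m) = fun _ => 0 := by
      funext a
      rw [du, dif_neg hm]
    rw [e]
    exact measurable_const

theorem measurable_pt (I : Finset (Fin n)) : Measurable (fun a : Con n d => pt a I) := by
  unfold pt
  exact Finset.measurable_fun_sum _ fun m _ => measurable_du I m

theorem measurable_dot {α : Type*} [MeasurableSpace α] {f g : α → Fin d → ℝ} (hf : Measurable f)
    (hg : Measurable g) : Measurable (fun x => f x ⬝ᵥ g x) := by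
  unfold dotProduct
  exact Finset.measurable_fun_sum _ fun i _ =>
    ((measurable_pi_apply i).comp hf).mul ((measurable_pi_apply i).comp hg)

private theorem Meas_row {α : Type*} [MeasurableSpace α] {f : α → Con n d} (hf : Measurable f)
    (i : Fin n) : Measurable fun x => f x i := (measurable_pi_apply i).comp hf

private theorem Meas_sl {α : Type*} [MeasurableSpace α] {f : α → Con n d} (hf : Measurable f)
    {g : α → Fin d → ℝ} (hg : Measurable g) (i : Fin n) : Measurable fun x => sl (f x) i (g x) := by
  unfold sl
  exact measurable_const.sub (measurable_dot (Meas_row hf i) hg)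

private theorem Meas_ind (I : Finset (Fin n)) : MeasurableSet {a : Con n d | Ind a I} := by
  have e : {a : Con n d | Ind a I} = {a | I.card = d ∧ ¬ (gram a I).det = 0} := by
    ext a
    simp only [Ind, Dual_linInd_iff, ne_eq]
  rw [e]
  exact Meas_and (Meas_const _) (Meas_not (Meas_eq0 (Meas_cont_gram I).matrix_det.measurable))

theorem measurable_cv : Measurable (fun x : Con n d × Wt n => cv x.1 x.2) := by
  unfold cv
  refine Finset.measurable_fun_sum _ fun i _ => ?_
  exact ((measurable_pi_apply i).comp measurable_snd).smul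
    ((measurable_pi_apply i).comp measurable_fst)

private theorem Meas_dd (I : Finset (Fin n)) (i : Fin n) {α : Type*} [MeasurableSpace α]
    {f : α → Con n d} (hf : Measurable f) {g : α → Wt n} (hg : Measurable g) :
    Measurable fun x => cv (f x) (g x) ⬝ᵥ du (f x) I i :=
  measurable_dot (measurable_cv.comp (hf.prodMk hg)) ((measurable_du I i).comp hf)

theorem measurableSet_feas (I : Finset (Fin n)) : MeasurableSet {a : Con n d | Feas a I} := by
  unfold Feas
  refine Meas_and (Meas_ind I) (Meas_forall fun i => ?_)
  exact measurableSet_le measurable_const (Meas_sl measurable_id (measurable_pt I) i)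

theorem measurableSet_bdd (R : ℝ) : MeasurableSet {a : Con n d | Bdd R a} := by
  unfold Bdd
  refine Meas_forall fun i => ?_
  exact measurableSet_le (measurable_dot (measurable_pi_apply i) (measurable_pi_apply i))
    measurable_const

theorem measurableSet_reg0 : MeasurableSet {a : Con n d | Reg0 a} := by
  unfold Reg0
  refine Meas_forall fun I => Meas_imp _ fun _ => Meas_and (Meas_ind I) ?_
  refine Meas_forall fun i => Meas_imp _ fun _ => ?_
  exact Meas_not (Meas_eq0 (Meas_sl measurable_id (measurable_pt I) i))

theorem measurableSet_opt (T I : Finset (Fin n)) :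
    MeasurableSet {x : Con n d × Wt n | Opt x.1 T x.2 I} := by
  unfold Opt
  refine Meas_and (Meas_const _) (Meas_and (measurable_fst (measurableSet_feas I)) ?_)
  refine Meas_forall fun i => Meas_imp _ fun _ => Meas_imp _ fun _ => ?_
  exact measurableSet_lt measurable_const (Meas_dd I i measurable_fst measurable_snd)

/-- `∃ τ` with both multipliers zero is a Boolean combination of polynomial conditions:
`(μi + τ βi = 0 ∧ μj + τ βj = 0)` for some `τ` iff `μi βj = μj βi` and (`βi ≠ 0` or `μi = 0`) and (`βj ≠ 0` or `μj = 0`) -/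
theorem measurableSet_gen (T : Finset (Fin n)) :
    MeasurableSet {x : Con n d × (Wt n × Wt n) | Gen x.1 T x.2.1 x.2.2} := by
  unfold Gen
  refine Meas_forall fun I => Meas_imp _ fun _ => Meas_imp _ fun _ => Meas_and ?_ ?_
  · refine Meas_forall fun i => Meas_imp _ fun _ => Meas_imp _ fun _ => Meas_forall fun j =>
      Meas_imp _ fun _ => Meas_imp _ fun _ => Meas_imp _ fun _ => ?_
    have m1 : Measurable fun x : Con n d × (Wt n × Wt n) => cv x.1 x.2.1 ⬝ᵥ du x.1 I i :=
      Meas_dd I i measurable_fst (measurable_fst.comp measurable_snd)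
    have b1 : Measurable fun x : Con n d × (Wt n × Wt n) => cv x.1 x.2.2 ⬝ᵥ du x.1 I i :=
      Meas_dd I i measurable_fst (measurable_snd.comp measurable_snd)
    have m2 : Measurable fun x : Con n d × (Wt n × Wt n) => cv x.1 x.2.1 ⬝ᵥ du x.1 I j :=
      Meas_dd I j measurable_fst (measurable_fst.comp measurable_snd)
    have b2 : Measurable fun x : Con n d × (Wt n × Wt n) => cv x.1 x.2.2 ⬝ᵥ du x.1 I j :=
      Meas_dd I j measurable_fst (measurable_snd.comp measurable_snd)
    have h1 := Meas_not (Meas_and (Meas_and (measurableSet_eq_fun (m1.mul b2) (m2.mul b1))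
      (Meas_or (Meas_not (Meas_eq0 b1)) (Meas_eq0 m1)))
      (Meas_or (Meas_not (Meas_eq0 b2)) (Meas_eq0 m2)))
    refine (congrArg MeasurableSet ?_).mp h1
    ext x
    show (¬ ((_ ∧ (_ ∨ _)) ∧ (_ ∨ _))) ↔ ∀ τ : ℝ, _
    have h2 := Meas_two (cv x.1 x.2.1 ⬝ᵥ du x.1 I i) (cv x.1 x.2.2 ⬝ᵥ du x.1 I i)
      (cv x.1 x.2.1 ⬝ᵥ du x.1 I j) (cv x.1 x.2.2 ⬝ᵥ du x.1 I j)
    rw [← not_exists]
    refine not_congr ?_
    simp only [Meas_cv_dot]
    exact h2.symm
  · refine Meas_forall fun i => Meas_imp _ fun _ => Meas_imp _ fun _ => Meas_not (Meas_and ?_ ?_)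
    · exact Meas_eq0 (Meas_dd I i measurable_fst (measurable_fst.comp measurable_snd))
    · exact Meas_eq0 (Meas_dd I i measurable_fst (measurable_snd.comp measurable_snd))

theorem measurableSet_nv : MeasurableSet {x : Con n d × Wt n | NV x.1 x.2} := by
  unfold NV
  refine Meas_forall fun I => Meas_imp _ fun _ => Meas_forall fun i => Meas_imp _ fun _ => ?_
  exact Meas_not (Meas_eq0 (Meas_dd I i measurable_fst measurable_snd))

/-- the set of the parameters is open -/
theorem opt_open (a : Con n d) (T I : Finset (Fin n)) (w0 v : Wt n) :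
    IsOpen {τ : ℝ | Opt a T (w0 + τ • v) I} := by
  by_cases h : T ⊆ I ∧ Feas a I
  · have e : {τ : ℝ | Opt a T (w0 + τ • v) I} =
        ⋂ i : {i : Fin n // i ∈ I ∧ i ∉ T}, {τ : ℝ | 0 < cv a (w0 + τ • v) ⬝ᵥ du a I i} := by
      ext τ
      simp only [Opt, Set.mem_iInter]
      constructor
      · rintro ⟨-, -, h3⟩ i
        exact h3 i i.2.1 i.2.2
      · intro h3
        exact ⟨h.1, h.2, fun i hi hi' => h3 ⟨i, hi, hi'⟩⟩
    rw [e]
    refine isOpen_iInter_of_finite fun i => ?_
    simp only [Meas_cv_dot]
    exact isOpen_lt continuous_const (by fun_prop)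
  · have e : {τ : ℝ | Opt a T (w0 + τ • v) I} = ∅ := by
      ext τ
      simp only [Set.mem_empty_iff_false, iff_false]
      exact fun h' => h ⟨h'.1, h'.2.1⟩
    rw [e]
    exact isOpen_empty

theorem measurableSet_vis (T I : Finset (Fin n)) (τ0 τ1 : ℝ) :
    MeasurableSet {x : Con n d × (Wt n × Wt n) | Vis x.1 T x.2.1 x.2.2 τ0 τ1 I} := by
  have e : {x : Con n d × (Wt n × Wt n) | Vis x.1 T x.2.1 x.2.2 τ0 τ1 I} =
      {x | ∃ q : ℚ, (τ0 < (q : ℝ) ∧ (q : ℝ) < τ1) ∧ Opt x.1 T (x.2.1 + (q : ℝ) • x.2.2) I} := by
    ext x
    constructor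
    · rintro ⟨τ, h1, h2, h3⟩
      have ho : IsOpen ({τ : ℝ | Opt x.1 T (x.2.1 + τ • x.2.2) I} ∩ Set.Ioo τ0 τ1) :=
        (opt_open x.1 T I x.2.1 x.2.2).inter isOpen_Ioo
      obtain ⟨q, hq⟩ := Rat.denseRange_cast.exists_mem_open ho ⟨τ, h3, h1, h2⟩
      exact ⟨q, hq.2, hq.1⟩
    · rintro ⟨q, ⟨h1, h2⟩, h3⟩
      exact ⟨q, h1, h2, h3⟩
  rw [e]
  refine Meas_exists fun q => Meas_and (Meas_const _) ?_
  have h1 : Measurable fun x : Con n d × (Wt n × Wt n) => (x.1, x.2.1 + (q : ℝ) • x.2.2) :=
    measurable_fst.prodMk ((measurable_fst.comp measurable_snd).add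
      ((measurable_snd.comp measurable_snd).const_smul (q : ℝ)))
  exact h1 (measurableSet_opt T I)

theorem measurable_VS (T : Finset (Fin n)) (τ0 τ1 : ℝ) :
    Measurable (fun x : Con n d × (Wt n × Wt n) => (VS x.1 T x.2.1 x.2.2 τ0 τ1).card) := by
  have e : (fun x : Con n d × (Wt n × Wt n) => (VS x.1 T x.2.1 x.2.2 τ0 τ1).card) =
      fun x => ∑ I : Finset (Fin n), if Vis x.1 T x.2.1 x.2.2 τ0 τ1 I then 1 else 0 := by
    funext x
    rw [VS, Finset.card_filter]
  rw [e]
  refine Finset.measurable_fun_sum _ fun I _ => ?_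
  exact Measurable.ite (measurableSet_vis T I τ0 τ1) measurable_const measurable_const

private theorem Meas_upd (m : Fin n) (c : ℝ) :
    Measurable fun w : Wt n => Function.update w m c := by
  refine measurable_pi_iff.2 fun i => ?_
  by_cases hi : i = m
  · subst hi
    simp only [Function.update_self]
    exact measurable_const
  · simp only [Function.update_of_ne hi]
    exact measurable_pi_apply i

theorem measurable_N1 (T : Finset (Fin n)) (m : Fin n) (L : ℝ) :
    Measurable (fun x : Con n d × Wt n => N1 x.1 T m L x.2) := by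
  have h1 : Measurable fun x : Con n d × Wt n =>
      (x.1, (Function.update x.2 m 0, (Pi.single m (-1) : Wt n))) :=
    measurable_fst.prodMk (((Meas_upd m 0).comp measurable_snd).prodMk measurable_const)
  have h2 := (measurable_VS T (-L) L).comp h1
  simp only [Function.comp_def] at h2
  simp only [N1]
  exact h2

theorem measurable_N2 (T : Finset (Fin n)) :
    Measurable (fun x : Con n d × (Wt n × Wt n) => N2 x.1 T x.2.1 x.2.2) := by
  have h1 : Measurable fun x : Con n d × (Wt n × Wt n) => (x.1, (x.2.1, x.2.2 - x.2.1)) :=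
    measurable_fst.prodMk ((measurable_fst.comp measurable_snd).prodMk
      ((measurable_snd.comp measurable_snd).sub (measurable_fst.comp measurable_snd)))
  have h2 := (measurable_VS T 0 1).comp h1
  simp only [Function.comp_def] at h2
  simp only [N2]
  exact h2

theorem measurable_sli (m : Fin n) (η : ℝ) : Measurable (fun a : Con n d => sli a m η) := by
  unfold sli
  refine measurable_pi_iff.2 fun i => ?_
  by_cases hi : i = m
  · subst hi
    simp only [Function.update_self]
    exact (measurable_pi_apply i).const_smul ((1 - η)⁻¹)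
  · simp only [Function.update_of_ne hi]
    exact measurable_pi_apply i

theorem measurable_NN (S : Finset (Fin n)) (m : Fin n) (δ : ℝ) :
    Measurable (fun x : Con n d × (Wt n × Wt n) => NN x.1 S m δ x.2.1 x.2.2) := by
  have g1 : Measurable fun x : Con n d × (Wt n × Wt n) => (x.1, x.2.1) :=
    measurable_fst.prodMk (measurable_fst.comp measurable_snd)
  have g2 : Measurable fun x : Con n d × (Wt n × Wt n) => (x.1, x.2.2) :=
    measurable_fst.prodMk (measurable_snd.comp measurable_snd)
  have g3 : Measurable fun x : Con n d × (Wt n × Wt n) => (sli x.1 m (et δ), x.2) :=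
    ((measurable_sli m (et δ)).comp measurable_fst).prodMk measurable_snd
  have h1 := (measurable_N1 (d := d) (S.erase m) m (Ld n δ)).comp g1
  have h2 := (measurable_N1 (d := d) (S.erase m) m (Ld n δ)).comp g2
  have h3 := (measurable_N2 (d := d) S).comp g3
  simp only [Function.comp_def] at h1 h2 h3
  simp only [NN]
  exact (h1.add (h3.const_mul (n ^ 2))).add h2

theorem measurable_nz (S : Finset (Fin n)) (m m0 : Fin n) (δ : ℝ) :
    Measurable (fun x : Con n d × Wt n => nz x.1 S (x.1 m0 - x.1 m) δ x.2) := by
  unfold nz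
  refine measurable_pi_iff.2 fun i => ?_
  by_cases hi : i ∈ S
  · simp only [if_pos hi]
    exact Meas_row measurable_fst i
  · simp only [if_neg hi]
    have h1 : Measurable fun x : Con n d × Wt n => δ * (x.2 i - 1) :=
      (((measurable_pi_apply i).comp measurable_snd).sub measurable_const).const_mul _
    exact (Meas_row measurable_fst i).add
      (h1.smul ((Meas_row measurable_fst m0).sub (Meas_row measurable_fst m)))

theorem measurable_nzr (S : Finset (Fin n)) (u : Fin d → ℝ) (υ δ : ℝ) :
    Measurable (fun x : Con n d × Wt n => nzr x.1 S u υ δ x.2) := by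
  refine measurable_pi_iff.2 fun i => ?_
  have h0 : Measurable fun x : Con n d × Wt n => δ * (x.2 i - 1) :=
    (((measurable_pi_apply i).comp measurable_snd).sub measurable_const).const_mul _
  have h1 : Measurable fun x : Con n d × Wt n => gz S υ δ x.2 i := by
    unfold gz
    by_cases hi : i ∈ S
    · simp only [if_pos hi]
      exact measurable_const
    · simp only [if_neg hi]
      exact measurable_const.sub (h0.const_mul _)
  have h2 : Measurable fun x : Con n d × Wt n => nz x.1 S u δ x.2 i := by
    unfold nz
    by_cases hi : i ∈ S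
    · simp only [if_pos hi]
      exact Meas_row measurable_fst i
    · simp only [if_neg hi]
      exact (Meas_row measurable_fst i).add (h0.smul measurable_const)
  have h3 : Measurable fun x : Con n d × Wt n => (gz S υ δ x.2 i)⁻¹ := h1.inv
  exact h3.smul h2

theorem measurable_mnz (S : Finset (Fin n)) (m0 : Fin n) (ε : ℝ) :
    Measurable (fun x : Con n d × (Fin n → Wt n) => mnz x.1 S m0 ε x.2) := by
  unfold mnz
  refine measurable_pi_iff.2 fun i => ?_
  by_cases hi : i ∈ S
  · simp only [if_pos hi]
    exact Meas_row measurable_fst i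
  · simp only [if_neg hi]
    refine (Meas_row measurable_fst i).add (Finset.measurable_fun_sum _ fun m _ => ?_)
    have h0 : Measurable fun x : Con n d × (Fin n → Wt n) => x.2 m :=
      (measurable_pi_apply m).comp measurable_snd
    have h0' : Measurable fun x : Con n d × (Fin n → Wt n) => x.2 m i :=
      (measurable_pi_apply i).comp h0
    have h1 : Measurable fun x : Con n d × (Fin n → Wt n) => ε * (x.2 m i - 1) :=
      (h0'.sub measurable_const).const_mul _
    exact h1.smul ((Meas_row measurable_fst m0).sub (Meas_row measurable_fst m))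

theorem measurableSet_cube (t : ℝ) : MeasurableSet (cube n t) :=
  MeasurableSet.univ_pi fun _ => measurableSet_Icc

theorem measurableSet_BadS (S : Finset (Fin n)) (m0 : Fin n) (δ : ℝ) (κ : Wt n) (t : ℕ) :
    MeasurableSet (BadS S m0 δ κ t : Set (Con n d)) := by
  unfold BadS
  have h1 : ∀ m, Measurable fun y : Con n d × Wt n =>
      uW n {w' | t < NN y.1 S m δ (κ * y.2) w'} := by
    intro m
    have h2 : Measurable fun z : (Con n d × Wt n) × Wt n => (z.1.1, (κ * z.1.2, z.2)) :=
      (measurable_fst.comp measurable_fst).prodMk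
        (((measurable_snd.comp measurable_fst).const_mul κ).prodMk measurable_snd)
    have h5 := (measurable_NN (d := d) S m δ).comp h2
    simp only [Function.comp_def] at h5
    have h3 : MeasurableSet {z : (Con n d × Wt n) × Wt n |
        t < NN z.1.1 S m δ (κ * z.1.2) z.2} :=
      measurableSet_lt measurable_const h5
    exact measurable_measure_prodMk_left h3
  have h4 : MeasurableSet {y : Con n d × Wt n | ∀ m, m ∈ S.erase m0 →
      1 / 2 < uW n {w' | t < NN y.1 S m δ (κ * y.2) w'}} :=
    Meas_forall fun m => Meas_imp _ fun _ => measurableSet_lt measurable_const (h1 m)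
  exact measurableSet_le measurable_const (measurable_measure_prodMk_left h4)

theorem measurableSet_BadL (m : Fin n) (κ : ℝ) (t : ℕ) :
    MeasurableSet (BadL m κ t : Set (Con n d)) := by
  unfold BadL
  have h1 : Measurable fun y : Con n d × Wt n =>
      uW n {w' | t < N2 y.1 ∅ (kB {m} κ * y.2) w'} := by
    have h2 : Measurable fun z : (Con n d × Wt n) × Wt n => (z.1.1, (kB {m} κ * z.1.2, z.2)) :=
      (measurable_fst.comp measurable_fst).prodMk
        (((measurable_snd.comp measurable_fst).const_mul (kB {m} κ)).prodMk measurable_snd)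
    have h5 := (measurable_N2 (d := d) ∅).comp h2
    simp only [Function.comp_def] at h5
    have h3 : MeasurableSet {z : (Con n d × Wt n) × Wt n |
        t < N2 z.1.1 ∅ (kB {m} κ * z.1.2) z.2} :=
      measurableSet_lt measurable_const h5
    exact measurable_measure_prodMk_left h3
  have h4 : MeasurableSet {y : Con n d × Wt n |
      1 / 4 < uW n {w' | t < N2 y.1 ∅ (kB {m} κ * y.2) w'}} :=
    measurableSet_lt measurable_const h1
  exact measurableSet_le measurable_const (measurable_measure_prodMk_left h4)

end Pool.Agent.H.MP_0cad2f_co.NT
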