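import Pool.Agent.H.MP_0cad2f_co.NT.P1a
import Pool.Agent.H.MP_0cad2f_co.NT.Absorb
import Pool.Agent.H.MP_0cad2f_co.NT.GenAE

/-!
The release of one row, expected number of bases (section 3 of the text). `S = insert m T`, `u = a m0 - a m`, `m0 ∈ T`,
`b q = nz a S u δ q`: the rows of `S` do not change, row `i ∉ S` is `a i + (δ (q i - 1)) u`; `V_T = {x | a i ⬝ᵥ x = 1, i ∈ T}`. For `x ∈ V_T`:
`u ⬝ᵥ x = 1 - a m ⬝ᵥ x = sl a m x`. For `I ⊇ T` a basis and `l ∈ I \ T`: `u ⬝ᵥ du I l = - a m ⬝ᵥ du I l`.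

`absorb` with `E = Wt n × Wt n` (pairs `(q, w)`), `ν = volume`, `α` = finite sets, `β = Fin n ⊕ Fin n`, `J = n`, `K = 8 n d`,
`ρ = 1/(K n²)`, `m0 = d`, box `B = cube (1/n) × cube (1/n)`, `V j I = {(q, w) ∈ cube (j/n²) × cube (j/n²) | Vis (b q) T (update (κ w) m 0)
(single m (-1)) (-L j) (L j) I}`, `L j = L + 3 j δ/n²`. The deterministic part is `P1a.lean`.
-/

set_option autoImplicit false
open MeasureTheory ProbabilityTheory
open scoped ENNReal Classical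

namespace Pool.Agent.H.MP_0cad2f_co.NT

section defs

variable {n d : ℕ} (a : Con n d) (T : Finset (Fin n)) (m m0 : Fin n) (κ : Wt n) (L δ ρ : ℝ)

/-- the range of the parameter at step `j` -/
noncomputable def P1L (n : ℕ) (L δ : ℝ) (j : ℕ) : ℝ := L + j * (3 * δ * (1 / (n : ℝ) ^ 2))

/-- the sets of absorption -/
def P1V (j : ℕ) (I : Finset (Fin n)) : Set (Wt n × Wt n) :=
  {x | x.1 ∈ cube n (j * (1 / (n : ℝ) ^ 2)) ∧ x.2 ∈ cube n (j * (1 / (n : ℝ) ^ 2)) ∧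
    Vis (nz a (insert m T) (a m0 - a m) δ x.1) T (Function.update (κ * x.2) m 0)
      (Pi.single m (-1)) (-P1L n L δ j) (P1L n L δ j) I}

/-- the events -/
def P1E (j : ℕ) (I : Finset (Fin n)) : Fin n ⊕ Fin n → Set (Wt n × Wt n)
  | Sum.inl i => {x | x ∈ P1V a T m m0 κ L δ j I ∧ i ∈ I ∧ i ∉ insert m T ∧
      ¬ Vis (nz a (insert m T) (a m0 - a m) δ x.1) T
        (Function.update (κ * (x.2 + Pi.single i (-ρ))) m 0)
        (Pi.single m (-1)) (-P1L n L δ j) (P1L n L δ j) I}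
  | Sum.inr i => {x | x ∈ P1V a T m m0 κ L δ j I ∧ i ∉ I ∧ i ∉ insert m T ∧
      ¬ Feas (nz a (insert m T) (a m0 - a m) δ (x.1 + Pi.single i ρ)) I}

/-- the translations -/
def P1vec (n : ℕ) (ρ : ℝ) : Fin n ⊕ Fin n → Wt n × Wt n
  | Sum.inl i => (0, Pi.single i ρ)
  | Sum.inr i => (Pi.single i (-ρ), 0)

end defs

section steps

variable {n d : ℕ} {a : Con n d} {T I : Finset (Fin n)} {m m0 : Fin n} {κ : Wt n}
  {κ0 L δ ρ : ℝ}

theorem P1_nsmul_single {i : Fin n} (k : ℕ) (s : ℝ) :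
    k • (Pi.single i s : Wt n) = Pi.single i (k * s) := by
  funext l
  by_cases hl : l = i
  · subst hl
    rw [Pi.smul_apply, Pi.single_eq_same, Pi.single_eq_same, nsmul_eq_mul]
  · rw [Pi.smul_apply, Pi.single_eq_of_ne hl, Pi.single_eq_of_ne hl, smul_zero]

theorem P1_cube {q : Wt n} {t η s : ℝ} {i : Fin n} (hq : q ∈ cube n t) (hs : |s| ≤ η) :
    q + Pi.single i s ∈ cube n (t + η) := by
  intro l _
  have h1 := hq l (Set.mem_univ l)
  have h2 := abs_le.1 hs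
  have h3 : 0 ≤ η := (abs_nonneg s).trans hs
  rw [Set.mem_Icc] at h1 ⊢
  by_cases hl : l = i
  · subst hl
    rw [Pi.add_apply, Pi.single_eq_same]
    constructor <;> linarith
  · rw [Pi.add_apply, Pi.single_eq_of_ne hl]
    constructor <;> linarith

theorem P1_cube_mono {q : Wt n} {t η : ℝ} (hq : q ∈ cube n t) (h3 : 0 ≤ η) :
    q ∈ cube n (t + η) := by
  intro l _
  have h1 := hq l (Set.mem_univ l)
  rw [Set.mem_Icc] at h1 ⊢
  constructor <;> linarith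

theorem P1_inl_fst (x : Wt n × Wt n) (k : ℕ) (i : Fin n) :
    (x + k • P1vec n ρ (Sum.inl i)).1 = x.1 := by
  rw [Prod.fst_add, Prod.smul_fst]
  simp only [P1vec, smul_zero, add_zero]

theorem P1_inl_snd (x : Wt n × Wt n) (k : ℕ) (i : Fin n) :
    (x + k • P1vec n ρ (Sum.inl i)).2 = x.2 + Pi.single i (k * ρ) := by
  rw [Prod.snd_add, Prod.smul_snd]
  simp only [P1vec, P1_nsmul_single]

theorem P1_inr_fst (x : Wt n × Wt n) (k : ℕ) (i : Fin n) :
    (x + k • P1vec n ρ (Sum.inr i)).1 = x.1 + Pi.single i (-(k * ρ)) := by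
  rw [Prod.fst_add, Prod.smul_fst]
  simp only [P1vec, P1_nsmul_single, mul_neg]

theorem P1_inr_snd (x : Wt n × Wt n) (k : ℕ) (i : Fin n) :
    (x + k • P1vec n ρ (Sum.inr i)).2 = x.2 := by
  rw [Prod.snd_add, Prod.smul_snd]
  simp only [P1vec, smul_zero, add_zero]

theorem P1_h1 (hm0 : m0 ∈ T) (hκ : ∀ i, κ0 ≤ κ i ∧ κ i ≤ 1) (hκ0 : 0 < κ0) (hδ : 0 < δ)
    (hn : 2 ≤ n) (hρ : 0 < ρ) {K : ℕ} (hK : K * ρ = 1 / (n : ℝ) ^ 2) (j : ℕ) (hj : j < n)
    (c : Fin n ⊕ Fin n) (x : Wt n × Wt n) (hx : x ∈ P1E a T m m0 κ L δ ρ j I c) (k : ℕ)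
    (hk : k < K) : x + k • P1vec n ρ c ∈ P1V a T m m0 κ L δ (j + 1) I := by
  have hη : (0 : ℝ) ≤ 1 / (n : ℝ) ^ 2 := by positivity
  have hkρ : (k : ℝ) * ρ ≤ 1 / (n : ℝ) ^ 2 := by
    rw [← hK]
    exact mul_le_mul_of_nonneg_right (by exact_mod_cast hk.le) hρ.le
  have hkρ0 : 0 ≤ (k : ℝ) * ρ := by positivity
  have hcube : ((j + 1 : ℕ) : ℝ) * (1 / (n : ℝ) ^ 2) = j * (1 / (n : ℝ) ^ 2) +
      1 / (n : ℝ) ^ 2 := by
    push_cast
    ring
  have hLj : P1L n L δ (j + 1) = P1L n L δ j + 3 * δ * (1 / (n : ℝ) ^ 2) := by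
    unfold P1L
    push_cast
    ring
  have hLj' : P1L n L δ j ≤ P1L n L δ (j + 1) := by
    rw [hLj]
    have : 0 ≤ 3 * δ * (1 / (n : ℝ) ^ 2) := by positivity
    linarith
  rcases c with i | i
  · obtain ⟨⟨h1, h2, h3⟩, hi, hiS, -⟩ := hx
    have him : i ≠ m := fun h => hiS (h ▸ Finset.mem_insert_self m T)
    unfold P1V
    rw [Set.mem_ofPred_eq, P1_inl_fst, P1_inl_snd, hcube]
    refine ⟨P1_cube_mono h1 hη, P1_cube h2 (by rwa [abs_of_nonneg hkρ0]), ?_⟩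
    obtain ⟨τ, h4, h5, h6⟩ := P1_vis_w hi him
      (mul_nonneg (hκ0.trans_le (hκ i).1).le hkρ0) h3
    exact ⟨τ, by linarith, by linarith, h6⟩
  · obtain ⟨⟨h1, h2, h3⟩, hi, hiS, -⟩ := hx
    have him : i ≠ m := fun h => hiS (h ▸ Finset.mem_insert_self m T)
    unfold P1V
    rw [Set.mem_ofPred_eq, P1_inr_fst, P1_inr_snd, hcube]
    refine ⟨P1_cube h1 (by rwa [abs_neg, abs_of_nonneg hkρ0]), P1_cube_mono h2 hη, ?_⟩
    obtain ⟨τ, h4, h5, h6⟩ := h3
    have h7 := P1_opt_q hm0 hiS hi hkρ0 hδ.le h6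
    have h8 := h2 i (Set.mem_univ i)
    rw [Set.mem_Icc] at h8
    have hjn : (j : ℝ) * (1 / (n : ℝ) ^ 2) ≤ 1 / 2 := by
      have hn' : (2 : ℝ) ≤ n := by exact_mod_cast hn
      have hj' : (j : ℝ) ≤ n := by exact_mod_cast hj.le
      rw [mul_one_div, div_le_iff₀ (by positivity)]
      nlinarith
    have h9 : 0 < κ i := hκ0.trans_le (hκ i).1
    have h10 : 0 ≤ κ i * x.2 i := mul_nonneg h9.le (by linarith)
    have h11 : κ i * x.2 i ≤ 3 := by nlinarith [(hκ i).2]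
    have h12 : 0 ≤ δ * (k * ρ) := mul_nonneg hδ.le hkρ0
    have h13 : δ * (k * ρ) ≤ δ * (1 / (n : ℝ) ^ 2) := mul_le_mul_of_nonneg_left hkρ hδ.le
    have h14 : κ i * x.2 i * (δ * (k * ρ)) ≤ 3 * (δ * (1 / (n : ℝ) ^ 2)) :=
      mul_le_mul h11 h13 h12 (by norm_num)
    have h15 : 0 ≤ κ i * x.2 i * (δ * (k * ρ)) := mul_nonneg h10 h12
    exact ⟨_, by linarith, by linarith, h7⟩

theorem P1_h2 (hm0 : m0 ∈ T) (hκ : ∀ i, κ0 ≤ κ i ∧ κ i ≤ 1) (hκ0 : 0 < κ0) (hδ : 0 < δ)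
    (hρ : 0 < ρ) (j : ℕ) (c : Fin n ⊕ Fin n) (x : Wt n × Wt n)
    (hx : x ∈ P1E a T m m0 κ L δ ρ j I c) (k : ℕ) (hk : 1 ≤ k) :
    x + k • P1vec n ρ c ∉ P1E a T m m0 κ L δ ρ j I c := by
  have hk' : (1 : ℝ) ≤ k := by exact_mod_cast hk
  have hk1 : 0 ≤ ((k : ℝ) - 1) * ρ := mul_nonneg (by linarith) hρ.le
  rcases c with i | i
  · intro hx'
    obtain ⟨⟨-, -, h3⟩, hi, hiS, -⟩ := hx
    have him : i ≠ m := fun h => hiS (h ▸ Finset.mem_insert_self m T)
    have h4 := hx'.2.2.2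
    rw [P1_inl_fst, P1_inl_snd, add_assoc, ← Pi.single_add] at h4
    have h5 : (k : ℝ) * ρ + -ρ = (k - 1) * ρ := by ring
    rw [h5] at h4
    exact h4 (P1_vis_w hi him (mul_nonneg (hκ0.trans_le (hκ i).1).le hk1) h3)
  · intro hx'
    obtain ⟨⟨-, -, τ, -, -, h3⟩, hi, hiS, -⟩ := hx
    have h4 := hx'.2.2.2
    rw [P1_inr_fst, add_assoc, ← Pi.single_add] at h4
    have h5 : -((k : ℝ) * ρ) + ρ = -((k - 1) * ρ) := by ring
    rw [h5] at h4
    exact h4 (P1_feas hm0 h3.1 hiS hi hk1 hδ.le h3.2.1)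

end steps

section meas

variable {n d : ℕ} {a : Con n d} {T I : Finset (Fin n)} {m m0 : Fin n} {κ : Wt n}
  {κ0 L δ ρ : ℝ}

theorem P1_meas_nz (S : Finset (Fin n)) (u : Fin d → ℝ) (δ : ℝ) :
    Measurable (fun q : Wt n => nz a S u δ q) := by
  refine measurable_pi_iff.2 fun i => ?_
  unfold nz
  by_cases hi : i ∈ S
  · simp only [if_pos hi]
    exact measurable_const
  · simp only [if_neg hi]
    exact (by fun_prop : Continuous fun q : Wt n => a i + (δ * (q i - 1)) • u).measurable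

theorem P1_meas_upd (s : Wt n) :
    Measurable (fun w : Wt n => Function.update (κ * (w + s)) m 0) := by
  refine measurable_pi_iff.2 fun i => ?_
  by_cases hi : i = m
  · subst hi
    simp only [Function.update_self]
    exact measurable_const
  · simp only [Function.update_of_ne hi]
    exact (by fun_prop : Continuous fun w : Wt n => (κ * (w + s)) i).measurable

theorem P1_meas_f (s : Wt n) :
    Measurable (fun x : Wt n × Wt n => ((nz a (insert m T) (a m0 - a m) δ x.1,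
      (Function.update (κ * (x.2 + s)) m 0, (Pi.single m (-1) : Wt n))) :
        Con n d × (Wt n × Wt n))) :=
  ((P1_meas_nz _ _ _).comp measurable_fst).prodMk
    (((P1_meas_upd s).comp measurable_snd).prodMk measurable_const)

theorem P1_meas_vis (s : Wt n) (τ0 τ1 : ℝ) :
    MeasurableSet {x : Wt n × Wt n | Vis (nz a (insert m T) (a m0 - a m) δ x.1) T
      (Function.update (κ * (x.2 + s)) m 0) (Pi.single m (-1)) τ0 τ1 I} :=
  (P1_meas_f (a := a) (T := T) (m := m) (m0 := m0) (κ := κ) (δ := δ) s)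
    (measurableSet_vis T I τ0 τ1)

theorem P1_meas_V (j : ℕ) : MeasurableSet (P1V a T m m0 κ L δ j I) := by
  have h := P1_meas_vis (a := a) (T := T) (I := I) (m := m) (m0 := m0) (κ := κ) (δ := δ) 0
    (-P1L n L δ j) (P1L n L δ j)
  simp only [add_zero] at h
  exact ((measurableSet_preimage measurable_fst (measurableSet_cube _)).inter
    ((measurableSet_preimage measurable_snd (measurableSet_cube _)).inter h))

theorem P1_meas_E (j : ℕ) (c : Fin n ⊕ Fin n) : MeasurableSet (P1E a T m m0 κ L δ ρ j I c) := by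
  rcases c with i | i
  · exact (P1_meas_V j).inter ((MeasurableSet.const _).inter ((MeasurableSet.const _).inter
      (P1_meas_vis _ _ _).compl))
  · refine (P1_meas_V j).inter ((MeasurableSet.const _).inter ((MeasurableSet.const _).inter
      (MeasurableSet.compl ?_)))
    have h1 : Measurable (fun x : Wt n × Wt n => nz a (insert m T) (a m0 - a m) δ
        (x.1 + Pi.single i ρ)) :=
      (P1_meas_nz _ _ _).comp (measurable_fst.add_const _)
    exact measurableSet_preimage h1 (measurableSet_feas I)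

theorem P1_meas_N1 : Measurable fun x : Wt n × Wt n =>
    (N1 (nz a (insert m T) (a m0 - a m) δ x.1) T m L (κ * x.2) : ℝ≥0∞) := by
  have h1 : Measurable fun x : Wt n × Wt n =>
      ((nz a (insert m T) (a m0 - a m) δ x.1, κ * x.2) : Con n d × Wt n) := by
    refine Measurable.prodMk ?_ ?_
    · exact (P1_meas_nz _ _ _).comp measurable_fst
    · have h0 : Continuous fun w : Wt n => κ * w := by fun_prop
      exact h0.measurable.comp measurable_snd
  have h2 := (measurable_N1 (n := n) (d := d) T m L).comp h1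
  have h3 : Measurable (fun k : ℕ => (k : ℝ≥0∞)) := measurable_from_top
  exact h3.comp h2

theorem P1_ae (hκ : ∀ i, κ0 ≤ κ i ∧ κ i ≤ 1) (hκ0 : 0 < κ0) (hm : m ∉ T)
    (hr : ∀ᵐ q : Wt n, Reg0 (nz a (insert m T) (a m0 - a m) δ q)) :
    ∀ᵐ x : Wt n × Wt n, Reg0 (nz a (insert m T) (a m0 - a m) δ x.1) ∧
      Gen (nz a (insert m T) (a m0 - a m) δ x.1) T (Function.update (κ * x.2) m 0)
        (Pi.single m (-1)) := by
  have h1 : MeasurableSet {x : Wt n × Wt n | Reg0 (nz a (insert m T) (a m0 - a m) δ x.1) ∧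
      Gen (nz a (insert m T) (a m0 - a m) δ x.1) T (Function.update (κ * x.2) m 0)
        (Pi.single m (-1))} := by
    refine MeasurableSet.inter ?_ ?_
    · exact measurableSet_preimage ((P1_meas_nz _ _ _).comp measurable_fst) measurableSet_reg0
    · have h := P1_meas_f (a := a) (T := T) (m := m) (m0 := m0) (κ := κ) (δ := δ) 0
      simp only [add_zero] at h
      exact measurableSet_preimage h (measurableSet_gen T)
  rw [Measure.volume_eq_prod, Measure.ae_prod_iff_ae_ae h1]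
  filter_upwards [hr] with q hq
  filter_upwards [gen1_ae hq (fun i => hκ0.trans_le (hκ i).1) hm] with w hw
  exact ⟨hq, hw⟩

end meas

variable {n d : ℕ} {a : Con n d} {T : Finset (Fin n)} {m m0 : Fin n} {κ : Wt n} {κ0 L δ ρ : ℝ}

theorem P1_sum_V (j : ℕ) (x : Wt n × Wt n) (h1 : x.1 ∈ cube n (j * (1 / (n : ℝ) ^ 2)))
    (h2 : x.2 ∈ cube n (j * (1 / (n : ℝ) ^ 2))) :
    ∑ I, (P1V a T m m0 κ L δ j I).indicator (fun _ => (1 : ℝ≥0∞)) x =
      ((VS (nz a (insert m T) (a m0 - a m) δ x.1) T (Function.update (κ * x.2) m 0)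
        (Pi.single m (-1)) (-P1L n L δ j) (P1L n L δ j)).card : ℝ≥0∞) := by
  simp only [Set.indicator_apply]
  rw [Finset.sum_boole]
  have h3 : (Finset.univ.filter fun I => x ∈ P1V a T m m0 κ L δ j I) =
      VS (nz a (insert m T) (a m0 - a m) δ x.1) T (Function.update (κ * x.2) m 0)
        (Pi.single m (-1)) (-P1L n L δ j) (P1L n L δ j) :=
    Finset.filter_congr fun I _ => ⟨fun h => h.2.2, fun h => ⟨h1, h2, h⟩⟩
  rw [h3]

theorem P1_sum_E (j : ℕ) (x : Wt n × Wt n) (h1 : x.1 ∈ cube n (j * (1 / (n : ℝ) ^ 2)))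
    (h2 : x.2 ∈ cube n (j * (1 / (n : ℝ) ^ 2))) :
    ∑ I, ∑ c, (P1E a T m m0 κ L δ ρ j I c).indicator (fun _ => (1 : ℝ≥0∞)) x =
      (((Finset.univ : Finset (Finset (Fin n) × Fin n)).filter (fun p =>
          Vis (nz a (insert m T) (a m0 - a m) δ x.1) T (Function.update (κ * x.2) m 0)
            (Pi.single m (-1)) (-P1L n L δ j) (P1L n L δ j) p.1 ∧ p.2 ∈ p.1 ∧
            p.2 ∉ insert m T ∧
          ¬ Vis (nz a (insert m T) (a m0 - a m) δ x.1) T
            (Function.update (κ * (x.2 + Pi.single p.2 (-ρ))) m 0)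
            (Pi.single m (-1)) (-P1L n L δ j) (P1L n L δ j) p.1)).card : ℝ≥0∞) +
        ((Finset.univ : Finset (Finset (Fin n) × Fin n)).filter (fun p =>
          Vis (nz a (insert m T) (a m0 - a m) δ x.1) T (Function.update (κ * x.2) m 0)
            (Pi.single m (-1)) (-P1L n L δ j) (P1L n L δ j) p.1 ∧ p.2 ∉ p.1 ∧
            p.2 ∉ insert m T ∧
          ¬ Feas (nz a (insert m T) (a m0 - a m) δ (x.1 + Pi.single p.2 ρ)) p.1)).card := by
  simp only [Fintype.sum_sum_type, Finset.sum_add_distrib, Set.indicator_apply]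
  rw [← Fintype.sum_prod_type' (f := fun I i =>
      if x ∈ P1E a T m m0 κ L δ ρ j I (Sum.inl i) then (1 : ℝ≥0∞) else 0),
    ← Fintype.sum_prod_type' (f := fun I i =>
      if x ∈ P1E a T m m0 κ L δ ρ j I (Sum.inr i) then (1 : ℝ≥0∞) else 0),
    Finset.sum_boole, Finset.sum_boole]
  congr 3
  · exact Finset.filter_congr fun p _ => ⟨fun h => ⟨h.1.2.2, h.2⟩, fun h => ⟨⟨h1, h2, h.1⟩, h.2⟩⟩
  · exact Finset.filter_congr fun p _ => ⟨fun h => ⟨h.1.2.2, h.2⟩, fun h => ⟨⟨h1, h2, h.1⟩, h.2⟩⟩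

theorem P1_h3 (hm0 : m0 ∈ T) (hκ : ∀ i, κ0 ≤ κ i ∧ κ i ≤ 1) (hκ0 : 0 < κ0)
    (hL : 1 ≤ L) (hδ : 0 < δ) (hδ1 : δ ≤ 1) (hn : 2 ≤ n) (hd : 1 ≤ d)
    (hρ : ρ = 1 / (8 * n ^ 3 * d)) (j : ℕ) (hj : j < n) (x : Wt n × Wt n)
    (hr : Reg0 (nz a (insert m T) (a m0 - a m) δ x.1))
    (hg : Gen (nz a (insert m T) (a m0 - a m) δ x.1) T (Function.update (κ * x.2) m 0)
        (Pi.single m (-1))) :
    ∑ I, (P1V a T m m0 κ L δ j I).indicator (fun _ => (1 : ℝ≥0∞)) x ≤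
      ENNReal.ofReal (5 + 2048 * (L * n ^ 6 * d ^ 2 / (κ0 * δ))) +
        d * ∑ I, ∑ c, (P1E a T m m0 κ L δ ρ j I c).indicator (fun _ => (1 : ℝ≥0∞)) x := by
  by_cases hx : x.1 ∈ cube n (j * (1 / (n : ℝ) ^ 2)) ∧ x.2 ∈ cube n (j * (1 / (n : ℝ) ^ 2))
  swap
  · have h1 : ∑ I, (P1V a T m m0 κ L δ j I).indicator (fun _ => (1 : ℝ≥0∞)) x = 0 :=
      Finset.sum_eq_zero fun I _ => Set.indicator_of_notMem (fun h => hx ⟨h.1, h.2.1⟩) _
    rw [h1]
    exact zero_le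
  obtain ⟨h1, h2⟩ := hx
  rw [P1_sum_V j x h1 h2, P1_sum_E j x h1 h2]
  have hn' : (2 : ℝ) ≤ n := by exact_mod_cast hn
  have hd' : (1 : ℝ) ≤ d := by exact_mod_cast hd
  have hn0 : (0 : ℝ) < n := by linarith
  have hd0 : (0 : ℝ) < d := by linarith
  have hj' : (j : ℝ) ≤ n := by exact_mod_cast hj.le
  have hρ0 : 0 < ρ := by rw [hρ]; positivity
  have hΛ1 : P1L n L δ j ≤ 4 * L := by
    unfold P1L
    have h3 : (j : ℝ) * (3 * δ * (1 / (n : ℝ) ^ 2)) ≤ 3 := by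
      have h4 : (j : ℝ) * (1 / (n : ℝ) ^ 2) ≤ 1 := by
        rw [mul_one_div, div_le_iff₀ (by positivity)]
        nlinarith
      have h5 : (0 : ℝ) ≤ (j : ℝ) * (1 / (n : ℝ) ^ 2) := by positivity
      nlinarith
    linarith
  have hΛ0 : 0 < P1L n L δ j := by
    unfold P1L
    have h3 : 0 ≤ (j : ℝ) * (3 * δ * (1 / (n : ℝ) ^ 2)) := by positivity
    linarith
  have hc := P1_count (a := a) (T := T) (m := m) (m0 := m0) (κ := κ) (κ0 := κ0) (δ := δ)
    (q := x.1) (w := x.2) (Λ := P1L n L δ j) (ρ := ρ) (ℓ := κ0 * δ * ρ ^ 2 / 4)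
    (Γ := 2 / (δ * ρ)) hm0 hκ hκ0 hδ hρ0 hΛ0 hd (by positivity)
    (by
      have : κ0 * δ * ρ ^ 2 / 4 * (2 / (δ * ρ)) = κ0 * ρ / 2 := by
        field_simp
        ring
      rw [this]
      have := mul_pos hκ0 hρ0
      linarith)
    (by
      rw [mul_div_cancel₀ _ (mul_pos hδ hρ0).ne']
      norm_num) hr hg
  have hb : 2 * P1L n L δ j / (κ0 * δ * ρ ^ 2 / 4) ≤ 2048 * (L * n ^ 6 * d ^ 2 / (κ0 * δ)) := by
    have h3 : 2 * P1L n L δ j / (κ0 * δ * ρ ^ 2 / 4) =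
        512 * (P1L n L δ j * n ^ 6 * d ^ 2 / (κ0 * δ)) := by
      rw [hρ]
      field_simp
      ring
    have h4 : P1L n L δ j * n ^ 6 * d ^ 2 / (κ0 * δ) ≤ 4 * L * n ^ 6 * d ^ 2 / (κ0 * δ) := by
      gcongr
    rw [h3]
    calc 512 * (P1L n L δ j * n ^ 6 * d ^ 2 / (κ0 * δ))
        ≤ 512 * (4 * L * n ^ 6 * d ^ 2 / (κ0 * δ)) := by linarith
      _ = 2048 * (L * n ^ 6 * d ^ 2 / (κ0 * δ)) := by ring
  set A := ((Finset.univ : Finset (Finset (Fin n) × Fin n)).filter (fun p =>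
          Vis (nz a (insert m T) (a m0 - a m) δ x.1) T (Function.update (κ * x.2) m 0)
            (Pi.single m (-1)) (-P1L n L δ j) (P1L n L δ j) p.1 ∧ p.2 ∈ p.1 ∧
            p.2 ∉ insert m T ∧
          ¬ Vis (nz a (insert m T) (a m0 - a m) δ x.1) T
            (Function.update (κ * (x.2 + Pi.single p.2 (-ρ))) m 0)
            (Pi.single m (-1)) (-P1L n L δ j) (P1L n L δ j) p.1)) with hA
  set B := ((Finset.univ : Finset (Finset (Fin n) × Fin n)).filter (fun p =>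
          Vis (nz a (insert m T) (a m0 - a m) δ x.1) T (Function.update (κ * x.2) m 0)
            (Pi.single m (-1)) (-P1L n L δ j) (P1L n L δ j) p.1 ∧ p.2 ∉ p.1 ∧
            p.2 ∉ insert m T ∧
          ¬ Feas (nz a (insert m T) (a m0 - a m) δ (x.1 + Pi.single p.2 ρ)) p.1)) with hB
  have hX : 0 ≤ L * n ^ 6 * d ^ 2 / (κ0 * δ) := by positivity
  have h3 : ((VS (nz a (insert m T) (a m0 - a m) δ x.1) T (Function.update (κ * x.2) m 0)
      (Pi.single m (-1)) (-P1L n L δ j) (P1L n L δ j)).card : ℝ) ≤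
      (5 + 2048 * (L * n ^ 6 * d ^ 2 / (κ0 * δ))) + d * (A.card + B.card) := by
    linarith
  rw [← ENNReal.ofReal_natCast]
  refine (ENNReal.ofReal_le_ofReal h3).trans (le_of_eq ?_)
  have h4 : ENNReal.ofReal ((d : ℝ) * (A.card + B.card)) = d * ((A.card : ℝ≥0∞) + B.card) := by
    rw [ENNReal.ofReal_mul (by positivity), ENNReal.ofReal_add (by positivity) (by positivity),
      ENNReal.ofReal_natCast, ENNReal.ofReal_natCast, ENNReal.ofReal_natCast]
  rw [ENNReal.ofReal_add (by positivity) (by positivity), h4]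

theorem P1_alg {Y : ℝ} (hY : 0 ≤ Y) :
    (2 * ENNReal.ofReal Y + 1) * ENNReal.ofReal 55 = ENNReal.ofReal ((2 * Y + 1) * 55) := by
  have h2 : ENNReal.ofReal 2 = 2 := ENNReal.ofReal_ofNat 2
  rw [ENNReal.ofReal_mul (by positivity), ENNReal.ofReal_add (by positivity) (by positivity),
    ENNReal.ofReal_mul (by positivity), ENNReal.ofReal_one, h2]

theorem P1_inv : (volume : Measure (Wt n × Wt n)).IsAddRightInvariant := by
  have h : (volume : Measure (Wt n × Wt n)).IsAddLeftInvariant := by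
    rw [Measure.volume_eq_prod]
    infer_instance
  infer_instance

theorem P1_vol_cube (t : ℝ) (ht : 0 ≤ t) :
    volume (cube n t) = ENNReal.ofReal ((1 + 2 * t) ^ n) := by
  rw [cube, volume_pi_pi]
  have h1 : ∀ i ∈ (Finset.univ : Finset (Fin n)), volume (Set.Icc (1 - t) (2 + t)) =
      ENNReal.ofReal (1 + 2 * t) := by
    intro _ _
    rw [Real.volume_Icc]
    congr 1
    ring
  rw [Finset.prod_congr rfl h1, Finset.prod_const, Finset.card_univ, Fintype.card_fin,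
    ENNReal.ofReal_pow (by positivity)]

theorem P1_box (hn : 2 ≤ n) :
    volume ((cube n (1 / (n : ℝ))) ×ˢ (cube n (1 / (n : ℝ)))) ≤ ENNReal.ofReal 55 := by
  have hn' : (2 : ℝ) ≤ n := by exact_mod_cast hn
  have hn0 : (0 : ℝ) < n := by linarith
  rw [Measure.volume_eq_prod, Measure.prod_prod, P1_vol_cube _ (by positivity),
    ← ENNReal.ofReal_mul (by positivity)]
  refine ENNReal.ofReal_le_ofReal ?_
  have h1 : (1 + 2 * (1 / (n : ℝ))) ^ n ≤ Real.exp 2 := by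
    have h2 : 1 + 2 * (1 / (n : ℝ)) ≤ Real.exp (2 / n) := by
      have := Real.add_one_le_exp (2 / (n : ℝ))
      calc 1 + 2 * (1 / (n : ℝ)) = 2 / n + 1 := by ring
        _ ≤ _ := this
    calc (1 + 2 * (1 / (n : ℝ))) ^ n ≤ (Real.exp (2 / n)) ^ n :=
          pow_le_pow_left₀ (by positivity) h2 n
      _ = Real.exp 2 := by
          rw [← Real.exp_nat_mul]
          congr 1
          field_simp
  have h3 : (1 + 2 * (1 / (n : ℝ))) ^ n * (1 + 2 * (1 / (n : ℝ))) ^ n ≤ Real.exp 2 * Real.exp 2 :=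
    mul_le_mul h1 h1 (by positivity) (Real.exp_pos _).le
  have h4 : Real.exp 2 * Real.exp 2 = Real.exp 1 ^ 4 := by
    rw [← Real.exp_add, ← Real.exp_nat_mul]
    norm_num
  have h5 : Real.exp 1 ^ 4 ≤ 55 := by
    have h6 := Real.exp_one_lt_d9
    calc Real.exp 1 ^ 4 ≤ (2.7182818286 : ℝ) ^ 4 :=
          pow_le_pow_left₀ (Real.exp_pos _).le h6.le 4
      _ ≤ 55 := by norm_num
  linarith

theorem P1 (hm0 : m0 ∈ T) (hm : m ∉ T) (hκ : ∀ i, κ0 ≤ κ i ∧ κ i ≤ 1) (hκ0 : 0 < κ0)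
    (hL : 1 ≤ L) (hδ : 0 < δ) (hδ1 : δ ≤ 1) (hn : 2 ≤ n) (hd : 1 ≤ d)
    (hr : ∀ᵐ q : Wt n, Reg0 (nz a (insert m T) (a m0 - a m) δ q)) :
    ∫⁻ q, ∫⁻ w, (N1 (nz a (insert m T) (a m0 - a m) δ q) T m L (κ * w) : ℝ≥0∞)
      ∂(uW n) ∂(uW n) ≤ ENNReal.ofReal (10 ^ 6 * L * n ^ 6 * d ^ 2 / (κ0 * δ)) := by
  have hn' : (2 : ℝ) ≤ n := by exact_mod_cast hn
  have hd' : (1 : ℝ) ≤ d := by exact_mod_cast hd
  have hn0 : (0 : ℝ) < n := by linarith
  have hd0 : (0 : ℝ) < d := by linarith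
  obtain ⟨ρ, hρ⟩ : ∃ ρ : ℝ, ρ = 1 / (8 * n ^ 3 * d) := ⟨_, rfl⟩
  have hρ0 : 0 < ρ := by rw [hρ]; positivity
  have hKρ : ((8 * n * d : ℕ) : ℝ) * ρ = 1 / (n : ℝ) ^ 2 := by
    rw [hρ]
    push_cast
    field_simp
  have := P1_inv (n := n)
  have habs := absorb (E := Wt n × Wt n) (α := Finset (Fin n)) (β := Fin n ⊕ Fin n) volume
    n (8 * n * d) d (ENNReal.ofReal (5 + 2048 * (L * n ^ 6 * d ^ 2 / (κ0 * δ))))
    (P1V a T m m0 κ L δ) (P1E a T m m0 κ L δ ρ)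
    ((cube n (1 / (n : ℝ))) ×ˢ (cube n (1 / (n : ℝ)))) (P1vec n ρ)
    ((measurableSet_cube _).prod (measurableSet_cube _)) (fun j I => P1_meas_V j)
    (fun j I c => P1_meas_E j c)
    (by
      intro j hj I x hx
      have hj' : (j : ℝ) ≤ n := by exact_mod_cast hj
      have h3 : 0 ≤ 1 / (n : ℝ) - j * (1 / (n : ℝ) ^ 2) := by
        have h4 : (j : ℝ) * (1 / (n : ℝ) ^ 2) ≤ n * (1 / (n : ℝ) ^ 2) :=
          mul_le_mul_of_nonneg_right hj' (by positivity)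
        have h5 : (n : ℝ) * (1 / (n : ℝ) ^ 2) = 1 / n := by
          field_simp
        linarith
      have h1 := P1_cube_mono hx.1 h3
      have h2 := P1_cube_mono hx.2.1 h3
      rw [add_sub_cancel] at h1 h2
      exact ⟨h1, h2⟩)
    (fun j hj I c x hx k hk => P1_h1 hm0 hκ hκ0 hδ hn hρ0 hKρ j hj c x hx k hk)
    (fun j _ I c x hx k hk _ => P1_h2 hm0 hκ hκ0 hδ hρ0 j c x hx k hk)
    (by
      intro j hj
      filter_upwards [P1_ae hκ hκ0 hm hr] with x hx _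
      exact P1_h3 hm0 hκ hκ0 hL hδ hδ1 hn hd hρ j hj x hx.1 hx.2)
    (by
      rw [Fintype.card_sum, Fintype.card_fin]
      nlinarith)
    (by
      have : 0 < n * d := Nat.mul_pos (by omega) (by omega)
      nlinarith)
  have hX1 : 1 ≤ L * n ^ 6 * d ^ 2 / (κ0 * δ) := by
    have h1 : κ0 ≤ 1 := (hκ ⟨0, by omega⟩).1.trans (hκ ⟨0, by omega⟩).2
    have h2 : κ0 * δ ≤ 1 := mul_le_one₀ h1 hδ.le hδ1
    rw [one_le_div (mul_pos hκ0 hδ)]
    have h3 : (1 : ℝ) ≤ n ^ 6 := one_le_pow₀ (by linarith)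
    have h4 : (1 : ℝ) ≤ d ^ 2 := one_le_pow₀ hd'
    have h5 : 1 ≤ L * n ^ 6 := one_le_mul_of_one_le_of_one_le hL h3
    have h6 : 1 ≤ L * n ^ 6 * d ^ 2 := one_le_mul_of_one_le_of_one_le h5 h4
    linarith
  have hcube0 : cube n (((0 : ℕ) : ℝ) * (1 / (n : ℝ) ^ 2)) = cube n 0 := by
    rw [Nat.cast_zero, zero_mul]
  have hL0 : P1L n L δ 0 = L := by
    unfold P1L
    rw [Nat.cast_zero, zero_mul, add_zero]
  have hint : ∫⁻ q, ∫⁻ w, (N1 (nz a (insert m T) (a m0 - a m) δ q) T m L (κ * w) : ℝ≥0∞)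
      ∂(uW n) ∂(uW n) = ∑ I, volume (P1V a T m m0 κ L δ 0 I) := by
    have h1 := lintegral_prod (μ := uW n) (ν := uW n) (fun x : Wt n × Wt n =>
      (N1 (nz a (insert m T) (a m0 - a m) δ x.1) T m L (κ * x.2) : ℝ≥0∞)) P1_meas_N1.aemeasurable
    rw [← h1, uW, Measure.prod_restrict, ← Measure.volume_eq_prod,
      ← lintegral_indicator ((measurableSet_cube 0).prod (measurableSet_cube 0))]
    have h2 : ∀ x : Wt n × Wt n, (cube n 0 ×ˢ cube n 0).indicator (fun x : Wt n × Wt n =>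
        (N1 (nz a (insert m T) (a m0 - a m) δ x.1) T m L (κ * x.2) : ℝ≥0∞)) x =
        ∑ I, (P1V a T m m0 κ L δ 0 I).indicator (fun _ => (1 : ℝ≥0∞)) x := by
      intro x
      by_cases hx : x ∈ cube n 0 ×ˢ cube n 0
      · have h3 : x.1 ∈ cube n (((0 : ℕ) : ℝ) * (1 / (n : ℝ) ^ 2)) := by
          rw [hcube0]
          exact hx.1
        have h4 : x.2 ∈ cube n (((0 : ℕ) : ℝ) * (1 / (n : ℝ) ^ 2)) := by
          rw [hcube0]
          exact hx.2
        rw [Set.indicator_of_mem hx, P1_sum_V 0 x h3 h4, hL0, N1]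
      · rw [Set.indicator_of_notMem hx]
        refine (Finset.sum_eq_zero fun I _ => Set.indicator_of_notMem (fun h => hx ?_) _).symm
        have h3 := h.1
        have h4 := h.2.1
        rw [hcube0] at h3 h4
        exact ⟨h3, h4⟩
    rw [lintegral_congr h2, lintegral_finsetSum _ fun I _ =>
      measurable_const.indicator (P1_meas_V 0)]
    refine Finset.sum_congr rfl fun I _ => ?_
    rw [lintegral_indicator (P1_meas_V 0), lintegral_const, one_mul,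
      Measure.restrict_apply_univ]
  rw [hint]
  refine habs.trans ?_
  have hcard : ((Fintype.card (Finset (Fin n)) : ℕ) : ℝ≥0∞) / 2 ^ n = 1 := by
    rw [Fintype.card_finset, Fintype.card_fin, Nat.cast_pow, Nat.cast_ofNat]
    exact ENNReal.div_self (by positivity) (ENNReal.pow_ne_top (by norm_num))
  rw [hcard]
  calc (2 * ENNReal.ofReal (5 + 2048 * (L * n ^ 6 * d ^ 2 / (κ0 * δ))) + 1) *
        volume ((cube n (1 / (n : ℝ))) ×ˢ (cube n (1 / (n : ℝ))))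
      ≤ (2 * ENNReal.ofReal (5 + 2048 * (L * n ^ 6 * d ^ 2 / (κ0 * δ))) + 1) *
        ENNReal.ofReal 55 := by
        gcongr
        exact P1_box hn
    _ = ENNReal.ofReal ((2 * (5 + 2048 * (L * n ^ 6 * d ^ 2 / (κ0 * δ))) + 1) * 55) :=
        P1_alg (by positivity)
    _ ≤ ENNReal.ofReal (10 ^ 6 * L * n ^ 6 * d ^ 2 / (κ0 * δ)) := by
        refine ENNReal.ofReal_le_ofReal ?_
        have h7 : 10 ^ 6 * L * n ^ 6 * d ^ 2 / (κ0 * δ) =
            10 ^ 6 * (L * n ^ 6 * d ^ 2 / (κ0 * δ)) := by ring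
        rw [h7]
        linarith

end Pool.Agent.H.MP_0cad2f_co.NT
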