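import Pool.Agent.H.MP_0cad2f_co.NT.Param

/-!
The release of one row, the deterministic part (section 3 of the text). `S = insert m T`, `u = a m0 - a m`, `m0 ∈ T`.
-/

set_option autoImplicit false
open scoped Classical

namespace Pool.Agent.H.MP_0cad2f_co.NT

section nz

variable {n d : ℕ} {a : Con n d} {S T I : Finset (Fin n)} {m m0 i : Fin n} {κ w q v : Wt n}
  {u : Fin d → ℝ} {δ s τ τ0 τ1 : ℝ}

theorem P1_nz_mem (hi : i ∈ S) : nz a S u δ q i = a i := by
  unfold nz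
  rw [if_pos hi]

theorem P1_nz_ne {k : Fin n} (hk : k ≠ i) :
    nz a S u δ (q + Pi.single i s) k = nz a S u δ q k := by
  unfold nz
  rw [Pi.add_apply, Pi.single_eq_of_ne hk, add_zero]

theorem P1_nz_self (hi : i ∉ S) :
    nz a S u δ (q + Pi.single i s) i = nz a S u δ q i + (δ * s) • u := by
  unfold nz
  rw [if_neg hi, if_neg hi, Pi.add_apply, Pi.single_eq_same]
  module

theorem P1_cv (hi : i ∉ S) (W : Wt n) (x : Fin d → ℝ) :
    cv (nz a S u δ (q + Pi.single i s)) W ⬝ᵥ x =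
      cv (nz a S u δ q) W ⬝ᵥ x + W i * (δ * s) * (u ⬝ᵥ x) := by
  rw [cv_dot, cv_dot, ← Finset.add_sum_erase _ _ (Finset.mem_univ i),
    ← Finset.add_sum_erase Finset.univ (fun k => W k * (nz a S u δ q k ⬝ᵥ x)) (Finset.mem_univ i),
    P1_nz_self hi, add_dotProduct, smul_dotProduct, smul_eq_mul]
  have h1 : ∑ k ∈ Finset.univ.erase i, W k * (nz a S u δ (q + Pi.single i s) k ⬝ᵥ x) =
      ∑ k ∈ Finset.univ.erase i, W k * (nz a S u δ q k ⬝ᵥ x) :=
    Finset.sum_congr rfl fun k hk => by rw [P1_nz_ne (Finset.ne_of_mem_erase hk)]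
  rw [h1]
  ring

theorem P1_sl_ne {k : Fin n} (hk : k ≠ i) (x : Fin d → ℝ) :
    sl (nz a S u δ (q + Pi.single i s)) k x = sl (nz a S u δ q) k x := by
  rw [sl, sl, P1_nz_ne hk]

theorem P1_sl_self (hi : i ∉ S) (x : Fin d → ℝ) :
    sl (nz a S u δ (q + Pi.single i s)) i x = sl (nz a S u δ q) i x - δ * s * (u ⬝ᵥ x) := by
  rw [sl, sl, P1_nz_self hi, add_dotProduct, smul_dotProduct, smul_eq_mul]
  ring

theorem P1_du (hi : i ∉ I) (l : Fin n) :
    du (nz a S u δ (q + Pi.single i s)) I l = du (nz a S u δ q) I l :=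
  du_congr (fun k hk => P1_nz_ne (fun h : k = i => hi (h ▸ hk))) l

theorem P1_pt (hi : i ∉ I) :
    pt (nz a S u δ (q + Pi.single i s)) I = pt (nz a S u δ q) I :=
  pt_congr (fun k hk => P1_nz_ne (fun h : k = i => hi (h ▸ hk)))

theorem P1_ind (hi : i ∉ I) (h : Ind (nz a S u δ q) I) :
    Ind (nz a S u δ (q + Pi.single i s)) I :=
  ind_congr (fun k hk => (P1_nz_ne (fun h : k = i => hi (h ▸ hk))).symm) h

/-- the direction of the noise at the point of a basis -/
theorem P1_u_pt (hm0 : m0 ∈ T) (hT : T ⊆ I) (h : Ind (nz a (insert m T) u δ q) I) :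
    (a m0 - a m) ⬝ᵥ pt (nz a (insert m T) u δ q) I =
      sl (nz a (insert m T) u δ q) m (pt (nz a (insert m T) u δ q) I) := by
  have h1 := pt_dot h (hT hm0)
  rw [P1_nz_mem (Finset.mem_insert_of_mem hm0)] at h1
  rw [sl, P1_nz_mem (Finset.mem_insert_self m T), sub_dotProduct, h1]

/-- the direction of the noise at the dual vectors -/
theorem P1_u_du (hm0 : m0 ∈ T) (hT : T ⊆ I) (h : Ind (nz a (insert m T) u δ q) I) {l : Fin n}
    (hl : l ∈ I) (hlT : l ∉ T) :
    (a m0 - a m) ⬝ᵥ du (nz a (insert m T) u δ q) I l =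
      - (a m ⬝ᵥ du (nz a (insert m T) u δ q) I l) := by
  have h1 := du_ne h (hT hm0) hl (fun h => hlT (h ▸ hm0))
  rw [P1_nz_mem (Finset.mem_insert_of_mem hm0)] at h1
  rw [sub_dotProduct, h1, zero_sub]

theorem P1_feas (hm0 : m0 ∈ T) (hT : T ⊆ I) (hi : i ∉ insert m T) (hiI : i ∉ I) (hs : 0 ≤ s)
    (hδ : 0 ≤ δ) (h : Feas (nz a (insert m T) (a m0 - a m) δ q) I) :
    Feas (nz a (insert m T) (a m0 - a m) δ (q + Pi.single i (-s))) I := by
  refine ⟨P1_ind hiI h.1, fun k => ?_⟩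
  rw [P1_pt hiI]
  by_cases hk : k = i
  · subst hk
    rw [P1_sl_self hi, P1_u_pt hm0 hT h.1]
    have h1 := h.2 k
    have h2 := mul_nonneg (mul_nonneg hδ hs) (h.2 m)
    nlinarith
  · rw [P1_sl_ne hk]
    exact h.2 k

theorem P1_opt_q (hm0 : m0 ∈ T) (hi : i ∉ insert m T) (hiI : i ∉ I) (hs : 0 ≤ s) (hδ : 0 ≤ δ)
    (h : Opt (nz a (insert m T) (a m0 - a m) δ q) T
      (Function.update (κ * w) m 0 + τ • Pi.single m (-1)) I) :
    Opt (nz a (insert m T) (a m0 - a m) δ (q + Pi.single i (-s))) T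
      (Function.update (κ * w) m 0 + (τ + κ i * w i * (δ * s)) • Pi.single m (-1)) I := by
  obtain ⟨hT, hF, hM⟩ := h
  refine ⟨hT, P1_feas hm0 hT hi hiI hs hδ hF, fun l hl hlT => ?_⟩
  have him : i ≠ m := fun h => hi (h ▸ Finset.mem_insert_self m T)
  have h1 := hM l hl hlT
  have h2 : (Function.update (κ * w) m 0 + (τ + κ i * w i * (δ * s)) • Pi.single m (-1) : Wt n) i =
      κ i * w i := by
    rw [Pi.add_apply, Function.update_of_ne him, Pi.smul_apply, Pi.single_eq_of_ne him, smul_zero,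
      add_zero, Pi.mul_apply]
  have h3 : cv (nz a (insert m T) (a m0 - a m) δ q) (Pi.single m (-1)) ⬝ᵥ
      du (nz a (insert m T) (a m0 - a m) δ q) I l =
      - (a m ⬝ᵥ du (nz a (insert m T) (a m0 - a m) δ q) I l) := by
    rw [cv_dot, Finset.sum_eq_single m]
    · rw [Pi.single_eq_same, P1_nz_mem (Finset.mem_insert_self m T)]
      ring
    · intro k _ hk
      rw [Pi.single_eq_of_ne hk, zero_mul]
    · intro h
      exact absurd (Finset.mem_univ m) h
  rw [P1_cv hi, P1_du hiI, P1_u_du hm0 hT hF.1 hl hlT, h2, mul_lin, h3]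
  rw [mul_lin, h3] at h1
  linarith

end nz

section wt

variable {n d : ℕ} {a : Con n d} {S T I J : Finset (Fin n)} {m m0 i : Fin n} {κ w q v : Wt n}
  {s τ τ0 τ1 : ℝ}

theorem P1_upd (him : i ≠ m) :
    Function.update (κ * (w + Pi.single i s)) m 0 =
      Function.update (Function.update (κ * w) m 0) i (κ i * w i + κ i * s) := by
  funext k
  by_cases hki : k = i
  · subst hki
    rw [Function.update_of_ne him, Function.update_self, Pi.mul_apply, Pi.add_apply,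
      Pi.single_eq_same, mul_add]
  · rw [Function.update_of_ne hki]
    by_cases hkm : k = m
    · subst hkm
      rw [Function.update_self, Function.update_self]
    · rw [Function.update_of_ne hkm, Function.update_of_ne hkm, Pi.mul_apply, Pi.mul_apply,
        Pi.add_apply, Pi.single_eq_of_ne hki, add_zero]

theorem P1_mul_self (hI : Ind a I) (hi : i ∈ I) (him : i ≠ m) :
    cv a (Function.update (κ * (w + Pi.single i s)) m 0 + τ • v) ⬝ᵥ du a I i =
      cv a (Function.update (κ * w) m 0 + τ • v) ⬝ᵥ du a I i + κ i * s := by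
  rw [mul_lin, mul_lin, P1_upd him, mul_update_self hI hi, Function.update_of_ne him,
    Pi.mul_apply]
  ring

theorem P1_mul_ne (hI : Ind a I) (hi : i ∈ I) (him : i ≠ m) {l : Fin n} (hl : l ∈ I)
    (hli : l ≠ i) :
    cv a (Function.update (κ * (w + Pi.single i s)) m 0 + τ • v) ⬝ᵥ du a I l =
      cv a (Function.update (κ * w) m 0 + τ • v) ⬝ᵥ du a I l := by
  rw [mul_lin, mul_lin, P1_upd him, mul_update_ne hI hl hi hli.symm]

theorem P1_opt_w (hi : i ∈ I) (him : i ≠ m) (hs : 0 ≤ κ i * s)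
    (h : Opt a T (Function.update (κ * w) m 0 + τ • v) I) :
    Opt a T (Function.update (κ * (w + Pi.single i s)) m 0 + τ • v) I := by
  refine ⟨h.1, h.2.1, fun l hl hlT => ?_⟩
  have h1 := h.2.2 l hl hlT
  by_cases hli : l = i
  · subst hli
    rw [P1_mul_self h.2.1.1 hi him]
    linarith
  · rw [P1_mul_ne h.2.1.1 hi him hl hli]
    exact h1

theorem P1_vis_w (hi : i ∈ I) (him : i ≠ m) (hs : 0 ≤ κ i * s)
    (h : Vis a T (Function.update (κ * w) m 0) v τ0 τ1 I) :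
    Vis a T (Function.update (κ * (w + Pi.single i s)) m 0) v τ0 τ1 I := by
  obtain ⟨τ, h1, h2, h3⟩ := h
  exact ⟨τ, h1, h2, P1_opt_w hi him hs h3⟩

theorem P1_cv_single (x : Fin d → ℝ) : cv a (Pi.single m (-1)) ⬝ᵥ x = - (a m ⬝ᵥ x) := by
  rw [cv_dot, Finset.sum_eq_single m]
  · rw [Pi.single_eq_same]
    ring
  · intro k _ hk
    rw [Pi.single_eq_of_ne hk, zero_mul]
  · intro h
    exact absurd (Finset.mem_univ m) h

/-- at most one visited basis contains `m` -/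
theorem P1_unique_m (hr : Reg0 a) {w0 : Wt n} (hI : Vis a T w0 (Pi.single m (-1)) τ0 τ1 I)
    (hJ : Vis a T w0 (Pi.single m (-1)) τ0 τ1 J) (hmI : m ∈ I) (hmJ : m ∈ J) : I = J := by
  have key : ∀ K : Finset (Fin n), Vis a T w0 (Pi.single m (-1)) τ0 τ1 K → m ∈ K →
      Opt a (insert m T) w0 K := by
    intro K hK hmK
    obtain ⟨τ, -, -, hT, hF, hM⟩ := hK
    refine ⟨Finset.insert_subset hmK hT, hF, fun l hl hlS => ?_⟩
    have hlm : l ≠ m := fun h => hlS (h ▸ Finset.mem_insert_self m T)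
    have h1 := hM l hl (fun h => hlS (Finset.mem_insert_of_mem h))
    rwa [mul_lin, P1_cv_single, du_ne hF.1 hmK hl hlm.symm, neg_zero, mul_zero, add_zero] at h1
  exact wopt_unique hr (key I hI hmI).wopt (key J hJ hmJ)

end wt

section count

variable {n d : ℕ} {a : Con n d} {T I J : Finset (Fin n)} {m m0 i j : Fin n} {κ w q : Wt n}
  {κ0 δ ρ Λ ℓ Γ τs r : ℝ}

theorem P1_sl_sub (x e : Fin d → ℝ) (t : ℝ) : sl a i (x - t • e) = sl a i x + t * (a i ⬝ᵥ e) := by
  rw [sl, sl, dotProduct_sub, dotProduct_smul, smul_eq_mul]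
  ring

theorem P1_swp_swp (hi : i ∈ I) (hj : j ∉ I) : swp (swp I i j) j i = I := by
  unfold swp
  rw [Finset.erase_insert (fun h => hj (Finset.mem_of_mem_erase h)), Finset.insert_erase hi]

/-- the first kind of events: the slope of the multiplier is small -/
theorem P1_evl (hκ : ∀ i, κ0 ≤ κ i ∧ κ i ≤ 1) (hκ0 : 0 < κ0) (hρ : 0 < ρ)
    (hℓ : ℓ * Γ ≤ κ0 * ρ) (h : SX a T (Function.update (κ * w) m 0) (Pi.single m (-1)) (-Λ) Λ ℓ
      I i τs j r) (hmI : m ∉ I) (hβ : a m ⬝ᵥ du a I i ≤ Γ) :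
    ¬ Vis a T (Function.update (κ * (w + Pi.single i (-ρ))) m 0) (Pi.single m (-1)) (-Λ) Λ I := by
  rintro ⟨τ, -, -, hO⟩
  have him : i ≠ m := fun h' => hmI (h' ▸ h.mem)
  have hκi : 0 < κ i := hκ0.trans_le (hκ i).1
  have h0 : w = (w + Pi.single i (-ρ)) + Pi.single i ρ := by
    rw [add_assoc, ← Pi.single_add, neg_add_cancel, Pi.single_zero, add_zero]
  have hO' : Opt a T (Function.update (κ * w) m 0 + τ • Pi.single m (-1)) I := by
    conv => arg 3; rw [h0]
    exact P1_opt_w h.mem him (mul_pos hκi hρ).le hO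
  obtain ⟨h1, h2⟩ := h.short τ hO'
  have h3 := hO.2.2 i h.mem h.nmem
  rw [P1_mul_self hO.2.1.1 h.mem him, mul_lin, P1_cv_single] at h3
  have h4 := h.zero
  rw [mul_lin, P1_cv_single] at h4
  have h5 := h.neg
  rw [P1_cv_single] at h5
  have h6 : κ0 * ρ ≤ κ i * ρ := mul_le_mul_of_nonneg_right (hκ i).1 hρ.le
  have h7 : (τs - τ) * (a m ⬝ᵥ du a I i) ≤ ℓ * (a m ⬝ᵥ du a I i) :=
    mul_le_mul_of_nonneg_right (by linarith) (by linarith)
  have h8 : ℓ * (a m ⬝ᵥ du a I i) ≤ ℓ * Γ := mul_le_mul_of_nonneg_left hβ (by linarith)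
  nlinarith

/-- the second kind of events: the slope is large -/
theorem P1_evr (hm0 : m0 ∈ T) (hδ : 0 < δ) (hρ : 0 < ρ) (hΓ : 1 ≤ δ * ρ * Γ)
    (h : SX (nz a (insert m T) (a m0 - a m) δ q) T (Function.update (κ * w) m 0)
      (Pi.single m (-1)) (-Λ) Λ ℓ I i τs j r) (hmI : m ∉ I)
    (hβ : Γ < a m ⬝ᵥ du (nz a (insert m T) (a m0 - a m) δ q) I i) :
    i ∉ swp I i j ∧ i ∉ insert m T ∧ 
      ¬ Feas (nz a (insert m T) (a m0 - a m) δ (q + Pi.single i ρ)) (swp I i j) := by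
  have him : i ≠ m := fun h' => hmI (h' ▸ h.mem)
  have hij : i ≠ j := fun h' => h.jn (h' ▸ h.mem)
  have hiI' : i ∉ swp I i j := by
    intro h'
    rcases Finset.mem_insert.1 h' with h1 | h1
    · exact hij h1
    · exact Finset.ne_of_mem_erase h1 rfl
  have hiS : i ∉ insert m T := by
    intro h'
    rcases Finset.mem_insert.1 h' with h1 | h1
    · exact him h1
    · exact h.nmem h1
  refine ⟨hiI', hiS, fun hF => ?_⟩
  have hW := h.wopt
  have hW' := h.wopt'
  have h1 := hF.2 i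
  rw [P1_pt hiI', P1_sl_self hiS, P1_u_pt hm0 hW'.1 hW'.2.1.1, h.pt', P1_sl_sub, P1_sl_sub,
    sl_pt hW.2.1.1 h.mem, du_self hW.2.1.1 h.mem,
    P1_nz_mem (i := m) (Finset.mem_insert_self m T)] at h1
  have h2 := hW.2.1.2 m
  have h3 := h.ρ0
  set β := a m ⬝ᵥ du (nz a (insert m T) (a m0 - a m) δ q) I i with hβd
  have h4 : 0 < δ * ρ := mul_pos hδ hρ
  have h5 : 1 < δ * ρ * β := by nlinarith
  have h6 : 0 ≤ δ * ρ * sl (nz a (insert m T) (a m0 - a m) δ q) m
    (pt (nz a (insert m T) (a m0 - a m) δ q) I) := mul_nonneg h4.le h2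
  nlinarith

theorem P1_count (hm0 : m0 ∈ T) (hκ : ∀ i, κ0 ≤ κ i ∧ κ i ≤ 1) (hκ0 : 0 < κ0) (hδ : 0 < δ)
    (hρ : 0 < ρ) (hΛ : 0 < Λ) (hd : 1 ≤ d) (hℓ0 : 0 < ℓ) (hℓ : ℓ * Γ ≤ κ0 * ρ)
    (hΓ : 1 ≤ δ * ρ * Γ) (hr : Reg0 (nz a (insert m T) (a m0 - a m) δ q))
    (hg : Gen (nz a (insert m T) (a m0 - a m) δ q) T (Function.update (κ * w) m 0)
      (Pi.single m (-1))) :
    ((VS (nz a (insert m T) (a m0 - a m) δ q) T (Function.update (κ * w) m 0)
      (Pi.single m (-1)) (-Λ) Λ).card : ℝ) ≤ 5 + 2 * Λ / ℓ + d *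
        (((Finset.univ : Finset (Finset (Fin n) × Fin n)).filter (fun p =>
          Vis (nz a (insert m T) (a m0 - a m) δ q) T (Function.update (κ * w) m 0)
            (Pi.single m (-1)) (-Λ) Λ p.1 ∧ p.2 ∈ p.1 ∧ p.2 ∉ insert m T ∧
          ¬ Vis (nz a (insert m T) (a m0 - a m) δ q) T
            (Function.update (κ * (w + Pi.single p.2 (-ρ))) m 0)
            (Pi.single m (-1)) (-Λ) Λ p.1)).card +
        ((Finset.univ : Finset (Finset (Fin n) × Fin n)).filter (fun p =>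
          Vis (nz a (insert m T) (a m0 - a m) δ q) T (Function.update (κ * w) m 0)
            (Pi.single m (-1)) (-Λ) Λ p.1 ∧ p.2 ∉ p.1 ∧ p.2 ∉ insert m T ∧
          ¬ Feas (nz a (insert m T) (a m0 - a m) δ (q + Pi.single p.2 ρ)) p.1)).card) := by
  have h0 := param_count hr hg (τ0 := -Λ) (τ1 := Λ) (ℓ := ℓ) (by linarith) hℓ0
  set X := (Finset.univ : Finset (Finset (Fin n) × Fin n)).filter
    (fun p => ∃ τs j ρ, SX (nz a (insert m T) (a m0 - a m) δ q) T (Function.update (κ * w) m 0)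
      (Pi.single m (-1)) (-Λ) Λ ℓ p.1 p.2 τs j ρ) with hX
  set A := (Finset.univ : Finset (Finset (Fin n) × Fin n)).filter (fun p =>
    Vis (nz a (insert m T) (a m0 - a m) δ q) T (Function.update (κ * w) m 0)
      (Pi.single m (-1)) (-Λ) Λ p.1 ∧ p.2 ∈ p.1 ∧ p.2 ∉ insert m T ∧
    ¬ Vis (nz a (insert m T) (a m0 - a m) δ q) T
      (Function.update (κ * (w + Pi.single p.2 (-ρ))) m 0)
      (Pi.single m (-1)) (-Λ) Λ p.1) with hA
  set B := (Finset.univ : Finset (Finset (Fin n) × Fin n)).filter (fun p =>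
    Vis (nz a (insert m T) (a m0 - a m) δ q) T (Function.update (κ * w) m 0)
      (Pi.single m (-1)) (-Λ) Λ p.1 ∧ p.2 ∉ p.1 ∧ p.2 ∉ insert m T ∧
    ¬ Feas (nz a (insert m T) (a m0 - a m) δ (q + Pi.single p.2 ρ)) p.1) with hB
  have hsub : X ⊆ (X.filter fun p => m ∈ p.1) ∪ (A ∪ B.biUnion fun p =>
      p.1.image fun j => (swp p.1 j p.2, p.2)) := by
    intro p hp
    by_cases hmp : m ∈ p.1
    · exact Finset.mem_union_left _ (Finset.mem_filter.2 ⟨hp, hmp⟩)
    refine Finset.mem_union_right _ ?_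
    obtain ⟨τs, j, r, h⟩ := (Finset.mem_filter.1 hp).2
    have him : p.2 ≠ m := fun h' => hmp (h' ▸ h.mem)
    rcases le_or_gt (a m ⬝ᵥ du (nz a (insert m T) (a m0 - a m) δ q) p.1 p.2) Γ with hβ | hβ
    · refine Finset.mem_union_left _ (Finset.mem_filter.2 ⟨Finset.mem_univ _, h.vis, h.mem, ?_, ?_⟩)
      · intro h'
        rcases Finset.mem_insert.1 h' with h1 | h1
        · exact him h1
        · exact h.nmem h1
      · refine P1_evl hκ hκ0 hρ hℓ h hmp ?_
        rwa [P1_nz_mem (i := m) (Finset.mem_insert_self m T)]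
    · refine Finset.mem_union_right _ ?_
      obtain ⟨h1, h2, h3⟩ := P1_evr hm0 hδ hρ hΓ h hmp hβ
      refine Finset.mem_biUnion.2 ⟨(swp p.1 p.2 j, p.2), Finset.mem_filter.2
        ⟨Finset.mem_univ _, h.vis', h1, h2, h3⟩, Finset.mem_image.2
        ⟨j, Finset.mem_insert_self j _, ?_⟩⟩
      rw [P1_swp_swp h.mem h.jn]
  have hXm : (X.filter fun p => m ∈ p.1).card ≤ 1 := by
    have key : ∀ p ∈ X.filter (fun p => m ∈ p.1), p.2 = m := by
      intro p hp
      obtain ⟨hp1, hp2⟩ := Finset.mem_filter.1 hp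
      obtain ⟨τs, j, r, h⟩ := (Finset.mem_filter.1 hp1).2
      by_contra hne
      have h1 := h.neg
      rw [P1_cv_single, du_ne h.wopt.2.1.1 hp2 h.mem (Ne.symm hne)] at h1
      simp at h1
    rw [Finset.card_le_one]
    intro p hp p' hp'
    refine Prod.ext ?_ ((key p hp).trans (key p' hp').symm)
    obtain ⟨hp1, hp2⟩ := Finset.mem_filter.1 hp
    obtain ⟨hp1', hp2'⟩ := Finset.mem_filter.1 hp'
    obtain ⟨τs, j, r, h⟩ := (Finset.mem_filter.1 hp1).2
    obtain ⟨τs', j', r', h'⟩ := (Finset.mem_filter.1 hp1').2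
    exact P1_unique_m hr h.vis h'.vis hp2 hp2'
  have hBd : (B.biUnion fun p => p.1.image fun j => (swp p.1 j p.2, p.2)).card ≤ B.card * d := by
    refine Finset.card_biUnion_le_card_mul _ _ _ fun p hp => ?_
    obtain ⟨τ, -, -, hO⟩ := (Finset.mem_filter.1 hp).2.1
    exact Finset.card_image_le.trans hO.2.1.1.1.le
  have h1 : X.card ≤ 1 + (A.card + B.card * d) := by
    refine (Finset.card_le_card hsub).trans ((Finset.card_union_le _ _).trans ?_)
    have := Finset.card_union_le A (B.biUnion fun p => p.1.image fun j => (swp p.1 j p.2, p.2))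
    omega
  have h2 : (X.card : ℝ) ≤ 1 + (A.card + B.card * d) := by exact_mod_cast h1
  have h3 : (A.card : ℝ) ≤ d * A.card := by
    have : (1 : ℝ) ≤ d := by exact_mod_cast hd
    nlinarith [(Nat.cast_nonneg A.card : (0 : ℝ) ≤ A.card)]
  have h4 : Λ - -Λ = 2 * Λ := by ring
  rw [h4] at h0
  linarith

end count

end Pool.Agent.H.MP_0cad2f_co.NT
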