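import Pool.Agent.H.MP_0cad2f_co.NT.Param

/-!
Change of the weights at distance `η`, the deterministic part (section 4 of the text).
`V_T = {x | a i ⬝ᵥ x = 1, i ∈ T}`, `u ⬝ᵥ x + υ = η` on `V_T`, `b q = nzr a T u υ δ q`.
-/

set_option autoImplicit false
open scoped Classical

namespace Pool.Agent.H.MP_0cad2f_co.NT

section basic

variable {n d : ℕ} {a : Con n d} {T I : Finset (Fin n)} {i l : Fin n} {κ κ' w w' q : Wt n}
  {u : Fin d → ℝ} {δ η υ s τ : ℝ}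

/-- the difference of the weights -/
noncomputable def P2v (T : Finset (Fin n)) (υ δ : ℝ) (κ κ' q w w' : Wt n) : Wt n :=
  κ' * (gz T υ δ q * w') - κ * (gz T υ δ q * w)

/-- the weights at the parameter `τ` -/
noncomputable def P2W (T : Finset (Fin n)) (υ δ : ℝ) (κ κ' q w w' : Wt n) (τ : ℝ) : Wt n :=
  κ * (gz T υ δ q * w) + τ • P2v T υ δ κ κ' q w w'

theorem P2W_apply (k : Fin n) : P2W T υ δ κ κ' q w w' τ k =
    gz T υ δ q k * ((1 - τ) * (κ k * w k) + τ * (κ' k * w' k)) := by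
  simp only [P2W, P2v, Pi.add_apply, Pi.smul_apply, Pi.sub_apply, Pi.mul_apply, smul_eq_mul]
  ring

theorem P2v_apply (k : Fin n) : P2v T υ δ κ κ' q w w' k =
    gz T υ δ q k * (κ' k * w' k - κ k * w k) := by
  simp only [P2v, Pi.sub_apply, Pi.mul_apply]
  ring

theorem P2W_shift : P2W T υ δ κ κ' q (w + Pi.single i s) (w' + Pi.single i s) τ =
    P2W T υ δ κ κ' q w w' τ +
      Pi.single i (((1 - τ) * κ i + τ * κ' i) * (gz T υ δ q i * s)) := by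
  funext k
  rw [Pi.add_apply, P2W_apply, P2W_apply]
  by_cases hk : k = i
  · subst hk
    rw [Pi.add_apply, Pi.add_apply, Pi.single_eq_same, Pi.single_eq_same]
    ring
  · rw [Pi.add_apply, Pi.add_apply, Pi.single_eq_of_ne hk, Pi.single_eq_of_ne hk, add_zero,
      add_zero, add_zero]

theorem P2_cv_single {b : Con n d} (c : ℝ) (x : Fin d → ℝ) :
    cv b (Pi.single i c) ⬝ᵥ x = c * (b i ⬝ᵥ x) := by
  rw [cv_dot, Finset.sum_eq_single i]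
  · rw [Pi.single_eq_same]
  · intro k _ hk
    rw [Pi.single_eq_of_ne hk, zero_mul]
  · intro h
    exact absurd (Finset.mem_univ i) h

theorem P2_gz_mem (hi : i ∈ T) : gz T υ δ q i = 1 := by
  unfold gz
  rw [if_pos hi]

theorem P2_gz_not (hi : i ∉ T) : gz T υ δ q i = 1 - υ * (δ * (q i - 1)) := by
  unfold gz
  rw [if_neg hi]

theorem P2_nzr_mem (hi : i ∈ T) : nzr a T u υ δ q i = a i := by
  unfold nzr nz
  rw [P2_gz_mem hi, if_pos hi, inv_one, one_smul]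

theorem P2_nzr_not (hi : i ∉ T) :
    nzr a T u υ δ q i = (gz T υ δ q i)⁻¹ • (a i + (δ * (q i - 1)) • u) := by
  unfold nzr nz
  rw [if_neg hi]

theorem P2_gz_ne {k : Fin n} (hk : k ≠ i) : gz T υ δ (q + Pi.single i s) k = gz T υ δ q k := by
  unfold gz
  rw [Pi.add_apply, Pi.single_eq_of_ne hk, add_zero]

theorem P2_nzr_ne {k : Fin n} (hk : k ≠ i) :
    nzr a T u υ δ (q + Pi.single i s) k = nzr a T u υ δ q k := by
  unfold nzr nz
  rw [P2_gz_ne hk, Pi.add_apply, Pi.single_eq_of_ne hk, add_zero]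

/-- in `V_T` -/
theorem P2_dot (hg : gz T υ δ q i ≠ 0) (hi : i ∉ T) (x : Fin d → ℝ) :
    gz T υ δ q i * (nzr a T u υ δ q i ⬝ᵥ x) = a i ⬝ᵥ x + δ * (q i - 1) * (u ⬝ᵥ x) := by
  rw [P2_nzr_not hi, smul_dotProduct, add_dotProduct, smul_dotProduct, smul_eq_mul, smul_eq_mul,
    mul_inv_cancel_left₀ hg]

theorem P2_dot0 (hg : gz T υ δ q i ≠ 0) {x : Fin d → ℝ} (hx : u ⬝ᵥ x = 0) :
    gz T υ δ q i * (nzr a T u υ δ q i ⬝ᵥ x) = a i ⬝ᵥ x := by
  by_cases hi : i ∈ T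
  · rw [P2_gz_mem hi, P2_nzr_mem hi, one_mul]
  · rw [P2_dot hg hi, hx, mul_zero, add_zero]

theorem P2_sl (hu : ∀ x : Fin d → ℝ, (∀ i ∈ T, a i ⬝ᵥ x = 1) → u ⬝ᵥ x + υ = η)
    (hg : gz T υ δ q i ≠ 0) (hi : i ∉ T) {x : Fin d → ℝ} (hx : ∀ i ∈ T, a i ⬝ᵥ x = 1) :
    gz T υ δ q i * sl (nzr a T u υ δ q) i x = sl a i x - δ * (q i - 1) * η := by
  have h1 := P2_dot (a := a) (u := u) hg hi x
  have h2 := hu x hx
  have h3 : u ⬝ᵥ x = η - υ := by linarith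
  rw [sl, sl, mul_sub, h1, h3, mul_one, P2_gz_not hi]
  ring

theorem P2_sl_mem (hi : i ∈ T) {x : Fin d → ℝ} (hx : ∀ i ∈ T, a i ⬝ᵥ x = 1) :
    sl (nzr a T u υ δ q) i x = 0 := by
  rw [sl, P2_nzr_mem hi, hx i hi, sub_self]

theorem P2_pt_flat (hT : T ⊆ I) (h : Ind (nzr a T u υ δ q) I) (i : Fin n) (hi : i ∈ T) :
    a i ⬝ᵥ pt (nzr a T u υ δ q) I = 1 := by
  have h1 := pt_dot h (hT hi)
  rwa [P2_nzr_mem hi] at h1

theorem P2_u_du (hu : ∀ x : Fin d → ℝ, (∀ i ∈ T, a i ⬝ᵥ x = 1) → u ⬝ᵥ x + υ = η)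
    (hT : T ⊆ I) (h : Ind (nzr a T u υ δ q) I) (hl : l ∈ I) (hlT : l ∉ T) :
    u ⬝ᵥ du (nzr a T u υ δ q) I l = 0 := by
  have h1 := hu _ (P2_pt_flat hT h)
  have h2 := hu (pt (nzr a T u υ δ q) I + du (nzr a T u υ δ q) I l) (fun i hi => by
    have h3 := du_ne h (hT hi) hl (fun h => hlT (h ▸ hi))
    rw [P2_nzr_mem hi] at h3
    rw [dotProduct_add, P2_pt_flat hT h i hi, h3, add_zero])
  rw [dotProduct_add] at h2
  linarith

/-- the weighted sum does not see the noise -/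
theorem P2_cv (hg : ∀ k, gz T υ δ q k ≠ 0) {x : Fin d → ℝ} (hx : u ⬝ᵥ x = 0) :
    cv (nzr a T u υ δ q) (P2W T υ δ κ κ' q w w' τ) ⬝ᵥ x =
      ∑ k, ((1 - τ) * (κ k * w k) + τ * (κ' k * w' k)) * (a k ⬝ᵥ x) := by
  rw [cv_dot]
  refine Finset.sum_congr rfl fun k _ => ?_
  have h := P2_dot0 (a := a) (hg k) hx
  rw [P2W_apply, ← h]
  ring

theorem P2_du (hi : i ∉ I) (l : Fin n) :
    du (nzr a T u υ δ (q + Pi.single i s)) I l = du (nzr a T u υ δ q) I l :=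
  du_congr (fun k hk => P2_nzr_ne (fun h : k = i => hi (h ▸ hk))) l

theorem P2_pt (hi : i ∉ I) :
    pt (nzr a T u υ δ (q + Pi.single i s)) I = pt (nzr a T u υ δ q) I :=
  pt_congr (fun k hk => P2_nzr_ne (fun h : k = i => hi (h ▸ hk)))

theorem P2_ind (hi : i ∉ I) (h : Ind (nzr a T u υ δ q) I) :
    Ind (nzr a T u υ δ (q + Pi.single i s)) I :=
  ind_congr (fun k hk => (P2_nzr_ne (fun h : k = i => hi (h ▸ hk))).symm) h

theorem P2_feas (hu : ∀ x : Fin d → ℝ, (∀ i ∈ T, a i ⬝ᵥ x = 1) → u ⬝ᵥ x + υ = η)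
    (hη : 0 ≤ η) (hT : T ⊆ I) (hiT : i ∉ T) (hiI : i ∉ I) (hs : 0 ≤ s) (hδ : 0 ≤ δ)
    (hg : 0 < gz T υ δ q i) (hg' : 0 < gz T υ δ (q + Pi.single i (-s)) i)
    (h : Feas (nzr a T u υ δ q) I) :
    Feas (nzr a T u υ δ (q + Pi.single i (-s))) I := by
  refine ⟨P2_ind hiI h.1, fun k => ?_⟩
  rw [P2_pt hiI]
  by_cases hk : k = i
  · subst hk
    have h1 := P2_sl hu hg.ne' hiT (P2_pt_flat hT h.1)
    have h2 := P2_sl hu hg'.ne' hiT (P2_pt_flat hT h.1)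
    have h3 := mul_nonneg hg.le (h.2 k)
    rw [Pi.add_apply, Pi.single_eq_same] at h2
    have h4 : 0 ≤ δ * s * η := mul_nonneg (mul_nonneg hδ hs) hη
    have h5 : 0 ≤ gz T υ δ (q + Pi.single k (-s)) k *
        sl (nzr a T u υ δ (q + Pi.single k (-s))) k (pt (nzr a T u υ δ q) I) := by
      rw [h2]
      nlinarith
    exact nonneg_of_mul_nonneg_right h5 hg'
  · have h1 := h.2 k
    rw [sl] at h1 ⊢
    rwa [P2_nzr_ne hk]

theorem P2_opt_q (hu : ∀ x : Fin d → ℝ, (∀ i ∈ T, a i ⬝ᵥ x = 1) → u ⬝ᵥ x + υ = η)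
    (hη : 0 ≤ η) (hiT : i ∉ T) (hiI : i ∉ I) (hs : 0 ≤ s) (hδ : 0 ≤ δ)
    (hg : ∀ k, 0 < gz T υ δ q k) (hg' : ∀ k, 0 < gz T υ δ (q + Pi.single i (-s)) k)
    (h : Opt (nzr a T u υ δ q) T (P2W T υ δ κ κ' q w w' τ) I) :
    Opt (nzr a T u υ δ (q + Pi.single i (-s))) T
      (P2W T υ δ κ κ' (q + Pi.single i (-s)) w w' τ) I := by
  obtain ⟨hT, hF, hM⟩ := h
  refine ⟨hT, P2_feas hu hη hT hiT hiI hs hδ (hg i) (hg' i) hF, fun l hl hlT => ?_⟩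
  have h0 := P2_u_du hu hT hF.1 hl hlT
  have h1 := hM l hl hlT
  rw [P2_cv (fun k => (hg k).ne') h0] at h1
  rw [P2_du hiI, P2_cv (fun k => (hg' k).ne') h0]
  exact h1

theorem P2_opt_w (hi : i ∈ I) (hs : 0 ≤ s) (hg : 0 < gz T υ δ q i) (hκ : 0 < κ i)
    (hκ' : 0 < κ' i) (hτ0 : 0 ≤ τ) (hτ1 : τ ≤ 1) {b : Con n d}
    (h : Opt b T (P2W T υ δ κ κ' q w w' τ) I) :
    Opt b T (P2W T υ δ κ κ' q (w + Pi.single i s) (w' + Pi.single i s) τ) I := by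
  refine ⟨h.1, h.2.1, fun l hl hlT => ?_⟩
  have h1 := h.2.2 l hl hlT
  rw [P2W_shift, cv_add, P2_cv_single]
  by_cases hli : l = i
  · subst hli
    rw [du_self h.2.1.1 hl]
    have h2 : 0 ≤ ((1 - τ) * κ l + τ * κ' l) * (gz T υ δ q l * s) := by
      have h3 : 0 ≤ (1 - τ) * κ l := mul_nonneg (by linarith) hκ.le
      have h4 : 0 ≤ τ * κ' l := mul_nonneg hτ0 hκ'.le
      exact mul_nonneg (by linarith) (mul_nonneg hg.le hs)
    linarith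
  · rw [du_ne h.2.1.1 hi hl (Ne.symm hli), mul_zero, add_zero]
    exact h1

theorem P2_gz_pos (hυ : υ = 0 ∨ υ = 1) (hδ : 0 < δ) (hδ1 : δ ≤ 1 / 8) (hq : q ∈ cube n 1)
    (k : Fin n) : 1 / 2 ≤ gz T υ δ q k ∧ gz T υ δ q k ≤ 2 := by
  by_cases hk : k ∈ T
  · rw [P2_gz_mem hk]
    norm_num
  · rw [P2_gz_not hk]
    have h1 := hq k (Set.mem_univ k)
    rw [Set.mem_Icc] at h1
    rcases hυ with h | h
    · rw [h]
      norm_num
    · rw [h]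
      constructor <;> nlinarith

end basic

section count

variable {n d : ℕ} {a : Con n d} {T I J : Finset (Fin n)} {i j : Fin n} {κ κ' w w' q : Wt n}
  {u : Fin d → ℝ} {κ0 δ η υ ρ ℓ Γ τs r M : ℝ}

theorem P2_sl_sub {b : Con n d} (x e : Fin d → ℝ) (t : ℝ) :
    sl b i (x - t • e) = sl b i x + t * (b i ⬝ᵥ e) := by
  rw [sl, sl, dotProduct_sub, dotProduct_smul, smul_eq_mul]
  ring

theorem P2_swp_swp (hi : i ∈ I) (hj : j ∉ I) : swp (swp I i j) j i = I := by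
  unfold swp
  rw [Finset.erase_insert (fun h => hj (Finset.mem_of_mem_erase h)), Finset.insert_erase hi]

/-- the first kind of events: the slope of the multiplier is small -/
theorem P2_evl (hκ : ∀ i, κ0 ≤ κ i ∧ κ i ≤ 1) (hκ' : ∀ i, κ0 ≤ κ' i ∧ κ' i ≤ 1) (hκ0 : 0 < κ0)
    (hρ : 0 < ρ) (hg : 1 / 2 ≤ gz T υ δ q i) (hℓ : ℓ * Γ ≤ κ0 * ρ / 2)
    {b : Con n d}
    (h : SX b T (κ * (gz T υ δ q * w)) (P2v T υ δ κ κ' q w w') 0 1 ℓ I i τs j r)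
    (hβ : - (cv b (P2v T υ δ κ κ' q w w') ⬝ᵥ du b I i) ≤ Γ) :
    ¬ ∃ τ, 0 < τ ∧ τ < 1 ∧
      Opt b T (P2W T υ δ κ κ' q (w + Pi.single i (-ρ)) (w' + Pi.single i (-ρ)) τ) I := by
  rintro ⟨τ, hτ0, hτ1, hO⟩
  have hκi : 0 < κ i := hκ0.trans_le (hκ i).1
  have hκi' : 0 < κ' i := hκ0.trans_le (hκ' i).1
  have hgi : 0 < gz T υ δ q i := by linarith
  have h0 : ∀ w : Wt n, (w + Pi.single i (-ρ)) + Pi.single i ρ = w := fun w => by
    rw [add_assoc, ← Pi.single_add, neg_add_cancel, Pi.single_zero, add_zero]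
  have hO' : Opt b T (P2W T υ δ κ κ' q w w' τ) I := by
    have h1 := P2_opt_w h.mem hρ.le hgi hκi hκi' hτ0.le hτ1.le hO
    rwa [h0, h0] at h1
  obtain ⟨h1, h2⟩ := h.short τ hO'
  have h3 := hO.2.2 i h.mem h.nmem
  rw [P2W_shift, cv_add, P2_cv_single, du_self hO.2.1.1 h.mem, mul_one, P2W, mul_lin] at h3
  have h4 := h.zero
  rw [mul_lin] at h4
  have h5 := h.neg
  have h6 : κ0 * (1 / 2 * ρ) ≤ ((1 - τ) * κ i + τ * κ' i) * (gz T υ δ q i * ρ) := by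
    have h7 : κ0 ≤ (1 - τ) * κ i + τ * κ' i := by nlinarith [(hκ i).1, (hκ' i).1]
    have h8 : 1 / 2 * ρ ≤ gz T υ δ q i * ρ := mul_le_mul_of_nonneg_right hg hρ.le
    exact mul_le_mul h7 h8 (by positivity) (by linarith)
  have h7 : (τs - τ) * (-(cv b (P2v T υ δ κ κ' q w w') ⬝ᵥ du b I i)) ≤
      ℓ * (-(cv b (P2v T υ δ κ κ' q w w') ⬝ᵥ du b I i)) :=
    mul_le_mul_of_nonneg_right (by linarith) (by linarith)
  have h8 : ℓ * (-(cv b (P2v T υ δ κ κ' q w w') ⬝ᵥ du b I i)) ≤ ℓ * Γ :=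
    mul_le_mul_of_nonneg_left hβ (by linarith)
  have h9 : ((1 - τ) * κ i + τ * κ' i) * (gz T υ δ q i * -ρ) =
      - (((1 - τ) * κ i + τ * κ' i) * (gz T υ δ q i * ρ)) := by ring
  rw [h9] at h3
  nlinarith

/-- the bound of `D` at a weakly optimal basis -/
theorem P2_D (hυ : υ = 0 ∨ υ = 1) (hη : 0 < η) (hη1 : η ≤ 1) (hδ : 0 < δ) (hδ1 : δ ≤ 1 / 8)
    (hM : 0 ≤ M) (hu : ∀ x : Fin d → ℝ, (∀ i ∈ T, a i ⬝ᵥ x = 1) → u ⬝ᵥ x + υ = η)
    {z : Fin d → ℝ} (hz : ∀ i ∈ T, a i ⬝ᵥ z = 1)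
    (hz' : ∀ i, i ∉ T → 4 * δ * η ≤ sl a i z ∧ sl a i z ≤ M)
    (hκ : ∀ i, κ0 ≤ κ i ∧ κ i ≤ 1) (hκ' : ∀ i, κ0 ≤ κ' i ∧ κ' i ≤ 1) (hκ0 : 0 < κ0)
    (hq : q ∈ cube n (3 / 4)) (hw : w ∈ cube n (3 / 4)) (hw' : w' ∈ cube n (3 / 4))
    (hτ0 : 0 ≤ τs) (hτ1 : τs ≤ 1)
    (h : WOpt (nzr a T u υ δ q) T (P2W T υ δ κ κ' q w w' τs) I) :
    |∑ k, P2v T υ δ κ κ' q w w' k * sl (nzr a T u υ δ q) k (pt (nzr a T u υ δ q) I)| ≤
      484 * n * (M + 1) / κ0 := by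
  have hq1 : q ∈ cube n 1 := by
    intro k hk
    have h1 := hq k hk
    rw [Set.mem_Icc] at h1 ⊢
    constructor <;> linarith
  have hg := P2_gz_pos (T := T) hυ hδ hδ1 hq1
  set b := nzr a T u υ δ q with hb
  obtain ⟨hT, hF, hO⟩ := h
  have hW0 : ∀ (k : Fin n), κ0 / 8 ≤ P2W T υ δ κ κ' q w w' τs k ∧
      P2W T υ δ κ κ' q w w' τs k ≤ 11 / 2 := by
    intro k
    have h1 := hw k (Set.mem_univ k)
    have h2 := hw' k (Set.mem_univ k)
    rw [Set.mem_Icc] at h1 h2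
    have h3 := hκ k
    have h4 := hκ' k
    have h5 : κ0 / 4 ≤ κ k * w k := by nlinarith
    have h6 : κ0 / 4 ≤ κ' k * w' k := by nlinarith
    have h5' : κ k * w k ≤ 11 / 4 := by nlinarith
    have h6' : κ' k * w' k ≤ 11 / 4 := by nlinarith
    have h7 : κ0 / 4 ≤ (1 - τs) * (κ k * w k) + τs * (κ' k * w' k) := by nlinarith
    have h8 : (1 - τs) * (κ k * w k) + τs * (κ' k * w' k) ≤ 11 / 4 := by nlinarith
    rw [P2W_apply]
    have h9 := hg k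
    constructor
    · nlinarith
    · nlinarith
  have hv : ∀ (k : Fin n), |P2v T υ δ κ κ' q w w' k| ≤ 11 / 2 := by
    intro k
    have h1 := hw k (Set.mem_univ k)
    have h2 := hw' k (Set.mem_univ k)
    rw [Set.mem_Icc] at h1 h2
    have h3 := hκ k
    have h4 := hκ' k
    have h5 : 0 ≤ κ k * w k := mul_nonneg (by linarith) (by linarith)
    have h6 : 0 ≤ κ' k * w' k := mul_nonneg (by linarith) (by linarith)
    have h5' : κ k * w k ≤ 11 / 4 := by nlinarith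
    have h6' : κ' k * w' k ≤ 11 / 4 := by nlinarith
    rw [P2v_apply, abs_mul]
    have h9 := hg k
    rw [abs_of_pos (by linarith : 0 < gz T υ δ q k)]
    have h10 : |κ' k * w' k - κ k * w k| ≤ 11 / 4 := by
      rw [abs_le]
      constructor <;> linarith
    calc gz T υ δ q k * |κ' k * w' k - κ k * w k| ≤ 2 * (11 / 4) :=
          mul_le_mul h9.2 h10 (abs_nonneg _) (by norm_num)
      _ = 11 / 2 := by norm_num
  -- the value at the optimal basis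
  have hid := ident hF.1 hT (x := z) (fun i hi => by rw [hb, P2_nzr_mem hi, hz i hi])
    (P2W T υ δ κ κ' q w w' τs)
  have hslz : ∀ k, 0 ≤ sl b k z ∧ sl b k z ≤ 2 * (M + 1) := by
    intro k
    by_cases hk : k ∈ T
    · rw [hb, P2_sl_mem hk hz]
      constructor
      · exact le_rfl
      · linarith
    · have hgk := hg k
      have h1 := P2_sl hu (by linarith : 0 < gz T υ δ q k).ne' hk hz
      have h2 := hz' k hk
      have h3 := hq k (Set.mem_univ k)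
      rw [Set.mem_Icc] at h3
      have h4 : 0 < δ * η := mul_pos hδ hη
      have h5 : δ * (q k - 1) * η = δ * η * (q k - 1) := by ring
      have h6 : δ * η ≤ 1 / 8 := by nlinarith
      rw [h5] at h1
      have h7 : 0 ≤ gz T υ δ q k * sl b k z := by
        rw [h1]
        nlinarith
      have h8 : gz T υ δ q k * sl b k z ≤ M + 1 := by
        rw [h1]
        nlinarith
      have h9 : 0 ≤ sl b k z := nonneg_of_mul_nonneg_right h7 (by linarith)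
      exact ⟨h9, by nlinarith⟩
  have hsum : 0 ≤ ∑ i ∈ I \ T, (cv b (P2W T υ δ κ κ' q w w' τs) ⬝ᵥ du b I i) * sl b i z := by
    refine Finset.sum_nonneg fun i hi => ?_
    obtain ⟨h1, h2⟩ := Finset.mem_sdiff.1 hi
    exact mul_nonneg (hO i h1 h2) (hslz i).1
  have hz2 : ∑ k, P2W T υ δ κ κ' q w w' τs k * sl b k z ≤ n * (11 * (M + 1)) := by
    calc ∑ k, P2W T υ δ κ κ' q w w' τs k * sl b k z ≤ ∑ _k : Fin n, 11 * (M + 1) := by
          refine Finset.sum_le_sum fun k _ => ?_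
          calc P2W T υ δ κ κ' q w w' τs k * sl b k z ≤ 11 / 2 * (2 * (M + 1)) :=
                mul_le_mul (hW0 k).2 (hslz k).2 (hslz k).1 (by norm_num)
            _ = 11 * (M + 1) := by ring
      _ = n * (11 * (M + 1)) := by
          rw [Finset.sum_const, Finset.card_univ, Fintype.card_fin, nsmul_eq_mul]
  have hval : ∑ k, P2W T υ δ κ κ' q w w' τs k * sl b k (pt b I) ≤ n * (11 * (M + 1)) := by
    linarith
  calc |∑ k, P2v T υ δ κ κ' q w w' k * sl b k (pt b I)|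
      ≤ ∑ k, |P2v T υ δ κ κ' q w w' k * sl b k (pt b I)| := Finset.abs_sum_le_sum_abs _ _
    _ ≤ ∑ k, (44 / κ0) * (P2W T υ δ κ κ' q w w' τs k * sl b k (pt b I)) := by
        refine Finset.sum_le_sum fun k _ => ?_
        rw [abs_mul, abs_of_nonneg (hF.2 k), ← mul_assoc]
        refine mul_le_mul_of_nonneg_right ((hv k).trans ?_) (hF.2 k)
        have h1 : 44 / κ0 * (κ0 / 8) = 11 / 2 := by
          field_simp
          norm_num
        rw [← h1]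
        exact mul_le_mul_of_nonneg_left (hW0 k).1 (by positivity)
    _ = (44 / κ0) * ∑ k, P2W T υ δ κ κ' q w w' τs k * sl b k (pt b I) := by
        rw [Finset.mul_sum]
    _ ≤ (44 / κ0) * (n * (11 * (M + 1))) := mul_le_mul_of_nonneg_left hval (by positivity)
    _ = 484 * n * (M + 1) / κ0 := by ring

/-- the second kind of events: the slope is large -/
theorem P2_evr (hυ : υ = 0 ∨ υ = 1) (hη : 0 < η) (hη1 : η ≤ 1) (hδ : 0 < δ) (hδ1 : δ ≤ 1 / 8)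
    (hM : 0 ≤ M) (hu : ∀ x : Fin d → ℝ, (∀ i ∈ T, a i ⬝ᵥ x = 1) → u ⬝ᵥ x + υ = η)
    {z : Fin d → ℝ} (hz : ∀ i ∈ T, a i ⬝ᵥ z = 1)
    (hz' : ∀ i, i ∉ T → 4 * δ * η ≤ sl a i z ∧ sl a i z ≤ M)
    (hκ : ∀ i, κ0 ≤ κ i ∧ κ i ≤ 1) (hκ' : ∀ i, κ0 ≤ κ' i ∧ κ' i ≤ 1) (hκ0 : 0 < κ0)
    (hq : q ∈ cube n (3 / 4)) (hw : w ∈ cube n (3 / 4)) (hw' : w' ∈ cube n (3 / 4))
    (hρ : 0 < ρ) (hρ1 : ρ ≤ 1 / 4) (hΓ : 3872 * n * (M + 1) ≤ κ0 * (δ * η * ρ) * Γ)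
    (h : SX (nzr a T u υ δ q) T (κ * (gz T υ δ q * w)) (P2v T υ δ κ κ' q w w') 0 1 ℓ
      I i τs j r)
    (hβ : Γ < - (cv (nzr a T u υ δ q) (P2v T υ δ κ κ' q w w') ⬝ᵥ
      du (nzr a T u υ δ q) I i)) :
    i ∉ swp I i j ∧ i ∉ T ∧ ¬ Feas (nzr a T u υ δ (q + Pi.single i ρ)) (swp I i j) := by
  have hij : i ≠ j := fun h' => h.jn (h' ▸ h.mem)
  have hiI' : i ∉ swp I i j := by
    intro h'
    rcases Finset.mem_insert.1 h' with h1 | h1
    · exact hij h1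
    · exact Finset.ne_of_mem_erase h1 rfl
  refine ⟨hiI', h.nmem, fun hF => ?_⟩
  have hW := h.wopt
  have hW' := h.wopt'
  have hq1 : q ∈ cube n 1 := by
    intro k hk
    have h1 := hq k hk
    rw [Set.mem_Icc] at h1 ⊢
    constructor <;> linarith
  have hq2 : q + Pi.single i ρ ∈ cube n 1 := by
    intro k hk
    have h1 := hq k hk
    rw [Set.mem_Icc] at h1 ⊢
    by_cases hki : k = i
    · subst hki
      rw [Pi.add_apply, Pi.single_eq_same]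
      constructor <;> linarith
    · rw [Pi.add_apply, Pi.single_eq_of_ne hki]
      constructor <;> linarith
  have hg := P2_gz_pos (T := T) hυ hδ hδ1 hq1 i
  have hg2 := P2_gz_pos (T := T) hυ hδ hδ1 hq2 i
  have hD := P2_D hυ hη hη1 hδ hδ1 hM hu hz hz' hκ hκ' hκ0 hq hw hw' h.lo.le h.hi.le hW
  have hD' := P2_D hυ hη hη1 hδ hδ1 hM hu hz hz' hκ hκ' hκ0 hq hw hw' h.lo.le h.hi.le hW'
  set b := nzr a T u υ δ q with hb
  set v := P2v T υ δ κ κ' q w w' with hv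
  set β := - (cv b v ⬝ᵥ du b I i) with hβd
  -- the slack of `i` at the next vertex is `r`
  have hsr : sl b i (pt b (swp I i j)) = r := by
    rw [h.pt', P2_sl_sub, sl_pt hW.2.1.1 h.mem, du_self hW.2.1.1 h.mem]
    ring
  have hrβ : r * β = ∑ k, v k * sl b k (pt b I) - ∑ k, v k * sl b k (pt b (swp I i j)) := by
    rw [← Finset.sum_sub_distrib, h.pt']
    have h1 : ∀ k ∈ (Finset.univ : Finset (Fin n)), v k * sl b k (pt b I) -
        v k * sl b k (pt b I - r • du b I i) = - r * (v k * (b k ⬝ᵥ du b I i)) := by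
      intro k _
      rw [P2_sl_sub]
      ring
    rw [Finset.sum_congr rfl h1, ← Finset.mul_sum, ← cv_dot]
    ring
  have hr0 := h.ρ0
  have hβ1 : r * β ≤ 2 * (484 * n * (M + 1) / κ0) := by
    have h1 := (abs_le.1 hD).2
    have h2 := (abs_le.1 hD').1
    linarith
  have hrΓ : r * Γ ≤ r * β := mul_le_mul_of_nonneg_left hβ.le hr0.le
  have h1 : κ0 * (r * Γ) ≤ 968 * n * (M + 1) := by
    have h2 : κ0 * (r * Γ) ≤ κ0 * (2 * (484 * n * (M + 1) / κ0)) :=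
      mul_le_mul_of_nonneg_left (hrΓ.trans hβ1) hκ0.le
    have h3 : κ0 * (2 * (484 * n * (M + 1) / κ0)) = 968 * n * (M + 1) := by
      field_simp
      ring
    linarith
  have hX : 0 < δ * η * ρ := mul_pos (mul_pos hδ hη) hρ
  have hn0 : (0 : ℝ) < n := by
    have : 0 < n := i.pos
    exact_mod_cast this
  have hC : 0 < 3872 * n * (M + 1) := by positivity
  have hΓ0 : 0 < Γ := by
    by_contra hcon
    have h2 : κ0 * (δ * η * ρ) * Γ ≤ 0 :=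
      mul_nonpos_of_nonneg_of_nonpos (mul_pos hκ0 hX).le (not_lt.1 hcon)
    linarith
  have hr1 : 4 * r ≤ δ * η * ρ := by
    have h2 : κ0 * Γ * (4 * r) ≤ κ0 * Γ * (δ * η * ρ) := by nlinarith
    exact le_of_mul_le_mul_left h2 (mul_pos hκ0 hΓ0)
  have h2 := P2_sl hu (by linarith : 0 < gz T υ δ q i).ne' h.nmem
    (P2_pt_flat hW'.1 hW'.2.1.1)
  have h3 := P2_sl hu (by linarith : 0 < gz T υ δ (q + Pi.single i ρ) i).ne' h.nmem
    (P2_pt_flat hW'.1 hW'.2.1.1)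
  have h4 := hF.2 i
  rw [P2_pt hiI'] at h4
  rw [Pi.add_apply, Pi.single_eq_same] at h3
  rw [← hb] at h2 h3 h4
  rw [hsr] at h2
  have h5 : 0 ≤ gz T υ δ (q + Pi.single i ρ) i *
      sl (nzr a T u υ δ (q + Pi.single i ρ)) i (pt b (swp I i j)) :=
    mul_nonneg (by linarith) h4
  rw [h3] at h5
  nlinarith

theorem P2_count (hυ : υ = 0 ∨ υ = 1) (hη : 0 < η) (hη1 : η ≤ 1) (hδ : 0 < δ) (hδ1 : δ ≤ 1 / 8)
    (hM : 0 ≤ M) (hu : ∀ x : Fin d → ℝ, (∀ i ∈ T, a i ⬝ᵥ x = 1) → u ⬝ᵥ x + υ = η)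
    {z : Fin d → ℝ} (hz : ∀ i ∈ T, a i ⬝ᵥ z = 1)
    (hz' : ∀ i, i ∉ T → 4 * δ * η ≤ sl a i z ∧ sl a i z ≤ M)
    (hκ : ∀ i, κ0 ≤ κ i ∧ κ i ≤ 1) (hκ' : ∀ i, κ0 ≤ κ' i ∧ κ' i ≤ 1) (hκ0 : 0 < κ0)
    (hq : q ∈ cube n (3 / 4)) (hw : w ∈ cube n (3 / 4)) (hw' : w' ∈ cube n (3 / 4))
    (hρ : 0 < ρ) (hρ1 : ρ ≤ 1 / 4) (hΓ : 3872 * n * (M + 1) ≤ κ0 * (δ * η * ρ) * Γ)
    (hℓ0 : 0 < ℓ) (hℓ : ℓ * Γ ≤ κ0 * ρ / 2) (hd : 1 ≤ d)
    (hr : Reg0 (nzr a T u υ δ q))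
    (hG : Gen (nzr a T u υ δ q) T (κ * (gz T υ δ q * w)) (P2v T υ δ κ κ' q w w')) :
    ((VS (nzr a T u υ δ q) T (κ * (gz T υ δ q * w)) (P2v T υ δ κ κ' q w w') 0 1).card : ℝ) ≤
      4 + 1 / ℓ + d *
        (((Finset.univ : Finset (Finset (Fin n) × Fin n)).filter (fun p =>
          Vis (nzr a T u υ δ q) T (κ * (gz T υ δ q * w)) (P2v T υ δ κ κ' q w w') 0 1 p.1 ∧
            p.2 ∈ p.1 ∧ p.2 ∉ T ∧
          ¬ ∃ τ, 0 < τ ∧ τ < 1 ∧ Opt (nzr a T u υ δ q) T (P2W T υ δ κ κ' q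
            (w + Pi.single p.2 (-ρ)) (w' + Pi.single p.2 (-ρ)) τ) p.1)).card +
        ((Finset.univ : Finset (Finset (Fin n) × Fin n)).filter (fun p =>
          Vis (nzr a T u υ δ q) T (κ * (gz T υ δ q * w)) (P2v T υ δ κ κ' q w w') 0 1 p.1 ∧
            p.2 ∉ p.1 ∧ p.2 ∉ T ∧
          ¬ Feas (nzr a T u υ δ (q + Pi.single p.2 ρ)) p.1)).card) := by
  have h0 := param_count hr hG (τ0 := 0) (τ1 := 1) (ℓ := ℓ) zero_lt_one hℓ0
  set X := (Finset.univ : Finset (Finset (Fin n) × Fin n)).filter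
    (fun p => ∃ τs j ρ, SX (nzr a T u υ δ q) T (κ * (gz T υ δ q * w))
      (P2v T υ δ κ κ' q w w') 0 1 ℓ p.1 p.2 τs j ρ) with hX
  set A := (Finset.univ : Finset (Finset (Fin n) × Fin n)).filter (fun p =>
          Vis (nzr a T u υ δ q) T (κ * (gz T υ δ q * w)) (P2v T υ δ κ κ' q w w') 0 1 p.1 ∧
            p.2 ∈ p.1 ∧ p.2 ∉ T ∧
          ¬ ∃ τ, 0 < τ ∧ τ < 1 ∧ Opt (nzr a T u υ δ q) T (P2W T υ δ κ κ' q
            (w + Pi.single p.2 (-ρ)) (w' + Pi.single p.2 (-ρ)) τ) p.1) with hA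
  set B := (Finset.univ : Finset (Finset (Fin n) × Fin n)).filter (fun p =>
          Vis (nzr a T u υ δ q) T (κ * (gz T υ δ q * w)) (P2v T υ δ κ κ' q w w') 0 1 p.1 ∧
            p.2 ∉ p.1 ∧ p.2 ∉ T ∧
          ¬ Feas (nzr a T u υ δ (q + Pi.single p.2 ρ)) p.1) with hB
  have hq1 : q ∈ cube n 1 := by
    intro k hk
    have h1 := hq k hk
    rw [Set.mem_Icc] at h1 ⊢
    constructor <;> linarith
  have hsub : X ⊆ A ∪ B.biUnion fun p => p.1.image fun j => (swp p.1 j p.2, p.2) := by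
    intro p hp
    obtain ⟨τs, j, r, h⟩ := (Finset.mem_filter.1 hp).2
    rcases le_or_gt (- (cv (nzr a T u υ δ q) (P2v T υ δ κ κ' q w w') ⬝ᵥ
      du (nzr a T u υ δ q) p.1 p.2)) Γ with hβ | hβ
    · refine Finset.mem_union_left _ (Finset.mem_filter.2
        ⟨Finset.mem_univ _, h.vis, h.mem, h.nmem, ?_⟩)
      exact P2_evl hκ hκ' hκ0 hρ (P2_gz_pos hυ hδ hδ1 hq1 p.2).1 hℓ h hβ
    · refine Finset.mem_union_right _ ?_
      obtain ⟨h1, h2, h3⟩ := P2_evr hυ hη hη1 hδ hδ1 hM hu hz hz' hκ hκ' hκ0 hq hw hw' hρ hρ1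
        hΓ h hβ
      refine Finset.mem_biUnion.2 ⟨(swp p.1 p.2 j, p.2), Finset.mem_filter.2
        ⟨Finset.mem_univ _, h.vis', h1, h2, h3⟩, Finset.mem_image.2
        ⟨j, Finset.mem_insert_self j _, ?_⟩⟩
      rw [P2_swp_swp h.mem h.jn]
  have hBd : (B.biUnion fun p => p.1.image fun j => (swp p.1 j p.2, p.2)).card ≤ B.card * d := by
    refine Finset.card_biUnion_le_card_mul _ _ _ fun p hp => ?_
    obtain ⟨τ, -, -, hO⟩ := (Finset.mem_filter.1 hp).2.1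
    exact Finset.card_image_le.trans hO.2.1.1.1.le
  have h1 : X.card ≤ A.card + B.card * d :=
    (Finset.card_le_card hsub).trans ((Finset.card_union_le _ _).trans (by omega))
  have h2 : (X.card : ℝ) ≤ A.card + B.card * d := by exact_mod_cast h1
  have h3 : (A.card : ℝ) ≤ d * A.card := by
    have : (1 : ℝ) ≤ d := by exact_mod_cast hd
    nlinarith [(Nat.cast_nonneg A.card : (0 : ℝ) ≤ A.card)]
  rw [sub_zero] at h0
  linarith

end count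

end Pool.Agent.H.MP_0cad2f_co.NT
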