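import Pool.Agent.H.MP_0cad2f_co.NT.Lp

/-!
The parametric path (section 1 of the text). `L_I = {τ | Opt a T (w0 + τ • v) I}` is an open interval (finitely many
strict linear inequalities in `τ`; `cv_add`, `cv_smul`); the `L_I` are disjoint (`wopt_unique`).

`param_next`. Let `τs = sup L_I`, finite because `L_J` lies to the right of `L_I` (both are intervals, disjoint).
At `τs` all multipliers are `≥ 0` (limit), one is `0` (otherwise `L_I` would extend), exactly one, `i`, by `Gen`; its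
slope is `≤ 0` (it is positive before `τs`), and not `0` by the second part of `Gen`. If no row has
`a k ⬝ᵥ du a I i < 0` then `pt a I - ρ • du a I i`, `ρ ≥ 0`, is feasible, and for the parameter `τ > τs` of `J` the objective
`∑ w k * sl a k x = const - cv ⬝ᵥ x` tends to `-∞` along the ray (`cv ⬝ᵥ du a I i < 0` there), but it is at least the value at
`pt a J` (`ident` for `J`). So `pivot` gives `j`; by `dot_du_swp` the multipliers at `τs` of `swp I i j` are those of `I`, and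
`0` at `j`; the slope of the multiplier of `j` is `(a j ⬝ᵥ du a I i)⁻¹ * (cv a v ⬝ᵥ du a I i) > 0` (`du_swp_self`). So
`swp I i j` is strictly optimal on `(τs, τs + ε)`.

`param_path`: let `I ≠ J`, `L_I` left of `L_J` (otherwise `Ch.symm`). Induction on the number of the members of `VS` with
`L_K` right of `L_I`.

`param_count`: members `I` of `VS` with (a) `(τs - ℓ, τs) ⊆ L_I` for some `τs ≤ τ1`, `τ0 ≤ τs - ℓ` (or any subinterval of
`(τ0, τ1)` of length `ℓ` in `L_I`): at most `(τ1 - τ0)/ℓ` (disjoint intervals of length `ℓ`); (b) `sup L_I ≥ τ1`: at most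
one; (c) `inf L_I ≤ τ0`: at most one; (d) the rightmost member of `VS`: one; the others have a short crossing.
-/

set_option autoImplicit false
open scoped Classical

namespace Pool.Agent.H.MP_0cad2f_co.NT

variable {n d : ℕ} {a : Con n d} {T I J : Finset (Fin n)} {w0 v : Wt n} {τ0 τ1 ℓ : ℝ}

theorem Opt.wopt {w : Wt n} (h : Opt a T w I) : WOpt a T w I :=
  ⟨h.1, h.2.1, fun i hi hiT => (h.2.2 i hi hiT).le⟩

theorem mul_lin (w0 v : Wt n) (s : ℝ) (x : Fin d → ℝ) :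
    cv a (w0 + s • v) ⬝ᵥ x = cv a w0 ⬝ᵥ x + s * (cv a v ⬝ᵥ x) := by
  rw [cv_add, cv_smul]

/-- the parameters for which `I` is optimal form an interval -/
theorem Opt.between {s t u : ℝ} (hs : Opt a T (w0 + s • v) I) (hu : Opt a T (w0 + u • v) I)
    (h1 : s ≤ t) (h2 : t ≤ u) : Opt a T (w0 + t • v) I := by
  refine ⟨hs.1, hs.2.1, fun i hi hiT => ?_⟩
  have h3 := hs.2.2 i hi hiT
  have h4 := hu.2.2 i hi hiT
  rw [mul_lin] at h3 h4 ⊢
  rcases le_or_gt 0 (cv a v ⬝ᵥ du a I i) with h | h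
  · nlinarith
  · nlinarith

/-- the next basis -/
theorem param_next (hr : Reg0 a) (hg : Gen a T w0 v) {τ τ' : ℝ} (hI : Opt a T (w0 + τ • v) I)
    (hJ : Opt a T (w0 + τ' • v) J) (hIJ : I ≠ J) (hτ : τ < τ') :
    ∃ (τs : ℝ) (i j : Fin n) (ρ : ℝ), τ < τs ∧ τs < τ' ∧ i ∈ I ∧ i ∉ T ∧ j ∉ I ∧
      cv a (w0 + τs • v) ⬝ᵥ du a I i = 0 ∧ cv a v ⬝ᵥ du a I i < 0 ∧
      (∀ s, Opt a T (w0 + s • v) I → s < τs) ∧ (∀ s, τ ≤ s → s < τs → Opt a T (w0 + s • v) I) ∧
      WOpt a T (w0 + τs • v) I ∧ WOpt a T (w0 + τs • v) (swp I i j) ∧ 0 < ρ ∧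
      pt a (swp I i j) = pt a I - ρ • du a I i ∧
      ∃ ε > 0, ∀ s, τs < s → s < τs + ε → Opt a T (w0 + s • v) (swp I i j) := by
  set F : Fin n → ℝ := fun l => cv a w0 ⬝ᵥ du a I l with hF
  set G : Fin n → ℝ := fun l => cv a v ⬝ᵥ du a I l with hG
  have hm : ∀ s l, cv a (w0 + s • v) ⬝ᵥ du a I l = F l + s * G l := fun s l => mul_lin w0 v s _
  have hpos : ∀ l ∈ I, l ∉ T → 0 < F l + τ * G l := fun l hl hlT => by
    rw [← hm]; exact hI.2.2 l hl hlT
  set S : Finset (Fin n) := I.filter fun l => l ∉ T ∧ G l < 0 with hS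
  have hbad : ∃ l ∈ I, l ∉ T ∧ F l + τ' * G l ≤ 0 := by
    by_contra hcon
    push Not at hcon
    have h1 : Opt a T (w0 + τ' • v) I :=
      ⟨hI.1, hI.2.1, fun l hl hlT => by rw [hm]; exact hcon l hl hlT⟩
    exact hIJ (wopt_unique hr h1.wopt hJ)
  obtain ⟨l0, hl0, hl0T, hl0'⟩ := hbad
  have hG0 : G l0 < 0 := by
    have h1 := hpos l0 hl0 hl0T
    by_contra hcon
    push Not at hcon
    nlinarith
  have hSne : S.Nonempty := ⟨l0, Finset.mem_filter.2 ⟨hl0, hl0T, hG0⟩⟩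
  obtain ⟨i, hiS, hmin⟩ := Finset.exists_min_image S (fun l => F l / (-G l)) hSne
  obtain ⟨hi, hiT, hGi⟩ := Finset.mem_filter.1 hiS
  set τs : ℝ := F i / (-G i) with hτs
  have hzero : F i + τs * G i = 0 := by
    rw [hτs, div_neg, neg_mul, div_mul_cancel₀ _ hGi.ne, add_neg_cancel]
  have hlt : τ < τs := by
    have h1 := hpos i hi hiT
    rw [hτs, lt_div_iff₀ (by linarith)]
    linarith
  have hle : τs ≤ τ' := by
    refine (hmin l0 (Finset.mem_filter.2 ⟨hl0, hl0T, hG0⟩)).trans ?_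
    rw [div_le_iff₀ (by linarith)]
    linarith
  have hbelow : ∀ s, τ ≤ s → s < τs → ∀ l ∈ I, l ∉ T → 0 < F l + s * G l := by
    intro s hs1 hs2 l hl hlT
    have h1 := hpos l hl hlT
    rcases le_or_gt 0 (G l) with h | h
    · nlinarith
    · have h2 := hmin l (Finset.mem_filter.2 ⟨hl, hlT, h⟩)
      have h3 : s < F l / (-G l) := lt_of_lt_of_le hs2 h2
      rw [lt_div_iff₀ (by linarith)] at h3
      linarith
  have hweak : ∀ l ∈ I, l ∉ T → 0 ≤ F l + τs * G l := by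
    intro l hl hlT
    have h1 := hpos l hl hlT
    rcases le_or_gt 0 (G l) with h | h
    · nlinarith
    · have h2 := hmin l (Finset.mem_filter.2 ⟨hl, hlT, h⟩)
      have h3 : τs ≤ F l / (-G l) := h2
      rw [le_div_iff₀ (by linarith)] at h3
      linarith
  have hW : WOpt a T (w0 + τs • v) I :=
    ⟨hI.1, hI.2.1, fun l hl hlT => by rw [hm]; exact hweak l hl hlT⟩
  have hlt' : τs < τ' := by
    refine lt_of_le_of_ne hle fun h => hIJ ?_
    rw [h] at hW
    exact wopt_unique hr hW hJ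
  have hstrict : ∀ l ∈ I, l ∉ T → l ≠ i → 0 < F l + τs * G l := by
    intro l hl hlT hli
    refine lt_of_le_of_ne (hweak l hl hlT) fun h => ?_
    refine (hg I hI.2.1.1.1 hI.1).1 l hl hlT i hi hiT hli τs ⟨?_, ?_⟩
    · rw [hm]; exact h.symm
    · rw [hm]; exact hzero
  have hup : ∀ s, Opt a T (w0 + s • v) I → s < τs := by
    intro s hs
    have h1 := hs.2.2 i hi hiT
    rw [hm] at h1
    rw [hτs, lt_div_iff₀ (by linarith)]
    linarith
  have hmi' : F i + τ' * G i < 0 := by nlinarith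
  -- the ray is not feasible
  have hex : ∃ k, a k ⬝ᵥ du a I i < 0 := by
    by_contra hcon
    push Not at hcon
    set w' : Wt n := w0 + τ' • v with hw'
    have hA : ∀ x : Fin d → ℝ, (∀ l ∈ T, a l ⬝ᵥ x = 1) → (∀ k, 0 ≤ sl a k x) →
        ∑ k, w' k * sl a k (pt a J) ≤ ∑ k, w' k * sl a k x := by
      intro x hx hx'
      rw [ident hJ.2.1.1 hJ.1 hx w']
      have h1 : 0 ≤ ∑ l ∈ J \ T, (cv a w' ⬝ᵥ du a J l) * sl a l x :=
        Finset.sum_nonneg fun l hl =>
          mul_nonneg (hJ.2.2 l (Finset.mem_sdiff.1 hl).1 (Finset.mem_sdiff.1 hl).2).le (hx' l)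
      linarith
    have hray : ∀ r : ℝ, 0 ≤ r → ∑ k, w' k * sl a k (pt a J) ≤
        ∑ k, w' k * sl a k (pt a I) + r * (F i + τ' * G i) := by
      intro r hr0
      have hsl : ∀ k, sl a k (pt a I + (-r) • du a I i) =
          sl a k (pt a I) + r * (a k ⬝ᵥ du a I i) := by
        intro k
        rw [sl_add]
        ring
      have h1 := hA (pt a I + (-r) • du a I i) (fun l hl => by
        have hlI := hI.1 hl
        have hli : l ≠ i := fun h => hiT (h ▸ hl)
        rw [dotProduct_add, dotProduct_smul, pt_dot hI.2.1.1 hlI, du_ne hI.2.1.1 hlI hi hli,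
          smul_zero, add_zero]) (fun k => by
        rw [hsl]
        exact add_nonneg (hI.2.1.2 k) (mul_nonneg hr0 (hcon k)))
      refine h1.trans (le_of_eq ?_)
      rw [← hm, cv_dot, Finset.mul_sum, ← Finset.sum_add_distrib]
      refine Finset.sum_congr rfl fun k _ => ?_
      rw [hsl]
      ring
    have h0 := hray 0 le_rfl
    have h1 := hray ((∑ k, w' k * sl a k (pt a I) - ∑ k, w' k * sl a k (pt a J) + 1) /
      (-(F i + τ' * G i))) (div_nonneg (by linarith) (by linarith))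
    rw [div_neg, neg_mul, div_mul_cancel₀ _ hmi'.ne] at h1
    linarith
  obtain ⟨j, hj, hfe, hneg, ρ, hρ, hpt⟩ := pivot hr hI.2.1 hi hex
  have hTs : T ⊆ swp I i j := fun l hl => Finset.mem_insert_of_mem
    (Finset.mem_erase.2 ⟨fun h => hiT (h ▸ hl), hI.1 hl⟩)
  have hp0 : cv a (w0 + τs • v) ⬝ᵥ du a I i = 0 := by rw [hm]; exact hzero
  obtain ⟨hsame, hj0⟩ := dot_du_swp hI.2.1.1 hi hj hfe.1 hp0
  have hslope : 0 < cv a v ⬝ᵥ du a (swp I i j) j := by
    rw [(du_swp_self hI.2.1.1 hi hj hfe.1).1, dotProduct_smul, smul_eq_mul]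
    exact mul_pos_of_neg_of_neg (inv_lt_zero.2 hneg) hGi
  have hmem : ∀ l ∈ swp I i j, l = j ∨ (l ∈ I ∧ l ≠ i) := by
    intro l hl
    rcases Finset.mem_insert.1 hl with h | h
    · exact Or.inl h
    · exact Or.inr ⟨Finset.mem_of_mem_erase h, Finset.ne_of_mem_erase h⟩
  have hW' : WOpt a T (w0 + τs • v) (swp I i j) := by
    refine ⟨hTs, hfe, fun l hl hlT => ?_⟩
    rcases hmem l hl with h | ⟨h, h'⟩
    · rw [h, hj0]
    · rw [hsame l h h', hm]
      exact hweak l h hlT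
  refine ⟨τs, i, j, ρ, hlt, hlt', hi, hiT, hj, hp0, hGi, hup, fun s hs1 hs2 =>
    ⟨hI.1, hI.2.1, fun l hl hlT => by rw [hm]; exact hbelow s hs1 hs2 l hl hlT⟩, hW, hW', hρ, hpt, ?_⟩
  -- a right neighbourhood
  have hev : ∀ᶠ s in nhdsWithin τs (Set.Ioi τs), ∀ l ∈ swp I i j, l ∉ T →
      0 < cv a (w0 + s • v) ⬝ᵥ du a (swp I i j) l := by
    rw [Finset.eventually_all]
    intro l hl
    rcases hmem l hl with h | ⟨h, h'⟩
    · refine Filter.eventually_of_mem self_mem_nhdsWithin fun s hs hlT => ?_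
      have hs' : τs < s := hs
      rw [h]
      have h1 := mul_lin (a := a) w0 v τs (du a (swp I i j) j)
      have h2 := mul_lin (a := a) w0 v s (du a (swp I i j) j)
      rw [hj0] at h1
      rw [h2]
      nlinarith
    · by_cases hlT : l ∈ T
      · exact Filter.Eventually.of_forall fun s h1 => absurd hlT h1
      · have h1 : 0 < cv a (w0 + τs • v) ⬝ᵥ du a (swp I i j) l := by
          rw [hsame l h h', hm]
          exact hstrict l h hlT h'
        have h2 : Continuous fun s : ℝ => cv a (w0 + s • v) ⬝ᵥ du a (swp I i j) l := by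
          have h3 : (fun s : ℝ => cv a (w0 + s • v) ⬝ᵥ du a (swp I i j) l) =
              fun s => cv a w0 ⬝ᵥ du a (swp I i j) l + s * (cv a v ⬝ᵥ du a (swp I i j) l) := by
            funext s
            exact mul_lin w0 v s _
          rw [h3]
          fun_prop
        have h4 := (h2.continuousAt (x := τs)).eventually (lt_mem_nhds h1)
        exact (h4.filter_mono nhdsWithin_le_nhds).mono fun s hs _ => hs
  obtain ⟨u, hu, hsub⟩ := mem_nhdsGT_iff_exists_Ioo_subset.1 hev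
  refine ⟨u - τs, sub_pos.2 hu, fun s hs1 hs2 => ⟨hTs, hfe, ?_⟩⟩
  exact hsub ⟨hs1, by linarith⟩

/-- the induction for the path -/
theorem param_path_aux (hr : Reg0 a) (hg : Gen a T w0 v) (N : ℕ) :
    ∀ (I J : Finset (Fin n)) (τ τ' : ℝ), τ0 < τ → τ' < τ1 → Opt a T (w0 + τ • v) I →
      Opt a T (w0 + τ' • v) J → τ < τ' →
      ((VS a T w0 v τ0 τ1).filter fun K => K ≠ I ∧ ∃ s, τ < s ∧ s < τ1 ∧
        Opt a T (w0 + s • v) K).card ≤ N → Ch a T N I J := by
  induction N with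
  | zero =>
    intro I J τ τ' h0 h1 hI hJ hlt hc
    by_cases hIJ : I = J
    · subst hIJ
      exact Ch.refl _ hI.1 hI.2.1
    · exfalso
      have h2 : J ∈ (VS a T w0 v τ0 τ1).filter fun K => K ≠ I ∧ ∃ s, τ < s ∧ s < τ1 ∧
          Opt a T (w0 + s • v) K := by
        refine Finset.mem_filter.2 ⟨Finset.mem_filter.2 ⟨Finset.mem_univ _, ?_⟩, Ne.symm hIJ,
          τ', hlt, h1, hJ⟩
        exact ⟨τ', h0.trans hlt, h1, hJ⟩
      exact absurd (Finset.card_pos.2 ⟨J, h2⟩) (by omega)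
  | succ N ih =>
    intro I J τ τ' h0 h1 hI hJ hlt hc
    by_cases hIJ : I = J
    · subst hIJ
      exact Ch.refl _ hI.1 hI.2.1
    obtain ⟨τs, i, j, ρ, hs1, hs2, hi, hiT, hj, -, -, hup, -, -, -, -, -, ε, hε, hopt⟩ :=
      param_next hr hg hI hJ hIJ hlt
    obtain ⟨s1, hs3, hs4⟩ : ∃ s1, τs < s1 ∧ s1 < min (τs + ε) τ' :=
      exists_between (lt_min (by linarith) hs2)
    have hI' := hopt s1 hs3 (hs4.trans_le (min_le_left _ _))
    refine Ch.step hI.1 hI.2.1 hi hiT hj (ih _ J s1 τ' (by linarith) h1 hI' hJ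
      (hs4.trans_le (min_le_right _ _)) ?_)
    refine Nat.le_of_lt_succ (lt_of_lt_of_le (Finset.card_lt_card ?_) hc)
    rw [Finset.ssubset_iff_of_subset]
    · refine ⟨swp I i j, Finset.mem_filter.2 ⟨Finset.mem_filter.2 ⟨Finset.mem_univ _, ?_⟩, ?_,
        s1, hs1.trans hs3, (hs4.trans_le (min_le_right _ _)).trans h1, hI'⟩, ?_⟩
      · exact ⟨s1, h0.trans (hs1.trans hs3), (hs4.trans_le (min_le_right _ _)).trans h1, hI'⟩
      · intro h
        exact hj (h ▸ Finset.mem_insert_self j _)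
      · intro h
        exact (Finset.mem_filter.1 h).2.1 rfl
    · intro K hK
      obtain ⟨hK1, hK2, s, hs5, hs6, hK3⟩ := Finset.mem_filter.1 hK
      refine Finset.mem_filter.2 ⟨hK1, ?_, s, by linarith, hs6, hK3⟩
      intro h
      have := hup s (h ▸ hK3)
      linarith

theorem param_path (hr : Reg0 a) (hg : Gen a T w0 v) (hI : Vis a T w0 v τ0 τ1 I)
    (hJ : Vis a T w0 v τ0 τ1 J) : Ch a T (VS a T w0 v τ0 τ1).card I J := by
  obtain ⟨τ, h1, h2, hI⟩ := hI
  obtain ⟨τ', h3, h4, hJ⟩ := hJ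
  rcases lt_trichotomy τ τ' with h | h | h
  · exact (param_path_aux (τ0 := τ0) (τ1 := τ1) hr hg _ I J τ τ' h1 h4 hI hJ h le_rfl).mono
      (Finset.card_filter_le _ _)
  · subst h
    rw [wopt_unique hr hI.wopt hJ]
    exact Ch.refl _ hJ.1 hJ.2.1
  · exact ((param_path_aux (τ0 := τ0) (τ1 := τ1) hr hg _ J I τ' τ h3 h2 hJ hI h le_rfl).mono
      (Finset.card_filter_le _ _)).symm

/-- disjoint intervals of length at least `ℓ` -/
theorem card_long (hr : Reg0 a) (hτ : τ0 < τ1) (hℓ : 0 < ℓ) (V : Finset (Finset (Fin n)))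
    (hV : ∀ I ∈ V, ∃ s0 s1, τ0 ≤ s0 ∧ s1 ≤ τ1 ∧ ℓ ≤ s1 - s0 ∧
      ∀ s, s0 < s → s < s1 → Opt a T (w0 + s • v) I) :
    (V.card : ℝ) ≤ (τ1 - τ0) / ℓ := by
  choose! s0 s1 h0 h1 h2 h3 using hV
  have hdisj : Set.PairwiseDisjoint (V : Set (Finset (Fin n))) fun I => Set.Ioo (s0 I) (s1 I) := by
    intro I hI J hJ hIJ
    rw [Function.onFun, Set.disjoint_left]
    intro s hs hs'
    exact hIJ (wopt_unique hr (h3 I hI s hs.1 hs.2).wopt (h3 J hJ s hs'.1 hs'.2))
  have h4 : MeasureTheory.volume (⋃ I ∈ V, Set.Ioo (s0 I) (s1 I)) =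
      ∑ I ∈ V, MeasureTheory.volume (Set.Ioo (s0 I) (s1 I)) :=
    MeasureTheory.measure_biUnion_finset hdisj fun I _ => measurableSet_Ioo
  have h5 : MeasureTheory.volume (⋃ I ∈ V, Set.Ioo (s0 I) (s1 I)) ≤
      MeasureTheory.volume (Set.Ioo τ0 τ1) := by
    refine MeasureTheory.measure_mono (Set.iUnion₂_subset fun I hI => ?_)
    exact Set.Ioo_subset_Ioo (h0 I hI) (h1 I hI)
  have h6 : ∑ I ∈ V, ENNReal.ofReal ℓ ≤ ENNReal.ofReal (τ1 - τ0) := by
    calc ∑ I ∈ V, ENNReal.ofReal ℓ ≤ ∑ I ∈ V, MeasureTheory.volume (Set.Ioo (s0 I) (s1 I)) := by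
          refine Finset.sum_le_sum fun I hI => ?_
          rw [Real.volume_Ioo]
          exact ENNReal.ofReal_le_ofReal (h2 I hI)
      _ ≤ ENNReal.ofReal (τ1 - τ0) := by
          rw [← h4, ← Real.volume_Ioo]
          exact h5
  rw [Finset.sum_const, nsmul_eq_mul, ← ENNReal.ofReal_natCast, ← ENNReal.ofReal_mul
    (Nat.cast_nonneg _), ENNReal.ofReal_le_ofReal_iff (by linarith)] at h6
  rwa [le_div_iff₀ hℓ]

theorem param_count (hr : Reg0 a) (hg : Gen a T w0 v) (hτ : τ0 < τ1) (hℓ : 0 < ℓ) :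
    ((VS a T w0 v τ0 τ1).card : ℝ) ≤ 4 + (τ1 - τ0) / ℓ +
      ((Finset.univ : Finset (Finset (Fin n) × Fin n)).filter
        (fun p => ∃ τs j ρ, SX a T w0 v τ0 τ1 ℓ p.1 p.2 τs j ρ)).card := by
  set V := VS a T w0 v τ0 τ1 with hV
  set Va := V.filter fun I => ∃ s0 s1, τ0 ≤ s0 ∧ s1 ≤ τ1 ∧ ℓ ≤ s1 - s0 ∧
      ∀ s, s0 < s → s < s1 → Opt a T (w0 + s • v) I with hVa
  set Vc := V.filter fun I => ∃ t, τ0 < t ∧ ∀ s, τ0 < s → s ≤ t → Opt a T (w0 + s • v) I with hVc
  set Vd := V.filter fun I => ∀ J τ τ', τ0 < τ → τ < τ1 → τ0 < τ' → τ' < τ1 →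
      Opt a T (w0 + τ • v) I → Opt a T (w0 + τ' • v) J → J ≠ I → τ' ≤ τ with hVd
  set P := (Finset.univ : Finset (Finset (Fin n) × Fin n)).filter
        (fun p => ∃ τs j ρ, SX a T w0 v τ0 τ1 ℓ p.1 p.2 τs j ρ) with hP
  have hca : (Va.card : ℝ) ≤ (τ1 - τ0) / ℓ :=
    card_long hr hτ hℓ Va fun I hI => (Finset.mem_filter.1 hI).2
  have hcc : Vc.card ≤ 1 := by
    rw [Finset.card_le_one]
    intro I hI J hJ
    obtain ⟨t, ht, hIt⟩ := (Finset.mem_filter.1 hI).2
    obtain ⟨t', ht', hJt⟩ := (Finset.mem_filter.1 hJ).2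
    have h1 : τ0 < min t t' := lt_min ht ht'
    exact wopt_unique hr (hIt (min t t') h1 (min_le_left _ _)).wopt
      (hJt (min t t') h1 (min_le_right _ _))
  have hcd : Vd.card ≤ 1 := by
    rw [Finset.card_le_one]
    intro I hI J hJ
    by_contra hne
    obtain ⟨hI1, hI2⟩ := Finset.mem_filter.1 hI
    obtain ⟨hJ1, hJ2⟩ := Finset.mem_filter.1 hJ
    obtain ⟨τ, h1, h2, hoI⟩ := (Finset.mem_filter.1 hI1).2
    obtain ⟨τ', h3, h4, hoJ⟩ := (Finset.mem_filter.1 hJ1).2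
    have h5 := hI2 J τ τ' h1 h2 h3 h4 hoI hoJ (Ne.symm hne)
    have h6 := hJ2 I τ' τ h3 h4 h1 h2 hoJ hoI hne
    have h7 : τ = τ' := le_antisymm h6 h5
    subst h7
    exact hne (wopt_unique hr hoI.wopt hoJ)
  have hcx : ((V \ Va) \ Vc) \ Vd ⊆ P.image Prod.fst := by
    intro I hI
    rw [Finset.mem_sdiff, Finset.mem_sdiff, Finset.mem_sdiff] at hI
    obtain ⟨⟨⟨hIV, hIa⟩, hIc⟩, hId⟩ := hI
    have hIa' : ¬ ∃ s0 s1, τ0 ≤ s0 ∧ s1 ≤ τ1 ∧ ℓ ≤ s1 - s0 ∧
      ∀ s, s0 < s → s < s1 → Opt a T (w0 + s • v) I := fun h => hIa (Finset.mem_filter.2 ⟨hIV, h⟩)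
    have hIc' : ¬ ∃ t, τ0 < t ∧ ∀ s, τ0 < s → s ≤ t → Opt a T (w0 + s • v) I :=
      fun h => hIc (Finset.mem_filter.2 ⟨hIV, h⟩)
    have hId' : ¬ ∀ J τ τ', τ0 < τ → τ < τ1 → τ0 < τ' → τ' < τ1 →
      Opt a T (w0 + τ • v) I → Opt a T (w0 + τ' • v) J → J ≠ I → τ' ≤ τ :=
      fun h => hId (Finset.mem_filter.2 ⟨hIV, h⟩)
    push Not at hId'
    obtain ⟨J, τ, τ', h1, h2, h3, h4, hoI, hoJ, hne, hlt⟩ := hId'
    obtain ⟨τs, i, j, ρ, hs1, hs2, hi, hiT, hj, hz, hneg, hup, hbel, hW, hW', hρ, hpt, ε, hε,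
      hopt⟩ := param_next hr hg hoI hoJ (Ne.symm hne) hlt
    obtain ⟨s1, hs3, hs4⟩ : ∃ s1, τs < s1 ∧ s1 < min (τs + ε) τ' :=
      exists_between (lt_min (by linarith) hs2)
    have hI' := hopt s1 hs3 (hs4.trans_le (min_le_left _ _))
    refine Finset.mem_image.2 ⟨(I, i), Finset.mem_filter.2 ⟨Finset.mem_univ _, τs, j, ρ, ?_⟩, rfl⟩
    refine ⟨⟨τ, h1, h2, hoI⟩, hi, hiT, by linarith, by linarith, hz, hneg, ?_, hj, ?_, hW, hW',
      hρ, hpt⟩
    · intro s hs
      refine ⟨?_, hup s hs⟩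
      by_contra hcon
      push Not at hcon
      have hsτ : s < τs := hup s hs
      have hall : ∀ r, s ≤ r → r < τs → Opt a T (w0 + r • v) I := by
        intro r hr1 hr2
        rcases le_or_gt τ r with h | h
        · exact hbel r h hr2
        · exact hs.between hoI hr1 h.le
      rcases le_or_gt τ0 (τs - ℓ) with h | h
      · exact hIa' ⟨τs - ℓ, τs, h, by linarith, by linarith, fun r hr1 hr2 =>
          hall r (by linarith) hr2⟩
      · exact hIc' ⟨τ, h1, fun r hr1 hr2 => hall r (by linarith) (by linarith)⟩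
    · exact ⟨s1, by linarith, (hs4.trans_le (min_le_right _ _)).trans h4, hI'⟩
  have hcover : V.card ≤ Va.card + Vc.card + Vd.card + P.card := by
    have h1 : V ⊆ Va ∪ Vc ∪ Vd ∪ (((V \ Va) \ Vc) \ Vd) := by
      intro I hI
      simp only [Finset.mem_union, Finset.mem_sdiff]
      tauto
    calc V.card ≤ (Va ∪ Vc ∪ Vd ∪ (((V \ Va) \ Vc) \ Vd)).card := Finset.card_le_card h1
      _ ≤ Va.card + Vc.card + Vd.card + (((V \ Va) \ Vc) \ Vd).card := by
          refine (Finset.card_union_le _ _).trans ?_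
          refine Nat.add_le_add_right ?_ _
          refine (Finset.card_union_le _ _).trans ?_
          exact Nat.add_le_add_right (Finset.card_union_le _ _) _
      _ ≤ Va.card + Vc.card + Vd.card + P.card := by
          refine Nat.add_le_add_left ?_ _
          exact (Finset.card_le_card hcx).trans Finset.card_image_le
  have h2 : (V.card : ℝ) ≤ Va.card + Vc.card + Vd.card + P.card := by exact_mod_cast hcover
  have h3 : (Vc.card : ℝ) ≤ 1 := by exact_mod_cast hcc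
  have h4 : (Vd.card : ℝ) ≤ 1 := by exact_mod_cast hcd
  linarith

end Pool.Agent.H.MP_0cad2f_co.NT
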