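import Pool.Agent.H.MP_0cad2f_co.NT.Trans
import Pool.Agent.H.MP_0cad2f_co.helper47.FinalW

/-!
Ill conditioned vertices are rare, in the mean.
-/

set_option autoImplicit false
open MeasureTheory ProbabilityTheory
open scoped ENNReal Classical

namespace Pool.Agent.H.MP_0cad2f_co.NT

open Pool.Agent.H.MP_0cad2f_co.helper47 (Idx nu vtx Good n2 noise meanW Simple mat n2_nonneg n2_sq
  n2_sum_le n2_smul n2_le dot_vtx sum_smul_nu tsum_pred meanW_eq one_le_meanW meanW_zero)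
open Pool.Agent.H.MP_0cad2f_co.helper29 (toVert)

variable {n d : ℕ}

theorem nonthin_of {a : Con n d} {I : Idx n d} (h : Good a I) {T G : ℝ}
    (hT : ∀ k, n2 (nu a I k) ≤ T) (hT0 : 0 ≤ T) (hG : d * T ^ 2 ≤ G) :
    NonThin a G (toVert a ⟨I, h⟩) := by
  refine ⟨Finset.univ.map I.toEmbedding, by simp, ?_, ?_⟩
  · intro i hi
    obtain ⟨k, -, rfl⟩ := Finset.mem_map.1 hi
    exact dot_vtx h.1 k
  · intro x
    have h1 : ∑ j, x j ^ 2 = n2 x ^ 2 := by
      rw [n2_sq, dotProduct]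
      exact Finset.sum_congr rfl fun j _ => by ring
    have h2 : n2 x ≤ T * ∑ k, |a (I k) ⬝ᵥ x| := by
      calc n2 x = n2 (∑ k, (a (I k) ⬝ᵥ x) • nu a I k) := by rw [sum_smul_nu h.1 x]
        _ ≤ ∑ k, n2 ((a (I k) ⬝ᵥ x) • nu a I k) := n2_sum_le _ _
        _ ≤ ∑ k, |a (I k) ⬝ᵥ x| * T := by
            refine Finset.sum_le_sum fun k _ => ?_
            rw [n2_smul]
            exact mul_le_mul_of_nonneg_left (hT k) (abs_nonneg _)
        _ = T * ∑ k, |a (I k) ⬝ᵥ x| := by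
            rw [← Finset.sum_mul, mul_comm]
    have h3 : (∑ k, |a (I k) ⬝ᵥ x|) ^ 2 ≤ d * ∑ k, (a (I k) ⬝ᵥ x) ^ 2 := by
      have h4 := sq_sum_le_card_mul_sum_sq (s := (Finset.univ : Finset (Fin d)))
        (f := fun k => |a (I k) ⬝ᵥ x|)
      simp only [sq_abs, Finset.card_univ, Fintype.card_fin] at h4
      exact h4
    have h5 : ∑ i ∈ Finset.univ.map I.toEmbedding, (∑ j, a i j * x j) ^ 2 =
        ∑ k, (a (I k) ⬝ᵥ x) ^ 2 := by
      rw [Finset.sum_map]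
      rfl
    have h6 : 0 ≤ ∑ k, |a (I k) ⬝ᵥ x| := Finset.sum_nonneg fun k _ => abs_nonneg _
    have h7 : 0 ≤ ∑ k, (a (I k) ⬝ᵥ x) ^ 2 := Finset.sum_nonneg fun k _ => sq_nonneg _
    rw [h1, h5]
    calc n2 x ^ 2 ≤ (T * ∑ k, |a (I k) ⬝ᵥ x|) ^ 2 := by
          gcongr
          exact n2_nonneg x
      _ = T ^ 2 * (∑ k, |a (I k) ⬝ᵥ x|) ^ 2 := by ring
      _ ≤ T ^ 2 * (d * ∑ k, (a (I k) ⬝ᵥ x) ^ 2) := by gcongr
      _ = (d * T ^ 2) * ∑ k, (a (I k) ⬝ᵥ x) ^ 2 := by ring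
      _ ≤ G * ∑ k, (a (I k) ⬝ᵥ x) ^ 2 := by gcongr

private theorem rare_pt {a : Con n d} (hs : Simple a) {T G : ℝ} (hT0 : 0 ≤ T)
    (hG : d * T ^ 2 ≤ G) :
    (({v : Vert a | ¬ NonThin a G v}.encard : ℕ∞) : ℝ≥0∞) ≤
      ∑ I : Idx n d, {a : Con n d | Good a I ∧ ∃ k, T < n2 (nu a I k)}.indicator
        (fun _ => (1 : ℝ≥0∞)) a := by
  have h1 : (({v : Vert a | ¬ NonThin a G v}.encard : ℕ∞) : ℝ≥0∞) =
      ∑' v : {v : Vert a // ¬ NonThin a G v},
        (1 : Set (Fin n) → ℝ≥0∞) (helper47.tightSet a v.1) := by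
    rw [← ENNReal.tsum_set_one]
    rfl
  rw [h1, tsum_pred hs 1 (fun v => ¬ NonThin a G v)]
  refine Finset.sum_le_sum fun I _ => ?_
  by_cases h : Good a I
  · rw [dif_pos h]
    by_cases hp : NonThin a G (toVert a ⟨I, h⟩)
    · rw [if_neg (not_not.2 hp)]
      exact zero_le
    · rw [if_pos hp]
      have hex : ∃ k, T < n2 (nu a I k) := by
        by_contra hcon
        push Not at hcon
        exact hp (nonthin_of h hcon hT0 hG)
      rw [Set.indicator_of_mem (show a ∈ {a : Con n d | Good a I ∧ ∃ k, T < n2 (nu a I k)} from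
        ⟨h, hex⟩)]
      exact le_rfl
  · rw [dif_neg h]
    exact zero_le

private theorem rare_I (c : Con n d) (I : Idx n d) {σ Rg ρ T : ℝ} (hd : 1 ≤ d) (hσ : 0 < σ)
    (hσ1 : σ ≤ 1) (hc : ∀ i, n2 (c i) ≤ 1) (hRg : 0 < Rg) (hρ : 1 ≤ ρ) (hρT : ρ ≤ T)
    (hT : 4 * (1 + (1 + Rg) * (d * ρ)) * (Rg + 1) ≤ σ ^ 2 * T) :
    noise c σ {a | Good a I ∧ ∃ k, T < n2 (nu a I k)} ≤
      ENNReal.ofReal (n * (Real.sqrt 2 ^ d * Real.exp (-(Rg ^ 2 / (4 * σ ^ 2))))) +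
      ENNReal.ofReal (12 * d ^ 2 * (Rg + 1) / (σ ^ 2 * ρ) +
        d * (12 * (1 + (1 + Rg) * (d * ρ)) * (Rg + 1) / (σ ^ 2 * T))) *
        noise c σ {a | Good a I} := by
  have hρ0 : 0 < ρ := by linarith
  have hT0 : 0 < T := by linarith
  have hd0 : (0 : ℝ) < d := by exact_mod_cast hd
  have hsub : {a : Con n d | Good a I ∧ ∃ k, T < n2 (nu a I k)} ⊆
      (⋃ i : Fin n, {a : Con n d | Rg < n2 (a i - c i)}) ∪
      ({a : Con n d | (∀ i, n2 (a i - c i) ≤ Rg) ∧ Good a I ∧ ρ < ‖vtx a I‖} ∪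
        ⋃ k : Fin d, {a : Con n d | (∀ i, n2 (a i - c i) ≤ Rg) ∧ Good a I ∧
          n2 (vtx a I) ≤ d * ρ ∧ T < n2 (nu a I k)}) := by
    rintro a ⟨hg, k, hk⟩
    by_cases h1 : ∀ i, n2 (a i - c i) ≤ Rg
    · right
      by_cases h2 : ρ < ‖vtx a I‖
      · left
        exact ⟨h1, hg, h2⟩
      · right
        push Not at h2
        refine Set.mem_iUnion.2 ⟨k, h1, hg, ?_, hk⟩
        calc n2 (vtx a I) ≤ d * ‖vtx a I‖ := n2_le _
          _ ≤ d * ρ := by gcongr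
    · left
      push Not at h1
      obtain ⟨i, hi⟩ := h1
      exact Set.mem_iUnion.2 ⟨i, hi⟩
  have e1 : noise c σ (⋃ i : Fin n, {a : Con n d | Rg < n2 (a i - c i)}) ≤
      ENNReal.ofReal (n * (Real.sqrt 2 ^ d * Real.exp (-(Rg ^ 2 / (4 * σ ^ 2))))) := by
    refine (measure_iUnion_fintype_le _ _).trans ?_
    calc ∑ i : Fin n, noise c σ {a : Con n d | Rg < n2 (a i - c i)}
        ≤ ∑ _i : Fin n, ENNReal.ofReal (Real.sqrt 2 ^ d * Real.exp (-(Rg ^ 2 / (4 * σ ^ 2)))) :=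
          Finset.sum_le_sum fun i _ => helper39.noise_tail c hσ hRg.le i
      _ = _ := by
          rw [Finset.sum_const, Finset.card_univ, Fintype.card_fin, nsmul_eq_mul,
            ENNReal.ofReal_mul (p := (n : ℝ)) (by positivity), ENNReal.ofReal_natCast]
  have e2 := helper94.vtx_bound c hσ hσ1 hRg.le hρ0 I
  have e3 : ∀ k : Fin d, noise c σ {a : Con n d | (∀ i, n2 (a i - c i) ≤ Rg) ∧ Good a I ∧
          n2 (vtx a I) ≤ d * ρ ∧ T < n2 (nu a I k)} ≤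
      ENNReal.ofReal (12 * (1 + (1 + Rg) * (d * ρ)) * (Rg + 1) / (σ ^ 2 * T)) *
        noise c σ {a | Good a I} := by
    intro k
    rcases Nat.lt_or_ge d 2 with h2 | h2
    · have hd1 : d = 1 := by omega
      subst hd1
      have hemp : {a : Con n 1 | (∀ i, n2 (a i - c i) ≤ Rg) ∧ Good a I ∧
          n2 (vtx a I) ≤ ((1 : ℕ) : ℝ) * ρ ∧ T < n2 (nu a I k)} = ∅ := by
        ext a
        simp only [Set.mem_ofPred_eq, Set.mem_empty_iff_false, iff_false]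
        rintro ⟨-, -, h3, h4⟩
        have h5 : vtx a I = nu a I k := by
          unfold vtx
          rw [Fin.sum_univ_one]
          congr 1
          exact (Subsingleton.elim _ _)
        rw [h5] at h3
        push_cast at h3
        linarith
      rw [hemp, measure_empty]
      exact zero_le
    · exact helper52.nu_bound c hσ hσ1 h2 hRg.le (by positivity) (fun i => by linarith [hc i]) hT I k
  calc noise c σ {a : Con n d | Good a I ∧ ∃ k, T < n2 (nu a I k)}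
      ≤ _ := measure_mono hsub
    _ ≤ noise c σ (⋃ i : Fin n, {a : Con n d | Rg < n2 (a i - c i)}) +
        (noise c σ {a : Con n d | (∀ i, n2 (a i - c i) ≤ Rg) ∧ Good a I ∧ ρ < ‖vtx a I‖} +
        noise c σ (⋃ k : Fin d, {a : Con n d | (∀ i, n2 (a i - c i) ≤ Rg) ∧ Good a I ∧
          n2 (vtx a I) ≤ d * ρ ∧ T < n2 (nu a I k)})) :=
        (measure_union_le _ _).trans (add_le_add le_rfl (measure_union_le _ _))
    _ ≤ _ := by
        refine add_le_add e1 ?_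
        rw [ENNReal.ofReal_add (by positivity) (by positivity), add_mul]
        refine add_le_add e2 ?_
        refine (measure_iUnion_fintype_le _ _).trans ?_
        refine (Finset.sum_le_sum fun k _ => e3 k).trans ?_
        rw [Finset.sum_const, Finset.card_univ, Fintype.card_fin, nsmul_eq_mul,
          ENNReal.ofReal_mul (p := (d : ℝ)) (by positivity), ENNReal.ofReal_natCast]
        exact (mul_assoc _ _ _).ge

private theorem rare_sum (hn : 1 ≤ n) (hdn : d ≤ n) (c : Con n d) {σ Rg ρ T G e : ℝ} (hd : 1 ≤ d)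
    (hσ : 0 < σ) (hσ1 : σ ≤ 1) (hc : ∀ i, n2 (c i) ≤ 1) (hRg : 0 < Rg) (hρ : 1 ≤ ρ) (hρT : ρ ≤ T)
    (hT : 4 * (1 + (1 + Rg) * (d * ρ)) * (Rg + 1) ≤ σ ^ 2 * T) (hG : d * T ^ 2 ≤ G)
    (he : 0 ≤ e)
    (h1 : (n : ℝ) ^ d * (n * (Real.sqrt 2 ^ d * Real.exp (-(Rg ^ 2 / (4 * σ ^ 2))))) ≤ e / 2)
    (h2 : 12 * d ^ 2 * (Rg + 1) / (σ ^ 2 * ρ) +
        d * (12 * (1 + (1 + Rg) * (d * ρ)) * (Rg + 1) / (σ ^ 2 * T)) ≤ e / 2) :
    ∫⁻ a, (({v : Vert a | ¬ NonThin a G v}.encard : ℕ∞) : ℝ≥0∞) ∂(noise c σ) ≤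
      ENNReal.ofReal e * meanW c σ 1 := by
  have hT0 : 0 ≤ T := by linarith
  have hm : ∀ I : Idx n d, MeasurableSet {a : Con n d | Good a I ∧ ∃ k, T < n2 (nu a I k)} := by
    intro I
    refine (helper11.TD.measurableSet_good I).inter ?_
    change MeasurableSet {a : Con n d | ∃ k, T < n2 (nu a I k)}
    rw [Set.ofPred_exists]
    exact MeasurableSet.iUnion fun k => measurableSet_lt measurable_const
      (helper94.measurable_n2.comp (helper11.TD.measurable_nu I k))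
  calc ∫⁻ a, (({v : Vert a | ¬ NonThin a G v}.encard : ℕ∞) : ℝ≥0∞) ∂(noise c σ)
      ≤ ∫⁻ a, ∑ I : Idx n d, {a : Con n d | Good a I ∧ ∃ k, T < n2 (nu a I k)}.indicator
        (fun _ => (1 : ℝ≥0∞)) a ∂(noise c σ) :=
        lintegral_mono_ae ((helper11.TD.ae_simple c hσ).mono fun a ha => rare_pt ha hT0 hG)
    _ = ∑ I : Idx n d, noise c σ {a : Con n d | Good a I ∧ ∃ k, T < n2 (nu a I k)} := by
        rw [lintegral_finsetSum _ fun I _ => measurable_const.indicator (hm I)]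
        refine Finset.sum_congr rfl fun I _ => ?_
        rw [lintegral_indicator (hm I), lintegral_const, one_mul, Measure.restrict_apply_univ]
    _ ≤ ∑ I : Idx n d, (ENNReal.ofReal (n * (Real.sqrt 2 ^ d *
          Real.exp (-(Rg ^ 2 / (4 * σ ^ 2))))) +
        ENNReal.ofReal (e / 2) * noise c σ {a | Good a I}) := by
        refine Finset.sum_le_sum fun I _ => ?_
        refine (rare_I c I hd hσ hσ1 hc hRg hρ hρT hT).trans ?_
        gcongr
    _ = (Fintype.card (Idx n d) : ℝ≥0∞) * ENNReal.ofReal (n * (Real.sqrt 2 ^ d *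
          Real.exp (-(Rg ^ 2 / (4 * σ ^ 2))))) + ENNReal.ofReal (e / 2) * meanW c σ 1 := by
        rw [Finset.sum_add_distrib, Finset.sum_const, Finset.card_univ, nsmul_eq_mul,
          ← Finset.mul_sum, meanW_eq c hσ]
        have h3 : ∀ I : Idx n d, (1 : Set (Fin n) → ℝ≥0∞) (Set.range I) *
            noise c σ {a | Good a I} = noise c σ {a | Good a I} := fun I => one_mul _
        rw [Finset.sum_congr rfl fun I _ => h3 I]
    _ ≤ ENNReal.ofReal (e / 2) * meanW c σ 1 + ENNReal.ofReal (e / 2) * meanW c σ 1 := by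
        refine add_le_add ?_ le_rfl
        calc (Fintype.card (Idx n d) : ℝ≥0∞) * ENNReal.ofReal (n * (Real.sqrt 2 ^ d *
              Real.exp (-(Rg ^ 2 / (4 * σ ^ 2)))))
            ≤ ENNReal.ofReal ((n : ℝ) ^ d) * ENNReal.ofReal (n * (Real.sqrt 2 ^ d *
              Real.exp (-(Rg ^ 2 / (4 * σ ^ 2))))) := by
              gcongr
              rw [← ENNReal.ofReal_natCast]
              exact ENNReal.ofReal_le_ofReal helper47.card_idx_le
          _ = ENNReal.ofReal ((n : ℝ) ^ d * (n * (Real.sqrt 2 ^ d *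
              Real.exp (-(Rg ^ 2 / (4 * σ ^ 2)))))) := by
              rw [← ENNReal.ofReal_mul (by positivity)]
          _ ≤ ENNReal.ofReal (e / 2) := ENNReal.ofReal_le_ofReal h1
          _ = ENNReal.ofReal (e / 2) * 1 := (mul_one _).symm
          _ ≤ ENNReal.ofReal (e / 2) * meanW c σ 1 := by
              gcongr
              exact one_le_meanW c hσ hd hdn
    _ = ENNReal.ofReal e * meanW c σ 1 := by
        rw [← add_mul, ← ENNReal.ofReal_add (by positivity) (by positivity), add_halves]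

/-- the parameters, all powers of `X ≥ 9` -/
private theorem rare_params (A : ℕ) {X σ : ℝ} (hX : 9 ≤ X) (hdX : (d : ℝ) ≤ X)
    (hσ : 0 < σ) (hσX : 1 ≤ σ * X) :
    4 * (1 + (1 + X ^ (A + 1)) * (d * X ^ (2 * A + 9))) * (X ^ (A + 1) + 1) ≤
        σ ^ 2 * X ^ (5 * A + 21) ∧
      d * (X ^ (5 * A + 21)) ^ 2 ≤ X ^ (10 * A + 43) ∧
      12 * d ^ 2 * (X ^ (A + 1) + 1) / (σ ^ 2 * X ^ (2 * A + 9)) +
        d * (12 * (1 + (1 + X ^ (A + 1)) * (d * X ^ (2 * A + 9))) * (X ^ (A + 1) + 1) /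
          (σ ^ 2 * X ^ (5 * A + 21))) ≤ (X ^ A)⁻¹ / 2 := by
  have hX0 : 0 < X := by linarith
  have hX1 : 1 ≤ X := by linarith
  have hd0 : (0 : ℝ) ≤ d := Nat.cast_nonneg d
  have hX2 : 48 ≤ X ^ 2 := by nlinarith
  have hs2 : 1 ≤ σ ^ 2 * X ^ 2 := by
    rw [← mul_pow]
    exact one_le_pow₀ hσX
  have r1 : X ^ (A + 1) + 1 ≤ X ^ (A + 2) := by
    have h1 : 1 ≤ X ^ (A + 1) := one_le_pow₀ hX1
    have h2 : X ^ (A + 2) = X ^ (A + 1) * X := by ring
    rw [h2]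
    nlinarith
  have r2 : d * X ^ (2 * A + 9) ≤ X ^ (2 * A + 10) := by
    have h2 : X ^ (2 * A + 10) = X * X ^ (2 * A + 9) := by ring
    rw [h2]
    gcongr
  have r3 : 1 + (1 + X ^ (A + 1)) * (d * X ^ (2 * A + 9)) ≤ X ^ (3 * A + 13) := by
    have h1 : (1 + X ^ (A + 1)) * (d * X ^ (2 * A + 9)) ≤ X ^ (A + 2) * X ^ (2 * A + 10) := by
      have : 1 + X ^ (A + 1) ≤ X ^ (A + 2) := by linarith
      gcongr
    have h2 : X ^ (A + 2) * X ^ (2 * A + 10) = X ^ (3 * A + 12) := by ring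
    have h3 : 1 ≤ X ^ (3 * A + 12) := one_le_pow₀ hX1
    have h4 : X ^ (3 * A + 13) = X ^ (3 * A + 12) * X := by ring
    rw [h4]
    nlinarith
  have r4 : (1 + (1 + X ^ (A + 1)) * (d * X ^ (2 * A + 9))) * (X ^ (A + 1) + 1) ≤
      X ^ (4 * A + 15) := by
    calc _ ≤ X ^ (3 * A + 13) * X ^ (A + 2) := by gcongr
      _ = X ^ (4 * A + 15) := by ring
  have s1 : X ^ (5 * A + 19) ≤ σ ^ 2 * X ^ (5 * A + 21) := by
    calc X ^ (5 * A + 19) = 1 * X ^ (5 * A + 19) := (one_mul _).symm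
      _ ≤ (σ ^ 2 * X ^ 2) * X ^ (5 * A + 19) := by gcongr
      _ = σ ^ 2 * X ^ (5 * A + 21) := by ring
  have s2 : X ^ (2 * A + 7) ≤ σ ^ 2 * X ^ (2 * A + 9) := by
    calc X ^ (2 * A + 7) = 1 * X ^ (2 * A + 7) := (one_mul _).symm
      _ ≤ (σ ^ 2 * X ^ 2) * X ^ (2 * A + 7) := by gcongr
      _ = σ ^ 2 * X ^ (2 * A + 9) := by ring
  refine ⟨?_, ?_, ?_⟩
  · calc 4 * (1 + (1 + X ^ (A + 1)) * (d * X ^ (2 * A + 9))) * (X ^ (A + 1) + 1)
        = 4 * ((1 + (1 + X ^ (A + 1)) * (d * X ^ (2 * A + 9))) * (X ^ (A + 1) + 1)) := by ring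
      _ ≤ X * X ^ (4 * A + 15) := by
          have : 4 ≤ X := by linarith
          gcongr
      _ = X ^ (4 * A + 16) := by ring
      _ ≤ X ^ (5 * A + 19) := pow_le_pow_right₀ hX1 (by omega)
      _ ≤ _ := s1
  · calc d * (X ^ (5 * A + 21)) ^ 2 ≤ X * (X ^ (5 * A + 21)) ^ 2 := by gcongr
      _ = X ^ (10 * A + 43) := by ring
  · have hXA : 0 < X ^ A := by positivity
    have t1 : 12 * d ^ 2 * (X ^ (A + 1) + 1) / (σ ^ 2 * X ^ (2 * A + 9)) ≤ (X ^ A)⁻¹ / 4 := by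
      rw [div_le_iff₀ (by positivity), ← mul_le_mul_iff_of_pos_left
        (show (0 : ℝ) < 4 * X ^ A by positivity)]
      calc 4 * X ^ A * (12 * d ^ 2 * (X ^ (A + 1) + 1))
          = 48 * (X ^ A * (d ^ 2 * (X ^ (A + 1) + 1))) := by ring
        _ ≤ X ^ 2 * (X ^ A * (X ^ 2 * X ^ (A + 2))) := by gcongr
        _ = X ^ (2 * A + 6) := by ring
        _ ≤ X ^ (2 * A + 7) := pow_le_pow_right₀ hX1 (by omega)
        _ ≤ σ ^ 2 * X ^ (2 * A + 9) := s2
        _ = 4 * X ^ A * ((X ^ A)⁻¹ / 4 * (σ ^ 2 * X ^ (2 * A + 9))) := by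
            field_simp
    have t2 : d * (12 * (1 + (1 + X ^ (A + 1)) * (d * X ^ (2 * A + 9))) * (X ^ (A + 1) + 1) /
          (σ ^ 2 * X ^ (5 * A + 21))) ≤ (X ^ A)⁻¹ / 4 := by
      rw [← mul_div_assoc, div_le_iff₀ (by positivity), ← mul_le_mul_iff_of_pos_left
        (show (0 : ℝ) < 4 * X ^ A by positivity)]
      calc 4 * X ^ A * (d * (12 * (1 + (1 + X ^ (A + 1)) * (d * X ^ (2 * A + 9))) *
            (X ^ (A + 1) + 1)))
          = 48 * (X ^ A * (d * ((1 + (1 + X ^ (A + 1)) * (d * X ^ (2 * A + 9))) *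
            (X ^ (A + 1) + 1)))) := by ring
        _ ≤ X ^ 2 * (X ^ A * (X * X ^ (4 * A + 15))) := by gcongr
        _ = X ^ (5 * A + 18) := by ring
        _ ≤ X ^ (5 * A + 19) := pow_le_pow_right₀ hX1 (by omega)
        _ ≤ σ ^ 2 * X ^ (5 * A + 21) := s1
        _ = 4 * X ^ A * ((X ^ A)⁻¹ / 4 * (σ ^ 2 * X ^ (5 * A + 21))) := by
            field_simp
    linarith

private theorem rare_exp (A : ℕ) {n d : ℕ} {X σ : ℝ} (hX : 9 ≤ X) (hσ : 0 < σ) (hσ1 : σ ≤ 1 / 2)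
    (hndX : (n : ℝ) * d ≤ X) (hn : (n : ℝ) ≤ X) (hd : (d : ℝ) ≤ X) :
    (n : ℝ) ^ d * (n * (Real.sqrt 2 ^ d * Real.exp (-((X ^ (A + 1)) ^ 2 / (4 * σ ^ 2))))) ≤
      (X ^ A)⁻¹ / 2 := by
  have hX0 : 0 < X := by linarith
  have hX1 : 1 ≤ X := by linarith
  have e1 : (n : ℝ) ^ d ≤ Real.exp X := by
    calc (n : ℝ) ^ d ≤ (Real.exp n) ^ d := by
          gcongr
          have := Real.add_one_le_exp (n : ℝ)
          linarith
      _ = Real.exp (d * n) := (Real.exp_nat_mul _ _).symm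
      _ ≤ Real.exp X := Real.exp_le_exp.2 (by linarith)
  have e2 : (n : ℝ) ≤ Real.exp X := by
    have := Real.add_one_le_exp X
    linarith
  have e3 : Real.sqrt 2 ^ d ≤ Real.exp X := by
    calc Real.sqrt 2 ^ d ≤ (Real.exp 1) ^ d := by
          gcongr
          have h1 := Real.add_one_le_exp (1 : ℝ)
          have h2 : Real.sqrt 2 ≤ 2 := by
            rw [Real.sqrt_le_left (by norm_num)]
            norm_num
          linarith
      _ = Real.exp (d * 1) := (Real.exp_nat_mul _ _).symm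
      _ ≤ Real.exp X := Real.exp_le_exp.2 (by linarith)
  have e4 : 2 * X ^ A ≤ Real.exp ((A + 1) * X) := by
    have h1 := Real.add_one_le_exp X
    calc 2 * X ^ A ≤ Real.exp X * Real.exp X ^ A := by
          gcongr
          · linarith
          · linarith
      _ = Real.exp X * Real.exp (A * X) := by rw [Real.exp_nat_mul]
      _ = Real.exp ((A + 1) * X) := by
          rw [← Real.exp_add]
          congr 1
          ring
  have e5 : (A + 4) * X ≤ (X ^ (A + 1)) ^ 2 / (4 * σ ^ 2) := by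
    have h1 : (A : ℝ) + 4 ≤ X ^ (A + 1) := by
      have h2 := one_add_mul_le_pow (show (-2 : ℝ) ≤ 8 by norm_num) (A + 1)
      push_cast at h2
      have h3 : (1 + 8 : ℝ) ^ (A + 1) ≤ X ^ (A + 1) := by
        gcongr
        linarith
      have h4 : (0 : ℝ) ≤ A := Nat.cast_nonneg A
      linarith
    have h2 : X ≤ X ^ (A + 1) := by
      calc X = X ^ 1 := (pow_one X).symm
        _ ≤ X ^ (A + 1) := pow_le_pow_right₀ hX1 (by omega)
    rw [le_div_iff₀ (by positivity)]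
    have h3 : 4 * σ ^ 2 ≤ 1 := by nlinarith
    have hA : (0 : ℝ) ≤ A := Nat.cast_nonneg A
    calc (A + 4) * X * (4 * σ ^ 2) ≤ (A + 4) * X * 1 := by gcongr
      _ = (A + 4) * X := mul_one _
      _ ≤ X ^ (A + 1) * X ^ (A + 1) := by gcongr
      _ = (X ^ (A + 1)) ^ 2 := by ring
  have e6 : (n : ℝ) ^ d * (n * Real.sqrt 2 ^ d) * (2 * X ^ A) ≤
      Real.exp ((X ^ (A + 1)) ^ 2 / (4 * σ ^ 2)) := by
    calc (n : ℝ) ^ d * (n * Real.sqrt 2 ^ d) * (2 * X ^ A)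
        ≤ Real.exp X * (Real.exp X * Real.exp X) * Real.exp ((A + 1) * X) := by gcongr
      _ = Real.exp ((A + 4) * X) := by
          rw [← Real.exp_add, ← Real.exp_add, ← Real.exp_add]
          congr 1
          ring
      _ ≤ _ := Real.exp_le_exp.2 e5
  rw [Real.exp_neg]
  have h7 : 0 < Real.exp ((X ^ (A + 1)) ^ 2 / (4 * σ ^ 2)) := Real.exp_pos _
  have hXA : 0 < X ^ A := by positivity
  calc (n : ℝ) ^ d * (n * (Real.sqrt 2 ^ d * (Real.exp ((X ^ (A + 1)) ^ 2 / (4 * σ ^ 2)))⁻¹))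
      = ((n : ℝ) ^ d * (n * Real.sqrt 2 ^ d)) / Real.exp ((X ^ (A + 1)) ^ 2 / (4 * σ ^ 2)) := by
        ring
    _ ≤ 1 / (2 * X ^ A) := by
        rw [div_le_div_iff₀ h7 (by positivity), one_mul]
        exact e6
    _ = (X ^ A)⁻¹ / 2 := by
        field_simp

theorem rare (A : ℕ) {n d : ℕ} (hn : 2 ≤ n) (hd : 1 ≤ d) {σ : ℝ} (hσ : 0 < σ)
    (hσ1 : σ ≤ 1 / (6 * Real.sqrt ((d : ℝ) * Real.log (n : ℝ))))
    (c : Con n d) (hc : ∀ i, ∑ j, (c i j) ^ 2 ≤ 1) :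
      ∫⁻ a, (({v : Vert a | ¬ NonThin a (((n * d / σ) ^ (5 * A + 22)) ^ 2) v}.encard : ℕ∞) :
          ℝ≥0∞) ∂(mu c σ) ≤
        ENNReal.ofReal (((n * d / σ) ^ A)⁻¹) *
          ∫⁻ a, (((Set.univ : Set (Vert a)).encard : ℕ∞) : ℝ≥0∞) ∂(mu c σ) := by
  have hmean : ∫⁻ a, (((Set.univ : Set (Vert a)).encard : ℕ∞) : ℝ≥0∞) ∂(mu c σ) =
      meanW c σ 1 := by
    change _ = ∫⁻ a, ∑' v : Vert a, (1 : Set (Fin n) → ℝ≥0∞) (helper47.tightSet a v) ∂(noise c σ)
    refine lintegral_congr fun a => ?_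
    rw [← ENNReal.tsum_set_one, tsum_univ fun _ : Vert a => (1 : ℝ≥0∞)]
    rfl
  rw [hmean]
  have hn' : (2 : ℝ) ≤ n := by exact_mod_cast hn
  have hd' : (1 : ℝ) ≤ d := by exact_mod_cast hd
  have hlog : (9 : ℝ) / 16 ≤ Real.log n := by
    have h1 : Real.log 2 ≤ Real.log n := Real.log_le_log (by norm_num) hn'
    have h2 := Real.log_two_gt_d9
    linarith
  have hs : (3 : ℝ) / 4 ≤ Real.sqrt ((d : ℝ) * Real.log (n : ℝ)) := by
    apply Real.le_sqrt_of_sq_le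
    nlinarith
  have hσ2 : σ ≤ 2 / 9 := by
    refine hσ1.trans ?_
    rw [div_le_div_iff₀ (by positivity) (by norm_num)]
    linarith
  have hc' : ∀ i, n2 (c i) ≤ 1 := by
    intro i
    rw [n2, Real.sqrt_le_one]
    refine le_trans (le_of_eq ?_) (hc i)
    exact Finset.sum_congr rfl fun j _ => (pow_two (c i j)).symm
  obtain ⟨X, hX⟩ : ∃ X : ℝ, X = n * d / σ := ⟨_, rfl⟩
  rw [← hX]
  have hσX : σ * X = n * d := by
    rw [hX]
    field_simp
  have hnd2 : (2 : ℝ) ≤ n * d := by nlinarith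
  have hX9 : 9 ≤ X := by
    rw [hX, le_div_iff₀ hσ]
    linarith
  have hX0 : 0 < X := by linarith
  have hndX : (n : ℝ) * d ≤ X := by
    rw [← hσX]
    nlinarith
  have hnX : (n : ℝ) ≤ X := le_trans (le_mul_of_one_le_right (by linarith) hd') hndX
  have hdX : (d : ℝ) ≤ X := le_trans (le_mul_of_one_le_left (by linarith) (by linarith)) hndX
  rcases Nat.lt_or_ge n d with hnd | hnd
  · refine le_of_eq_of_le ?_ zero_le
    refine le_antisymm ?_ zero_le
    calc ∫⁻ a, (({v : Vert a | ¬ NonThin a ((X ^ (5 * A + 22)) ^ 2) v}.encard : ℕ∞) :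
          ℝ≥0∞) ∂(mu c σ)
        ≤ ∫⁻ a, (((Set.univ : Set (Vert a)).encard : ℕ∞) : ℝ≥0∞) ∂(mu c σ) := by
          refine lintegral_mono fun a => ?_
          exact ENat.toENNReal_le.2 (Set.encard_le_encard (Set.subset_univ _))
      _ = 0 := by
          rw [hmean]
          exact meanW_zero c hσ hnd 1
  obtain ⟨q1, q2, q3⟩ := rare_params (d := d) A hX9 hdX hσ (by linarith)
  exact rare_sum (by omega) hnd c hd hσ (by linarith) hc' (Rg := X ^ (A + 1))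
    (ρ := X ^ (2 * A + 9)) (T := X ^ (5 * A + 21)) (by positivity) (one_le_pow₀ (by linarith))
    (pow_le_pow_right₀ (by linarith) (by omega)) q1
    (q2.trans (by
      rw [← pow_mul]
      exact pow_le_pow_right₀ (by linarith) (by omega))) (by positivity)
    (rare_exp A hX9 hσ (by linarith) hndX hnX hdX) q3

end Pool.Agent.H.MP_0cad2f_co.NT
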