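import Pool.Agent.H.MP_0cad2f_co.NT.Bad
import Pool.Agent.H.MP_0cad2f_co.NT.LastT
import Pool.Agent.H.MP_0cad2f_co.NT.Chain

/-!
The probability that the level `t` is not good (section 9 of the text).

Almost surely `Reg0 a` and `Reg0 (sli a m (et δ))` for all `m` (`mu_ac`, `reg0_ae`, `reg0_sli_ae`; `et δ < 1`). Write `A = AA n d δ ε κ`. If
`t < 64 A n^20` the bound is `≥ 1`. Otherwise `32 A n^20/t ≤ 1` and `32 A ≤ t`. Inner: for `s ≥ 2` there are at most `n^s * n` pairs `(S, m0)` with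
`S.card = s`; `bad_le` (with `κ = 1`, `κ0 = κ`): `12 (32 A/t)^(s/2)`, `n^(s+1) ≤ n^(4 (s/2))`, so each `s` contributes at most `12 * 32 A n⁴/t`, all
`s ≤ n`: `384 A n⁵/t`. Start: at most `n^d * 2^d * n ≤ n^(2 d + 1)` triples `(B, S, m0)`, `bad_le` with `kB B κ`; `d ≤ 2 s + 2`, `8 ≤ d`, so
`3 ≤ s`, `2 d + 1 ≤ 4 s + 5 ≤ 20 (s/2)`: `12 (32 A n^20/t)^(s/2) ≤ 384 A n^20/t`. Last: `n * 10¹⁴ n⁷ d²/(κ² ε)/t ≤ 10 A/t` (`δ ≤ 1`, `1 ≤ n`). Group the
start triples by `s` or bound each by the smallest exponent: `(32 A/t)^(s/2)` is at most `n^(-20 (s/2)) * (32 A n^20/t)`, and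
`n^(-20 (s/2)) ≤ n^(-(2 d + 1))`.
-/

set_option autoImplicit false
open MeasureTheory ProbabilityTheory
open scoped ENNReal Classical

namespace Pool.Agent.H.MP_0cad2f_co.NT

variable {n d : ℕ} {c : Con n d} {κ δ ε σ : ℝ}

/-- the smallest exponent decides -/
private theorem Union_pow {v r y : ℝ} (hv0 : 0 ≤ v) (hv1 : v ≤ 1) (hr0 : 0 ≤ r) (hr1 : r ≤ 1)
    (hy : y = r * v ^ 20) {q e : ℕ} (hq : 1 ≤ q) (he : e ≤ 20 * q) : y ^ q ≤ r * v ^ e := by
  rw [hy, mul_pow, ← pow_mul]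
  have h1 : r ^ q ≤ r := by
    calc r ^ q ≤ r ^ 1 := pow_le_pow_of_le_one hr0 hr1 hq
      _ = r := pow_one r
  have h2 : v ^ (20 * q) ≤ v ^ e := pow_le_pow_of_le_one hv0 hv1 he
  exact mul_le_mul h1 h2 (by positivity) hr0

/-- the sum over all sets -/
private theorem Union_sets {v : ℝ} (hn : 2 ≤ n) (hv : v * n = 1) :
    ∑ S : Finset (Fin n), v ^ S.card ≤ 3 := by
  have hn0 : (0 : ℝ) < n := by exact_mod_cast (by omega : 0 < n)
  have h1 := Finset.sum_pow_mul_eq_add_pow v 1 (Finset.univ : Finset (Fin n))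
  simp only [one_pow, mul_one, Finset.powerset_univ, Finset.card_univ, Fintype.card_fin] at h1
  rw [h1]
  have hv0 : 0 < v := by
    by_contra h
    push Not at h
    nlinarith
  calc (v + 1) ^ n ≤ (Real.exp v) ^ n :=
        pow_le_pow_left₀ (by linarith) (Real.add_one_le_exp v) n
    _ = Real.exp 1 := by rw [← Real.exp_nat_mul, mul_comm, hv]
    _ ≤ 3 := by
        have := Real.exp_one_lt_d9
        linarith

theorem good_prob (hn : 2 ≤ n) (hd : 8 ≤ d) (hκ : 0 < κ) (hκ1 : κ ≤ 1) (hδ : 0 < δ)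
    (hδ1 : δ ≤ 1) (hε : 0 < ε) (hε1 : 8 * n ^ 2 * d * ε ≤ 1) (hσ : 0 < σ)
    (hc : ∀ i, ∑ j, (c i j) ^ 2 ≤ 1) (hε2 : 6 * n ^ 2 * ε * (2 * d) ^ 2 ≤ σ ^ 2)
    (t : ℕ) (ht : 1 ≤ t) :
    mu c σ {a | Bdd (2 * d) a ∧ ¬ GoodT a δ κ t} ≤
      ENNReal.ofReal (1000 * AA n d δ ε κ * n ^ 20 / t) := by
  have hn2 : (2 : ℝ) ≤ n := by exact_mod_cast hn
  have hn0 : (0 : ℝ) < n := by linarith
  have hd8 : (8 : ℝ) ≤ d := by exact_mod_cast hd
  have hd0 : (0 : ℝ) < d := by linarith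
  have ht1 : (1 : ℝ) ≤ t := by exact_mod_cast ht
  have ht0 : (0 : ℝ) < t := by linarith
  have hAA : 0 < AA n d δ ε κ := by
    unfold AA
    positivity
  have hlast : 10 ^ 14 * (n : ℝ) ^ 7 * d ^ 2 / (κ ^ 2 * ε) * n ≤ 10 * AA n d δ ε κ := by
    unfold AA
    rw [div_mul_eq_mul_div, mul_div_assoc', div_le_div_iff₀ (by positivity) (by positivity)]
    have h1 : δ ^ 3 ≤ 1 := pow_le_one₀ hδ.le hδ1
    have h2 : (n : ℝ) ^ 8 ≤ n ^ 9 := pow_le_pow_right₀ (by linarith) (by norm_num)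
    calc 10 ^ 14 * (n : ℝ) ^ 7 * d ^ 2 * n * (κ ^ 2 * ε * δ ^ 3)
        = (10 ^ 14 * d ^ 2 * (κ ^ 2 * ε)) * (n ^ 8 * δ ^ 3) := by ring
      _ ≤ (10 ^ 14 * d ^ 2 * (κ ^ 2 * ε)) * (n ^ 9 * 1) := by
          apply mul_le_mul_of_nonneg_left _ (by positivity)
          exact mul_le_mul h2 h1 (by positivity) (by positivity)
      _ = _ := by ring
  obtain ⟨A, hA⟩ : ∃ A, A = AA n d δ ε κ := ⟨_, rfl⟩
  rw [← hA] at hAA hlast ⊢
  rcases lt_or_ge (t : ℝ) (64 * A * n ^ 20) with h | h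
  · refine le_trans prob_le_one ?_
    rw [← ENNReal.ofReal_one]
    apply ENNReal.ofReal_le_ofReal
    rw [le_div_iff₀ ht0]
    have : 0 < A * (n : ℝ) ^ 20 := by positivity
    linarith
  have hn20 : (1 : ℝ) ≤ (n : ℝ) ^ 20 := one_le_pow₀ (by linarith)
  have h32 : 32 * A ≤ t := by
    have : A * 1 ≤ A * (n : ℝ) ^ 20 := mul_le_mul_of_nonneg_left hn20 hAA.le
    linarith
  -- the quantities `v = 1/n`, `r = 32 A n^20/t`, `y = 32 A/t`
  obtain ⟨v, hv⟩ : ∃ v : ℝ, v = (n : ℝ)⁻¹ := ⟨_, rfl⟩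
  obtain ⟨r, hr⟩ : ∃ r : ℝ, r = 32 * A * n ^ 20 / t := ⟨_, rfl⟩
  have hvn : v * n = 1 := by rw [hv]; exact inv_mul_cancel₀ hn0.ne'
  have hv0 : 0 < v := by rw [hv]; positivity
  have hv1 : v ≤ 1 / 2 := by
    by_contra hcon
    push Not at hcon
    nlinarith
  have hr0 : 0 ≤ r := by rw [hr]; positivity
  have hr1 : r ≤ 1 := by
    rw [hr, div_le_one ht0]
    have : 0 < A * (n : ℝ) ^ 20 := by positivity
    linarith
  have hy : 32 * A / t = r * v ^ 20 := by
    rw [hr, hv, inv_pow]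
    field_simp
  have hεn : 8 * n * ε ≤ 1 := by
    have h1 : (8 : ℝ) * n * ε * 1 ≤ 8 * n * ε * (n * d) := by
      apply mul_le_mul_of_nonneg_left _ (by positivity)
      nlinarith
    calc 8 * (n : ℝ) * ε = 8 * n * ε * 1 := by ring
      _ ≤ 8 * n * ε * (n * d) := h1
      _ = 8 * n ^ 2 * d * ε := by ring
      _ ≤ 1 := hε1
  have hR : (1 : ℝ) ≤ 2 * d := by linarith
  have hη : et δ < 1 := by
    unfold et
    nlinarith
  -- the exceptional sets
  have hN0 : mu c σ {a : Con n d | ¬ (Reg0 a ∧ ∀ m, Reg0 (sli a m (et δ)))} = 0 :=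
    (mu_ac c hσ).ae_le (reg0_ae.and (ae_all_iff.2 fun m => reg0_sli_ae m hη))
  let f1 : Finset (Fin n) → Fin n → Set (Con n d) := fun S m0 =>
    {a | (m0 ∈ S ∧ 2 ≤ S.card) ∧ (Bdd (2 * d) a ∧ Deep a S δ ∧ a ∈ BadS S m0 δ 1 t)}
  let f2 : Finset (Fin n) → Finset (Fin n) → Fin n → Set (Con n d) := fun B S m0 =>
    {a | (m0 ∈ S ∧ d ≤ 2 * S.card + 2) ∧
      (Bdd (2 * d) a ∧ Deep a S δ ∧ a ∈ BadS S m0 δ (kB B κ) t)}
  let f3 : Fin n → Set (Con n d) := fun m => {a | Bdd (2 * d) a ∧ a ∈ BadL m κ t}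
  have hsub : {a : Con n d | Bdd (2 * d) a ∧ ¬ GoodT a δ κ t} ⊆
      ((({a : Con n d | ¬ (Reg0 a ∧ ∀ m, Reg0 (sli a m (et δ)))}) ∪
        ⋃ S ∈ (Finset.univ : Finset (Finset (Fin n))), ⋃ m0 ∈ (Finset.univ : Finset (Fin n)),
          f1 S m0) ∪
        ⋃ B ∈ Finset.powersetCard d (Finset.univ : Finset (Fin n)), ⋃ S ∈ B.powerset,
          ⋃ m0 ∈ (Finset.univ : Finset (Fin n)), f2 B S m0) ∪
        ⋃ m ∈ (Finset.univ : Finset (Fin n)), f3 m := by
    rintro a ⟨hb, hg⟩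
    by_contra hcon
    simp only [Set.mem_union, not_or] at hcon
    obtain ⟨⟨⟨h1, h2⟩, h3⟩, h4⟩ := hcon
    have h1' : Reg0 a ∧ ∀ m, Reg0 (sli a m (et δ)) := by
      by_contra hh
      exact h1 hh
    refine hg ⟨h1'.1, h1'.2, ?_, ?_, ?_⟩
    · intro S m0 hm0 hS hD hB
      apply h2
      simp only [Set.mem_iUnion]
      exact ⟨S, Finset.mem_univ _, m0, Finset.mem_univ _, ⟨hm0, hS⟩, hb, hD, hB⟩
    · intro B S m0 hm0 hSB hBd hS hD hB
      apply h3
      simp only [Set.mem_iUnion]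
      exact ⟨B, Finset.mem_powersetCard.2 ⟨Finset.subset_univ _, hBd⟩, S,
        Finset.mem_powerset.2 hSB, m0, Finset.mem_univ _, ⟨hm0, hS⟩, hb, hD, hB⟩
    · intro m hB
      apply h4
      simp only [Set.mem_iUnion]
      exact ⟨m, Finset.mem_univ _, hb, hB⟩
  -- single sets
  have hf1 : ∀ S m0, mu c σ (f1 S m0) ≤ ENNReal.ofReal (12 * (r * v ^ (S.card + 6))) := by
    intro S m0
    by_cases hcond : m0 ∈ S ∧ 2 ≤ S.card
    · have h1 : f1 S m0 ⊆ {a | Bdd (2 * d) a ∧ Deep a S δ ∧ a ∈ BadS S m0 δ 1 t} :=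
        fun a ha => ha.2
      refine (measure_mono h1).trans ?_
      have h2 := bad_le (κ := (1 : Wt n)) (κ0 := κ) (R := 2 * d) hcond.1 hcond.2
        (fun i => ⟨by simpa using hκ1, by simp⟩) hκ hκ1 hδ hδ1 hε hεn hn (by omega) hσ hc hR hε2
        t (by rw [← hA]; exact h32)
      rw [← hA] at h2
      refine h2.trans (ENNReal.ofReal_le_ofReal ?_)
      apply mul_le_mul_of_nonneg_left _ (by norm_num)
      exact Union_pow hv0.le (by linarith) hr0 hr1 hy (by omega) (by omega)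
    · have h1 : f1 S m0 = ∅ := by
        ext a
        simp only [f1, Set.mem_ofPred_eq, Set.mem_empty_iff_false, iff_false]
        exact fun ha => hcond ha.1
      rw [h1, measure_empty]
      exact zero_le
  have hf2 : ∀ B S m0, mu c σ (f2 B S m0) ≤ ENNReal.ofReal (12 * (r * v ^ (2 * d + 1))) := by
    intro B S m0
    by_cases hcond : m0 ∈ S ∧ d ≤ 2 * S.card + 2
    · have h1 : f2 B S m0 ⊆ {a | Bdd (2 * d) a ∧ Deep a S δ ∧ a ∈ BadS S m0 δ (kB B κ) t} :=
        fun a ha => ha.2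
      refine (measure_mono h1).trans ?_
      have h2 := bad_le (κ := kB B κ) (κ0 := κ) (R := 2 * d) hcond.1 (by omega)
        (fun i => by
          unfold kB
          split_ifs
          · exact ⟨hκ1, le_rfl⟩
          · exact ⟨le_rfl, hκ1⟩) hκ hκ1 hδ hδ1 hε hεn hn (by omega) hσ hc hR hε2
        t (by rw [← hA]; exact h32)
      rw [← hA] at h2
      refine h2.trans (ENNReal.ofReal_le_ofReal ?_)
      apply mul_le_mul_of_nonneg_left _ (by norm_num)
      exact Union_pow hv0.le (by linarith) hr0 hr1 hy (by omega) (by omega)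
    · have h1 : f2 B S m0 = ∅ := by
        ext a
        simp only [f2, Set.mem_ofPred_eq, Set.mem_empty_iff_false, iff_false]
        exact fun ha => hcond ha.1
      rw [h1, measure_empty]
      exact zero_le
  have hf3 : ∀ m, mu c σ (f3 m) ≤
      ENNReal.ofReal (10 ^ 14 * n ^ 7 * d ^ 2 / (κ ^ 2 * ε) / t) := fun m =>
    badL_le hσ hc hR hn (by omega) hε hε1 hε2 hκ hκ1 m t ht
  -- the sums
  have hs1 : mu c σ (⋃ S ∈ (Finset.univ : Finset (Finset (Fin n))),
      ⋃ m0 ∈ (Finset.univ : Finset (Fin n)), f1 S m0) ≤ ENNReal.ofReal (2 * r) := by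
    refine (measure_biUnion_finset_le _ _).trans ?_
    have h1 : ∀ S ∈ (Finset.univ : Finset (Finset (Fin n))),
        mu c σ (⋃ m0 ∈ (Finset.univ : Finset (Fin n)), f1 S m0) ≤
          ENNReal.ofReal (n * (12 * (r * v ^ (S.card + 6)))) := by
      intro S _
      refine (measure_biUnion_finset_le _ _).trans ?_
      refine (Finset.sum_le_sum fun m0 _ => hf1 S m0).trans ?_
      rw [Finset.sum_const, Finset.card_univ, Fintype.card_fin, nsmul_eq_mul,
        ENNReal.ofReal_mul hn0.le, ENNReal.ofReal_natCast]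
    refine (Finset.sum_le_sum h1).trans ?_
    rw [← ENNReal.ofReal_sum_of_nonneg (fun S _ => by positivity)]
    apply ENNReal.ofReal_le_ofReal
    have h2 : ∑ S : Finset (Fin n), (n : ℝ) * (12 * (r * v ^ (S.card + 6))) =
        12 * r * v ^ 5 * ∑ S : Finset (Fin n), v ^ S.card := by
      rw [Finset.mul_sum]
      refine Finset.sum_congr rfl fun S _ => ?_
      have : (n : ℝ) * (12 * (r * v ^ (S.card + 6))) =
          12 * r * v ^ 5 * v ^ S.card * (v * n) := by ring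
      rw [this, hvn, mul_one]
    rw [h2]
    have h3 := Union_sets (v := v) hn hvn
    have h4 : v ^ 5 ≤ (1 / 2) ^ 5 := pow_le_pow_left₀ hv0.le hv1 5
    calc 12 * r * v ^ 5 * ∑ S : Finset (Fin n), v ^ S.card ≤ 12 * r * (1 / 2) ^ 5 * 3 := by
          gcongr
      _ ≤ 2 * r := by nlinarith
  have hs2 : mu c σ (⋃ B ∈ Finset.powersetCard d (Finset.univ : Finset (Fin n)),
      ⋃ S ∈ B.powerset, ⋃ m0 ∈ (Finset.univ : Finset (Fin n)), f2 B S m0) ≤
      ENNReal.ofReal (12 * r) := by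
    refine (measure_biUnion_finset_le _ _).trans ?_
    have h1 : ∀ B ∈ Finset.powersetCard d (Finset.univ : Finset (Fin n)),
        mu c σ (⋃ S ∈ B.powerset, ⋃ m0 ∈ (Finset.univ : Finset (Fin n)), f2 B S m0) ≤
          ENNReal.ofReal (2 ^ d * (n * (12 * (r * v ^ (2 * d + 1))))) := by
      intro B hB
      refine (measure_biUnion_finset_le _ _).trans ?_
      have h2 : ∀ S ∈ B.powerset,
          mu c σ (⋃ m0 ∈ (Finset.univ : Finset (Fin n)), f2 B S m0) ≤
          ENNReal.ofReal (n * (12 * (r * v ^ (2 * d + 1)))) := by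
        intro S _
        refine (measure_biUnion_finset_le _ _).trans ?_
        refine (Finset.sum_le_sum fun m0 _ => hf2 B S m0).trans ?_
        rw [Finset.sum_const, Finset.card_univ, Fintype.card_fin, nsmul_eq_mul,
          ENNReal.ofReal_mul hn0.le, ENNReal.ofReal_natCast]
      refine (Finset.sum_le_sum h2).trans ?_
      rw [Finset.sum_const, Finset.card_powerset, (Finset.mem_powersetCard.1 hB).2, nsmul_eq_mul,
        ← ENNReal.ofReal_natCast, ← ENNReal.ofReal_mul (by positivity)]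
      apply ENNReal.ofReal_le_ofReal
      push_cast
      exact le_rfl
    refine (Finset.sum_le_sum h1).trans ?_
    rw [Finset.sum_const, Finset.card_powersetCard, Finset.card_univ, Fintype.card_fin,
      nsmul_eq_mul, ← ENNReal.ofReal_natCast, ← ENNReal.ofReal_mul (by positivity)]
    apply ENNReal.ofReal_le_ofReal
    have h3 : ((n.choose d : ℕ) : ℝ) ≤ (n : ℝ) ^ d := by
      exact_mod_cast Nat.choose_le_pow n d
    have h4 : (2 : ℝ) ^ d ≤ (n : ℝ) ^ d := pow_le_pow_left₀ (by norm_num) hn2 d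
    calc ((n.choose d : ℕ) : ℝ) * (2 ^ d * (n * (12 * (r * v ^ (2 * d + 1)))))
        ≤ (n : ℝ) ^ d * ((n : ℝ) ^ d * (n * (12 * (r * v ^ (2 * d + 1))))) := by gcongr
      _ = 12 * r * (v * n) ^ (2 * d + 1) := by
          rw [mul_pow]
          ring
      _ = 12 * r := by rw [hvn, one_pow, mul_one]
  have hs3 : mu c σ (⋃ m ∈ (Finset.univ : Finset (Fin n)), f3 m) ≤
      ENNReal.ofReal (10 * A / t) := by
    refine (measure_biUnion_finset_le _ _).trans ?_
    refine (Finset.sum_le_sum fun m _ => hf3 m).trans ?_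
    rw [Finset.sum_const, Finset.card_univ, Fintype.card_fin, nsmul_eq_mul,
      ← ENNReal.ofReal_natCast, ← ENNReal.ofReal_mul hn0.le]
    apply ENNReal.ofReal_le_ofReal
    rw [mul_div_assoc', div_le_div_iff_of_pos_right ht0]
    linarith
  refine (measure_mono hsub).trans ?_
  refine (measure_union_le _ _).trans ?_
  refine (add_le_add (measure_union_le _ _) hs3).trans ?_
  refine (add_le_add (add_le_add (measure_union_le _ _) hs2) le_rfl).trans ?_
  rw [hN0, zero_add]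
  refine (add_le_add (add_le_add hs1 le_rfl) le_rfl).trans ?_
  rw [← ENNReal.ofReal_add (by positivity) (by positivity),
    ← ENNReal.ofReal_add (by positivity) (by positivity)]
  apply ENNReal.ofReal_le_ofReal
  have h5 : 2 * r + 12 * r + 10 * A / t = (448 * A * n ^ 20 + 10 * A) / t := by
    rw [hr]
    field_simp
    ring
  rw [h5, div_le_div_iff_of_pos_right ht0]
  have : A * 1 ≤ A * (n : ℝ) ^ 20 := mul_le_mul_of_nonneg_left hn20 hAA.le
  linarith

end Pool.Agent.H.MP_0cad2f_co.NT
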